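import Pool.Agent.Helper98.CD.Numbers

/-!
# XD: the numbers (row G)

`HU = exp 1`, `HV = exp (B / A)` with `B / A` from a continued fraction.
-/

set_option autoImplicit false

namespace Pool.XD

open Real Pool.Helper98.CD

/-- the threshold condition, all bidegrees -/
def NumAll (HU HV κ x y x' y' : ℝ) : Prop := ∀ b e : ℕ, (b, e) ≠ (0, 0) →
  HV ^ e ≤ x' ^ b * y' ^ e ∨ HU ^ b ≤ x' ^ b * y' ^ e ∨ κ * (x ^ b * y ^ e) ≤ x' ^ b * y' ^ e

theorem exp_mul_exp (u v : ℝ) (b e : ℕ) : exp u ^ b * exp v ^ e = exp (u * b + v * e) := by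
  rw [← exp_nat_mul, ← exp_nat_mul, ← exp_add]
  congr 1
  ring

theorem numAll_of {A B : ℕ} (hA : 1 ≤ A) {c' κ x y : ℝ} {τ : ℕ} (hκ : 1 ≤ κ)
    (h1 : ∀ b e : ℕ, 1 ≤ b + e → b + e ≤ τ → 2 * c' * (b + e) ≤ |(A : ℝ) * b - B * e|)
    (h2 : ∀ b e : ℕ, τ < b + e → log κ + (x * b + y * e) ≤
      (1 / 2 - c' / A) * b + ((B : ℝ) / A / 2 - c' / A) * e) :
    NumAll (exp 1) (exp ((B : ℝ) / A)) κ (exp x) (exp y) (exp (1 / 2 - c' / A))
      (exp ((B : ℝ) / A / 2 - c' / A)) := by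
  intro b e hbe
  have hbe1 : 1 ≤ b + e := by
    by_contra hlt
    apply hbe
    have h1 : b = 0 := by omega
    have h2 : e = 0 := by omega
    rw [h1, h2]
  have hAr : (0 : ℝ) < A := by exact_mod_cast hA
  rw [exp_mul_exp, exp_mul_exp]
  rcases Nat.lt_or_ge τ (b + e) with hlt | hle
  · right; right
    have h3 := h2 b e hlt
    calc κ * exp (x * b + y * e) = exp (log κ + (x * b + y * e)) := by
          rw [exp_add (log κ), exp_log (by linarith)]
      _ ≤ _ := exp_le_exp.2 h3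
  · have h3 := h1 b e hbe1 hle
    have e1 : (1 / 2 - c' / A) * b + ((B : ℝ) / A / 2 - c' / A) * e =
        (A * b + B * e - 2 * c' * (b + e)) / (2 * A) := by
      field_simp
      ring
    rw [e1]
    rcases le_total 0 ((A : ℝ) * b - B * e) with h4 | h4
    · left
      rw [abs_of_nonneg h4] at h3
      rw [← exp_nat_mul]
      apply exp_le_exp.2
      rw [le_div_iff₀ (by linarith)]
      have : (e : ℝ) * (B / A) * (2 * A) = 2 * (B * e) := by field_simp
      rw [this]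
      linarith
    · right; left
      rw [abs_of_nonpos h4] at h3
      rw [← exp_nat_mul]
      apply exp_le_exp.2
      rw [le_div_iff₀ (by linarith)]
      linarith

/-- **ROW G, part 1**: the chain of growth rates for a given `κ` -/
theorem growth_chain (L σ : ℕ) (hL : 1 ≤ L) (hσ : 1 ≤ σ) (κ : ℝ) (hκ : 1 ≤ κ)
    (hκσ : log κ ≤ σ / 2) :
    ∃ (A B s : ℕ) (X Y : ℕ → ℝ), 1 ≤ s ∧ 1 ≤ B ∧ B ≤ A ∧ A ≤ 2 * B ∧
      s * A ≤ 4 * (18 * σ) ^ (Nat.fib (L + 3) - 2) ∧ X 0 = 1 ∧ Y 0 = 1 ∧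
      (∀ i, 0 < X i) ∧ (∀ i, 0 < Y i) ∧
      (∀ i, i + 1 ≤ L → NumAll (exp 1) (exp ((B : ℝ) / A)) κ (X i) (Y i) (X (i + 1)) (Y (i + 1))) ∧
      X L = exp (1 / 2 - 1 / (4 * (s * A))) ∧ Y L = exp ((B : ℝ) / A / 2 - 1 / (4 * (s * A))) := by
  obtain ⟨A, B, s, c, τ, hs, hB, hBA, hA2, h1, h2, h3, h4, h5, h6, _⟩ := cf_numbers L σ hL hσ
  have hA : 1 ≤ A := hB.trans hBA
  have hAr : (0 : ℝ) < A := by exact_mod_cast hA
  have hBr : (0 : ℝ) < B := by exact_mod_cast hB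
  have hsr : (0 : ℝ) < s := by exact_mod_cast hs
  have hBAr : (B : ℝ) ≤ A := by exact_mod_cast hBA
  have hA2r : (A : ℝ) ≤ 2 * B := by exact_mod_cast hA2
  have hσr : (1 : ℝ) ≤ σ := by exact_mod_cast hσ
  have hlog : 0 ≤ log κ := log_nonneg hκ
  -- lower bound for c
  have hc0 : ∀ j, j < L → 1 / (4 * (s : ℝ)) ≤ c (L - j) := by
    intro j
    induction j with
    | zero => intro _; rw [Nat.sub_zero, h5]
    | succ j ih =>
      intro hj
      have e1 := ih (by omega)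
      have e2 := (h4 (L - (j + 1)) (by omega) (by omega)).2
      rw [show L - (j + 1) + 1 = L - j by omega] at e2
      have e3 : 0 < 1 / (4 * (s : ℝ)) := by positivity
      linarith
  have hc : ∀ i, 1 ≤ i → i ≤ L → 0 < c i := by
    intro i hi hiL
    have := hc0 (L - i) (by omega)
    rw [show L - (L - i) = i by omega] at this
    have e3 : 0 < 1 / (4 * (s : ℝ)) := by positivity
    linarith
  refine ⟨A, B, s, fun i => if i = 0 then 1 else exp (1 / 2 - c i / A),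
    fun i => if i = 0 then 1 else exp ((B : ℝ) / A / 2 - c i / A), hs, hB, hBA, hA2, h6,
    if_pos rfl, if_pos rfl, ?_, ?_, ?_, ?_, ?_⟩
  · intro i
    beta_reduce
    split_ifs
    · exact one_pos
    · exact exp_pos _
  · intro i
    beta_reduce
    split_ifs
    · exact one_pos
    · exact exp_pos _
  · intro i hiL
    have hi1 : ¬ i + 1 = 0 := by omega
    rcases Nat.eq_zero_or_pos i with hi0 | hi0
    · subst hi0
      simp only [if_true, zero_add, one_ne_zero, if_false]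
      have e0 : NumAll (exp 1) (exp ((B : ℝ) / A)) κ (exp 0) (exp 0) (exp (1 / 2 - c 1 / A))
          (exp ((B : ℝ) / A / 2 - c 1 / A)) := by
        refine numAll_of hA hκ (h1 1 le_rfl hL) ?_
        intro b e hbe
        have hτ : (4 : ℝ) * σ ≤ τ 1 := by
          have e1 : (σ : ℝ) * B * 4 ≤ τ 1 * B := by linarith
          have e2 : ((4 : ℝ) * σ) * B ≤ τ 1 * B := by linarith
          exact le_of_mul_le_mul_right e2 hBr
        have hbe' : (τ 1 : ℝ) ≤ (b : ℝ) + e := by exact_mod_cast hbe.le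
        have e3 : (1 / 2 - c 1 / A) * (b : ℝ) + ((B : ℝ) / A / 2 - c 1 / A) * e =
            (A * b + B * e - 2 * c 1 * (b + e)) / (2 * A) := by
          field_simp
          ring
        rw [e3, le_div_iff₀ (by linarith)]
        have hb0 : (0 : ℝ) ≤ b := Nat.cast_nonneg _
        have he0 : (0 : ℝ) ≤ e := Nat.cast_nonneg _
        have e4 : (B : ℝ) * b ≤ A * b := mul_le_mul_of_nonneg_right hBAr hb0
        have e5 : 2 * c 1 * ((b : ℝ) + e) ≤ B / 4 * (b + e) :=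
          mul_le_mul_of_nonneg_right (by linarith) (by linarith)
        have e6 : (B : ℝ) * 3 / 4 * (4 * σ) ≤ B * 3 / 4 * (b + e) :=
          mul_le_mul_of_nonneg_left (hτ.trans hbe') (by positivity)
        have e7 : log κ * (2 * A) ≤ (σ / 2) * (2 * (2 * B)) :=
          mul_le_mul hκσ (by linarith) (by linarith) (by linarith)
        have e8 : 0 ≤ (σ : ℝ) * B := by positivity
        linarith
      simpa using e0
    · have hi2 : ¬ i = 0 := by omega
      simp only [hi1, hi2, if_false]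
      refine numAll_of hA hκ (h1 (i + 1) (by omega) hiL) ?_
      intro b e hbe
      obtain ⟨h41, h42⟩ := h4 i hi0 hiL
      have hci := hc i hi0 (by omega)
      have hbe' : (τ (i + 1) : ℝ) ≤ (b : ℝ) + e := by exact_mod_cast hbe.le
      have e1 : 3 / 4 * c i ≤ c i - c (i + 1) := by linarith
      have e2 : (τ (i + 1) : ℝ) * (3 / 4 * c i) ≤ (b + e) * (c i - c (i + 1)) :=
        mul_le_mul hbe' e1 (by linarith) ((Nat.cast_nonneg _).trans hbe')
      have e3 : 3 / 2 * ((σ : ℝ) * B) ≤ (b + e) * (c i - c (i + 1)) := by linarith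
      have e4 : log κ * A ≤ (σ / 2) * (2 * B) :=
        mul_le_mul hκσ hA2r (by linarith) (by linarith)
      have e8 : 0 ≤ (σ : ℝ) * B := by positivity
      have e5 : log κ * A ≤ (b + e) * (c i - c (i + 1)) := by linarith
      have e6 : log κ ≤ ((b : ℝ) + e) * (c i - c (i + 1)) / A := by
        rw [le_div_iff₀ hAr]
        exact e5
      have e7 : (1 / 2 - c (i + 1) / A) * (b : ℝ) + ((B : ℝ) / A / 2 - c (i + 1) / A) * e =
          ((1 / 2 - c i / A) * b + ((B : ℝ) / A / 2 - c i / A) * e) +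
            ((b : ℝ) + e) * (c i - c (i + 1)) / A := by
        field_simp
        ring
      rw [e7]
      linarith
  · have hL0 : ¬ L = 0 := by omega
    simp only [hL0, if_false]
    rw [h5]
    congr 2
    field_simp
  · have hL0 : ¬ L = 0 := by omega
    simp only [hL0, if_false]
    rw [h5]
    congr 2
    field_simp

/-- taking logarithms in the rank inequality -/
theorem g_le {A s : ℕ} (hs : 1 ≤ s) (hA : 1 ≤ A) {K g m r E T c1 : ℕ} {y Bc : ℝ} (hBc : 1 ≤ Bc)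
    (hc1 : log Bc + 2 ≤ c1) (hy : y ≤ 1) (hT : 1 ≤ T) (hm : m = 4 * (s * A) * c1)
    (hrE : r + E = g * m) (hbal : -((g : ℝ) * y) ≤ r - y * E)
    (h : exp 1 ^ r ≤ T * ((g * m : ℕ) + 1 : ℝ) ^ K * (exp (1 / 2 - 1 / (4 * (s * A))) ^ r *
      exp (y / 2 - 1 / (4 * (s * A))) ^ E) * Bc ^ g) :
    (g : ℝ) ≤ log T + K * log ((g * m : ℕ) + 1 : ℝ) := by
  have hTr : (0 : ℝ) < T := by exact_mod_cast hT
  have hsA : (0 : ℝ) < s * A := by
    have h1 : (0 : ℝ) < s := by exact_mod_cast hs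
    have h2 : (0 : ℝ) < A := by exact_mod_cast hA
    positivity
  have hgm : (0 : ℝ) < ((g * m : ℕ) + 1 : ℝ) := by positivity
  have h0 := log_le_log (by positivity) h
  rw [exp_mul_exp, log_mul (by positivity) (by positivity), log_mul (by positivity) (by positivity),
    log_mul (by positivity) (by positivity), log_pow, log_pow, log_pow, log_exp, log_exp] at h0
  have h1 : (1 / 2 - 1 / (4 * (s * A : ℝ))) * r + (y / 2 - 1 / (4 * (s * A : ℝ))) * E =
      (r + y * E) / 2 - ((r : ℝ) + E) / (4 * (s * A)) := by ring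
  rw [h1] at h0
  have h2 : ((r : ℝ) + E) / (4 * (s * A)) = g * c1 := by
    have h3 : (r : ℝ) + E = g * (4 * (s * A) * c1) := by
      have : ((r + E : ℕ) : ℝ) = ((g * m : ℕ) : ℝ) := by rw [hrE]
      rw [hm] at this
      push_cast at this
      exact this
    rw [h3]
    field_simp
  rw [h2] at h0
  have hg0 : (0 : ℝ) ≤ g := Nat.cast_nonneg _
  have h4 : (g : ℝ) * (log Bc + 2) ≤ g * c1 := mul_le_mul_of_nonneg_left hc1 hg0
  have h5 : (g : ℝ) * y ≤ g * 1 := mul_le_mul_of_nonneg_left hy hg0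
  nlinarith

/-- **ROW G**: the parameters and the final bound -/
theorem xd_final (k K c2 : ℕ) (hc2 : 1 ≤ c2) (Bc : ℝ) (hBc : 1 ≤ Bc) : ∃ C : ℝ, 0 < C ∧
    ∀ n T S w w0 : ℕ, 1 ≤ T → 2 ≤ S → 1 ≤ w → 1 ≤ w0 →
    ∃ (A B m : ℕ) (X Y : ℕ → ℝ), 1 ≤ B ∧ B ≤ A ∧ 2 ≤ m ∧ X 0 = 1 ∧ Y 0 = 1 ∧
      (∀ i, 0 < X i) ∧ (∀ i, 0 < Y i) ∧
      (∀ i, i + 1 ≤ 2 * k + 1 → NumAll (exp 1) (exp ((B : ℝ) / A))
        (S * (n + 1 : ℝ) ^ (K * (w + w0))) (X i) (Y i) (X (i + 1)) (Y (i + 1))) ∧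
      ((∀ g : ℕ, 1 ≤ g → g * (m * (c2 * m)) + 1 ≤ n → ∃ r E : ℕ, r + E = g * m ∧
          -((g : ℝ) * ((B : ℝ) / A)) ≤ r - (B : ℝ) / A * E ∧
          exp 1 ^ r ≤ T * ((g * m : ℕ) + 1 : ℝ) ^ K * (X (2 * k + 1) ^ r * Y (2 * k + 1) ^ E) *
            Bc ^ g) →
        (n : ℝ) ≤ C * log (2 * n * T) *
          (log S + (w + w0) * log (2 * n)) ^ (2 * (Nat.fib (2 * k + 4) - 2))) := by
  obtain ⟨c1, hc1⟩ : ∃ c1 : ℕ, log Bc + 2 ≤ c1 := exists_nat_ge _
  have hlB : 0 ≤ log Bc := log_nonneg hBc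
  have hc1' : (2 : ℝ) ≤ c1 := by linarith
  obtain ⟨p, hp⟩ : ∃ p : ℕ, p = Nat.fib (2 * k + 4) - 2 := ⟨_, rfl⟩
  refine ⟨(K + 4) * (c2 * (16 * c1 * (18 * (2 * K + 3)) ^ p) ^ 2), by positivity, ?_⟩
  intro n T S w w0 hT hS hw hw0
  have hSr : (2 : ℝ) ≤ S := by exact_mod_cast hS
  have hl2 : (0.6931 : ℝ) < log 2 := by
    have := log_two_gt_d9
    linarith
  have hlS : log 2 ≤ log S := log_le_log (by norm_num) hSr
  obtain ⟨κ, hκ⟩ : ∃ κ : ℝ, κ = S * (n + 1 : ℝ) ^ (K * (w + w0)) := ⟨_, rfl⟩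
  have hn1 : (1 : ℝ) ≤ n + 1 := by
    have : (0 : ℝ) ≤ n := Nat.cast_nonneg _
    linarith
  have hκ1 : 1 ≤ κ := by
    rw [hκ]
    have := one_le_pow₀ (n := K * (w + w0)) hn1
    nlinarith
  have hlκ : log κ = log S + K * (w + w0) * log (n + 1) := by
    rw [hκ, log_mul (by positivity) (by positivity), log_pow]
    push_cast
    ring
  obtain ⟨σ, hσ⟩ : ∃ σ : ℕ, σ = ⌈2 * log κ⌉₊ := ⟨_, rfl⟩
  have hlκ0 : 0.6931 < log κ := by
    rw [hlκ]
    have : 0 ≤ (K : ℝ) * (w + w0) * log (n + 1) :=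
      mul_nonneg (by positivity) (log_nonneg hn1)
    linarith
  have hσ1 : 2 * log κ ≤ σ := by rw [hσ]; exact Nat.le_ceil _
  have hσ2 : (σ : ℝ) ≤ 2 * log κ + 1 := by
    rw [hσ]
    exact (Nat.ceil_lt_add_one (by linarith)).le
  have hσ0 : 1 ≤ σ := by
    have : (0 : ℝ) < σ := by linarith
    have : 0 < σ := by exact_mod_cast this
    omega
  obtain ⟨A, B, s, X, Y, hs, hB, hBA, hA2, hsA, hX0, hY0, hXp, hYp, hch, hXL, hYL⟩ :=
    growth_chain (2 * k + 1) σ (by omega) hσ0 κ hκ1 (by linarith)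
  rw [show 2 * k + 1 + 3 = 2 * k + 4 by ring, ← hp] at hsA
  have hA : 1 ≤ A := hB.trans hBA
  have hc1n : 2 ≤ c1 := by exact_mod_cast hc1'
  obtain ⟨m, hm⟩ : ∃ m : ℕ, m = 4 * (s * A) * c1 := ⟨_, rfl⟩
  have hm1 : 1 ≤ m := by
    rw [hm]
    exact Nat.mul_pos (Nat.mul_pos (by norm_num) (Nat.mul_pos hs hA)) (by omega)
  have hm2 : 2 ≤ m := by
    have h1 : 1 ≤ s * A := Nat.mul_pos hs hA
    have h2 : 4 * 1 * 1 ≤ 4 * (s * A) * c1 :=
      Nat.mul_le_mul (Nat.mul_le_mul_left _ h1) (by omega)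
    omega
  refine ⟨A, B, m, X, Y, hB, hBA, hm2, hX0, hY0, hXp, hYp, ?_, ?_⟩
  · rw [← hκ]
    exact hch
  intro hg
  rcases Nat.eq_zero_or_pos n with hn0 | hn0
  · subst hn0
    simp
  have hnr : (1 : ℝ) ≤ n := by exact_mod_cast hn0
  have hTr : (1 : ℝ) ≤ T := by exact_mod_cast hT
  have hlT : 0 ≤ log T := log_nonneg hTr
  obtain ⟨Λ, hΛ⟩ : ∃ Λ : ℝ, Λ = log S + (w + w0) * log (2 * n) := ⟨_, rfl⟩
  have hl2n : log 2 ≤ log (2 * n) := log_le_log (by norm_num) (by linarith)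
  have hln : log (n + 1) ≤ log (2 * n) := log_le_log (by linarith) (by linarith)
  have hww : (2 : ℝ) ≤ w + w0 := by
    have h1 : (1 : ℝ) ≤ w := by exact_mod_cast hw
    have h2 : (1 : ℝ) ≤ w0 := by exact_mod_cast hw0
    linarith
  have hwl : 2 * log 2 ≤ (w + w0) * log (2 * n) :=
    mul_le_mul hww hl2n (by linarith) (by linarith)
  have hΛ1 : 1 ≤ Λ := by rw [hΛ]; linarith
  have hlκΛ : log κ ≤ (K + 1) * Λ := by
    rw [hlκ, hΛ]
    have h1 : (K : ℝ) * ((w + w0) * log (n + 1)) ≤ K * ((w + w0) * log (2 * n)) :=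
      mul_le_mul_of_nonneg_left (mul_le_mul_of_nonneg_left hln (by linarith)) (Nat.cast_nonneg _)
    have h2 : (0 : ℝ) ≤ K * log S := mul_nonneg (Nat.cast_nonneg _) (by linarith)
    have h3 : 0 ≤ ((w : ℝ) + w0) * log (2 * n) := by linarith
    linarith
  have hσΛ : (σ : ℝ) ≤ (2 * K + 3) * Λ := by linarith
  -- the size of m
  have hmle : (m : ℝ) ≤ 16 * c1 * (18 * (2 * K + 3)) ^ p * Λ ^ p := by
    have h1 : m ≤ 4 * (4 * (18 * σ) ^ p) * c1 := by
      rw [hm]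
      exact Nat.mul_le_mul_right _ (Nat.mul_le_mul_left _ hsA)
    have h2 : (m : ℝ) ≤ 4 * (4 * (18 * (σ : ℝ)) ^ p) * c1 := by exact_mod_cast h1
    have h3 : (18 * (σ : ℝ)) ^ p ≤ (18 * ((2 * K + 3) * Λ)) ^ p :=
      pow_le_pow_left₀ (by positivity) (by linarith) p
    have h4 : (18 * ((2 * (K : ℝ) + 3) * Λ)) ^ p = (18 * (2 * K + 3)) ^ p * Λ ^ p := by
      rw [← mul_pow]
      congr 1
      ring
    rw [h4] at h3
    have h5 := mul_le_mul_of_nonneg_left h3 (show (0 : ℝ) ≤ 16 * c1 by positivity)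
    linarith
  -- the number of chains
  obtain ⟨g, hgd⟩ : ∃ g : ℕ, g = (n - 1) / (m * (c2 * m)) := ⟨_, rfl⟩
  have hmq : 1 ≤ m * (c2 * m) := Nat.mul_pos hm1 (Nat.mul_pos hc2 hm1)
  have hgle : (g : ℝ) ≤ log T + K * log (2 * n) := by
    rcases Nat.eq_zero_or_pos g with hg0 | hg0
    · rw [hg0, Nat.cast_zero]
      have : 0 ≤ (K : ℝ) * log (2 * n) := mul_nonneg (Nat.cast_nonneg _) (by linarith)
      linarith
    · have hgn : g * (m * (c2 * m)) + 1 ≤ n := by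
        have := Nat.div_mul_le_self (n - 1) (m * (c2 * m))
        rw [← hgd] at this
        omega
      obtain ⟨r, E, hrE, hbal, hineq⟩ := hg g hg0 hgn
      have hy1 : (B : ℝ) / A ≤ 1 := by
        have hAr : (0 : ℝ) < A := by exact_mod_cast hA
        rw [div_le_one hAr]
        exact_mod_cast hBA
      rw [hXL, hYL] at hineq
      have h1 := g_le hs hA hBc hc1 hy1 hT hm hrE hbal hineq
      have h2 : ((g * m : ℕ) + 1 : ℝ) ≤ 2 * n := by
        have h3 : g * m ≤ n := by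
          calc g * m = g * (m * 1) := by ring
            _ ≤ g * (m * (c2 * m)) :=
              Nat.mul_le_mul_left _ (Nat.mul_le_mul_left _ (Nat.mul_pos hc2 hm1))
            _ ≤ n := by omega
        have h4 : ((g * m : ℕ) : ℝ) ≤ n := by exact_mod_cast h3
        linarith
      have h3 : log ((g * m : ℕ) + 1 : ℝ) ≤ log (2 * n) := log_le_log (by positivity) h2
      have h4 := mul_le_mul_of_nonneg_left h3 (Nat.cast_nonneg (α := ℝ) K)
      linarith
  have hnle : (n : ℝ) ≤ (g + 2) * (m * (c2 * m)) := by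
    have h1 := Nat.div_add_mod (n - 1) (m * (c2 * m))
    have h2 := Nat.mod_lt (n - 1) (show 0 < m * (c2 * m) by omega)
    rw [← hgd] at h1
    have h3 : n ≤ (g + 2) * (m * (c2 * m)) := by
      have : (g + 2) * (m * (c2 * m)) = m * (c2 * m) * g + 2 * (m * (c2 * m)) := by ring
      omega
    exact_mod_cast h3
  have hlog : log (2 * n * T) = log (2 * n) + log T := log_mul (by positivity) (by positivity)
  rw [← hΛ, hlog, ← hp]
  have h1 : (g : ℝ) + 2 ≤ (K + 4) * (log (2 * n) + log T) := by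
    have h2 : 0 ≤ (K : ℝ) * log T := mul_nonneg (Nat.cast_nonneg _) hlT
    have h3 : 0 ≤ (K : ℝ) * log (2 * n) := mul_nonneg (Nat.cast_nonneg _) (by linarith)
    linarith
  have h2 : (m : ℝ) * (c2 * m) ≤
      c2 * (16 * c1 * (18 * (2 * K + 3)) ^ p) ^ 2 * Λ ^ (2 * p) := by
    have h3 : (m : ℝ) * m ≤ (16 * c1 * (18 * (2 * K + 3)) ^ p * Λ ^ p) *
        (16 * c1 * (18 * (2 * K + 3)) ^ p * Λ ^ p) :=
      mul_le_mul hmle hmle (Nat.cast_nonneg _) (by positivity)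
    have h4 := mul_le_mul_of_nonneg_left h3 (Nat.cast_nonneg (α := ℝ) c2)
    calc (m : ℝ) * (c2 * m) = c2 * (m * m) := by ring
      _ ≤ _ := h4
      _ = _ := by
        rw [two_mul p, pow_add]
        ring
  calc (n : ℝ) ≤ (g + 2) * (m * (c2 * m)) := hnle
    _ ≤ ((K + 4) * (log (2 * n) + log T)) *
        (c2 * (16 * c1 * (18 * (2 * K + 3)) ^ p) ^ 2 * Λ ^ (2 * p)) := by
      apply mul_le_mul h1 h2 (by positivity)
      exact mul_nonneg (by positivity) (by linarith)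
    _ = _ := by ring

end Pool.XD
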