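import Pool.Agent.Helper41.CD.Gate
import Pool.Agent.CDep.Val

/-!
# XD, row F: affine substitutions in the classes, and the top part of a shifted polynomial

* `totalDegree_aeval_le`: affine substitutions do not increase the degree;
* `cls_aeval_aux`, `cls_aeval`: the classes `Cls w0 w S k` are stable under affine substitutions;
* `cf_prod_aff`: the top coefficient of a product of affine series;
* `v_coeff_cf_aeval_lt`: substitutions of integral series in a polynomial with small coefficients.
-/

set_option autoImplicit false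

namespace Pool.XD

open Finset MvPolynomial Pool.Agent.Helper87.D3 Pool.Agent.Helper41.CD

section Affine

variable {σ τ R : Type} [CommRing R]

/-- affine substitutions do not increase the total degree -/
theorem totalDegree_aeval_le (g : σ → MvPolynomial τ R) (hg : ∀ s, (g s).totalDegree ≤ 1)
    (f : MvPolynomial σ R) : (aeval g f).totalDegree ≤ f.totalDegree := by
  classical
  rw [aeval_def, eval₂_eq]
  refine (totalDegree_finsetSum _ _).trans (Finset.sup_le fun m hm => ?_)
  have h1 : (algebraMap R (MvPolynomial τ R) (coeff m f)).totalDegree = 0 := totalDegree_C _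
  refine (totalDegree_mul _ _).trans ?_
  rw [h1, zero_add]
  refine (totalDegree_finsetProd _ _).trans ?_
  refine le_trans ?_ (le_totalDegree hm)
  unfold Finsupp.sum
  refine Finset.sum_le_sum fun i _ => ?_
  calc (g i ^ m i).totalDegree ≤ m i * (g i).totalDegree := totalDegree_pow _ _
    _ ≤ m i * 1 := Nat.mul_le_mul_left _ (hg i)
    _ = m i := mul_one _

/-- the classes are stable under affine substitutions -/
theorem cls_aeval_aux {w0 w S : ℕ} (g : σ → MvPolynomial τ R) (hg : ∀ s, (g s).totalDegree ≤ 1) :
    ∀ (k : ℕ) {f : MvPolynomial σ R}, f ∈ Cls w0 w S k → aeval g f ∈ Cls w0 w S k := by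
  intro k
  induction k with
  | zero =>
    rintro f ⟨L, Q, hL, rfl⟩
    refine ⟨fun i => aeval g (L i), Q, fun i => (totalDegree_aeval_le g hg _).trans (hL i), ?_⟩
    rw [comp_aeval_apply]
  | succ k ih =>
    rintro f ⟨F, Q, hF, rfl⟩
    refine ⟨fun l i j => aeval g (F l i j), Q, fun l i j => ih (hF l i j), ?_⟩
    rw [comp_aeval_apply]
    simp only [map_sum, map_prod]

/-- the classes are stable under affine substitutions -/
theorem cls_aeval {w0 w S k : ℕ} (g : σ → MvPolynomial τ R) (hg : ∀ s, (g s).totalDegree ≤ 1)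
    {f : MvPolynomial σ R} (hf : f ∈ Cls w0 w S k) : aeval g f ∈ Cls w0 w S k :=
  cls_aeval_aux g hg k hf

end Affine

section Top

variable {B ι : Type} [CommRing B]

theorem cf_succ_lam_mul (r e : ℕ) (b : B) (P : Ser B) :
    cf (r + 1) e (lam B * cst b * P) = b * cf r e P := by
  rw [mul_assoc]
  unfold lam
  rw [← cf_cst_mul]
  unfold cf
  rw [PowerSeries.coeff_succ_X_mul]

theorem cf_zero_lam_mul (e : ℕ) (b : B) (P : Ser B) :
    cf 0 e (lam B * cst b * P) = 0 := by
  rw [mul_assoc]
  unfold lam cf
  rw [PowerSeries.coeff_zero_X_mul, map_zero]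

theorem cf_succ_mu_mul (r e : ℕ) (b : B) (P : Ser B) :
    cf r (e + 1) (mu B * cst b * P) = b * cf r e P := by
  rw [mul_assoc]
  unfold mu
  rw [← cf_cst_mul]
  unfold cf
  rw [PowerSeries.coeff_C_mul, PowerSeries.coeff_succ_X_mul]

theorem cf_zero_mu_mul (r : ℕ) (b : B) (P : Ser B) :
    cf r 0 (mu B * cst b * P) = 0 := by
  rw [mul_assoc]
  unfold mu cf
  rw [PowerSeries.coeff_C_mul, PowerSeries.coeff_zero_X_mul]

/-- a product of affine series: the coefficients above the numbers of the factors of the two kinds
vanish -/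
theorem cf_prod_aff_zero (s : Finset ι) (u : ι → Prop) [DecidablePred u]
    (a b : ι → B) (r e : ℕ) (h : (s.filter u).card < r ∨ (s.filter fun i => ¬ u i).card < e) :
    cf r e (∏ i ∈ s, (cst (a i) + if u i then lam B * cst (b i) else mu B * cst (b i))) = 0 := by
  classical
  induction s using Finset.induction_on generalizing r e with
  | empty =>
    rw [prod_empty, cf_one, if_neg]
    rintro ⟨rfl, rfl⟩
    simp at h
  | insert x s hx ih =>
    rw [prod_insert hx, add_mul, cf_add, cf_cst_mul]
    by_cases hux : u x
    · rw [filter_insert, if_pos hux, filter_insert, if_neg (not_not.2 hux),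
        card_insert_of_notMem (fun h' => hx (mem_filter.1 h').1)] at h
      rw [if_pos hux, ih r e (by omega), mul_zero, zero_add]
      rcases r with _ | r
      · exact cf_zero_lam_mul _ _ _
      · rw [cf_succ_lam_mul, ih r e (by omega), mul_zero]
    · rw [filter_insert, if_neg hux, filter_insert, if_pos hux,
        card_insert_of_notMem (fun h' => hx (mem_filter.1 h').1)] at h
      rw [if_neg hux, ih r e (by omega), mul_zero, zero_add]
      rcases e with _ | e
      · exact cf_zero_mu_mul _ _ _
      · rw [cf_succ_mu_mul, ih r e (by omega), mul_zero]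

/-- the top coefficient of a product of affine series -/
theorem cf_prod_aff_top (s : Finset ι) (u : ι → Prop) [DecidablePred u] (a b : ι → B) :
    cf (s.filter u).card (s.filter fun i => ¬ u i).card
      (∏ i ∈ s, (cst (a i) + if u i then lam B * cst (b i) else mu B * cst (b i))) =
      ∏ i ∈ s, b i := by
  classical
  induction s using Finset.induction_on with
  | empty =>
    rw [prod_empty, prod_empty, filter_empty, filter_empty, card_empty, cf_one, if_pos ⟨rfl, rfl⟩]
  | insert x s hx ih =>
    rw [prod_insert hx, prod_insert hx, add_mul, cf_add, cf_cst_mul]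
    by_cases hux : u x
    · rw [filter_insert, if_pos hux, filter_insert, if_neg (not_not.2 hux),
        card_insert_of_notMem (fun h' => hx (mem_filter.1 h').1), if_pos hux, cf_succ_lam_mul,
        ih, cf_prod_aff_zero _ _ _ _ _ _ (by omega), mul_zero, zero_add]
    · rw [filter_insert, if_neg hux, filter_insert, if_pos hux,
        card_insert_of_notMem (fun h' => hx (mem_filter.1 h').1), if_neg hux, cf_succ_mu_mul,
        ih, cf_prod_aff_zero _ _ _ _ _ _ (by omega), mul_zero, zero_add]

end Top

section Val

variable {E Γ τ : Type} [Field E] [LinearOrderedCommGroupWithZero Γ] (v : Valuation E Γ)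

/-- series whose coefficients are polynomials over the valuation ring -/
def IntSP (F : Ser (MvPolynomial τ E)) : Prop := ∀ b e m, v (coeff m (cf b e F)) ≤ 1

variable {v}

theorem v_coeff_mul_le {p q : MvPolynomial τ E} (hp : ∀ m, v (coeff m p) ≤ 1)
    (hq : ∀ m, v (coeff m q) ≤ 1) (m : τ →₀ ℕ) : v (coeff m (p * q)) ≤ 1 := by
  classical
  rw [coeff_mul]
  refine Valuation.map_sum_le v fun x _ => ?_
  rw [map_mul]
  exact mul_le_one' (hp _) (hq _)

theorem IntSP.one : IntSP v (1 : Ser (MvPolynomial τ E)) := by
  classical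
  intro b e m
  rw [cf_one]
  split_ifs
  · rw [coeff_one]
    split_ifs
    · rw [map_one]
    · rw [map_zero]; exact zero_le
  · rw [coeff_zero, map_zero]; exact zero_le

theorem IntSP.mul {F G : Ser (MvPolynomial τ E)} (hF : IntSP v F) (hG : IntSP v G) :
    IntSP v (F * G) := fun b e m => by
  rw [cf_mul, coeff_sum]
  refine Valuation.map_sum_le v fun i _ => ?_
  rw [coeff_sum]
  exact Valuation.map_sum_le v fun j _ => v_coeff_mul_le (hF _ _) (hG _ _) m

theorem IntSP.add {F G : Ser (MvPolynomial τ E)} (hF : IntSP v F) (hG : IntSP v G) :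
    IntSP v (F + G) := fun b e m => by
  rw [cf_add, coeff_add]
  exact Valuation.map_add_le v (hF _ _ _) (hG _ _ _)

theorem IntSP.pow {F : Ser (MvPolynomial τ E)} (hF : IntSP v F) (n : ℕ) : IntSP v (F ^ n) := by
  induction n with
  | zero => rw [pow_zero]; exact IntSP.one
  | succ n ih => rw [pow_succ]; exact ih.mul hF

theorem IntSP.prod {ι : Type} (s : Finset ι) (F : ι → Ser (MvPolynomial τ E))
    (h : ∀ i ∈ s, IntSP v (F i)) : IntSP v (∏ i ∈ s, F i) := by
  classical
  induction s using Finset.induction_on with
  | empty => rw [prod_empty]; exact IntSP.one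
  | insert a s ha ih =>
    rw [prod_insert ha]
    exact (h a (mem_insert_self _ _)).mul (ih fun i hi => h i (mem_insert_of_mem hi))

theorem intSP_cst {p : MvPolynomial τ E} (hp : ∀ m, v (coeff m p) ≤ 1) :
    IntSP v (cst p) := fun b e m => by
  rw [cf_cst]
  split_ifs
  · exact hp m
  · rw [coeff_zero, map_zero]; exact zero_le

theorem intSP_lam {p : MvPolynomial τ E} (hp : ∀ m, v (coeff m p) ≤ 1) :
    IntSP v (lam _ * cst p) := fun b e m => by
  rw [cf_lam_mul]
  split_ifs
  · exact hp m
  · rw [coeff_zero, map_zero]; exact zero_le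

theorem intSP_mu {p : MvPolynomial τ E} (hp : ∀ m, v (coeff m p) ≤ 1) :
    IntSP v (mu _ * cst p) := fun b e m => by
  rw [cf_mu_mul]
  split_ifs
  · exact hp m
  · rw [coeff_zero, map_zero]; exact zero_le

/-- a polynomial with small coefficients stays small under integral substitutions -/
theorem v_coeff_cf_aeval_lt {σ : Type} (P : MvPolynomial σ E) (hP : ∀ m, v (coeff m P) < 1)
    (g : σ → Ser (MvPolynomial τ E)) (hg : ∀ s, IntSP v (g s)) (b e : ℕ) (m : τ →₀ ℕ) :
    v (coeff m (cf b e (aeval g P))) < 1 := by
  rw [aeval_def, eval₂_eq, cf_sum, coeff_sum]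
  refine Valuation.map_sum_lt v one_ne_zero fun x _ => ?_
  have h1 : algebraMap E (Ser (MvPolynomial τ E)) (coeff x P) = cst (C (coeff x P)) := by
    rw [PowerSeries.algebraMap_apply, PowerSeries.algebraMap_apply]
    rfl
  rw [h1, cf_cst_mul, coeff_C_mul, map_mul]
  have h2 : IntSP v (∏ i ∈ x.support, g i ^ x i) := IntSP.prod _ _ fun i _ => (hg i).pow _
  calc v (coeff x P) * v (coeff m (cf b e (∏ i ∈ x.support, g i ^ x i)))
      ≤ v (coeff x P) * 1 := mul_le_mul_right (h2 b e m) _
    _ < 1 := by rw [mul_one]; exact hP x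

end Val

end Pool.XD
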