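import Mathlib

/-!
# XD, row C: the transfer recursion

The sum over all assignments `σ` of the blocks, with a weight at every wall and a weight for every
block with value `true`, equals the value of a recursion.
-/

set_option autoImplicit false

namespace Pool.XD

open Finset

section transfer

/-- `j` is a wall of `σ` -/
def WallA {d : ℕ} (σ : Fin d → Bool) (j : Fin (d + 1)) : Prop :=
  ∃ i i2 : Fin d, i.succ = j ∧ i2.castSucc = j ∧ σ i ≠ σ i2

/-- the last value, `false` for the empty assignment -/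
def lst {d : ℕ} (σ : Fin d → Bool) : Bool := if h : 0 < d then σ ⟨d - 1, by omega⟩ else false

theorem lst_snoc {d : ℕ} (σ : Fin d → Bool) (b : Bool) :
    lst (Fin.snoc σ b : Fin (d + 1) → Bool) = b := by
  unfold lst
  rw [dif_pos (Nat.succ_pos d)]
  have : (⟨d + 1 - 1, by omega⟩ : Fin (d + 1)) = Fin.last d := by
    apply Fin.ext
    simp
  rw [this, Fin.snoc_last]

theorem not_wall_last {d : ℕ} (σ : Fin d → Bool) : ¬ WallA σ (Fin.last d) := by
  rintro ⟨i, i2, -, h2, -⟩
  exact absurd h2 (Fin.castSucc_lt_last i2).ne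

theorem wall_snoc_castSucc {d : ℕ} (σ : Fin d → Bool) (b : Bool) (i : Fin d) :
    WallA (Fin.snoc σ b : Fin (d + 1) → Bool) i.castSucc.castSucc ↔ WallA σ i.castSucc := by
  constructor
  · rintro ⟨i1, i2, h1, h2, h3⟩
    have e2 : i2 = i.castSucc := Fin.castSucc_injective _ h2
    have e1 : ((i1 : ℕ)) + 1 = i := by
      have := congrArg Fin.val h1
      simpa using this
    have hi1 : (i1 : ℕ) < d := by have := i.2; omega
    refine ⟨⟨i1, hi1⟩, i, ?_, rfl, ?_⟩
    · apply Fin.ext
      simpa using e1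
    · have e3 : i1 = (⟨i1, hi1⟩ : Fin d).castSucc := by
        apply Fin.ext
        simp
      rw [e2] at h3
      rw [e3] at h3
      rw [Fin.snoc_castSucc, Fin.snoc_castSucc] at h3
      exact h3
  · rintro ⟨i1, i2, h1, h2, h3⟩
    have e2 : i2 = i := Fin.castSucc_injective _ h2
    refine ⟨i1.castSucc, i.castSucc, ?_, rfl, ?_⟩
    · rw [Fin.succ_castSucc, h1]
    · rw [Fin.snoc_castSucc, Fin.snoc_castSucc, ← e2]
      exact h3

theorem wall_snoc_last {d : ℕ} (σ : Fin d → Bool) (b : Bool) :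
    WallA (Fin.snoc σ b : Fin (d + 1) → Bool) (Fin.last d).castSucc ↔ 0 < d ∧ lst σ ≠ b := by
  constructor
  · rintro ⟨i1, i2, h1, h2, h3⟩
    have e2 : i2 = Fin.last d := Fin.castSucc_injective _ h2
    have e1 : ((i1 : ℕ)) + 1 = d := by
      have := congrArg Fin.val h1
      simpa using this
    have hd : 0 < d := by omega
    have hi1 : (i1 : ℕ) < d := by omega
    refine ⟨hd, ?_⟩
    have e3 : i1 = (⟨i1, hi1⟩ : Fin d).castSucc := by
      apply Fin.ext
      simp
    rw [e2, Fin.snoc_last, e3, Fin.snoc_castSucc] at h3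
    unfold lst
    rw [dif_pos hd]
    have e4 : (⟨d - 1, by omega⟩ : Fin d) = ⟨i1, hi1⟩ := by
      apply Fin.ext
      simp only
      omega
    rw [e4]
    exact h3
  · rintro ⟨hd, h⟩
    refine ⟨(⟨d - 1, by omega⟩ : Fin d).castSucc, Fin.last d, ?_, rfl, ?_⟩
    · apply Fin.ext
      simp
      omega
    · rw [Fin.snoc_castSucc, Fin.snoc_last]
      unfold lst at h
      rw [dif_pos hd] at h
      exact h

variable (wd : ℕ → ℕ) (o : ℕ → ℝ)

open Classical in
/-- the weight of an assignment -/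
noncomputable def wtA {d : ℕ} (σ : Fin d → Bool) : ℝ :=
  (∏ j : Fin (d + 1), if WallA σ j then ((wd j : ℝ))⁻¹ else 1) *
    ∏ i : Fin d, if σ i then o i else 1

theorem wtA_snoc (hw0 : wd 0 = 1) {d : ℕ} (σ : Fin d → Bool) (b : Bool) :
    wtA wd o (Fin.snoc σ b : Fin (d + 1) → Bool) =
      wtA wd o σ * ((if lst σ ≠ b then ((wd d : ℝ))⁻¹ else 1) * (if b then o d else 1)) := by
  classical
  unfold wtA
  rw [Fin.prod_univ_castSucc (n := d + 1), if_neg (not_wall_last _), mul_one,
    Fin.prod_univ_castSucc (n := d) (f := fun j : Fin (d + 1) =>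
      if WallA (Fin.snoc σ b : Fin (d + 1) → Bool) j.castSucc then
        ((wd (j.castSucc : Fin (d + 1 + 1)) : ℝ))⁻¹ else 1)]
  rw [Fin.prod_univ_castSucc (n := d) (f := fun j : Fin (d + 1) => if WallA σ j then ((wd j : ℝ))⁻¹ else 1),
    if_neg (not_wall_last σ), mul_one]
  rw [Fin.prod_univ_castSucc (n := d)
    (f := fun i : Fin (d + 1) => if (Fin.snoc σ b : Fin (d + 1) → Bool) i then o i else 1)]
  simp only [Fin.snoc_castSucc, Fin.snoc_last, Fin.val_castSucc, Fin.val_last]
  have h1 : ∀ i : Fin d, (if WallA (Fin.snoc σ b : Fin (d + 1) → Bool) i.castSucc.castSucc then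
      ((wd i : ℝ))⁻¹ else 1) = if WallA σ i.castSucc then ((wd i : ℝ))⁻¹ else 1 := by
    intro i
    simp only [wall_snoc_castSucc]
  rw [Finset.prod_congr rfl fun i _ => h1 i]
  have h2 : (if WallA (Fin.snoc σ b : Fin (d + 1) → Bool) (Fin.last d).castSucc then
      ((wd d : ℝ))⁻¹ else 1) = if lst σ ≠ b then ((wd d : ℝ))⁻¹ else 1 := by
    rcases Nat.eq_zero_or_pos d with hd | hd
    · subst hd
      rw [hw0]
      simp
    · have : WallA (Fin.snoc σ b : Fin (d + 1) → Bool) (Fin.last d).castSucc ↔ lst σ ≠ b := by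
        rw [wall_snoc_last]
        exact ⟨fun h => h.2, fun h => ⟨hd, h⟩⟩
      simp only [this]
  rw [h2]
  ring

/-- the recursion -/
noncomputable def ZA : ℕ → ℝ × ℝ
  | 0 => (1, 0)
  | i + 1 => ((ZA i).1 + (ZA i).2 / wd i, ((ZA i).2 + (ZA i).1 / wd i) * o i)

theorem sum_snoc {d : ℕ} (f : (Fin (d + 1) → Bool) → ℝ) :
    ∑ σ : Fin (d + 1) → Bool, f σ = ∑ σ : Fin d → Bool, (f (Fin.snoc σ false) + f (Fin.snoc σ true)) := by
  rw [← (Fin.snocEquiv (fun _ : Fin (d + 1) => Bool)).sum_comp f, Fintype.sum_prod_type,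
    Fintype.sum_bool, ← Finset.sum_add_distrib]
  refine Finset.sum_congr rfl fun σ _ => ?_
  rw [add_comm]
  rfl

theorem sum_wtA (hw0 : wd 0 = 1) (d : ℕ) :
    (∑ σ : Fin d → Bool, if lst σ = false then wtA wd o σ else 0) = (ZA wd o d).1 ∧
    (∑ σ : Fin d → Bool, if lst σ = true then wtA wd o σ else 0) = (ZA wd o d).2 := by
  induction d with
  | zero =>
    have h1 : ∀ σ : Fin 0 → Bool, lst σ = false := by
      intro σ
      unfold lst
      rw [dif_neg (lt_irrefl 0)]
    have h2 : ∀ (σ : Fin 0 → Bool) (j : Fin (0 + 1)), ¬ WallA σ j := by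
      rintro σ j ⟨i, -⟩
      exact i.elim0
    constructor
    · rw [Fintype.sum_unique]
      simp [h1, h2, wtA, ZA]
    · rw [Fintype.sum_unique]
      simp [h1, ZA]
  | succ d ih =>
    obtain ⟨ih1, ih2⟩ := ih
    constructor
    · rw [sum_snoc]
      simp only [lst_snoc, if_true, Bool.true_eq_false, if_false, add_zero]
      show _ = (ZA wd o d).1 + (ZA wd o d).2 / wd d
      rw [← ih1, ← ih2, Finset.sum_div, ← Finset.sum_add_distrib]
      refine Finset.sum_congr rfl fun σ _ => ?_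
      rw [wtA_snoc wd o hw0]
      rcases h : lst σ with _ | _
      · simp
      · simp [div_eq_mul_inv]
    · rw [sum_snoc]
      simp only [lst_snoc, if_true, Bool.false_eq_true, if_false, zero_add]
      show _ = ((ZA wd o d).2 + (ZA wd o d).1 / wd d) * o d
      rw [← ih1, ← ih2, Finset.sum_div, ← Finset.sum_add_distrib, Finset.sum_mul]
      refine Finset.sum_congr rfl fun σ _ => ?_
      rw [wtA_snoc wd o hw0]
      rcases h : lst σ with _ | _
      · simp [div_eq_mul_inv]
        ring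
      · simp

theorem sum_wtA_eq (hw0 : wd 0 = 1) (d : ℕ) :
    ∑ σ : Fin d → Bool, wtA wd o σ = (ZA wd o d).1 + (ZA wd o d).2 := by
  rw [← (sum_wtA wd o hw0 d).1, ← (sum_wtA wd o hw0 d).2, ← Finset.sum_add_distrib]
  refine Finset.sum_congr rfl fun σ _ => ?_
  rcases h : lst σ with _ | _ <;> simp

end transfer

end Pool.XD
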