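import Pool.Agent.XD.Mc
import Pool.Agent.XD.LowerA

/-!
# XD, row C: from the counts to the rank bound
-/

set_option autoImplicit false

namespace Pool.XD

open Finset

section final

/-- the blocks of type `true` with value `false` -/
def kk0 (ty : ℕ → Bool) {d : ℕ} (σ : Fin d → Bool) : ℕ :=
  (univ.filter fun i : Fin d => ty i = true ∧ σ i = false).card

/-- the blocks of type `false` with value `true` -/
def kk1 (ty : ℕ → Bool) {d : ℕ} (σ : Fin d → Bool) : ℕ :=
  (univ.filter fun i : Fin d => ty i = false ∧ σ i = true).card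

/-- the blocks of type `true` with value `true` -/
def kkU (ty : ℕ → Bool) {d : ℕ} (σ : Fin d → Bool) : ℕ :=
  (univ.filter fun i : Fin d => ty i = true ∧ σ i = true).card

theorem kk_add (ty : ℕ → Bool) {d : ℕ} (σ : Fin d → Bool) :
    kkU ty σ + kk0 ty σ = (univ.filter fun i : Fin d => ty i = true).card := by
  unfold kkU kk0
  rw [← Finset.card_union_of_disjoint]
  · congr 1
    ext i
    simp only [mem_union, mem_filter, mem_univ, true_and]
    rcases σ i with _ | _ <;> simp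
  · rw [Finset.disjoint_filter]
    rintro i - ⟨-, h1⟩ ⟨-, h2⟩
    rw [h1] at h2
    cases h2

theorem prod_om (ty : ℕ → Bool) (oU oV : ℝ) {d : ℕ} (σ : Fin d → Bool) :
    (∏ i : Fin d, if σ i then (if ty i then oU else oV) else 1) =
      oU ^ kkU ty σ * oV ^ kk1 ty σ := by
  unfold kkU kk1
  rw [← Finset.prod_const, ← Finset.prod_const, Finset.prod_filter, Finset.prod_filter,
    ← Finset.prod_mul_distrib]
  refine Finset.prod_congr rfl fun i _ => ?_
  rcases σ i with _ | _ <;> rcases ty i with _ | _ <;> simp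

open Classical in
theorem prod_wd (wd : ℕ → ℕ) (hwd : ∀ j, 1 ≤ wd j) {d : ℕ} (σ : Fin d → Bool) :
    (∏ j : Fin (d + 1), if WallA σ j then (wd j : ℝ) else (wd j : ℝ) ^ 2) =
      (∏ j : Fin (d + 1), (wd j : ℝ)) ^ 2 *
        ∏ j : Fin (d + 1), if WallA σ j then ((wd j : ℝ))⁻¹ else 1 := by
  rw [← Finset.prod_pow, ← Finset.prod_mul_distrib]
  refine Finset.prod_congr rfl fun j _ => ?_
  have h : (wd j : ℝ) ≠ 0 := by
    have := hwd j
    exact_mod_cast (by omega : wd j ≠ 0)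
  split_ifs
  · field_simp
  · ring

open Classical in
/-- the final inequality, abstractly -/
theorem count_assemble {d : ℕ} (wd : ℕ → ℕ) (ty : ℕ → Bool) (hwd : ∀ j, 1 ≤ wd j) (hw0 : wd 0 = 1)
    {LU LV r NU NV : ℕ} (hr : r = (univ.filter fun i : Fin d => ty i = true).card)
    (h2 : 2 * r ≤ LU) {oU oV : ℝ} (h0V : 0 ≤ oV) (h1U : 1 ≤ NU) (h1V : 1 ≤ NV)
    (hoU : (NU : ℝ) + LU - r ≤ oU * (LU - r + 1)) (hoV : (LV : ℝ) ≤ oV * (NV + LV - 1))
    {rk P R : ℝ} (hrk : 0 ≤ rk) (hB : P ^ 2 ≤ rk * R)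
    (hC2 : (∏ j : Fin (d + 1), (wd j : ℝ)) *
      ((NU.multichoose (LU - r) : ℝ) * NV.multichoose LV) ≤ P)
    (hC1 : R ≤ ∑ σ : Fin d → Bool, (∏ j : Fin (d + 1), if WallA σ j then (wd j : ℝ) else (wd j : ℝ) ^ 2) *
      (if kk1 ty σ ≤ LV then
        ((NU.multichoose (LU - r - kk0 ty σ) : ℝ) * NV.multichoose (LV - kk1 ty σ)) else 0)) :
    (NU.multichoose LU : ℝ) * NV.multichoose LV ≤
      rk * ((ZA wd (fun i => if ty i then oU else oV) d).1 +
        (ZA wd (fun i => if ty i then oU else oV) d).2) := by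
  set W : ℝ := ∏ j : Fin (d + 1), (wd j : ℝ) with hW
  set D1 : ℝ := (NU.multichoose (LU - r) : ℝ) * NV.multichoose LV with hD1
  set D0 : ℝ := (NU.multichoose LU : ℝ) * NV.multichoose LV with hD0
  have hWpos : 0 < W := by
    refine Finset.prod_pos fun j _ => ?_
    have := hwd j
    exact_mod_cast (by omega : 0 < wd j)
  have hD1pos : 0 < D1 := by
    have e1 := mc_pos h1U (LU - r)
    have e2 := mc_pos h1V LV
    rw [hD1]
    exact_mod_cast Nat.mul_pos e1 e2
  have hD0nn : 0 ≤ D0 := by positivity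
  have hrL : (r : ℝ) ≤ LU := by exact_mod_cast (by omega : r ≤ LU)
  have hoU1 : 1 ≤ oU := by
    have hNU : (1 : ℝ) ≤ NU := by exact_mod_cast h1U
    by_contra hcon
    push Not at hcon
    nlinarith
  rw [← sum_wtA_eq wd _ hw0 d]
  -- every term
  have hterm : ∀ σ : Fin d → Bool,
      D0 * ((∏ j : Fin (d + 1), if WallA σ j then (wd j : ℝ) else (wd j : ℝ) ^ 2) *
      (if kk1 ty σ ≤ LV then
        ((NU.multichoose (LU - r - kk0 ty σ) : ℝ) * NV.multichoose (LV - kk1 ty σ)) else 0)) ≤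
      (D1 ^ 2 * W ^ 2) * wtA wd (fun i => if ty i then oU else oV) σ := by
    intro σ
    have hq : 0 ≤ ∏ j : Fin (d + 1), if WallA σ j then ((wd j : ℝ))⁻¹ else 1 :=
      Finset.prod_nonneg fun j _ => by split_ifs <;> positivity
    rw [prod_wd wd hwd σ]
    unfold wtA
    rw [prod_om]
    have hadd := kk_add ty σ
    rw [← hr] at hadd
    have hU : (NU.multichoose (LU - r - kk0 ty σ) : ℝ) * NU.multichoose LU ≤
        (NU.multichoose (LU - r) : ℝ) ^ 2 * oU ^ kkU ty σ := by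
      have e : kk0 ty σ = r - kkU ty σ := by omega
      rw [e]
      exact mc_two hoU1 h2 (by omega) hoU
    have hcoef : D0 * (if kk1 ty σ ≤ LV then
        ((NU.multichoose (LU - r - kk0 ty σ) : ℝ) * NV.multichoose (LV - kk1 ty σ)) else 0) ≤
        D1 ^ 2 * (oU ^ kkU ty σ * oV ^ kk1 ty σ) := by
      split_ifs with hk
      · have hV := mc_sub_le h1V h0V hoV (kk1 ty σ) hk
        calc D0 * ((NU.multichoose (LU - r - kk0 ty σ) : ℝ) * NV.multichoose (LV - kk1 ty σ))
            = ((NU.multichoose (LU - r - kk0 ty σ) : ℝ) * NU.multichoose LU) *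
                ((NV.multichoose LV : ℝ) * NV.multichoose (LV - kk1 ty σ)) := by rw [hD0]; ring
          _ ≤ ((NU.multichoose (LU - r) : ℝ) ^ 2 * oU ^ kkU ty σ) *
                ((NV.multichoose LV : ℝ) * (NV.multichoose LV * oV ^ kk1 ty σ)) :=
              mul_le_mul hU (mul_le_mul_of_nonneg_left hV (by positivity)) (by positivity)
                (by positivity)
          _ = D1 ^ 2 * (oU ^ kkU ty σ * oV ^ kk1 ty σ) := by rw [hD1]; ring
      · rw [mul_zero]
        positivity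
    calc D0 * (W ^ 2 * (∏ j : Fin (d + 1), if WallA σ j then ((wd j : ℝ))⁻¹ else 1) *
          (if kk1 ty σ ≤ LV then
            ((NU.multichoose (LU - r - kk0 ty σ) : ℝ) * NV.multichoose (LV - kk1 ty σ)) else 0))
        = (W ^ 2 * ∏ j : Fin (d + 1), if WallA σ j then ((wd j : ℝ))⁻¹ else 1) *
          (D0 * (if kk1 ty σ ≤ LV then
            ((NU.multichoose (LU - r - kk0 ty σ) : ℝ) * NV.multichoose (LV - kk1 ty σ)) else 0)) := by
          ring
      _ ≤ (W ^ 2 * ∏ j : Fin (d + 1), if WallA σ j then ((wd j : ℝ))⁻¹ else 1) *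
          (D1 ^ 2 * (oU ^ kkU ty σ * oV ^ kk1 ty σ)) :=
          mul_le_mul_of_nonneg_left hcoef (mul_nonneg (by positivity) hq)
      _ = D1 ^ 2 * W ^ 2 * ((∏ j : Fin (d + 1), if WallA σ j then ((wd j : ℝ))⁻¹ else 1) *
          (oU ^ kkU ty σ * oV ^ kk1 ty σ)) := by ring
  have hsum : D0 * R ≤ (D1 ^ 2 * W ^ 2) * ∑ σ : Fin d → Bool,
      wtA wd (fun i => if ty i then oU else oV) σ := by
    refine le_trans (mul_le_mul_of_nonneg_left hC1 hD0nn) ?_
    rw [Finset.mul_sum, Finset.mul_sum]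
    exact Finset.sum_le_sum fun σ _ => hterm σ
  have hP : (W * D1) ^ 2 ≤ P ^ 2 := pow_le_pow_left₀ (by positivity) hC2 2
  have hfin : (D1 ^ 2 * W ^ 2) * D0 ≤ (D1 ^ 2 * W ^ 2) * (rk * ∑ σ : Fin d → Bool,
      wtA wd (fun i => if ty i then oU else oV) σ) := by
    calc (D1 ^ 2 * W ^ 2) * D0 = D0 * (W * D1) ^ 2 := by ring
      _ ≤ D0 * (rk * R) := mul_le_mul_of_nonneg_left (hP.trans hB) hD0nn
      _ = rk * (D0 * R) := by ring
      _ ≤ rk * ((D1 ^ 2 * W ^ 2) * ∑ σ : Fin d → Bool,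
          wtA wd (fun i => if ty i then oU else oV) σ) := mul_le_mul_of_nonneg_left hsum hrk
      _ = _ := by ring
  exact le_of_mul_le_mul_left hfin (by positivity)

end final

end Pool.XD
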