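import Mathlib

/-!
# XD, row C: inequalities for the number of exponents of a given degree

`Nat.multichoose N L` is the number of monomials of degree `L` in `N` letters.
-/

set_option autoImplicit false

namespace Pool.XD

open Finset

/-- the basic ratio of two consecutive numbers -/
theorem mc_succ (N L : ℕ) : (L + 1) * Nat.multichoose N (L + 1) = (N + L) * Nat.multichoose N L := by
  rcases N with _ | N
  · rcases L with _ | L
    · simp
    · simp [Nat.multichoose_zero_succ]
  · rw [Nat.multichoose_eq, Nat.multichoose_eq]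
    have e1 : N + 1 + (L + 1) - 1 = (N + L) + 1 := by omega
    have e2 : N + 1 + L - 1 = N + L := by omega
    rw [e1, e2]
    have h := Nat.add_one_mul_choose_eq (N + L) L
    have e3 : N + 1 + L = N + L + 1 := by omega
    rw [e3, h]
    ring

theorem mc_succ_real (N L : ℕ) :
    ((L : ℝ) + 1) * (Nat.multichoose N (L + 1) : ℝ) = (N + L) * (Nat.multichoose N L : ℝ) := by
  exact_mod_cast mc_succ N L

theorem mc_pos {N : ℕ} (hN : 1 ≤ N) (L : ℕ) : 0 < Nat.multichoose N L := by
  rw [Nat.multichoose_eq]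
  exact Nat.choose_pos (by omega)

/-- one step upwards -/
theorem mc_step {N L : ℕ} {H : ℝ} (h : (N : ℝ) + L ≤ H * (L + 1)) :
    (Nat.multichoose N (L + 1) : ℝ) ≤ Nat.multichoose N L * H := by
  have h1 := mc_succ_real N L
  have h2 : (0 : ℝ) < (L : ℝ) + 1 := by positivity
  have h3 : (0 : ℝ) ≤ (Nat.multichoose N L : ℝ) := by positivity
  refine le_of_mul_le_mul_left ?_ h2
  rw [h1]
  nlinarith [mul_le_mul_of_nonneg_right h h3]

/-- the dimension in the direction of the multiplications -/
theorem mc_add {N L : ℕ} {H : ℝ} (h1 : 1 ≤ H) (h : (N : ℝ) + L ≤ H * (L + 1)) (e : ℕ) :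
    (Nat.multichoose N (L + e) : ℝ) ≤ Nat.multichoose N L * H ^ e := by
  induction e with
  | zero => simp
  | succ e ih =>
    have h2 : (N : ℝ) + ((L + e : ℕ) : ℝ) ≤ H * (((L + e : ℕ) : ℝ) + 1) := by
      push_cast
      have : (e : ℝ) ≤ H * e := le_mul_of_one_le_left (by positivity) h1
      nlinarith
    calc (Nat.multichoose N (L + (e + 1)) : ℝ) = Nat.multichoose N ((L + e) + 1) := by rw [add_assoc]
      _ ≤ Nat.multichoose N (L + e) * H := mc_step h2
      _ ≤ (Nat.multichoose N L * H ^ e) * H := mul_le_mul_of_nonneg_right ih (by linarith)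
      _ = Nat.multichoose N L * H ^ (e + 1) := by ring

/-- one step downwards -/
theorem mc_step_down {N L : ℕ} {H : ℝ} (h : H * (L + 1) ≤ (N : ℝ) + L) :
    (Nat.multichoose N L : ℝ) * H ≤ Nat.multichoose N (L + 1) := by
  have h1 := mc_succ_real N L
  have h2 : (0 : ℝ) < (L : ℝ) + 1 := by positivity
  have h3 : (0 : ℝ) ≤ (Nat.multichoose N L : ℝ) := by positivity
  refine le_of_mul_le_mul_left ?_ h2
  rw [h1]
  nlinarith [mul_le_mul_of_nonneg_right h h3]

/-- the dimension in the direction of the contractions -/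
theorem mc_sub {N L : ℕ} {H : ℝ} (h1 : 1 ≤ H) (h : H * L ≤ (N : ℝ) + L - 1) (a : ℕ) (ha : a ≤ L) :
    (Nat.multichoose N (L - a) : ℝ) * H ^ a ≤ Nat.multichoose N L := by
  induction a with
  | zero => simp
  | succ a ih =>
    have ih' := ih (by omega)
    obtain ⟨j, hj⟩ : ∃ j, L - a = j + 1 := ⟨L - a - 1, by omega⟩
    have hj2 : L - (a + 1) = j := by omega
    have hLj : (L : ℝ) = (j : ℝ) + 1 + a := by
      have : L = j + 1 + a := by omega
      rw [this]
      push_cast
      ring
    have h2 : H * ((j : ℝ) + 1) ≤ (N : ℝ) + j := by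
      have h3 : (H - 1) * ((j : ℝ) + 1) ≤ (H - 1) * L := by
        refine mul_le_mul_of_nonneg_left ?_ (by linarith)
        rw [hLj]
        have : (0 : ℝ) ≤ a := by positivity
        linarith
      nlinarith
    rw [hj] at ih'
    rw [hj2]
    calc (Nat.multichoose N j : ℝ) * H ^ (a + 1) = ((Nat.multichoose N j : ℝ) * H) * H ^ a := by ring
      _ ≤ Nat.multichoose N (j + 1) * H ^ a :=
        mul_le_mul_of_nonneg_right (mc_step_down h2) (by positivity)
      _ ≤ Nat.multichoose N L := ih'

/-- the quotient of the second kind of letters -/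
theorem mc_sub_le {N L : ℕ} {om : ℝ} (hN : 1 ≤ N) (h0 : 0 ≤ om) (h : (L : ℝ) ≤ om * ((N : ℝ) + L - 1))
    (k : ℕ) (hk : k ≤ L) :
    (Nat.multichoose N (L - k) : ℝ) ≤ Nat.multichoose N L * om ^ k := by
  have hN' : (1 : ℝ) ≤ (N : ℝ) := by exact_mod_cast hN
  induction k with
  | zero => simp
  | succ k ih =>
    have ih' := ih (by omega)
    obtain ⟨j, hj⟩ : ∃ j, L - k = j + 1 := ⟨L - k - 1, by omega⟩
    have hj2 : L - (k + 1) = j := by omega
    have hLj : (L : ℝ) = (j : ℝ) + 1 + k := by
      have : L = j + 1 + k := by omega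
      rw [this]
      push_cast
      ring
    rw [hj] at ih'
    rw [hj2]
    have hs := mc_succ_real N j
    have hpos : (0 : ℝ) < (Nat.multichoose N j : ℝ) := by exact_mod_cast mc_pos hN j
    have h2 : (j : ℝ) + 1 ≤ om * ((N : ℝ) + j) := by
      rcases le_total om 1 with h3 | h3
      · have h4 : (1 - om) * ((j : ℝ) + 1) ≤ (1 - om) * L := by
          refine mul_le_mul_of_nonneg_left ?_ (by linarith)
          rw [hLj]
          have : (0 : ℝ) ≤ k := by positivity
          linarith
        nlinarith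
      · have h4 : (0 : ℝ) ≤ (j : ℝ) := by positivity
        nlinarith
    have h5 : (Nat.multichoose N j : ℝ) ≤ Nat.multichoose N (j + 1) * om := by
      have h6 : (0 : ℝ) < (j : ℝ) + 1 := by positivity
      refine le_of_mul_le_mul_left ?_ h6
      calc ((j : ℝ) + 1) * (Nat.multichoose N j : ℝ) ≤ (om * ((N : ℝ) + j)) * (Nat.multichoose N j : ℝ) :=
            mul_le_mul_of_nonneg_right h2 hpos.le
        _ = om * (((N : ℝ) + j) * (Nat.multichoose N j : ℝ)) := by ring
        _ = om * (((j : ℝ) + 1) * (Nat.multichoose N (j + 1) : ℝ)) := by rw [hs]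
        _ = ((j : ℝ) + 1) * (Nat.multichoose N (j + 1) * om) := by ring
    calc (Nat.multichoose N j : ℝ) ≤ Nat.multichoose N (j + 1) * om := h5
      _ ≤ (Nat.multichoose N L * om ^ k) * om := mul_le_mul_of_nonneg_right ih' h0
      _ = Nat.multichoose N L * om ^ (k + 1) := by ring

/-- log-concavity -/
theorem mc_logconcave (N A a : ℕ) (ha : a ≤ A) :
    (Nat.multichoose N (A - a) : ℝ) * Nat.multichoose N (A + a) ≤ (Nat.multichoose N A : ℝ) ^ 2 := by
  rcases Nat.eq_zero_or_pos N with rfl | hN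
  · rcases Nat.eq_zero_or_pos A with rfl | hA
    · have : a = 0 := by omega
      subst this
      simp
    · obtain ⟨A', rfl⟩ : ∃ A', A = A' + 1 := ⟨A - 1, by omega⟩
      have : A' + 1 + a = (A' + a) + 1 := by ring
      rw [this, Nat.multichoose_zero_succ]
      simp
  have hN' : (1 : ℝ) ≤ (N : ℝ) := by exact_mod_cast hN
  induction a with
  | zero => simp [sq]
  | succ a ih =>
    have ih' := ih (by omega)
    obtain ⟨j, hj⟩ : ∃ j, A - a = j + 1 := ⟨A - a - 1, by omega⟩
    have hj2 : A - (a + 1) = j := by omega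
    have e1 : A + (a + 1) = (A + a) + 1 := by ring
    rw [hj2, e1]
    rw [hj] at ih'
    refine le_trans ?_ ih'
    have s1 := mc_succ_real N j
    have s2 := mc_succ_real N (A + a)
    have hA : ((A + a : ℕ) : ℝ) = (j : ℝ) + 1 + 2 * a := by
      have : A + a = j + 1 + 2 * a := by omega
      rw [this]
      push_cast
      ring
    rw [hA] at s2
    set x := (Nat.multichoose N j : ℝ) with hx
    set x' := (Nat.multichoose N (j + 1) : ℝ) with hx'
    set y := (Nat.multichoose N (A + a) : ℝ) with hy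
    set y' := (Nat.multichoose N (A + a + 1) : ℝ) with hy'
    have p1 : (0 : ℝ) < (j : ℝ) + 1 := by positivity
    have p2 : (0 : ℝ) < (j : ℝ) + 1 + 2 * a + 1 := by positivity
    have p3 : (0 : ℝ) < (N : ℝ) + j := by positivity
    have px : 0 ≤ x := by positivity
    have py : 0 ≤ y := by positivity
    -- x y' = x' y (j+1)(N+q)/((N+j)(q+1))
    have hxx : x = x' * ((j : ℝ) + 1) / ((N : ℝ) + j) := by
      rw [eq_div_iff p3.ne']
      linarith
    have hyy : y' = y * ((N : ℝ) + (j + 1 + 2 * a)) / ((j : ℝ) + 1 + 2 * a + 1) := by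
      rw [eq_div_iff p2.ne']
      linarith
    have hxy' : 0 ≤ x' * y := by positivity
    rw [hxx, hyy]
    rw [div_mul_div_comm, div_le_iff₀ (by positivity)]
    have key : ((j : ℝ) + 1) * ((N : ℝ) + (j + 1 + 2 * a)) ≤ ((N : ℝ) + j) * ((j : ℝ) + 1 + 2 * a + 1) := by
      have ha' : (0 : ℝ) ≤ (a : ℝ) := by positivity
      nlinarith
    calc x' * ((j : ℝ) + 1) * (y * ((N : ℝ) + (j + 1 + 2 * a)))
        = (x' * y) * (((j : ℝ) + 1) * ((N : ℝ) + (j + 1 + 2 * a))) := by ring
      _ ≤ (x' * y) * (((N : ℝ) + j) * ((j : ℝ) + 1 + 2 * a + 1)) := mul_le_mul_of_nonneg_left key hxy'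
      _ = x' * y * (((N : ℝ) + j) * ((j : ℝ) + 1 + 2 * a + 1)) := by ring

/-- the quotient of the first kind of letters -/
theorem mc_two {N L r k : ℕ} {om : ℝ} (h1 : 1 ≤ om) (hr : 2 * r ≤ L) (hk : k ≤ r)
    (h : (N : ℝ) + L - r ≤ om * ((L : ℝ) - r + 1)) :
    (Nat.multichoose N (L - r - (r - k)) : ℝ) * Nat.multichoose N L ≤
      (Nat.multichoose N (L - r) : ℝ) ^ 2 * om ^ k := by
  obtain ⟨A, rfl⟩ : ∃ A, L = A + r := ⟨L - r, by omega⟩
  obtain ⟨a, rfl⟩ : ∃ a, r = a + k := ⟨r - k, by omega⟩
  have e1 : A + (a + k) - (a + k) = A := by omega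
  have e2 : a + k - k = a := by omega
  rw [e1, e2]
  have hA : (N : ℝ) + A ≤ om * ((A : ℝ) + 1) := by
    push_cast at h
    have e3 : (N : ℝ) + (A + (a + k)) - (a + k) = N + A := by ring
    have e4 : (A : ℝ) + (a + k) - (a + k) + 1 = A + 1 := by ring
    rw [e3, e4] at h
    exact h
  have h2 : (N : ℝ) + ((A + a : ℕ) : ℝ) ≤ om * (((A + a : ℕ) : ℝ) + 1) := by
    push_cast
    have : (a : ℝ) ≤ om * a := le_mul_of_one_le_left (by positivity) h1
    nlinarith
  have h3 := mc_add h1 h2 k
  have e5 : A + a + k = A + (a + k) := by ring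
  rw [e5] at h3
  calc (Nat.multichoose N (A - a) : ℝ) * Nat.multichoose N (A + (a + k))
      ≤ (Nat.multichoose N (A - a) : ℝ) * (Nat.multichoose N (A + a) * om ^ k) :=
        mul_le_mul_of_nonneg_left h3 (by positivity)
    _ = ((Nat.multichoose N (A - a) : ℝ) * Nat.multichoose N (A + a)) * om ^ k := by ring
    _ ≤ (Nat.multichoose N A : ℝ) ^ 2 * om ^ k :=
        mul_le_mul_of_nonneg_right (mc_logconcave N A a (by omega)) (by positivity)

section card
variable (U : Type) [Fintype U] [DecidableEq U]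

/-- the number of exponents of degree `L` -/
theorem card_piAntidiag_univ (L : ℕ) :
    (Finset.piAntidiag (Finset.univ : Finset U) L).card = Nat.multichoose (Fintype.card U) L := by
  rw [← Finset.map_sym_eq_piAntidiag, Finset.card_map, Finset.sym_univ, Finset.card_univ,
    Sym.card_sym_eq_multichoose]

instance fintypeExp (L : ℕ) : Fintype {a : U → ℕ // ∑ i, a i = L} :=
  Fintype.subtype (Finset.piAntidiag (Finset.univ : Finset U) L) (by
    intro a
    rw [Finset.mem_piAntidiag]
    simp)

theorem card_exp (L : ℕ) [Fintype {a : U → ℕ // ∑ i, a i = L}] :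
    Fintype.card {a : U → ℕ // ∑ i, a i = L} = Nat.multichoose (Fintype.card U) L := by
  rw [← card_piAntidiag_univ U L]
  refine Fintype.card_of_subtype _ ?_
  intro a
  rw [Finset.mem_piAntidiag]
  simp

end card

end Pool.XD
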