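import Pool.Agent.XD.Defs
import Pool.Agent.XD.Mc

/-!
# XD, row A: the measure

The matrix of a product is the product of the matrices, through the exponent vectors in between;
the cost of the machine controls the rank.
-/

set_option autoImplicit false
set_option linter.unusedSectionVars false
set_option linter.unnecessarySeqFocus false

namespace Pool.XD

open Finset Pool.Agent.Helper87.D3 Pool.Agent.Helper41.CD

section rank
variable {K I J : Type} [Field K] [Fintype I] [Fintype J]

theorem matrix_rank_add_le (A B : Matrix I J K) : (A + B).rank ≤ A.rank + B.rank := by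
  classical
  have h1 : LinearMap.range (A + B).mulVecLin ≤
      LinearMap.range A.mulVecLin ⊔ LinearMap.range B.mulVecLin := by
    rintro _ ⟨x, rfl⟩
    rw [Matrix.mulVecLin_add]
    exact Submodule.add_mem_sup ⟨x, rfl⟩ ⟨x, rfl⟩
  exact (Submodule.finrank_mono h1).trans (Submodule.finrank_add_le_finrank_add_finrank _ _)

theorem matrix_rank_sum_le {ι : Type} (s : Finset ι) (A : ι → Matrix I J K) :
    (∑ i ∈ s, A i).rank ≤ ∑ i ∈ s, (A i).rank := by
  classical
  induction s using Finset.induction_on with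
  | empty => rw [Finset.sum_empty, Finset.sum_empty, Matrix.rank_zero]
  | insert i s hi ih =>
    rw [Finset.sum_insert hi, Finset.sum_insert hi]
    exact (matrix_rank_add_le _ _).trans (Nat.add_le_add_left ih _)

end rank

section measure

variable {L : Type} [Fintype L] (ty : L → Bool)

/-! ### the number of exponent vectors -/

theorem sum_true (α : L → ℕ) :
    ∑ l : {l // ty l = true}, α l.1 = ∑ l, if ty l then α l else 0 := by
  rw [← Finset.sum_filter]
  exact (Finset.sum_subtype _ (fun l => by simp) α).symm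

theorem sum_false (α : L → ℕ) :
    ∑ l : {l // ty l = false}, α l.1 = ∑ l, if ty l then 0 else α l := by
  have h : ∀ l, (if ty l then 0 else α l) = if ty l = false then α l else 0 := by
    intro l
    cases ty l <;> simp
  rw [Finset.sum_congr rfl fun l _ => h l, ← Finset.sum_filter]
  exact (Finset.sum_subtype _ (fun l => by simp) α).symm

/-- the exponent vectors split into the two types of letters -/
def boxEquiv (a b : ℕ) : Box ty a b ≃
    {α : {l // ty l = true} → ℕ // ∑ l, α l = a} × {α : {l // ty l = false} → ℕ // ∑ l, α l = b} where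
  toFun α := (⟨fun l => α.1 l.1, (sum_true ty α.1).trans α.2.1⟩,
    ⟨fun l => α.1 l.1, (sum_false ty α.1).trans α.2.2⟩)
  invFun p := ⟨fun l => if h : ty l = true then p.1.1 ⟨l, h⟩ else p.2.1 ⟨l, by simpa using h⟩, by
    constructor
    · rw [← sum_true]
      refine (Finset.sum_congr rfl fun l _ => ?_).trans p.1.2
      rw [dif_pos l.2]
    · rw [← sum_false]
      refine (Finset.sum_congr rfl fun l _ => ?_).trans p.2.2
      rw [dif_neg (by rw [l.2]; simp)]⟩
  left_inv α := by
    apply Subtype.ext
    funext l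
    simp
  right_inv p := by
    apply Prod.ext
    · apply Subtype.ext
      funext l
      show dite _ _ _ = _
      rw [dif_pos l.2]
    · apply Subtype.ext
      funext l
      show dite _ _ _ = _
      rw [dif_neg (by rw [l.2]; simp)]

theorem card_box (a b : ℕ) :
    Fintype.card (Box ty a b) = (nU ty).multichoose a * (nV ty).multichoose b := by
  classical
  rw [Fintype.card_congr (boxEquiv ty a b), Fintype.card_prod, card_exp, card_exp]
  congr 2
  · rw [nU, Fintype.card_subtype]
  · rw [nV, Fintype.card_subtype]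

/-! ### degrees -/

variable {K : Type} [Field K]

theorem filt_VV : Pool.CD.Filt (VV ty K) where
  one := MvPolynomial.isWeightedHomogeneous_one K _
  mul _ _ _ _ ha hb := MvPolynomial.IsWeightedHomogeneous.mul ha hb

theorem filt_UU : Pool.CD.Filt (UU ty K) where
  one := MvPolynomial.isWeightedHomogeneous_one K _
  mul _ _ _ _ ha hb := MvPolynomial.IsWeightedHomogeneous.mul ha hb

theorem weight_VV (p : L →₀ ℕ) :
    Finsupp.weight (fun l => if ty l then 0 else 1) p = ∑ l, if ty l then 0 else p l := by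
  rw [Finsupp.weight_apply, Finsupp.sum_fintype _ _ (by simp)]
  refine Finset.sum_congr rfl fun l _ => ?_
  cases ty l <;> simp

theorem weight_UU (p : L →₀ ℕ) :
    Finsupp.weight (fun l => if ty l then 1 else 0) p = ∑ l, if ty l then p l else 0 := by
  rw [Finsupp.weight_apply, Finsupp.sum_fintype _ _ (by simp)]
  refine Finset.sum_congr rfl fun l _ => ?_
  cases ty l <;> simp

theorem coeff_VV {x : ℕ} {A : MvPolynomial L K} (hA : A ∈ VV ty K x) {p : L →₀ ℕ}
    (hp : (∑ l, if ty l then 0 else p l) ≠ x) : MvPolynomial.coeff p A = 0 := by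
  by_contra h
  exact hp ((weight_VV ty p).symm.trans (hA h))

theorem coeff_UU {y : ℕ} {A : MvPolynomial L K} (hA : A ∈ UU ty K y) {p : L →₀ ℕ}
    (hp : (∑ l, if ty l then p l else 0) ≠ y) : MvPolynomial.coeff p A = 0 := by
  by_contra h
  exact hp ((weight_UU ty p).symm.trans (hA h))

/-! ### the matrix of a product -/

theorem gap_apply (α γ : L → ℕ) (l : L) :
    gap ty α γ l = if ty l then α l - γ l else γ l - α l := rfl

theorem Adm.trans {α β γ : L → ℕ} (h1 : Adm ty α β) (h2 : Adm ty β γ) : Adm ty α γ := by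
  intro l
  have h3 := h1 l
  have h4 := h2 l
  cases h : ty l <;> simp only [h, if_true, if_false, Bool.false_eq_true] at h3 h4 ⊢ <;> omega

theorem gap_add {α β γ : L → ℕ} (h1 : Adm ty α β) (h2 : Adm ty β γ) :
    gap ty α β + gap ty β γ = gap ty α γ := by
  ext l
  have h3 := h1 l
  have h4 := h2 l
  rw [Finsupp.add_apply, gap_apply, gap_apply, gap_apply]
  cases h : ty l <;> simp only [h, if_true, if_false, Bool.false_eq_true] at h3 h4 ⊢ <;> omega

/-- the step from `α` with exponent `p` -/
def stp (α : L → ℕ) (p : L →₀ ℕ) (l : L) : ℕ := if ty l then α l - p l else α l + p l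

theorem gap_stp {α γ : L → ℕ} (h : Adm ty α γ) {p q : L →₀ ℕ} (hpq : p + q = gap ty α γ) :
    Adm ty α (stp ty α p) ∧ Adm ty (stp ty α p) γ ∧ gap ty α (stp ty α p) = p ∧
      gap ty (stp ty α p) γ = q := by
  have key : ∀ l, p l + q l = if ty l then α l - γ l else γ l - α l := by
    intro l
    rw [← gap_apply, ← hpq, Finsupp.add_apply]
  refine ⟨fun l => ?_, fun l => ?_, ?_, ?_⟩
  · have h1 := h l
    have h2 := key l
    cases h3 : ty l <;> simp only [h3, stp, if_true, if_false, Bool.false_eq_true] at h1 h2 ⊢ <;>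
      omega
  · have h1 := h l
    have h2 := key l
    cases h3 : ty l <;> simp only [h3, stp, if_true, if_false, Bool.false_eq_true] at h1 h2 ⊢ <;>
      omega
  · ext l
    have h1 := h l
    have h2 := key l
    rw [gap_apply]
    cases h3 : ty l <;> simp only [h3, stp, if_true, if_false, Bool.false_eq_true] at h1 h2 ⊢ <;>
      omega
  · ext l
    have h1 := h l
    have h2 := key l
    rw [gap_apply]
    cases h3 : ty l <;> simp only [h3, stp, if_true, if_false, Bool.false_eq_true] at h1 h2 ⊢ <;>
      omega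

theorem sum_stp_true {α γ : L → ℕ} (h : Adm ty α γ) {p q : L →₀ ℕ} (hpq : p + q = gap ty α γ) :
    (∑ l, if ty l then stp ty α p l else 0) =
      (∑ l, if ty l then γ l else 0) + ∑ l, if ty l then q l else 0 := by
  rw [← Finset.sum_add_distrib]
  refine Finset.sum_congr rfl fun l _ => ?_
  have key : p l + q l = if ty l then α l - γ l else γ l - α l := by
    rw [← gap_apply, ← hpq, Finsupp.add_apply]
  have h1 := h l
  cases h3 : ty l <;> simp only [h3, stp, if_true, if_false, Bool.false_eq_true] at h1 key ⊢ <;>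
      omega

theorem sum_stp_false (α : L → ℕ) (p : L →₀ ℕ) :
    (∑ l, if ty l then 0 else stp ty α p l) =
      (∑ l, if ty l then 0 else α l) + ∑ l, if ty l then 0 else p l := by
  rw [← Finset.sum_add_distrib]
  refine Finset.sum_congr rfl fun l _ => ?_
  cases h3 : ty l <;> simp [stp, h3]

theorem sum_gap_false {α β : L → ℕ} (h : Adm ty α β) :
    (∑ l, if ty l then 0 else β l) =
      (∑ l, if ty l then 0 else α l) + ∑ l, if ty l then 0 else gap ty α β l := by
  rw [← Finset.sum_add_distrib]
  refine Finset.sum_congr rfl fun l _ => ?_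
  have h1 := h l
  rw [gap_apply]
  cases h3 : ty l <;> simp only [h3, if_true, if_false, Bool.false_eq_true] at h1 ⊢ <;> omega

theorem sum_gap_true {β γ : L → ℕ} (h : Adm ty β γ) :
    (∑ l, if ty l then β l else 0) =
      (∑ l, if ty l then γ l else 0) + ∑ l, if ty l then gap ty β γ l else 0 := by
  rw [← Finset.sum_add_distrib]
  refine Finset.sum_congr rfl fun l _ => ?_
  have h1 := h l
  rw [gap_apply]
  cases h3 : ty l <;> simp only [h3, if_true, if_false, Bool.false_eq_true] at h1 ⊢ <;> omega

/-- THE MATRIX OF A PRODUCT: the exponent vectors in between have a known degree -/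
theorem opM_mul {A B : MvPolynomial L K} {x y : ℕ} (hA : A ∈ VV ty K x) (hB : B ∈ UU ty K y)
    (a b a' b' : ℕ) :
    opM ty (A * B) a b a' b' = opM ty A a b (a' + y) (b + x) * opM ty B (a' + y) (b + x) a' b' := by
  classical
  ext α γ
  rw [Matrix.mul_apply]
  by_cases hag : Adm ty α.1 γ.1
  · rw [opM, if_pos hag, MvPolynomial.coeff_mul]
    -- both sides are sums over the same pairs
    have e1 : ∑ p ∈ antidiagonal (gap ty α.1 γ.1), MvPolynomial.coeff p.1 A *
        MvPolynomial.coeff p.2 B =
        ∑ p ∈ (antidiagonal (gap ty α.1 γ.1)).filter (fun p => (∑ l, if ty l then 0 else p.1 l) = x ∧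
          (∑ l, if ty l then p.2 l else 0) = y), MvPolynomial.coeff p.1 A *
            MvPolynomial.coeff p.2 B := by
      symm
      apply Finset.sum_subset (Finset.filter_subset _ _)
      intro p hp hp2
      rw [Finset.mem_filter, not_and] at hp2
      have h3 := hp2 hp
      rw [not_and_or] at h3
      rcases h3 with h3 | h3
      · rw [coeff_VV ty hA h3, zero_mul]
      · rw [coeff_UU ty hB h3, mul_zero]
    have e2 : ∑ β : Box ty (a' + y) (b + x), opM ty A a b (a' + y) (b + x) α β *
        opM ty B (a' + y) (b + x) a' b' β γ =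
        ∑ β ∈ univ.filter (fun β : Box ty (a' + y) (b + x) => Adm ty α.1 β.1 ∧ Adm ty β.1 γ.1),
          MvPolynomial.coeff (gap ty α.1 β.1) A * MvPolynomial.coeff (gap ty β.1 γ.1) B := by
      rw [Finset.sum_filter]
      refine Finset.sum_congr rfl fun β _ => ?_
      rw [opM, opM]
      by_cases h1 : Adm ty α.1 β.1
      · by_cases h2 : Adm ty β.1 γ.1
        · rw [if_pos h1, if_pos h2, if_pos ⟨h1, h2⟩]
        · rw [if_neg h2, mul_zero, if_neg fun h => h2 h.2]
      · rw [if_neg h1, zero_mul, if_neg fun h => h1 h.1]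
    rw [e1, e2]
    symm
    refine Finset.sum_bij' (fun β _ => (gap ty α.1 β.1, gap ty β.1 γ.1))
      (fun p hp => (⟨stp ty α.1 p.1, ?_⟩ : Box ty (a' + y) (b + x))) ?_ ?_ ?_ ?_ ?_
    · rw [Finset.mem_filter, HasAntidiagonal.mem_antidiagonal] at hp
      rw [sum_stp_true ty hag hp.1, sum_stp_false, hp.2.1, hp.2.2, γ.2.1, α.2.2]
      exact ⟨rfl, rfl⟩
    · intro β hβ
      rw [Finset.mem_filter] at hβ
      rw [Finset.mem_filter, HasAntidiagonal.mem_antidiagonal]
      refine ⟨gap_add ty hβ.2.1 hβ.2.2, ?_, ?_⟩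
      · have h1 := sum_gap_false ty hβ.2.1
        rw [β.2.2, α.2.2] at h1
        exact (Nat.add_left_cancel h1).symm
      · have h1 := sum_gap_true ty hβ.2.2
        rw [β.2.1, γ.2.1] at h1
        exact (Nat.add_left_cancel h1).symm
    · intro p hp
      rw [Finset.mem_filter, HasAntidiagonal.mem_antidiagonal] at hp
      rw [Finset.mem_filter]
      have h1 := gap_stp ty hag hp.1
      exact ⟨Finset.mem_univ _, h1.1, h1.2.1⟩
    · intro β hβ
      rw [Finset.mem_filter] at hβ
      apply Subtype.ext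
      funext l
      have h1 := hβ.2.1 l
      show stp ty α.1 (gap ty α.1 β.1) l = β.1 l
      rw [stp, gap_apply]
      cases h3 : ty l <;> simp only [h3, if_true, if_false, Bool.false_eq_true] at h1 ⊢ <;> omega
    · intro p hp
      rw [Finset.mem_filter, HasAntidiagonal.mem_antidiagonal] at hp
      have h1 := gap_stp ty hag hp.1
      exact Prod.ext h1.2.2.1 h1.2.2.2
    · intro β hβ
      rfl
  · rw [opM, if_neg hag]
    symm
    apply Finset.sum_eq_zero
    intro β _
    rw [opM, opM]
    by_cases h1 : Adm ty α.1 β.1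
    · by_cases h2 : Adm ty β.1 γ.1
      · exact absurd (h1.trans ty h2) hag
      · rw [if_neg h2, mul_zero]
    · rw [if_neg h1, zero_mul]

theorem opM_zero_of_lt {A : MvPolynomial L K} {a b a' b' : ℕ} (h : a < a') :
    opM ty A a b a' b' = 0 := by
  classical
  ext α γ
  rw [opM, if_neg, Matrix.zero_apply]
  intro hag
  have h1 := sum_gap_true ty hag
  rw [α.2.1, γ.2.1] at h1
  omega

theorem opM_add (A B : MvPolynomial L K) (a b a' b' : ℕ) :
    opM ty (A + B) a b a' b' = opM ty A a b a' b' + opM ty B a b a' b' := by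
  classical
  ext α γ
  rw [Matrix.add_apply, opM, opM, opM]
  by_cases h : Adm ty α.1 γ.1
  · rw [if_pos h, if_pos h, if_pos h, MvPolynomial.coeff_add]
  · rw [if_neg h, if_neg h, if_neg h, add_zero]

theorem opM_zero (a b a' b' : ℕ) : opM ty (0 : MvPolynomial L K) a b a' b' = 0 := by
  classical
  ext α γ
  rw [Matrix.zero_apply, opM]
  by_cases h : Adm ty α.1 γ.1
  · rw [if_pos h, MvPolynomial.coeff_zero]
  · rw [if_neg h]

theorem opM_sum {ι : Type} (s : Finset ι) (A : ι → MvPolynomial L K) (a b a' b' : ℕ) :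
    opM ty (∑ i ∈ s, A i) a b a' b' = ∑ i ∈ s, opM ty (A i) a b a' b' := by
  classical
  induction s using Finset.induction_on with
  | empty => rw [Finset.sum_empty, Finset.sum_empty, opM_zero]
  | insert i s hi ih => rw [Finset.sum_insert hi, Finset.sum_insert hi, opM_add, ih]

/-! ### the dimensions -/

theorem mc_sub' {N L : ℕ} {H : ℝ} (hN : 1 ≤ N) (h0 : 0 < H) (h : H * L ≤ (N : ℝ) + L - 1) (a : ℕ)
    (ha : a ≤ L) : (Nat.multichoose N (L - a) : ℝ) * H ^ a ≤ Nat.multichoose N L := by
  have hN' : (1 : ℝ) ≤ N := by exact_mod_cast hN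
  rcases le_total 1 H with h1 | h1
  · exact mc_sub h1 h a ha
  · have h2 := mc_sub (N := N) (L := L) le_rfl (by rw [one_mul]; linarith) a ha
    rw [one_pow, mul_one] at h2
    have h3 : (0 : ℝ) ≤ Nat.multichoose N (L - a) := Nat.cast_nonneg _
    calc (Nat.multichoose N (L - a) : ℝ) * H ^ a ≤ Nat.multichoose N (L - a) * 1 :=
          mul_le_mul_of_nonneg_left (pow_le_one₀ h0.le h1) h3
      _ ≤ Nat.multichoose N L := by rw [mul_one]; exact h2

theorem rank_opM_le {HU HV : ℝ} {LU LV r E : ℕ} (h0U : 0 < HU) (h0V : 0 < HV) (hr : r ≤ LU)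
    (h1U : 1 ≤ nU ty) (h1V : 1 ≤ nV ty) (hU : HU * LU ≤ nU ty + LU - 1)
    (hV : (nV ty : ℝ) + LV ≤ HV * (LV + 1)) (F : MvPolynomial L K) (_hFU : F ∈ UU ty K r)
    (_hFV : F ∈ VV ty K E) {κ : ℝ} (h : Pool.CD.Nu (VV ty K) (UU ty K) HV HU F κ) :
    ((opM ty F LU LV (LU - r) (LV + E)).rank : ℝ) * HU ^ r ≤
      κ * ((nU ty).multichoose LU * (nV ty).multichoose LV : ℕ) := by
  classical
  obtain ⟨ι, hι, x, y, A, B, h1, h2, h3, h4⟩ := h
  have hHV : 1 ≤ HV := by
    have h5 : (1 : ℝ) ≤ nV ty := by exact_mod_cast h1V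
    have h6 : (0 : ℝ) < (LV : ℝ) + 1 := by positivity
    by_contra hlt
    rw [not_le] at hlt
    have h7 : HV * ((LV : ℝ) + 1) < 1 * ((LV : ℝ) + 1) := mul_lt_mul_of_pos_right hlt h6
    linarith
  have hterm : ∀ i, ((opM ty (A i * B i) LU LV (LU - r) (LV + E)).rank : ℝ) * HU ^ r ≤
      (HV ^ x i * HU ^ y i) * ((nU ty).multichoose LU * (nV ty).multichoose LV : ℕ) := by
    intro i
    rw [opM_mul ty (h1 i) (h2 i)]
    rcases Nat.lt_or_ge r (y i) with hlt | hge
    · rw [opM_zero_of_lt ty (A := A i) (show LU < LU - r + y i by omega), Matrix.zero_mul,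
        Matrix.rank_zero, Nat.cast_zero, zero_mul]
      positivity
    · have h5 : (opM ty (A i) LU LV (LU - r + y i) (LV + x i) *
          opM ty (B i) (LU - r + y i) (LV + x i) (LU - r) (LV + E)).rank ≤
          (nU ty).multichoose (LU - r + y i) * (nV ty).multichoose (LV + x i) := by
        rw [← card_box]
        exact (Matrix.rank_mul_le_left _ _).trans (Matrix.rank_le_card_width _)
      have h6 : ((opM ty (A i) LU LV (LU - r + y i) (LV + x i) *
          opM ty (B i) (LU - r + y i) (LV + x i) (LU - r) (LV + E)).rank : ℝ) ≤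
          ((nU ty).multichoose (LU - r + y i) : ℝ) * ((nV ty).multichoose (LV + x i) : ℝ) := by
        exact_mod_cast h5
      have h7 : LU - r + y i = LU - (r - y i) := by omega
      have h8 := mc_sub' h1U h0U hU (r - y i) (by omega)
      rw [← h7] at h8
      have h9 := mc_add hHV hV (x i)
      have h10 : HU ^ r = HU ^ (r - y i) * HU ^ y i := by
        rw [← pow_add]
        congr 1
        omega
      have p1 : (0 : ℝ) ≤ HU ^ y i := by positivity
      have p2 : (0 : ℝ) ≤ ((nU ty).multichoose LU : ℝ) := Nat.cast_nonneg _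
      have p3 : (0 : ℝ) ≤ ((nV ty).multichoose (LV + x i) : ℝ) := Nat.cast_nonneg _
      calc ((opM ty (A i) LU LV (LU - r + y i) (LV + x i) *
          opM ty (B i) (LU - r + y i) (LV + x i) (LU - r) (LV + E)).rank : ℝ) * HU ^ r
          ≤ (((nU ty).multichoose (LU - r + y i) : ℝ) * ((nV ty).multichoose (LV + x i) : ℝ)) *
            HU ^ r := mul_le_mul_of_nonneg_right h6 (by positivity)
        _ = (((nU ty).multichoose (LU - r + y i) : ℝ) * HU ^ (r - y i)) *
            (((nV ty).multichoose (LV + x i) : ℝ) * HU ^ y i) := by rw [h10]; ring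
        _ ≤ ((nU ty).multichoose LU : ℝ) *
            ((((nV ty).multichoose LV : ℝ) * HV ^ x i) * HU ^ y i) :=
          mul_le_mul h8 (mul_le_mul_of_nonneg_right h9 p1) (mul_nonneg p3 p1) p2
        _ = _ := by push_cast; ring
  have h5 : (opM ty F LU LV (LU - r) (LV + E)).rank ≤
      ∑ i, (opM ty (A i * B i) LU LV (LU - r) (LV + E)).rank := by
    rw [h3, opM_sum]
    exact matrix_rank_sum_le _ _
  have h6 : ((opM ty F LU LV (LU - r) (LV + E)).rank : ℝ) ≤
      ∑ i, ((opM ty (A i * B i) LU LV (LU - r) (LV + E)).rank : ℝ) := by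
    exact_mod_cast h5
  calc ((opM ty F LU LV (LU - r) (LV + E)).rank : ℝ) * HU ^ r
      ≤ (∑ i, ((opM ty (A i * B i) LU LV (LU - r) (LV + E)).rank : ℝ)) * HU ^ r :=
        mul_le_mul_of_nonneg_right h6 (by positivity)
    _ = ∑ i, ((opM ty (A i * B i) LU LV (LU - r) (LV + E)).rank : ℝ) * HU ^ r :=
        Finset.sum_mul _ _ _
    _ ≤ ∑ i, (HV ^ x i * HU ^ y i) *
        ((nU ty).multichoose LU * (nV ty).multichoose LV : ℕ) :=
        Finset.sum_le_sum fun i _ => hterm i
    _ = (∑ i, HV ^ x i * HU ^ y i) * ((nU ty).multichoose LU * (nV ty).multichoose LV : ℕ) :=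
        (Finset.sum_mul _ _ _).symm
    _ ≤ κ * ((nU ty).multichoose LU * (nV ty).multichoose LV : ℕ) :=
        mul_le_mul_of_nonneg_right h4 (Nat.cast_nonneg _)

end measure

end Pool.XD
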