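import Pool.Agent.XD.Rank

/-!
# XD, row B: the statements of the rows file
-/

set_option autoImplicit false

namespace Pool.XD

open Finset

theorem sq_le_rank_mul {I J : Type} [Fintype I] [Fintype J] (M : Matrix I J ℝ) :
    (∑ i, ∑ j, M i j ^ 2) ^ 2 ≤ M.rank * ∑ i, ∑ i', (∑ j, M i j * M i' j) ^ 2 := by
  classical
  refine (sq_sum_le_rank M).trans (le_of_eq ?_)
  rfl

theorem rank_le_of_close {K Γ : Type} [Field K] [LinearOrderedCommGroupWithZero Γ]
    (v : Valuation K Γ) (hv : ∀ n : ℕ, n ≠ 0 → v n = 1) {I J : Type} [Fintype I] [Fintype J]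
    (M0 : Matrix I J ℤ) (M : Matrix I J K) (h : ∀ i j, v (M i j - M0 i j) < 1) :
    (M0.map (Int.cast : ℤ → ℝ)).rank ≤ M.rank := by
  refine rank_le_of_val v (fun z hz => ?_) M M0 h
  rcases Int.eq_nat_or_neg z with ⟨n, rfl | rfl⟩
  · rw [Int.cast_natCast]
    exact hv n fun h0 => hz (by rw [h0]; rfl)
  · rw [Int.cast_neg, Valuation.map_neg, Int.cast_natCast]
    exact hv n fun h0 => hz (by rw [h0]; rfl)

end Pool.XD
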