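import Pool.Agent.XD.Cycle
import Pool.Agent.XD.Measure
import Pool.Agent.XD.Trace
import Pool.Agent.XD.LowerB

/-!
# XD, row C: the lower bound for the rank of the matrix of the chain polynomial
-/

set_option autoImplicit false
set_option linter.unusedVariables false

namespace Pool.XD

open Finset

theorem ZZ_eq_ZA (wd : ℕ → ℕ) (ty : ℕ → Bool) (oU oV : ℝ) (i : ℕ) :
    ZZ wd ty oU oV i = ZA wd (fun i => if ty i then oU else oV) i := by
  induction i with
  | zero => rfl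
  | succ i ih =>
    unfold ZZ ZA
    rw [ih]

/-- the number of rows is at most the rank times the transfer sum -/
theorem chain_count (d : ℕ) (wd : ℕ → ℕ) (ty : ℕ → Bool) (hwd : ∀ j, 1 ≤ wd j) (hw0 : wd 0 = 1)
    {LU LV r E : ℕ} (hr : r = (univ.filter fun i : Fin d => ty i = true).card)
    (hE : E = (univ.filter fun i : Fin d => ty i = false).card) (h2 : 2 * r ≤ LU)
    {oU oV : ℝ} (h0U : 0 ≤ oU) (h0V : 0 ≤ oV) (h1U : 1 ≤ nU (tyl d wd ty))
    (h1V : 1 ≤ nV (tyl d wd ty)) (hoU : (nU (tyl d wd ty) : ℝ) + LU - r ≤ oU * (LU - r + 1))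
    (hoV : (LV : ℝ) ≤ oV * (nV (tyl d wd ty) + LV - 1)) :
    (((nU (tyl d wd ty)).multichoose LU * (nV (tyl d wd ty)).multichoose LV : ℕ) : ℝ) ≤
      ((opM (tyl d wd ty) (chn d wd ℝ) LU LV (LU - r) (LV + E)).rank : ℝ) *
        ((ZZ wd ty oU oV d).1 + (ZZ wd ty oU oV d).2) := by
  classical
  have hB := sq_le_rank_mul (opM (tyl d wd ty) (chn d wd ℝ) LU LV (LU - r) (LV + E))
  have hC1 := C1 d wd ty hw0 LU LV r E
  have hC2 := C2 d wd ty hw0 LU LV r E hr hE (by omega : r ≤ LU)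
  rw [card_box] at hC2
  push_cast at hC2
  rw [ZZ_eq_ZA]
  push_cast
  refine count_assemble wd ty hwd hw0 hr h2 h0V h1U h1V hoU hoV (Nat.cast_nonneg _) hB hC2
    (hC1.trans (le_of_eq ?_))
  refine Finset.sum_congr rfl fun σ _ => ?_
  rw [card_box]
  push_cast
  congr

end Pool.XD
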