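import Mathlib

/-!
# XD: the greedy word (row D2)
-/

set_option autoImplicit false

namespace Pool.XD

open Finset

/-- prefix sums of the greedy word -/
noncomputable def gps (x y : ℝ) : ℕ → ℝ
  | 0 => 0
  | i + 1 => if gps x y i ≤ 0 then gps x y i + x else gps x y i - y

open Classical in
/-- the greedy word -/
noncomputable def gw (x y : ℝ) (i : ℕ) : Bool := decide (gps x y i ≤ 0)

theorem gps_le {x y : ℝ} (hx : 0 < x) (hy : 0 < y) (i : ℕ) : gps x y i ≤ x := by
  induction i with
  | zero => exact hx.le
  | succ i ih =>
    rw [gps]
    split_ifs with h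
    · linarith
    · linarith

theorem le_gps {x y : ℝ} (hx : 0 < x) (hy : 0 < y) (i : ℕ) : -y ≤ gps x y i := by
  induction i with
  | zero =>
    rw [gps]
    linarith
  | succ i ih =>
    rw [gps]
    split_ifs with h
    · linarith
    · push Not at h
      linarith

theorem gw_true {x y : ℝ} {i : ℕ} : gw x y i = true ↔ gps x y i ≤ 0 := by
  unfold gw
  simp

theorem gw_false {x y : ℝ} {i : ℕ} : gw x y i = false ↔ ¬ gps x y i ≤ 0 := by
  unfold gw
  simp

theorem gps_eq (x y : ℝ) (i : ℕ) :
    gps x y i = x * ((range i).filter fun j => gw x y j = true).card -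
      y * ((range i).filter fun j => gw x y j = false).card := by
  induction i with
  | zero => simp [gps]
  | succ i ih =>
    rw [range_add_one, filter_insert, filter_insert, gps]
    have hn1 : i ∉ (range i).filter fun j => gw x y j = true := by simp
    have hn2 : i ∉ (range i).filter fun j => gw x y j = false := by simp
    by_cases h1 : gps x y i ≤ 0
    · have h2 : gw x y i = true := gw_true.2 h1
      have h3 : ¬ gw x y i = false := by rw [h2]; decide
      rw [if_pos h1, if_pos h2, if_neg h3, card_insert_of_notMem hn1, ih]
      push_cast
      ring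
    · have h2 : gw x y i = false := gw_false.2 h1
      have h3 : ¬ gw x y i = true := by rw [h2]; decide
      rw [if_neg h1, if_neg h3, if_pos h2, card_insert_of_notMem hn2, ih]
      push_cast
      ring

end Pool.XD
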