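import Pool.Agent.XD.Defs
import Pool.Agent.XD.Greedy
import Pool.Agent.XD.Num

/-!
# XD: the parameters of the chains (row P)
-/

set_option autoImplicit false

namespace Pool.XD

open Finset

/-- the widths: chains of length `m`, inner width `q` -/
def wdc (m q : ℕ) (j : ℕ) : ℕ := if m ∣ j then 1 else q

/-- the types of the blocks: the greedy word in every chain -/
noncomputable def tyc (y : ℝ) (m : ℕ) (i : ℕ) : Bool := gw 1 y (i % m)

theorem wdc_pos {m q : ℕ} (hq : 1 ≤ q) (j : ℕ) : 1 ≤ wdc m q j := by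
  unfold wdc
  split_ifs <;> omega

theorem wdc_zero (m q : ℕ) : wdc m q 0 = 1 := by
  unfold wdc
  rw [if_pos (dvd_zero m)]

theorem wdc_mul (g m q : ℕ) : wdc m q (g * m) = 1 := by
  unfold wdc
  rw [if_pos (Dvd.intro_left g rfl)]

theorem wdc_le {m : ℕ} (hm : 1 ≤ m) (j : ℕ) : wdc m (8 * m) j ≤ 8 * m := by
  unfold wdc
  split_ifs <;> omega

theorem wdc_mul_ge {m : ℕ} (hm : 2 ≤ m) (j : ℕ) :
    8 * m ≤ wdc m (8 * m) j * wdc m (8 * m) (j + 1) := by
  unfold wdc
  by_cases h1 : m ∣ j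
  · have h2 : ¬ m ∣ j + 1 := by
      intro h2
      have h3 : m ∣ 1 := by
        have := Nat.dvd_sub h2 h1
        rwa [Nat.add_sub_cancel_left] at this
      have := Nat.le_of_dvd (by norm_num) h3
      omega
    rw [if_pos h1, if_neg h2]
    omega
  · rw [if_neg h1]
    split_ifs
    · omega
    · calc 8 * m = 8 * m * 1 := by ring
        _ ≤ 8 * m * (8 * m) := Nat.mul_le_mul_left _ (by omega)

theorem inner_le {g m n : ℕ} (hm : 1 ≤ m) (hn : g * (m * (8 * m)) + 1 ≤ n) :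
    1 + ∑ j ∈ Ico 1 (g * m), wdc m (8 * m) j ≤ n := by
  have h1 : ∑ j ∈ Ico 1 (g * m), wdc m (8 * m) j ≤ (Ico 1 (g * m)).card * (8 * m) := by
    have := sum_le_card_nsmul (Ico 1 (g * m)) (wdc m (8 * m)) (8 * m) fun j _ => wdc_le hm j
    rwa [smul_eq_mul] at this
  rw [Nat.card_Ico] at h1
  have h2 : (g * m - 1) * (8 * m) ≤ g * m * (8 * m) := Nat.mul_le_mul_right _ (Nat.sub_le _ _)
  have h3 : g * m * (8 * m) = g * (m * (8 * m)) := by ring
  omega

section counts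

variable (d : ℕ) (wd : ℕ → ℕ) (ty : ℕ → Bool)

theorem card_letters (t : Bool) :
    (univ.filter fun l : Ltr d wd => tyl d wd ty l = t).card =
      ∑ i ∈ univ.filter (fun i : Fin d => ty i = t), wd i * wd (i + 1) := by
  have h : (univ.filter fun l : Ltr d wd => tyl d wd ty l = t) =
      (univ.filter fun i : Fin d => ty i = t).sigma fun _ => univ := by
    ext ⟨i, a⟩
    rw [mem_sigma, mem_filter, mem_filter]
    simp only [mem_univ, true_and, and_true]
    rfl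
  rw [h, card_sigma]
  refine sum_congr rfl fun i _ => ?_
  rw [card_univ, Fintype.card_prod, Fintype.card_fin, Fintype.card_fin]

theorem letters_ge {q : ℕ} (hq : ∀ i, q ≤ wd i * wd (i + 1)) (t : Bool) :
    (univ.filter fun i : Fin d => ty i = t).card * q ≤
      (univ.filter fun l : Ltr d wd => tyl d wd ty l = t).card := by
  rw [card_letters]
  have := card_nsmul_le_sum (univ.filter fun i : Fin d => ty i = t)
    (fun i => wd i * wd (i + 1)) q fun i _ => hq i
  rwa [smul_eq_mul] at this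

end counts

theorem sum_mod_range {M : Type} [AddCommMonoid M] (F : ℕ → M) (g m : ℕ) :
    ∑ i ∈ range (g * m), F (i % m) = g • ∑ j ∈ range m, F j := by
  induction g with
  | zero => simp
  | succ g ih =>
    rw [Nat.succ_mul, sum_range_add, ih, succ_nsmul]
    congr 1
    refine sum_congr rfl fun x hx => ?_
    rw [mem_range] at hx
    rw [Nat.mul_comm g m, Nat.mul_add_mod, Nat.mod_eq_of_lt hx]

theorem card_fin_range (n : ℕ) (P : ℕ → Prop) [DecidablePred P] :
    (univ.filter fun i : Fin n => P i).card = ((range n).filter P).card := by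
  rw [card_filter, card_filter, Fin.sum_univ_eq_sum_range (fun i => if P i then 1 else 0) n]

/-- the number of blocks of a type in `g` chains -/
theorem card_tyc (g m : ℕ) (y : ℝ) (t : Bool) :
    (univ.filter fun i : Fin (g * m) => tyc y m i = t).card =
      g * ((range m).filter fun j => gw 1 y j = t).card := by
  rw [card_fin_range (g * m) (fun i => tyc y m i = t), card_filter, card_filter]
  have := sum_mod_range (fun j => if gw 1 y j = t then 1 else 0) g m
  rw [smul_eq_mul] at this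
  exact this

theorem card_true_pos {m : ℕ} (hm : 2 ≤ m) (y : ℝ) :
    1 ≤ ((range m).filter fun j => gw 1 y j = true).card := by
  apply card_pos.2
  refine ⟨0, ?_⟩
  rw [mem_filter, mem_range]
  refine ⟨by omega, gw_true.2 ?_⟩
  rw [gps]

theorem card_false_pos {m : ℕ} (hm : 2 ≤ m) (y : ℝ) :
    1 ≤ ((range m).filter fun j => gw 1 y j = false).card := by
  apply card_pos.2
  refine ⟨1, ?_⟩
  rw [mem_filter, mem_range]
  refine ⟨by omega, gw_false.2 ?_⟩
  rw [gps, gps, if_pos le_rfl]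
  norm_num

theorem card_add (m : ℕ) (y : ℝ) : ((range m).filter fun j => gw 1 y j = true).card +
    ((range m).filter fun j => gw 1 y j = false).card = m := by
  have h := card_filter_add_card_filter_not (s := range m) (fun j => gw 1 y j = true)
  rw [card_range] at h
  have h2 : (range m).filter (fun j => ¬ gw 1 y j = true) =
      (range m).filter fun j => gw 1 y j = false := by
    refine filter_congr fun j _ => ?_
    simp
  rw [h2] at h
  exact h

/-- number of blocks -/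
theorem blocks_add (g m : ℕ) (y : ℝ) :
    (univ.filter fun i : Fin (g * m) => tyc y m i = true).card +
      (univ.filter fun i : Fin (g * m) => tyc y m i = false).card = g * m := by
  rw [card_tyc, card_tyc, ← Nat.mul_add, card_add]

/-- balance -/
theorem blocks_balance (g m : ℕ) {y : ℝ} (hy : 0 < y) :
    -((g : ℝ) * y) ≤ ((univ.filter fun i : Fin (g * m) => tyc y m i = true).card : ℝ) -
      y * ((univ.filter fun i : Fin (g * m) => tyc y m i = false).card : ℝ) := by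
  rw [card_tyc, card_tyc]
  have h1 := gps_eq 1 y m
  have h2 := le_gps (x := 1) one_pos hy m
  rw [one_mul] at h1
  have hg : (0 : ℝ) ≤ g := Nat.cast_nonneg _
  have h3 := mul_le_mul_of_nonneg_left h2 hg
  rw [h1] at h3
  push_cast
  linarith

/-- the prefix products -/
theorem prefix_prod (m : ℕ) (y : ℝ) (i : ℕ) :
    ∏ j ∈ range i, (if gw 1 y j then Real.exp (1 + 1 / m) else Real.exp (-y)) =
      Real.exp (gps 1 y i + (((range i).filter fun j => gw 1 y j = true).card : ℝ) / m) := by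
  have h1 : ∀ j, (if gw 1 y j then Real.exp (1 + 1 / (m : ℝ)) else Real.exp (-y)) =
      Real.exp (if gw 1 y j = true then 1 + 1 / (m : ℝ) else -y) := by
    intro j
    split_ifs <;> rfl
  rw [prod_congr rfl fun j _ => h1 j, ← Real.exp_sum]
  congr 1
  rw [sum_ite, sum_const, sum_const, gps_eq]
  have h2 : (range i).filter (fun j => ¬ gw 1 y j = true) =
      (range i).filter fun j => gw 1 y j = false := by
    refine filter_congr fun j _ => ?_
    simp
  rw [h2]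
  simp only [nsmul_eq_mul]
  ring

theorem prefix_le {m : ℕ} (hm : 2 ≤ m) {y : ℝ} (hy : 0 < y) {i : ℕ} (hi : i ≤ m) :
    ∏ j ∈ range i, (if gw 1 y j then Real.exp (1 + 1 / m) else Real.exp (-y)) ≤ Real.exp 2 := by
  rw [prefix_prod]
  apply Real.exp_le_exp.2
  have h1 := gps_le (x := 1) one_pos hy i
  have h2 : (((range i).filter fun j => gw 1 y j = true).card : ℝ) ≤ m := by
    have h3 := card_filter_le (range i) fun j => gw 1 y j = true
    rw [card_range] at h3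
    exact_mod_cast h3.trans hi
  have hm0 : (0 : ℝ) < m := by exact_mod_cast (show 0 < m by omega)
  have h4 : (((range i).filter fun j => gw 1 y j = true).card : ℝ) / m ≤ 1 := by
    rw [div_le_one hm0]
    exact h2
  linarith

theorem le_prefix {m : ℕ} {y : ℝ} (hy : 0 < y) (hy2 : y ≤ 2) (i : ℕ) :
    1 ≤ Real.exp 2 *
      ∏ j ∈ range i, (if gw 1 y j then Real.exp (1 + 1 / m) else Real.exp (-y)) := by
  rw [prefix_prod, ← Real.exp_add]
  apply Real.one_le_exp
  have h1 := le_gps (x := 1) one_pos hy i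
  have h4 : 0 ≤ (((range i).filter fun j => gw 1 y j = true).card : ℝ) / m := by positivity
  linarith

theorem m_mul_exp_le (m : ℕ) : (m : ℝ) * Real.exp 2 ≤ ((8 * m : ℕ) : ℝ) := by
  have h1 : Real.exp 2 ≤ 8 := by
    have h2 : Real.exp 2 = Real.exp 1 * Real.exp 1 := by
      rw [← Real.exp_add]
      norm_num
    have h3 := Real.exp_one_lt_d9
    have h4 := Real.exp_pos 1
    rw [h2]
    nlinarith
  have h5 : (0 : ℝ) ≤ m := Nat.cast_nonneg _
  push_cast
  nlinarith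

/-- the degree for the letters which are contracted -/
theorem exists_LU {m r N : ℕ} (hm : 2 ≤ m) (hr : 1 ≤ r) (hN : r * (8 * m) ≤ N) :
    ∃ LU : ℕ, 2 * r ≤ LU ∧ Real.exp 1 * LU ≤ N + LU - 1 ∧
      (N : ℝ) + LU - r ≤ Real.exp (1 + 1 / m) * (LU - r + 1) := by
  obtain ⟨e, he⟩ : ∃ e : ℝ, e = Real.exp 1 := ⟨_, rfl⟩
  have he1 : 2.718 < e := by
    have := Real.exp_one_gt_d9
    linarith
  have he2 : e < 2.719 := by
    have := Real.exp_one_lt_d9
    linarith
  rw [← he]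
  have he0 : 0 < e - 1 := by linarith
  have hmr : (2 : ℝ) ≤ m := by exact_mod_cast hm
  have hrr : (1 : ℝ) ≤ r := by exact_mod_cast hr
  have hNr : (r : ℝ) * (8 * m) ≤ N := by exact_mod_cast hN
  have hrm : (r : ℝ) * 2 ≤ r * m := mul_le_mul_of_nonneg_left hmr (by linarith)
  obtain ⟨z, hz⟩ : ∃ z : ℝ, z = ((N : ℝ) - 1) / (e - 1) := ⟨_, rfl⟩
  have hz0 : 0 ≤ z := by
    rw [hz]
    apply div_nonneg _ he0.le
    linarith
  have hzN : z * (e - 1) = N - 1 := by
    rw [hz]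
    field_simp
  obtain ⟨LU, hLU⟩ : ∃ LU : ℕ, LU = ⌊z⌋₊ := ⟨_, rfl⟩
  have h1 : (LU : ℝ) ≤ z := by rw [hLU]; exact Nat.floor_le hz0
  have h2 : z < LU + 1 := by rw [hLU]; exact Nat.lt_floor_add_one z
  have h3 : (LU : ℝ) * (e - 1) ≤ N - 1 := by
    rw [← hzN]
    exact mul_le_mul_of_nonneg_right h1 he0.le
  have h4 : (N : ℝ) - 1 ≤ (LU + 1) * (e - 1) := by
    rw [← hzN]
    exact mul_le_mul_of_nonneg_right h2.le he0.le
  have h2r : 2 * r ≤ LU := by
    rw [hLU]
    apply Nat.le_floor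
    rw [hz, le_div_iff₀ he0]
    push_cast
    have : 2 * (r : ℝ) * (e - 1) ≤ 2 * r * 1.719 :=
      mul_le_mul_of_nonneg_left (by linarith) (by linarith)
    linarith
  refine ⟨LU, h2r, by linarith, ?_⟩
  have h2rr : 2 * (r : ℝ) ≤ LU := by exact_mod_cast h2r
  obtain ⟨δ, hδ⟩ : ∃ δ : ℝ, δ = 1 / (m : ℝ) := ⟨_, rfl⟩
  have hδm : δ * m = 1 := by
    rw [hδ]
    field_simp
  have hδ0 : 0 < δ := by rw [hδ]; positivity
  have hδ2 : δ ≤ 1 / 2 := by
    rw [hδ]
    apply one_div_le_one_div_of_le (by norm_num) hmr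
  rw [← hδ, Real.exp_add, ← he]
  have h5 : 1 + δ ≤ Real.exp δ := by
    have := Real.add_one_le_exp δ
    linarith
  have hLr : (0 : ℝ) ≤ LU - r + 1 := by linarith
  have h6 : e * (1 + δ) * (LU - r + 1) ≤ e * Real.exp δ * (LU - r + 1) :=
    mul_le_mul_of_nonneg_right (mul_le_mul_of_nonneg_left h5 (by linarith)) hLr
  refine le_trans ?_ h6
  -- `δ (LU + 1) (e - 1) ≥ 7.5 r`
  have h7 : 7.5 * (r : ℝ) ≤ δ * ((LU + 1) * (e - 1)) := by
    have h8 : δ * ((r : ℝ) * (8 * m) - 1) ≤ δ * ((LU + 1) * (e - 1)) :=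
      mul_le_mul_of_nonneg_left (by linarith) hδ0.le
    have h9 : δ * ((r : ℝ) * (8 * m) - 1) = 8 * r * (δ * m) - δ := by ring
    rw [hδm] at h9
    linarith
  have h10 : e * (7.5 * (r : ℝ)) ≤ e * (δ * ((LU + 1) * (e - 1))) :=
    mul_le_mul_of_nonneg_left h7 (by linarith)
  -- `r (e (1 + δ) - 1) (e - 1) ≤ 7.5 e r`
  have h11 : r * (e * (1 + δ) - 1) * (e - 1) ≤ e * (7.5 * (r : ℝ)) := by
    have h12 : e * (1 + δ) - 1 ≤ 3.1 := by
      have : e * (1 + δ) ≤ e * 1.5 := mul_le_mul_of_nonneg_left (by linarith) (by linarith)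
      linarith
    have h13 : r * (e * (1 + δ) - 1) ≤ r * 3.1 := mul_le_mul_of_nonneg_left h12 (by linarith)
    have h14 : r * (e * (1 + δ) - 1) * (e - 1) ≤ r * 3.1 * (e - 1) :=
      mul_le_mul_of_nonneg_right h13 he0.le
    have h15 : r * 3.1 * (e - 1) ≤ r * 3.1 * e :=
      mul_le_mul_of_nonneg_left (by linarith) (by linarith)
    nlinarith
  have h16 : r * (e * (1 + δ) - 1) * (e - 1) ≤ e * δ * (LU + 1) * (e - 1) := by linarith
  have h17 : r * (e * (1 + δ) - 1) ≤ e * δ * (LU + 1) := le_of_mul_le_mul_right h16 he0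
  linarith

/-- the degree for the letters which multiply -/
theorem exists_LV {N : ℕ} {y : ℝ} (hy : 0 < y) (hN : 1 ≤ N) :
    ∃ LV : ℕ, (N : ℝ) + LV ≤ Real.exp y * (LV + 1) ∧
      (LV : ℝ) ≤ Real.exp (-y) * (N + LV - 1) := by
  obtain ⟨e, he⟩ : ∃ e : ℝ, e = Real.exp y := ⟨_, rfl⟩
  have he0 : 0 < e - 1 := by
    have := Real.add_one_le_exp y
    rw [he]
    linarith
  have hNr : (1 : ℝ) ≤ N := by exact_mod_cast hN
  rw [Real.exp_neg, ← he]
  obtain ⟨z, hz⟩ : ∃ z : ℝ, z = ((N : ℝ) - 1) / (e - 1) := ⟨_, rfl⟩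
  have hz0 : 0 ≤ z := by
    rw [hz]
    apply div_nonneg _ he0.le
    linarith
  have hzN : z * (e - 1) = N - 1 := by
    rw [hz]
    field_simp
  refine ⟨⌊z⌋₊, ?_, ?_⟩
  · have h2 : z < ⌊z⌋₊ + 1 := Nat.lt_floor_add_one z
    have h4 : (N : ℝ) - 1 ≤ (⌊z⌋₊ + 1) * (e - 1) := by
      rw [← hzN]
      exact mul_le_mul_of_nonneg_right h2.le he0.le
    linarith
  · have h1 : (⌊z⌋₊ : ℝ) ≤ z := Nat.floor_le hz0
    have h3 : (⌊z⌋₊ : ℝ) * (e - 1) ≤ N - 1 := by
      rw [← hzN]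
      exact mul_le_mul_of_nonneg_right h1 he0.le
    rw [inv_mul_eq_div, le_div_iff₀ (by linarith)]
    linarith

/-- **ROW P**: all parameters of `g` chains of length `m` -/
theorem params {g m : ℕ} {y : ℝ} (hg : 1 ≤ g) (hm : 2 ≤ m) (hy : 0 < y) (hy1 : y ≤ 1) {r E : ℕ}
    (hr : r = (univ.filter fun i : Fin (g * m) => tyc y m i = true).card)
    (hE : E = (univ.filter fun i : Fin (g * m) => tyc y m i = false).card) :
    1 ≤ nU (tyl (g * m) (wdc m (8 * m)) (tyc y m)) ∧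
    1 ≤ nV (tyl (g * m) (wdc m (8 * m)) (tyc y m)) ∧
    r + E = g * m ∧ -((g : ℝ) * y) ≤ r - y * E ∧
    ∃ LU LV : ℕ, 2 * r ≤ LU ∧
      Real.exp 1 * LU ≤ nU (tyl (g * m) (wdc m (8 * m)) (tyc y m)) + LU - 1 ∧
      (nV (tyl (g * m) (wdc m (8 * m)) (tyc y m)) : ℝ) + LV ≤ Real.exp y * (LV + 1) ∧
      (nU (tyl (g * m) (wdc m (8 * m)) (tyc y m)) : ℝ) + LU - r ≤
        Real.exp (1 + 1 / m) * (LU - r + 1) ∧
      (LV : ℝ) ≤ Real.exp (-y) * (nV (tyl (g * m) (wdc m (8 * m)) (tyc y m)) + LV - 1) := by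
  have _ := hy1
  have hr1 : 1 ≤ r := by
    rw [hr, card_tyc]
    exact Nat.mul_pos hg (card_true_pos hm y)
  have hE1 : 1 ≤ E := by
    rw [hE, card_tyc]
    exact Nat.mul_pos hg (card_false_pos hm y)
  have hU := letters_ge (g * m) (wdc m (8 * m)) (tyc y m) (wdc_mul_ge hm) true
  have hV := letters_ge (g * m) (wdc m (8 * m)) (tyc y m) (wdc_mul_ge hm) false
  rw [← hr] at hU
  rw [← hE] at hV
  have hnU : 1 ≤ nU (tyl (g * m) (wdc m (8 * m)) (tyc y m)) := by
    refine le_trans ?_ hU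
    exact Nat.mul_pos hr1 (by omega)
  have hnV : 1 ≤ nV (tyl (g * m) (wdc m (8 * m)) (tyc y m)) := by
    refine le_trans ?_ hV
    exact Nat.mul_pos hE1 (by omega)
  obtain ⟨LU, h1, h2, h3⟩ := exists_LU hm hr1 hU
  obtain ⟨LV, h4, h5⟩ := exists_LV hy hnV
  refine ⟨hnU, hnV, ?_, ?_, LU, LV, h1, h2, h4, h3, h5⟩
  · rw [hr, hE]
    exact blocks_add g m y
  · rw [hr, hE]
    exact blocks_balance g m hy

theorem prefixes {m : ℕ} {y : ℝ} (hm : 2 ≤ m) (hy : 0 < y) (hy1 : y ≤ 1) {i : ℕ} (hi : i ≤ m) :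
    ∏ j ∈ range i, (if gw 1 y j then Real.exp (1 + 1 / m) else Real.exp (-y)) ≤ Real.exp 2 ∧
    1 ≤ Real.exp 2 *
      ∏ j ∈ range i, (if gw 1 y j then Real.exp (1 + 1 / m) else Real.exp (-y)) :=
  ⟨prefix_le hm hy hi, le_prefix hy (by linarith) i⟩

theorem xd_final' (k : ℕ) (Bc : ℝ) (hBc : 1 ≤ Bc) : ∃ C : ℝ, 0 < C ∧
    ∀ n T S w w0 : ℕ, 1 ≤ T → 2 ≤ S → 1 ≤ w → 1 ≤ w0 →
    ∃ (y : ℝ) (m : ℕ) (X Y : ℕ → ℝ), 0 < y ∧ y ≤ 1 ∧ 2 ≤ m ∧ X 0 = 1 ∧ Y 0 = 1 ∧
      (∀ i, 0 < X i) ∧ (∀ i, 0 < Y i) ∧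
      (∀ d ≤ n, ∀ i ≤ 2 * k, NumD d (S * (d + 1) ^ (8 * (w0 + w) + 16)) (Real.exp 1)
        (Real.exp y) (X i) (Y i) (X (i + 1)) (Y (i + 1))) ∧
      ((∀ g : ℕ, 1 ≤ g → g * (m * (8 * m)) + 1 ≤ n → ∃ r E : ℕ, r + E = g * m ∧
          -((g : ℝ) * y) ≤ r - y * E ∧
          Real.exp 1 ^ r ≤ T * ((g * m : ℕ) + 1 : ℝ) ^ 16 *
            (X (2 * k + 1) ^ r * Y (2 * k + 1) ^ E) * Bc ^ g) →
        (n : ℝ) ≤ C * Real.log (2 * n * T) *
          (Real.log S + (w + w0) * Real.log (2 * n)) ^ (2 * (Nat.fib (2 * k + 4) - 2))) := by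
  obtain ⟨C, hC, h⟩ := xd_final k 16 8 (by norm_num) Bc hBc
  refine ⟨C, hC, ?_⟩
  intro n T S w w0 hT hS hw hw0
  obtain ⟨A, B, m, X, Y, hB, hBA, hm, hX0, hY0, hX, hY, hnum, hfin⟩ := h n T S w w0 hT hS hw hw0
  have hBr : (0 : ℝ) < B := by exact_mod_cast hB
  have hAr : (0 : ℝ) < A := by exact_mod_cast hB.trans hBA
  refine ⟨(B : ℝ) / A, m, X, Y, by positivity, ?_, hm, hX0, hY0, hX, hY, ?_, hfin⟩
  · rw [div_le_one hAr]
    exact_mod_cast hBA
  · intro d hd i hi b e hbe _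
    rcases hnum i (by omega) b e hbe with h1 | h1 | h1
    · exact Or.inr (Or.inl h1)
    · exact Or.inl h1
    · refine Or.inr (Or.inr (le_trans ?_ h1))
      apply mul_le_mul_of_nonneg_right
      · apply mul_le_mul_of_nonneg_left _ (Nat.cast_nonneg _)
        have h2 : ((d : ℝ) + 1) ≤ n + 1 := by
          have : (d : ℝ) ≤ n := by exact_mod_cast hd
          linarith
        have h3 : (0 : ℝ) ≤ (d : ℝ) + 1 := by positivity
        calc ((d : ℝ) + 1) ^ (8 * (w0 + w) + 16) ≤ ((n : ℝ) + 1) ^ (8 * (w0 + w) + 16) :=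
              pow_le_pow_left₀ h3 h2 _
          _ ≤ ((n : ℝ) + 1) ^ (16 * (w + w0)) := by
            apply pow_le_pow_right₀
            · have : (0 : ℝ) ≤ n := Nat.cast_nonneg _
              linarith
            · omega
      · have := hX i
        have := hY i
        positivity

end Pool.XD
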