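import Pool.Agent.XD.Defs
import Pool.Agent.XD.Aff
import Pool.Agent.Helper97.Form.Perm

/-!
# XD, row F1: the chain polynomial is a projection of the permanent

* `perm_chn`: the chain polynomial is the value of the permanent at a matrix of affine forms;
* `chn_mem`: the bidegree of the chain polynomial;
* `cf_PhiX_chn`: the top part of the shifted chain polynomial.
-/

set_option autoImplicit false
set_option linter.unusedVariables false

namespace Pool.XD

open Finset Pool.Agent.Helper87.D3 Pool.Agent.Helper41.CD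

section paths

variable {A : Type} [CommRing A]

/-- total weight of the paths of length `m` from the vertex `a` of the layer `j` -/
def PS (wd : ℕ → ℕ) (W : ℕ → ℕ → ℕ → A) : ℕ → ℕ → ℕ → A
  | 0, _, _ => 1
  | m + 1, j, a => ∑ b ∈ range (wd (j + 1)), W j a b * PS wd W m (j + 1) b

theorem PS_succ (wd : ℕ → ℕ) (W : ℕ → ℕ → ℕ → A) (m j a : ℕ) :
    PS wd W (m + 1) j a = ∑ b ∈ range (wd (j + 1)), W j a b * PS wd W m (j + 1) b := rfl

theorem PS_shift (wd : ℕ → ℕ) (W : ℕ → ℕ → ℕ → A) (m : ℕ) : ∀ j a : ℕ,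
    PS (fun i => wd (i + 1)) (fun i => W (i + 1)) m j a = PS wd W m (j + 1) a := by
  induction m with
  | zero => intro j a; rfl
  | succ m ih =>
    intro j a
    unfold PS
    exact sum_congr rfl fun b _ => by rw [ih]

/-- the words with a given first vertex -/
theorem sum_words (m : ℕ) : ∀ (wd : ℕ → ℕ) (W : ℕ → ℕ → ℕ → A) (a : Fin (wd 0)),
    ∑ s : (i : Fin m) → Fin (wd (i + 1)), ∏ i : Fin m,
      W i (Fin.cons (α := fun j : Fin (m + 1) => Fin (wd j)) a s i.castSucc)
        (Fin.cons (α := fun j : Fin (m + 1) => Fin (wd j)) a s i.succ) = PS wd W m 0 a := by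
  induction m with
  | zero =>
    intro wd W a
    rw [Fintype.sum_unique]
    rfl
  | succ m ih =>
    intro wd W a
    have e1 := (Fin.consEquiv (fun j : Fin (m + 1) => Fin (wd (j + 1)))).sum_comp
      (fun s : (i : Fin (m + 1)) → Fin (wd (i + 1)) => ∏ i : Fin (m + 1),
      W i (Fin.cons (α := fun j : Fin (m + 1 + 1) => Fin (wd j)) a s i.castSucc)
        (Fin.cons (α := fun j : Fin (m + 1 + 1) => Fin (wd j)) a s i.succ))
    rw [← e1, Fintype.sum_prod_type]
    unfold PS
    rw [← Fin.sum_univ_eq_sum_range (fun b => W 0 a b * PS wd W m (0 + 1) b)]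
    refine sum_congr rfl fun b _ => ?_
    rw [← PS_shift wd W m 0 b]
    have h2 := ih (fun i => wd (i + 1)) (fun i => W (i + 1)) b
    rw [← h2, mul_sum]
    refine sum_congr rfl fun s _ => ?_
    rw [Fin.prod_univ_succ]
    rfl

/-- the total weight of the words -/
theorem sum_wrd (d : ℕ) (wd : ℕ → ℕ) (W : ℕ → ℕ → ℕ → A) (hw0 : wd 0 = 1) :
    ∑ s : Wrd d wd, ∏ i : Fin d, W i (s i.castSucc) (s i.succ) = PS wd W d 0 0 := by
  have e1 := (Fin.consEquiv (fun j : Fin (d + 1) => Fin (wd j))).sum_comp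
    (fun s : Wrd d wd => ∏ i : Fin d, W i (s i.castSucc) (s i.succ))
  rw [← e1, Fintype.sum_prod_type]
  let a0 : Fin (wd ((0 : Fin (d + 1)) : ℕ)) := ⟨0, by show 0 < wd 0; omega⟩
  refine (sum_eq_single a0 ?_ ?_).trans ?_
  · intro a _ ha
    exfalso
    apply ha
    apply Fin.ext
    show (a : ℕ) = 0
    have h1 : (a : ℕ) < wd 0 := a.2
    omega
  · intro h
    exact absurd (mem_univ _) h
  · exact sum_words d wd W a0

end paths

section graph

variable {A : Type} [CommRing A] (d : ℕ) (wd : ℕ → ℕ) (k0 : ℕ) (W : ℕ → ℕ → ℕ → A)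

/-- the inner vertices and the padding -/
abbrev Vt : Type := ((j : Fin (d - 1)) × Fin (wd (j + 1))) ⊕ Fin k0

/-- the edges between the inner vertices -/
def gN : Vt d wd k0 → Vt d wd k0 → A
  | Sum.inl i, Sum.inl j => if (j.1 : ℕ) = i.1 + 1 then W (i.1 + 1) i.2 j.2 else 0
  | _, _ => 0

/-- the edges from the first vertex -/
def gu : Vt d wd k0 → A
  | Sum.inl i => if (i.1 : ℕ) = 0 then W 0 0 i.2 else 0
  | _ => 0

/-- the edges to the last vertex -/
def gv : Vt d wd k0 → A
  | Sum.inl i => if (i.1 : ℕ) + 1 = d - 1 then W (d - 1) i.2 0 else 0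
  | _ => 0

/-- the value of a vertex -/
def gx : Vt d wd k0 → A
  | Sum.inl i => PS wd W (d - (i.1 + 1)) (i.1 + 1) i.2
  | _ => 0

/-- the rank of a vertex -/
def grk : Vt d wd k0 → ℕ
  | Sum.inl i => d - i.1
  | _ => 0

theorem gN_acyclic (i j : Vt d wd k0) (h : gN d wd k0 W i j ≠ 0) :
    grk d wd k0 j < grk d wd k0 i := by
  rcases i with i | i <;> rcases j with j | j
  · by_cases hj : (j.1 : ℕ) = i.1 + 1
    · have := i.1.2
      unfold grk
      simp only
      omega
    · exact absurd (if_neg hj) h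
  all_goals exact absurd rfl h

theorem gx_rec (hw1 : wd d = 1) (i : Vt d wd k0) :
    gx d wd k0 W i = gv d wd k0 W i + ∑ j, gN d wd k0 W i j * gx d wd k0 W j := by
  rcases i with i | i
  swap
  · have h1 : ∀ j, gN d wd k0 W (Sum.inr i) j = 0 := fun j => rfl
    simp only [h1, zero_mul, sum_const_zero, add_zero]
    rfl
  obtain ⟨j, a⟩ := i
  have hj := j.2
  rw [Fintype.sum_sum_type]
  have h2 : ∑ j' : Fin k0, gN d wd k0 W (Sum.inl ⟨j, a⟩) (Sum.inr j') *
      gx d wd k0 W (Sum.inr j') = 0 := by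
    refine sum_eq_zero fun j' _ => ?_
    exact zero_mul _
  rw [h2, add_zero, Fintype.sum_sigma]
  by_cases hl : (j : ℕ) + 1 = d - 1
  · -- the last inner layer
    have h3 : ∀ j' : Fin (d - 1), ∑ b : Fin (wd (j' + 1)),
        gN d wd k0 W (Sum.inl ⟨j, a⟩) (Sum.inl ⟨j', b⟩) * gx d wd k0 W (Sum.inl ⟨j', b⟩) = 0 := by
      intro j'
      refine sum_eq_zero fun b _ => ?_
      have : ¬ (j' : ℕ) = j + 1 := by
        have := j'.2
        omega
      show (if (j' : ℕ) = j + 1 then _ else (0 : A)) * _ = 0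
      rw [if_neg this, zero_mul]
    rw [sum_congr rfl fun j' _ => h3 j', sum_const_zero, add_zero]
    show PS wd W (d - (j + 1)) (j + 1) a = if (j : ℕ) + 1 = d - 1 then W (d - 1) a 0 else 0
    rw [if_pos hl]
    have e1 : d - (j + 1) = 1 := by omega
    rw [e1]
    unfold PS
    have e2 : (j : ℕ) + 1 + 1 = d := by omega
    have e3 : ∀ x : ℕ, W (j + 1) x 0 = W (d - 1) x 0 := fun x => by rw [hl]
    rw [e2, hw1, range_one, sum_singleton, e3]
    unfold PS
    rw [mul_one]
  · -- the other layers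
    have h4 : gv d wd k0 W (Sum.inl ⟨j, a⟩) = 0 := if_neg hl
    rw [h4, zero_add]
    let j1 : Fin (d - 1) := ⟨j + 1, by omega⟩
    rw [sum_eq_single j1]
    · show PS wd W (d - (j + 1)) (j + 1) a = ∑ b : Fin (wd (j1 + 1)),
        (if (j1 : ℕ) = j + 1 then W (j + 1) a b else 0) * PS wd W (d - (j1 + 1)) (j1 + 1) b
      obtain ⟨m, hm⟩ : ∃ m, d - (j + 1) = m + 1 := ⟨d - (j + 1) - 1, by omega⟩
      rw [hm, PS_succ,
        ← Fin.sum_univ_eq_sum_range (fun b => W (j + 1) a b * PS wd W m (j + 1 + 1) b)]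
      refine sum_congr rfl fun b _ => ?_
      rw [if_pos rfl]
      have e3 : d - ((j1 : ℕ) + 1) = m := by
        show d - ((j : ℕ) + 1 + 1) = m
        omega
      rw [e3]
    · intro j' _ hj'
      refine sum_eq_zero fun b _ => ?_
      have : ¬ (j' : ℕ) = j + 1 := fun h => hj' (Fin.ext h)
      show (if (j' : ℕ) = j + 1 then _ else (0 : A)) * _ = 0
      rw [if_neg this, zero_mul]
    · intro h
      exact absurd (mem_univ _) h

theorem sum_gu (hd : 1 ≤ d) (hw1 : wd d = 1) :
    (if d = 1 then W 0 0 0 else 0) + ∑ i, gu d wd k0 W i * gx d wd k0 W i = PS wd W d 0 0 := by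
  rw [Fintype.sum_sum_type]
  have h2 : ∑ j' : Fin k0, gu d wd k0 W (Sum.inr j') * gx d wd k0 W (Sum.inr j') = 0 := by
    refine sum_eq_zero fun j' _ => ?_
    exact zero_mul _
  rw [h2, add_zero, Fintype.sum_sigma]
  by_cases h1 : d = 1
  · subst h1
    rw [if_pos rfl]
    have h3 : (univ : Finset (Fin (1 - 1))) = ∅ := by
      apply eq_empty_of_forall_notMem
      intro x
      exact absurd x.2 (by omega)
    rw [h3, sum_empty, add_zero]
    unfold PS
    rw [zero_add, hw1, range_one, sum_singleton]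
    unfold PS
    rw [mul_one]
  · rw [if_neg h1, zero_add]
    obtain ⟨j1, hj1⟩ : ∃ j1 : Fin (d - 1), (j1 : ℕ) = 0 := ⟨⟨0, by omega⟩, rfl⟩
    rw [sum_eq_single j1]
    · obtain ⟨m, hm⟩ : ∃ m, d = m + 1 := ⟨d - 1, by omega⟩
      show ∑ b : Fin (wd (j1 + 1)), (if (j1 : ℕ) = 0 then W 0 0 b else 0) *
        PS wd W (d - (j1 + 1)) (j1 + 1) b = _
      rw [Fin.sum_univ_eq_sum_range (fun b => (if (j1 : ℕ) = 0 then W 0 0 b else 0) *
        PS wd W (d - (j1 + 1)) (j1 + 1) b)]
      have e1 : d - ((j1 : ℕ) + 1) = m := by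
        rw [hj1]
        omega
      have e2 : PS wd W d 0 0 = PS wd W (m + 1) 0 0 := by rw [hm]
      rw [e1, e2, PS_succ, hj1]
      exact sum_congr rfl fun b _ => by rw [if_pos rfl]
    · intro j' _ hj'
      refine sum_eq_zero fun b _ => ?_
      have : ¬ (j' : ℕ) = 0 := fun h => hj' (Fin.ext (h.trans hj1.symm))
      show (if (j' : ℕ) = 0 then _ else (0 : A)) * _ = 0
      rw [if_neg this, zero_mul]
    · intro h
      exact absurd (mem_univ _) h

theorem perm_graph (hd : 1 ≤ d) (hw1 : wd d = 1) :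
    (Pool.Agent.Helper97.Form.acy (if d = 1 then W 0 0 0 else 0) (gu d wd k0 W) (gv d wd k0 W)
      (gN d wd k0 W)).permanent = PS wd W d 0 0 := by
  rw [Pool.Agent.Helper97.Form.perm_acy (grk d wd k0) _ _ _ (gx d wd k0 W) _
    (gN_acyclic d wd k0 W) (gx_rec d wd k0 W hw1), sum_gu d wd k0 W hd hw1]

end graph

section chn

variable (d : ℕ) (wd : ℕ → ℕ)

/-- the weights of the edges: the letters -/
noncomputable def wX (R : Type) [CommRing R] (i a b : ℕ) : MvPolynomial (Ltr d wd) R :=
  if h : i < d ∧ a < wd i ∧ b < wd (i + 1) then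
    MvPolynomial.X ⟨⟨i, h.1⟩, ⟨a, h.2.1⟩, ⟨b, h.2.2⟩⟩ else 0

theorem wX_ltr (R : Type) [CommRing R] (s : Wrd d wd) (i : Fin d) :
    wX d wd R i (s i.castSucc) (s i.succ) = MvPolynomial.X (ltr s i) := by
  have h : (i : ℕ) < d ∧ (s i.castSucc : ℕ) < wd i ∧ (s i.succ : ℕ) < wd (i + 1) :=
    ⟨i.2, (s i.castSucc).2, (s i.succ).2⟩
  unfold wX
  rw [dif_pos h]
  rfl

theorem totalDegree_X_le' {σ R : Type} [CommRing R] (i : σ) :
    (MvPolynomial.X i : MvPolynomial σ R).totalDegree ≤ 1 := by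
  rcases subsingleton_or_nontrivial R with h | h
  · have : (MvPolynomial.X i : MvPolynomial σ R) = 0 := Subsingleton.elim _ _
    rw [this, MvPolynomial.totalDegree_zero]
    omega
  · rw [MvPolynomial.totalDegree_X]

theorem wX_le (R : Type) [CommRing R] (i a b : ℕ) : (wX d wd R i a b).totalDegree ≤ 1 := by
  unfold wX
  split_ifs
  · exact totalDegree_X_le' _
  · rw [MvPolynomial.totalDegree_zero]
    omega

theorem chn_eq_path (R : Type) [CommRing R] (hw0 : wd 0 = 1) :
    chn d wd R = PS wd (wX d wd R) d 0 0 := by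
  rw [← sum_wrd d wd _ hw0]
  unfold chn
  exact sum_congr rfl fun s _ => prod_congr rfl fun i _ => (wX_ltr d wd R s i).symm

/-- **the chain polynomial is a projection of the permanent** -/
theorem perm_chn (d : ℕ) (wd : ℕ → ℕ) (hd : 1 ≤ d) (hwd : ∀ j, 1 ≤ wd j) (hw0 : wd 0 = 1)
    (hw1 : wd d = 1) {n : ℕ} (hn : 1 + ∑ j ∈ Ico 1 d, wd j ≤ n) :
    ∃ φ : Fin n × Fin n → MvPolynomial (Ltr d wd) ℤ, (∀ p, (φ p).totalDegree ≤ 1) ∧
      MvPolynomial.aeval φ (Pool.CDep.permP n ℤ) = chn d wd ℤ := by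
  classical
  have hc : Fintype.card ((j : Fin (d - 1)) × Fin (wd (j + 1))) = ∑ j ∈ Ico 1 d, wd j := by
    rw [Fintype.card_sigma]
    simp only [Fintype.card_fin]
    rw [Fin.sum_univ_eq_sum_range (fun j => wd (j + 1)), sum_Ico_eq_sum_range]
    exact sum_congr rfl fun j _ => by rw [add_comm]
  set k0 : ℕ := n - 1 - ∑ j ∈ Ico 1 d, wd j with hk0
  have hn' : Fintype.card (Option (Vt d wd k0)) = n := by
    rw [Fintype.card_option, Fintype.card_sum, Fintype.card_fin, hc]
    omega
  let e : Fin n ≃ Option (Vt d wd k0) :=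
    (finCongr hn'.symm).trans (Fintype.equivFin _).symm
  let W := wX d wd ℤ
  let M : Matrix (Option (Vt d wd k0)) (Option (Vt d wd k0)) (MvPolynomial (Ltr d wd) ℤ) :=
    Pool.Agent.Helper97.Form.acy (if d = 1 then W 0 0 0 else 0) (gu d wd k0 W) (gv d wd k0 W)
      (gN d wd k0 W)
  have hWd : ∀ i a b, (W i a b).totalDegree ≤ 1 := wX_le d wd ℤ
  have hz : (0 : MvPolynomial (Ltr d wd) ℤ).totalDegree ≤ 1 := by
    rw [MvPolynomial.totalDegree_zero]
    omega
  have hM : ∀ i j, (M i j).totalDegree ≤ 1 := by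
    rintro (_ | i) (_ | j)
    · show (if d = 1 then W 0 0 0 else 0).totalDegree ≤ 1
      split_ifs
      · exact hWd _ _ _
      · exact hz
    · show (gu d wd k0 W j).totalDegree ≤ 1
      rcases j with j | j
      · show (if (j.1 : ℕ) = 0 then W 0 0 j.2 else 0).totalDegree ≤ 1
        split_ifs
        · exact hWd _ _ _
        · exact hz
      · exact hz
    · show (gv d wd k0 W i).totalDegree ≤ 1
      rcases i with i | i
      · show (if (i.1 : ℕ) + 1 = d - 1 then W (d - 1) i.2 0 else 0).totalDegree ≤ 1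
        split_ifs
        · exact hWd _ _ _
        · exact hz
      · exact hz
    · show ((if i = j then 1 else 0) + gN d wd k0 W i j).totalDegree ≤ 1
      refine (MvPolynomial.totalDegree_add _ _).trans (max_le ?_ ?_)
      · split_ifs
        · rw [MvPolynomial.totalDegree_one]
          omega
        · exact hz
      · rcases i with i | i <;> rcases j with j | j
        · show (if (j.1 : ℕ) = i.1 + 1 then W (i.1 + 1) i.2 j.2 else 0).totalDegree ≤ 1
          split_ifs
          · exact hWd _ _ _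
          · exact hz
        all_goals exact hz
  refine ⟨fun p => M (e p.1) (e p.2), fun p => hM _ _, ?_⟩
  rw [chn_eq_path d wd ℤ hw0, ← perm_graph d wd k0 W hd hw1,
    ← Pool.Agent.Helper97.Form.permanent_reindex e e]
  have h2 : MvPolynomial.aeval (fun p : Fin n × Fin n => M (e p.1) (e p.2))
      (Pool.CDep.permP n ℤ) =
      ((MvPolynomial.aeval (fun p : Fin n × Fin n => M (e p.1) (e p.2)) :
        MvPolynomial (Fin n × Fin n) ℤ →ₐ[ℤ] MvPolynomial (Ltr d wd) ℤ) : _ →+* _)
        (Pool.CDep.permP n ℤ) := rfl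
  rw [h2]
  unfold Pool.CDep.permP
  rw [Pool.CDep.map_permanent']
  congr 1
  refine Matrix.ext fun i j => ?_
  show MvPolynomial.aeval (fun p : Fin n × Fin n => M (e p.1) (e p.2))
    (MvPolynomial.X (i, j)) = _
  rw [MvPolynomial.aeval_X]
  rfl

/-- the bidegree of the chain polynomial -/
theorem chn_mem (d : ℕ) (wd : ℕ → ℕ) (ty : ℕ → Bool) (R : Type) [CommRing R] :
    chn d wd R ∈ UU (tyl d wd ty) R (univ.filter fun i : Fin d => ty i = true).card ∧
    chn d wd R ∈ VV (tyl d wd ty) R (univ.filter fun i : Fin d => ty i = false).card := by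
  have key : ∀ wt : Ltr d wd → ℕ, ∀ D : ℕ, (∀ s : Wrd d wd, ∑ i : Fin d, wt (ltr s i) = D) →
      chn d wd R ∈ MvPolynomial.weightedHomogeneousSubmodule R wt D := by
    intro wt D hD
    refine Submodule.sum_mem _ fun s _ => ?_
    rw [MvPolynomial.mem_weightedHomogeneousSubmodule, ← hD s]
    exact MvPolynomial.IsWeightedHomogeneous.prod univ _ _ fun i _ =>
      MvPolynomial.isWeightedHomogeneous_X R wt _
  constructor
  · refine key _ _ fun s => ?_
    rw [card_filter]
    rfl
  · refine key _ _ fun s => ?_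
    rw [card_filter]
    refine sum_congr rfl fun i _ => ?_
    show (if ty i then 0 else 1) = if ty i = false then 1 else 0
    rcases ty i with _ | _ <;> rfl

/-- **the top part of the shifted chain polynomial** -/
theorem cf_PhiX_chn {K : Type} [Field K] (d : ℕ) (wd : ℕ → ℕ) (ty : ℕ → Bool)
    (c : Ltr d wd → K) :
    cf (univ.filter fun i : Fin d => ty i = true).card
      (univ.filter fun i : Fin d => ty i = false).card
        (PhiX (tyl d wd ty) c (chn d wd K)) = chn d wd K := by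
  have h1 : (univ.filter fun i : Fin d => ty i = false) =
      univ.filter fun i : Fin d => ¬ ty i = true := by
    ext i
    simp
  rw [h1]
  unfold chn
  rw [map_sum, cf_sum]
  refine sum_congr rfl fun s _ => ?_
  rw [map_prod]
  have h2 := cf_prod_aff_top (univ : Finset (Fin d)) (fun i : Fin d => ty i = true)
    (fun i => (MvPolynomial.C (c (ltr s i)) : MvPolynomial (Ltr d wd) K))
    (fun i => MvPolynomial.X (ltr s i))
  rw [← h2]
  congr 1
  refine prod_congr rfl fun i _ => ?_
  unfold PhiX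
  rw [MvPolynomial.aeval_X]
  congr 1
  show (if ty i then _ else _) * _ = _
  split_ifs <;> rfl

end chn

end Pool.XD
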