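import Pool.Agent.XD.Defs
import Pool.Agent.XD.Measure
import Pool.Agent.CDep.Plug
import Pool.Agent.CDep.Val

/-!
# XD, row F2: the substitution `X l ↦ c l + lam * X l` or `c l + mu * X l`
-/

set_option autoImplicit false
set_option linter.unusedSectionVars false

namespace Pool.XD

open Finset Pool.Agent.Helper87.D3 Pool.Agent.Helper41.CD

section shift

variable {L : Type} [Fintype L] (ty : L → Bool) {K : Type} [Field K]

/-- the elements of `VV 0` and of `UU 0` as subalgebras -/
theorem exists_sub : ∃ SU SV : Subalgebra K (MvPolynomial L K),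
    (∀ a, a ∈ SU ↔ a ∈ VV ty K 0) ∧ (∀ a, a ∈ SV ↔ a ∈ UU ty K 0) := by
  refine ⟨(VV ty K 0).toSubalgebra (filt_VV ty).one
    (fun x y hx hy => (filt_VV ty).mul 0 0 x y hx hy),
    (UU ty K 0).toSubalgebra (filt_UU ty).one
    (fun x y hx hy => (filt_UU ty).mul 0 0 x y hx hy), fun a => Iff.rfl, fun a => Iff.rfl⟩

theorem X_mem_VV (l : L) : (MvPolynomial.X l : MvPolynomial L K) ∈ VV ty K (if ty l then 0 else 1) := by
  rw [VV, MvPolynomial.mem_weightedHomogeneousSubmodule]
  exact MvPolynomial.isWeightedHomogeneous_X K _ l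

theorem X_mem_UU (l : L) : (MvPolynomial.X l : MvPolynomial L K) ∈ UU ty K (if ty l then 1 else 0) := by
  rw [UU, MvPolynomial.mem_weightedHomogeneousSubmodule]
  exact MvPolynomial.isWeightedHomogeneous_X K _ l

theorem big_X : Big (Pool.CD.Bi (VV ty K) (UU ty K)) := Pool.CD.big_Bi (filt_VV ty) (filt_UU ty)

theorem PhiX_C (c : L → K) (a : K) :
    PhiX ty c (MvPolynomial.C a) = cst (algebraMap K (MvPolynomial L K) a) := by
  rw [PhiX, MvPolynomial.aeval_C, Pool.Agent.Helper59.CD.algebraMap_ser]

theorem PhiX_X (c : L → K) (l : L) : PhiX ty c (MvPolynomial.X l) = cst (MvPolynomial.C (c l)) +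
    (if ty l then lam (MvPolynomial L K) else mu (MvPolynomial L K)) * cst (MvPolynomial.X l) := by
  rw [PhiX, MvPolynomial.aeval_X]

theorem PhiX_mem (c : L → K) (f : MvPolynomial L K) :
    InB (Pool.CD.Bi (VV ty K) (UU ty K)) (PhiX ty c f) := by
  induction f using MvPolynomial.induction_on with
  | C a =>
    rw [PhiX_C]
    exact InB.cst (big_X ty) a
  | add p q hp hq =>
    rw [map_add]
    exact hp.add hq
  | mul_X p l hp =>
    rw [map_mul]
    refine hp.mul (big_X ty) ?_
    rw [PhiX_X]
    refine InB.add (InB.cst (big_X ty) (c l)) ?_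
    intro b e
    have hU := X_mem_UU ty (K := K) l
    have hV := X_mem_VV ty (K := K) l
    rcases h : ty l with _ | _
    · rw [h] at hU hV
      simp only [Bool.false_eq_true, if_false] at hU hV ⊢
      rw [cf_mu_mul]
      split_ifs with hbe
      · rw [hbe.1, hbe.2]
        exact ⟨hU, hV⟩
      · exact Submodule.zero_mem _
    · rw [h] at hU hV
      simp only [if_true] at hU hV ⊢
      rw [cf_lam_mul]
      split_ifs with hbe
      · rw [hbe.1, hbe.2]
        exact ⟨hU, hV⟩
      · exact Submodule.zero_mem _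

theorem PhiX_zero (c : L → K) (f : MvPolynomial L K) :
    cf 0 0 (PhiX ty c f) = algebraMap K (MvPolynomial L K) (MvPolynomial.eval c f) := by
  induction f using MvPolynomial.induction_on with
  | C a =>
    rw [PhiX_C, cf_cst, if_pos ⟨rfl, rfl⟩, MvPolynomial.eval_C]
  | add p q hp hq =>
    rw [map_add, cf_add, hp, hq, map_add, map_add]
  | mul_X p l hp =>
    rw [map_mul, cf_zero_zero_mul, hp, map_mul, map_mul, MvPolynomial.eval_X, PhiX_X, cf_add,
      cf_cst, if_pos ⟨rfl, rfl⟩]
    congr 1
    rcases ty l with _ | _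
    · simp only [Bool.false_eq_true, if_false]
      rw [cf_mu_mul, if_neg (by omega), add_zero]
      rfl
    · simp only [if_true]
      rw [cf_lam_mul, if_neg (by omega), add_zero]
      rfl

/-- images of affine forms -/
def XAff (F : Ser (MvPolynomial L K)) : Prop :=
  ∃ (c : K), ∃ α ∈ VV ty K 0, ∃ β ∈ UU ty K 0,
    F = cst (algebraMap K _ c) + lam _ * cst α + mu _ * cst β

variable {ty}

theorem XAff.const (c : K) : XAff ty (algebraMap K (Ser (MvPolynomial L K)) c) := by
  refine ⟨c, 0, Submodule.zero_mem _, 0, Submodule.zero_mem _, ?_⟩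
  rw [cst_zero, mul_zero, mul_zero, add_zero, add_zero, Pool.Agent.Helper59.CD.algebraMap_ser]

theorem XAff.add {F G : Ser (MvPolynomial L K)} (hF : XAff ty F) (hG : XAff ty G) :
    XAff ty (F + G) := by
  obtain ⟨c, α, hα, β, hβ, rfl⟩ := hF
  obtain ⟨c', α', hα', β', hβ', rfl⟩ := hG
  refine ⟨c + c', α + α', Submodule.add_mem _ hα hα', β + β', Submodule.add_mem _ hβ hβ', ?_⟩
  rw [map_add, cst_add, cst_add, cst_add]
  ring

theorem XAff.smul {F : Ser (MvPolynomial L K)} (hF : XAff ty F) (a : K) : XAff ty (a • F) := by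
  obtain ⟨c, α, hα, β, hβ, rfl⟩ := hF
  refine ⟨a * c, a • α, Submodule.smul_mem _ _ hα, a • β, Submodule.smul_mem _ _ hβ, ?_⟩
  rw [Algebra.smul_def a α, Algebra.smul_def a β, map_mul, cst_mul, cst_mul, cst_mul,
    Algebra.smul_def, Pool.Agent.Helper59.CD.algebraMap_ser]
  ring

theorem XAff.zero : XAff ty (0 : Ser (MvPolynomial L K)) := by
  have := XAff.const (ty := ty) (0 : K)
  rwa [map_zero] at this

theorem XAff.var (c : L → K) (l : L) : XAff ty (PhiX ty c (MvPolynomial.X l)) := by
  rw [PhiX_X]
  have hU := X_mem_UU ty (K := K) l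
  have hV := X_mem_VV ty (K := K) l
  rcases h : ty l with _ | _
  · rw [h] at hU
    simp only [Bool.false_eq_true, if_false] at hU ⊢
    refine ⟨c l, 0, Submodule.zero_mem _, _, hU, ?_⟩
    rw [cst_zero, mul_zero, add_zero]
    rfl
  · rw [h] at hV
    simp only [if_true] at hV ⊢
    refine ⟨c l, _, hV, 0, Submodule.zero_mem _, ?_⟩
    rw [cst_zero, mul_zero, add_zero]
    rfl

/-- polynomials of degree at most one -/
theorem XAff.aeval (f : L → Ser (MvPolynomial L K)) (hf : ∀ s, XAff ty (f s))
    (P : MvPolynomial L K) (hP : P.totalDegree ≤ 1) : XAff ty (MvPolynomial.aeval f P) := by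
  classical
  rw [P.as_sum, map_sum]
  have key : ∀ m ∈ P.support,
      XAff ty (MvPolynomial.aeval f (MvPolynomial.monomial m (P.coeff m))) := by
    intro m hm
    have h1 : m.degree ≤ 1 := (MvPolynomial.le_totalDegree hm).trans hP
    rcases Nat.le_one_iff_eq_zero_or_eq_one.1 h1 with h2 | h2
    · have h3 : m = 0 := (Finsupp.degree_eq_zero_iff m).1 h2
      rw [h3, MvPolynomial.aeval_monomial]
      simp only [Finsupp.prod_zero_index, mul_one]
      exact XAff.const _
    · obtain ⟨s, hs⟩ : ∃ s, m = Finsupp.single s 1 := by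
        have h3 : m ≠ 0 := by
          rintro rfl
          simp at h2
        obtain ⟨s, hs⟩ := Finsupp.ne_iff.1 h3
        have h4 : m s ≤ m.degree := Finsupp.le_degree s m
        have h5 : m s = 1 := by
          have : m s ≠ 0 := hs
          omega
        refine ⟨s, ?_⟩
        have h6 : m = (m - Finsupp.single s 1) + Finsupp.single s 1 := by
          ext t
          by_cases ht : t = s
          · subst ht; simp [h5]
          · simp [Ne.symm ht]
        have h7 : (m - Finsupp.single s 1).degree = 0 := by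
          have := congrArg Finsupp.degree h6
          rw [map_add, Finsupp.degree_single, h2] at this
          omega
        rw [Finsupp.degree_eq_zero_iff] at h7
        rw [h7, zero_add] at h6
        exact h6
      rw [hs, MvPolynomial.aeval_monomial, Finsupp.prod_single_index (by simp), pow_one,
        ← Algebra.smul_def]
      exact (hf s).smul _
  have : ∀ t ⊆ P.support, XAff ty
      (∑ m ∈ t, MvPolynomial.aeval f (MvPolynomial.monomial m (P.coeff m))) := by
    intro t
    induction t using Finset.induction_on with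
    | empty => intro _; rw [sum_empty]; exact XAff.zero
    | insert a t ha ih =>
      intro ht
      rw [sum_insert ha]
      exact (key a (ht (mem_insert_self _ _))).add (ih fun i hi => ht (mem_insert_of_mem hi))
  exact this _ (Subset.refl _)

variable (ty)

theorem PhiX_one (c : L → K) (f : MvPolynomial L K) (hf : f.totalDegree ≤ 1) :
    ∃ α ∈ VV ty K 0, ∃ β ∈ UU ty K 0,
      PhiX ty c f = cst (algebraMap K _ (MvPolynomial.eval c f)) + lam _ * cst α + mu _ * cst β := by
  have h1 : XAff ty (PhiX ty c f) := by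
    have h2 : PhiX ty c f = MvPolynomial.aeval (fun l => PhiX ty c (MvPolynomial.X l)) f := by
      have : PhiX ty c = MvPolynomial.aeval (fun l => PhiX ty c (MvPolynomial.X l)) := by
        apply MvPolynomial.algHom_ext
        intro l
        rw [MvPolynomial.aeval_X]
      exact DFunLike.congr_fun this f
    rw [h2]
    exact XAff.aeval _ (fun l => XAff.var c l) f hf
  obtain ⟨a, α, hα, β, hβ, h⟩ := h1
  refine ⟨α, hα, β, hβ, ?_⟩
  have h0 := PhiX_zero ty c f
  rw [h, cf_add, cf_add, cf_cst, if_pos ⟨rfl, rfl⟩, cf_lam_mul, cf_mu_mul, if_neg (by omega),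
    if_neg (by omega), add_zero, add_zero] at h0
  rw [h, h0]

end shift

section nat

variable {L : Type} [Fintype L] {K : Type} [Field K]

theorem exists_nat_eval [CharZero K] (W : MvPolynomial L K) (hW : W ≠ 0) :
    ∃ c : L → ℕ, MvPolynomial.eval (fun l => (c l : K)) W ≠ 0 := by
  by_contra hcon
  push Not at hcon
  apply hW
  refine MvPolynomial.funext_set (fun _ : L => Set.range (Nat.cast : ℕ → K))
    (fun _ => Set.infinite_range_of_injective Nat.cast_injective) fun x hx => ?_
  choose c hc using fun l => hx l (Set.mem_univ l)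
  have h1 := hcon c
  have h2 : x = fun l => (c l : K) := funext fun l => (hc l).symm
  rw [h2, h1, map_zero]

end nat

section val

variable {L : Type} [Fintype L] (ty : L → Bool) {K : Type} [Field K]
variable {Γ : Type} [LinearOrderedCommGroupWithZero Γ] (v : Valuation K Γ)

/-- series whose coefficients are polynomials with integral coefficients -/
def IntX (F : Ser (MvPolynomial L K)) : Prop :=
  ∀ b e m, v (MvPolynomial.coeff m (cf b e F)) ≤ 1

variable {v}

theorem intP_mul {p q : MvPolynomial L K} (hp : ∀ m, v (MvPolynomial.coeff m p) ≤ 1)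
    (hq : ∀ m, v (MvPolynomial.coeff m q) ≤ 1) (m : L →₀ ℕ) :
    v (MvPolynomial.coeff m (p * q)) ≤ 1 := by
  classical
  rw [MvPolynomial.coeff_mul]
  refine Valuation.map_sum_le v fun i _ => ?_
  rw [map_mul]
  exact mul_le_one' (hp _) (hq _)

theorem intX_mul {F G : Ser (MvPolynomial L K)} (hF : IntX v F) (hG : IntX v G) :
    IntX v (F * G) := by
  intro b e m
  rw [cf_mul, MvPolynomial.coeff_sum]
  refine Valuation.map_sum_le v fun i _ => ?_
  rw [MvPolynomial.coeff_sum]
  exact Valuation.map_sum_le v fun j _ => intP_mul (hF _ _) (hG _ _) m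

theorem intX_one : IntX v (1 : Ser (MvPolynomial L K)) := by
  classical
  intro b e m
  rw [cf_one]
  split_ifs
  · rw [MvPolynomial.coeff_one]
    split_ifs
    · rw [map_one]
    · rw [map_zero]; exact zero_le
  · rw [MvPolynomial.coeff_zero, map_zero]; exact zero_le

theorem intX_pow {F : Ser (MvPolynomial L K)} (hF : IntX v F) (n : ℕ) : IntX v (F ^ n) := by
  induction n with
  | zero => rw [pow_zero]; exact intX_one
  | succ n ih => rw [pow_succ]; exact intX_mul ih hF

theorem intX_prod {ι : Type} (s : Finset ι) (F : ι → Ser (MvPolynomial L K))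
    (h : ∀ i ∈ s, IntX v (F i)) : IntX v (∏ i ∈ s, F i) := by
  classical
  induction s using Finset.induction_on with
  | empty => rw [prod_empty]; exact intX_one
  | insert a s ha ih =>
    rw [prod_insert ha]
    exact intX_mul (h a (mem_insert_self _ _)) (ih fun i hi => h i (mem_insert_of_mem hi))

theorem intX_var (c : L → K) (hc : ∀ l, v (c l) ≤ 1) (l : L) :
    IntX v (PhiX ty c (MvPolynomial.X l)) := by
  classical
  intro b e m
  rw [PhiX_X, cf_add, MvPolynomial.coeff_add]
  refine Valuation.map_add_le v ?_ ?_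
  · rw [cf_cst]
    split_ifs
    · rw [MvPolynomial.coeff_C]
      split_ifs
      · exact hc l
      · rw [map_zero]; exact zero_le
    · rw [MvPolynomial.coeff_zero, map_zero]; exact zero_le
  · have h1 : ∀ p : MvPolynomial L K, p = MvPolynomial.X l ∨ p = 0 →
        v (MvPolynomial.coeff m p) ≤ 1 := by
      rintro p (rfl | rfl)
      · rw [MvPolynomial.coeff_X]
        split_ifs
        · rw [map_one]
        · rw [map_zero]; exact zero_le
      · rw [MvPolynomial.coeff_zero, map_zero]; exact zero_le
    apply h1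
    rcases ty l with _ | _
    · simp only [Bool.false_eq_true, if_false]
      rw [cf_mu_mul]
      split_ifs
      · exact Or.inl rfl
      · exact Or.inr rfl
    · simp only [if_true]
      rw [cf_lam_mul]
      split_ifs
      · exact Or.inl rfl
      · exact Or.inr rfl

theorem val_cf_PhiX {Γ : Type} [LinearOrderedCommGroupWithZero Γ] (v : Valuation K Γ)
    (c : L → K) (hc : ∀ l, v (c l) ≤ 1) (F : MvPolynomial L K)
    (hF : ∀ m, v (MvPolynomial.coeff m F) < 1) (b e : ℕ) (m : L →₀ ℕ) :
    v (MvPolynomial.coeff m (cf b e (PhiX ty c F))) < 1 := by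
  have h2 : PhiX ty c F = MvPolynomial.aeval (fun l => PhiX ty c (MvPolynomial.X l)) F := by
    have : PhiX ty c = MvPolynomial.aeval (fun l => PhiX ty c (MvPolynomial.X l)) := by
      apply MvPolynomial.algHom_ext
      intro l
      rw [MvPolynomial.aeval_X]
    exact DFunLike.congr_fun this F
  rw [h2, MvPolynomial.aeval_def, MvPolynomial.eval₂_eq, cf_sum, MvPolynomial.coeff_sum]
  refine Valuation.map_sum_lt v one_ne_zero fun a _ => ?_
  rw [Pool.Agent.Helper59.CD.algebraMap_ser, cf_cst_mul, MvPolynomial.algebraMap_eq,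
    MvPolynomial.coeff_C_mul, map_mul]
  have h3 := intX_prod (v := v) a.support (fun i => PhiX ty c (MvPolynomial.X i) ^ a i)
    (fun i _ => intX_pow (intX_var ty c hc i) _) b e m
  calc v (MvPolynomial.coeff a F) * v (MvPolynomial.coeff m
        (cf b e (∏ i ∈ a.support, PhiX ty c (MvPolynomial.X i) ^ a i)))
      ≤ v (MvPolynomial.coeff a F) * 1 := mul_le_mul_right h3 _
    _ < 1 := by rw [mul_one]; exact hF a

end val

end Pool.XD
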