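import Pool.Agent.XD.Defs

/-!
# The transfer recursion for `g` chains of length `m` (row D1 of XD)
-/

set_option autoImplicit false

namespace Pool.XD

open Finset

theorem ZZ_nonneg (wd : ℕ → ℕ) (ty : ℕ → Bool) {oU oV : ℝ} (h0 : 0 < oU) (h0' : 0 < oV) (i : ℕ) :
    0 ≤ (ZZ wd ty oU oV i).1 ∧ 0 ≤ (ZZ wd ty oU oV i).2 := by
  induction i with
  | zero => exact ⟨zero_le_one, le_refl _⟩
  | succ i ih =>
    obtain ⟨h1, h2⟩ := ih
    have h3 : (0 : ℝ) ≤ (wd i : ℝ) := Nat.cast_nonneg _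
    refine ⟨?_, ?_⟩
    · show 0 ≤ (ZZ wd ty oU oV i).1 + (ZZ wd ty oU oV i).2 / wd i
      positivity
    · show 0 ≤ ((ZZ wd ty oU oV i).2 + (ZZ wd ty oU oV i).1 / wd i) * (if ty i then oU else oV)
      have h4 : 0 ≤ (if ty i then oU else oV) := by split_ifs <;> linarith
      positivity

/-- one chain -/
theorem ZZ_chain {m q : ℕ} {B oU oV : ℝ} (τ : ℕ → Bool) (hm : 1 ≤ m) (hB : 1 ≤ B)
    (hq : m * B ≤ q) (h0 : 0 < oU) (h0' : 0 < oV)
    (h1 : ∀ i ≤ m, ∏ j ∈ range i, (if τ j then oU else oV) ≤ B)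
    (h2 : ∀ i ≤ m, 1 ≤ B * ∏ j ∈ range i, (if τ j then oU else oV)) (c : ℕ) :
    (ZZ (fun j => if m ∣ j then 1 else q) (fun i => τ (i % m)) oU oV (c * m + m)).1 +
      (ZZ (fun j => if m ∣ j then 1 else q) (fun i => τ (i % m)) oU oV (c * m + m)).2 ≤
      6 * B * ((ZZ (fun j => if m ∣ j then 1 else q) (fun i => τ (i % m)) oU oV (c * m)).1 +
        (ZZ (fun j => if m ∣ j then 1 else q) (fun i => τ (i % m)) oU oV (c * m)).2) := by
  obtain ⟨Z, hZ⟩ : ∃ Z : ℕ → ℝ × ℝ, Z = ZZ (fun j => if m ∣ j then 1 else q)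
    (fun i => τ (i % m)) oU oV := ⟨_, rfl⟩
  obtain ⟨om, hom⟩ : ∃ om : ℕ → ℝ, om = fun j => if τ j then oU else oV := ⟨_, rfl⟩
  have hom0 : ∀ j, 0 < om j := by
    intro j
    rw [hom]
    show 0 < (if τ j then oU else oV)
    split_ifs <;> assumption
  have hZ0 : ∀ i, 0 ≤ (Z i).1 ∧ 0 ≤ (Z i).2 := by
    intro i
    rw [hZ]
    exact ZZ_nonneg _ _ h0 h0' i
  have hm0 : (0 : ℝ) < m := by exact_mod_cast hm
  have hB0 : (0 : ℝ) < B := by linarith
  have hq0 : (0 : ℝ) < q := lt_of_lt_of_le (mul_pos hm0 hB0) hq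
  have h1' : ∀ i ≤ m, ∏ j ∈ range i, om j ≤ B := by rw [hom]; exact h1
  have h2' : ∀ i ≤ m, 1 ≤ B * ∏ j ∈ range i, om j := by rw [hom]; exact h2
  have hOm0 : ∀ i, 0 < ∏ j ∈ range i, om j := fun i => prod_pos fun j _ => hom0 j
  rw [← hZ]
  obtain ⟨s, hs⟩ : ∃ s, s = (Z (c * m)).1 + (Z (c * m)).2 := ⟨_, rfl⟩
  rw [← hs]
  have hs0 : 0 ≤ s := by rw [hs]; exact add_nonneg (hZ0 _).1 (hZ0 _).2
  -- the recursion inside the chain
  have hrec1 : ∀ i, 1 ≤ i → i < m → (Z (c * m + (i + 1))).1 =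
      (Z (c * m + i)).1 + (Z (c * m + i)).2 / q := by
    intro i hi hi'
    have hnd : ¬ m ∣ c * m + i := by
      intro h
      have h' : m ∣ i := (Nat.dvd_add_right (dvd_mul_left m c)).1 h
      exact absurd (Nat.le_of_dvd (by omega) h') (by omega)
    have : (Z (c * m + (i + 1))).1 = (Z (c * m + i)).1 + (Z (c * m + i)).2 /
        ((if m ∣ c * m + i then 1 else q : ℕ) : ℝ) := by rw [hZ]; rfl
    rw [this, if_neg hnd]
  have hrec2 : ∀ i, 1 ≤ i → i < m → (Z (c * m + (i + 1))).2 =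
      ((Z (c * m + i)).2 + (Z (c * m + i)).1 / q) * om i := by
    intro i hi hi'
    have hnd : ¬ m ∣ c * m + i := by
      intro h
      have h' : m ∣ i := (Nat.dvd_add_right (dvd_mul_left m c)).1 h
      exact absurd (Nat.le_of_dvd (by omega) h') (by omega)
    have : (Z (c * m + (i + 1))).2 = ((Z (c * m + i)).2 + (Z (c * m + i)).1 /
        ((if m ∣ c * m + i then 1 else q : ℕ) : ℝ)) *
          (if τ ((c * m + i) % m) then oU else oV) := by rw [hZ]; rfl
    rw [this, if_neg hnd, Nat.mul_comm c m, Nat.mul_add_mod, Nat.mod_eq_of_lt hi', hom]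
  have hfirst1 : (Z (c * m + 1)).1 = s := by
    have : (Z (c * m + 1)).1 = (Z (c * m)).1 + (Z (c * m)).2 /
        ((if m ∣ c * m then 1 else q : ℕ) : ℝ) := by rw [hZ]; rfl
    rw [this, if_pos (dvd_mul_left m c), Nat.cast_one, div_one, hs]
  have hfirst2 : (Z (c * m + 1)).2 = s * om 0 := by
    have : (Z (c * m + 1)).2 = ((Z (c * m)).2 + (Z (c * m)).1 /
        ((if m ∣ c * m then 1 else q : ℕ) : ℝ)) *
          (if τ ((c * m) % m) then oU else oV) := by rw [hZ]; rfl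
    rw [this, if_pos (dvd_mul_left m c), Nat.cast_one, div_one, Nat.mul_mod_left, hom, hs,
      add_comm]
  -- the invariant
  have key : ∀ i, i + 1 ≤ m → (Z (c * m + (i + 1))).1 +
      (Z (c * m + (i + 1))).2 / ∏ j ∈ range (i + 1), om j ≤ 2 * s * (1 + B / q) ^ i := by
    intro i
    induction i with
    | zero =>
      intro _
      rw [zero_add, hfirst1, hfirst2, prod_range_one, pow_zero, mul_div_assoc,
        div_self (hom0 0).ne']
      linarith
    | succ i ih =>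
      intro hi
      have ih' := ih (by omega)
      have e1 := hrec1 (i + 1) (by omega) (by omega)
      have e2 := hrec2 (i + 1) (by omega) (by omega)
      obtain ⟨p, hp⟩ : ∃ p, p = (Z (c * m + (i + 1))).1 := ⟨_, rfl⟩
      obtain ⟨r, hr⟩ : ∃ r, r = (Z (c * m + (i + 1))).2 := ⟨_, rfl⟩
      obtain ⟨O, hO⟩ : ∃ O, O = ∏ j ∈ range (i + 1), om j := ⟨_, rfl⟩
      have hp0 : 0 ≤ p := by rw [hp]; exact (hZ0 _).1
      have hr0 : 0 ≤ r := by rw [hr]; exact (hZ0 _).2
      have hO0 : 0 < O := by rw [hO]; exact hOm0 _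
      have hOB : O ≤ B := by rw [hO]; exact h1' _ (by omega)
      have hBO : 1 ≤ B * O := by rw [hO]; exact h2' _ (by omega)
      rw [← hp, ← hr, ← hO] at ih'
      rw [e1, e2, prod_range_succ, ← hp, ← hr, ← hO]
      have e3 : (r + p / q) * om (i + 1) / (O * om (i + 1)) = r / O + p / (q * O) := by
        have := (hom0 (i + 1)).ne'
        field_simp
      rw [e3]
      have e4 : p / (q * O) ≤ B / q * p := by
        rw [div_le_iff₀ (by positivity)]
        have : B / q * p * (q * O) = (B * O) * p := by field_simp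
        rw [this]
        nlinarith
      have e5 : r / q ≤ B / q * (r / O) := by
        have : B / q * (r / O) = (B / O) * (r / q) := by field_simp
        rw [this]
        have h3 : 1 ≤ B / O := (one_le_div hO0).2 hOB
        have h4 : 0 ≤ r / q := by positivity
        nlinarith
      calc p + r / q + (r / O + p / (q * O)) ≤ (p + r / O) * (1 + B / q) := by
            have h5 : (p + r / O) * (1 + B / q) = p + B / q * (r / O) + (r / O + B / q * p) := by
              ring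
            rw [h5]
            linarith
        _ ≤ 2 * s * (1 + B / q) ^ i * (1 + B / q) :=
            mul_le_mul_of_nonneg_right ih' (by positivity)
        _ = 2 * s * (1 + B / q) ^ (i + 1) := by ring
  obtain ⟨m', rfl⟩ : ∃ m', m = m' + 1 := ⟨m - 1, by omega⟩
  have hk := key m' (le_refl _)
  have hpow : (1 + B / q) ^ m' ≤ 3 := by
    have h3 : (1 + B / q) ^ m' ≤ (Real.exp (B / q)) ^ m' := by
      apply pow_le_pow_left₀ (by positivity)
      rw [add_comm]
      exact Real.add_one_le_exp _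
    rw [← Real.exp_nat_mul] at h3
    have h4 : (m' : ℝ) * (B / q) ≤ 1 := by
      rw [← mul_div_assoc, div_le_one hq0]
      refine le_trans ?_ hq
      push_cast
      nlinarith
    have h5 : Real.exp ((m' : ℝ) * (B / q)) ≤ Real.exp 1 := Real.exp_le_exp.2 h4
    have h6 := Real.exp_one_lt_d9
    linarith
  obtain ⟨p, hp⟩ : ∃ p, p = (Z (c * (m' + 1) + (m' + 1))).1 := ⟨_, rfl⟩
  obtain ⟨r, hr⟩ : ∃ r, r = (Z (c * (m' + 1) + (m' + 1))).2 := ⟨_, rfl⟩
  obtain ⟨O, hO⟩ : ∃ O, O = ∏ j ∈ range (m' + 1), om j := ⟨_, rfl⟩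
  have hp0 : 0 ≤ p := by rw [hp]; exact (hZ0 _).1
  have hr0 : 0 ≤ r := by rw [hr]; exact (hZ0 _).2
  have hO0 : 0 < O := by rw [hO]; exact hOm0 _
  have hOB : O ≤ B := by rw [hO]; exact h1' _ (le_refl _)
  rw [← hp, ← hr, ← hO] at hk
  rw [← hp, ← hr]
  have h7 : r ≤ B * (r / O) := by
    have : B * (r / O) = (B / O) * r := by field_simp
    rw [this]
    have h3 : 1 ≤ B / O := (one_le_div hO0).2 hOB
    nlinarith
  have h8 : p ≤ B * p := by nlinarith
  have h9 : 2 * s * (1 + B / q) ^ m' ≤ 2 * s * 3 :=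
    mul_le_mul_of_nonneg_left hpow (by positivity)
  calc p + r ≤ B * (p + r / O) := by rw [mul_add]; linarith
    _ ≤ B * (2 * s * 3) := mul_le_mul_of_nonneg_left (hk.trans h9) hB0.le
    _ = 6 * B * s := by ring

theorem ZZ_chains {g m q : ℕ} {B oU oV : ℝ} (τ : ℕ → Bool) (hm : 1 ≤ m) (hB : 1 ≤ B)
    (hq : m * B ≤ q) (h0 : 0 < oU) (h0' : 0 < oV)
    (h1 : ∀ i ≤ m, ∏ j ∈ range i, (if τ j then oU else oV) ≤ B)
    (h2 : ∀ i ≤ m, 1 ≤ B * ∏ j ∈ range i, (if τ j then oU else oV)) :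
    (ZZ (fun j => if m ∣ j then 1 else q) (fun i => τ (i % m)) oU oV (g * m)).1 +
      (ZZ (fun j => if m ∣ j then 1 else q) (fun i => τ (i % m)) oU oV (g * m)).2 ≤
        (6 * B) ^ g := by
  induction g with
  | zero =>
    rw [zero_mul, pow_zero]
    show (1 : ℝ) + 0 ≤ 1
    norm_num
  | succ g ih =>
    rw [Nat.succ_mul, pow_succ]
    refine (ZZ_chain τ hm hB hq h0 h0' h1 h2 g).trans ?_
    rw [mul_comm ((6 * B) ^ g)]
    exact mul_le_mul_of_nonneg_left ih (by positivity)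

end Pool.XD
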