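import Pool.Agent.XD.Level
import Pool.Agent.XD.Transfer
import Pool.Agent.XD.Measure
import Pool.Agent.XD.Trace
import Pool.Agent.XD.Count
import Pool.Agent.XD.Par
import Pool.Agent.XD.Perm
import Pool.Agent.XD.Aff
import Pool.Agent.XD.Shift
import Pool.Agent.CDep.Assembly

/-!
# Exponential lower bounds for constant depth (XD): the assembly
-/

set_option autoImplicit false

namespace Pool.XD

open Finset Pool.Agent.Helper87.D3 Pool.Agent.Helper41.CD

/-- a field with a valuation which is one on the nonzero integers has characteristic zero -/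
theorem charZero_of_val {K Γ : Type} [Field K] [LinearOrderedCommGroupWithZero Γ]
    (v : Valuation K Γ) (hv : ∀ n : ℕ, n ≠ 0 → v n = 1) : CharZero K := by
  refine ⟨fun a b hab => ?_⟩
  by_contra hne
  rcases Nat.lt_or_ge a b with h | h
  · have h1 : ((b - a : ℕ) : K) = 0 := by
      rw [Nat.cast_sub h.le, hab, sub_self]
    have h2 := hv (b - a) (by omega)
    rw [h1, map_zero] at h2
    exact zero_ne_one h2
  · have h1 : ((a - b : ℕ) : K) = 0 := by
      rw [Nat.cast_sub h, hab, sub_self]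
    have h2 := hv (a - b) (by omega)
    rw [h1, map_zero] at h2
    exact zero_ne_one h2

theorem val_nat_le {K Γ : Type} [Field K] [LinearOrderedCommGroupWithZero Γ]
    (v : Valuation K Γ) (n : ℕ) : v (n : K) ≤ 1 := by
  induction n with
  | zero => rw [Nat.cast_zero, map_zero]; exact zero_le_one
  | succ n ih =>
    rw [Nat.cast_succ]
    exact v.map_add_le ih (by rw [map_one])

theorem val_int_le {K Γ : Type} [Field K] [LinearOrderedCommGroupWithZero Γ]
    (v : Valuation K Γ) (n : ℤ) : v (n : K) ≤ 1 := by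
  rcases Int.eq_nat_or_neg n with ⟨a, rfl | rfl⟩
  · rw [Int.cast_natCast]; exact val_nat_le v a
  · rw [Int.cast_neg, Int.cast_natCast, Valuation.map_neg]; exact val_nat_le v a

/-- the coefficients of a value of a polynomial with small coefficients at polynomials with
integral coefficients are small -/
theorem val_coeff_aeval {K Γ σ τ : Type} [Field K] [LinearOrderedCommGroupWithZero Γ]
    (v : Valuation K Γ) (φ : σ → MvPolynomial τ K)
    (hφ : ∀ p m, v (MvPolynomial.coeff m (φ p)) ≤ 1) (F : MvPolynomial σ K)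
    (hF : ∀ m, v (MvPolynomial.coeff m F) < 1) (m : τ →₀ ℕ) :
    v (MvPolynomial.coeff m (MvPolynomial.aeval φ F)) < 1 := by
  classical
  -- integral polynomials are closed under products
  have hmul : ∀ A B : MvPolynomial τ K, (∀ m, v (MvPolynomial.coeff m A) ≤ 1) →
      (∀ m, v (MvPolynomial.coeff m B) ≤ 1) → ∀ m, v (MvPolynomial.coeff m (A * B)) ≤ 1 := by
    intro A B hA hB m
    rw [MvPolynomial.coeff_mul]
    refine v.map_sum_le fun p _ => ?_
    rw [map_mul]
    exact mul_le_one' (hA _) (hB _)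
  have hone : ∀ m, v (MvPolynomial.coeff m (1 : MvPolynomial τ K)) ≤ 1 := by
    intro m
    rw [MvPolynomial.coeff_one]
    split_ifs
    · rw [map_one]
    · rw [map_zero]; exact zero_le_one
  have hpow : ∀ (A : MvPolynomial τ K) (n : ℕ), (∀ m, v (MvPolynomial.coeff m A) ≤ 1) →
      ∀ m, v (MvPolynomial.coeff m (A ^ n)) ≤ 1 := by
    intro A n hA
    induction n with
    | zero => rw [pow_zero]; exact hone
    | succ n ih => rw [pow_succ]; exact hmul _ _ ih hA
  have hprod : ∀ (s : Finset σ) (A : σ → MvPolynomial τ K),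
      (∀ i ∈ s, ∀ m, v (MvPolynomial.coeff m (A i)) ≤ 1) →
      ∀ m, v (MvPolynomial.coeff m (∏ i ∈ s, A i)) ≤ 1 := by
    intro s A
    induction s using Finset.induction_on with
    | empty => intro _; rw [prod_empty]; exact hone
    | insert a s ha ih =>
      intro h
      rw [prod_insert ha]
      exact hmul _ _ (h a (mem_insert_self _ _)) (ih fun i hi => h i (mem_insert_of_mem hi))
  rw [MvPolynomial.aeval_def, MvPolynomial.eval₂_eq, MvPolynomial.coeff_sum]
  refine v.map_sum_lt one_ne_zero fun e _ => ?_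
  rw [MvPolynomial.algebraMap_eq, MvPolynomial.coeff_C_mul, map_mul]
  have h1 := hprod e.support (fun i => φ i ^ e i) (fun i _ => hpow _ _ (hφ i)) m
  calc v (MvPolynomial.coeff e F) * v (MvPolynomial.coeff m (∏ i ∈ e.support, φ i ^ e i))
      ≤ v (MvPolynomial.coeff e F) * 1 := mul_le_mul_right h1 _
    _ < 1 := by rw [mul_one]; exact hF e

theorem map_chn (d : ℕ) (wd : ℕ → ℕ) {R R' : Type} [CommRing R] [CommRing R'] (f : R →+* R') :
    MvPolynomial.map f (chn d wd R) = chn d wd R' := by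
  unfold chn
  rw [map_sum]
  refine sum_congr rfl fun s _ => ?_
  rw [map_prod]
  exact prod_congr rfl fun i _ => MvPolynomial.map_X _ _

theorem opM_map {L : Type} [Fintype L] (ty : L → Bool) {R R' : Type} [CommRing R] [CommRing R']
    (f : R →+* R') (F : MvPolynomial L R) (a b a' b' : ℕ) :
    (opM ty F a b a' b').map f = opM ty (MvPolynomial.map f F) a b a' b' := by
  ext α γ
  rw [Matrix.map_apply]
  unfold opM
  split_ifs
  · rw [MvPolynomial.coeff_map]
  · rw [map_zero]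

/-- perm_n and the chain polynomial, over a ring -/
theorem perm_chn' (d : ℕ) (wd : ℕ → ℕ) (hd : 1 ≤ d) (hwd : ∀ j, 1 ≤ wd j) (hw0 : wd 0 = 1)
    (hw1 : wd d = 1) {n : ℕ} (hn : 1 + ∑ j ∈ Ico 1 d, wd j ≤ n) {K Γ : Type} [Field K]
    [LinearOrderedCommGroupWithZero Γ] (v : Valuation K Γ) :
    ∃ φ : Fin n × Fin n → MvPolynomial (Ltr d wd) K, (∀ p, (φ p).totalDegree ≤ 1) ∧
      (∀ p m, v (MvPolynomial.coeff m (φ p)) ≤ 1) ∧
      MvPolynomial.aeval φ (Pool.CDep.permP n K) = chn d wd K := by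
  obtain ⟨φ, h1, h2⟩ := perm_chn d wd hd hwd hw0 hw1 hn
  refine ⟨fun p => MvPolynomial.map (Int.castRingHom K) (φ p), fun p => ?_, fun p m => ?_, ?_⟩
  · refine le_trans ?_ (h1 p)
    exact Finset.sup_mono (MvPolynomial.support_map_subset _ _)
  · rw [MvPolynomial.coeff_map]
    exact val_int_le v _
  · rw [← map_chn d wd (Int.castRingHom K), ← h2,
      ← Pool.CDep.map_permP (n := n) (Int.castRingHom K)]
    have h3 : ∀ P : MvPolynomial (Fin n × Fin n) ℤ,
        MvPolynomial.aeval (fun p => MvPolynomial.map (Int.castRingHom K) (φ p))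
          (MvPolynomial.map (Int.castRingHom K) P) =
        MvPolynomial.map (Int.castRingHom K) (MvPolynomial.aeval φ P) := by
      intro P
      induction P using MvPolynomial.induction_on with
      | C a => simp
      | add p q hp hq => rw [map_add, map_add, hp, hq, map_add, map_add]
      | mul_X p i hp =>
        rw [map_mul, map_mul, hp, MvPolynomial.map_X, MvPolynomial.aeval_X, map_mul,
          MvPolynomial.aeval_X, map_mul]
    exact h3 _

/-- **the core inequality** -/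
theorem core {K Γ : Type} [Field K] [LinearOrderedCommGroupWithZero Γ] (v : Valuation K Γ)
    (hv : ∀ n : ℕ, n ≠ 0 → v n = 1) {n T S w w0 k g m : ℕ} {y : ℝ} {X Y : ℕ → ℝ}
    (f : Fin T → Fin S → MvPolynomial (Fin n × Fin n) K) (hS : 1 ≤ S) (hw : 1 ≤ w)
    (hw0 : 1 ≤ w0) (hf : ∀ i j, f i j ∈ Cls w0 w S k)
    (hcl : ∀ m, v (MvPolynomial.coeff m ((∑ i, ∏ j, f i j) - Pool.CDep.permP n K)) < 1)
    (hg : 1 ≤ g) (hm : 2 ≤ m) (hy : 0 < y) (hy1 : y ≤ 1) (hn : g * (m * (8 * m)) + 1 ≤ n)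
    (hX : ∀ i, 0 < X i) (hY : ∀ i, 0 < Y i) (hX0 : X 0 = 1) (hY0 : Y 0 = 1)
    (hnum : ∀ i ≤ 2 * k, NumD (g * m) (S * ((g * m : ℕ) + 1) ^ (8 * (w0 + w) + 16)) (Real.exp 1)
        (Real.exp y) (X i) (Y i) (X (i + 1)) (Y (i + 1))) :
    ∃ r E : ℕ, r + E = g * m ∧ -((g : ℝ) * y) ≤ r - y * E ∧
      Real.exp 1 ^ r ≤ T * ((g * m : ℕ) + 1 : ℝ) ^ 16 *
        (X (2 * k + 1) ^ r * Y (2 * k + 1) ^ E) * (6 * Real.exp 2) ^ g := by
  classical
  have := charZero_of_val v hv
  obtain ⟨d, hd⟩ : ∃ d, d = g * m := ⟨_, rfl⟩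
  obtain ⟨wd, hwd⟩ : ∃ wd, wd = wdc m (8 * m) := ⟨_, rfl⟩
  obtain ⟨ty, hty⟩ : ∃ ty, ty = tyc y m := ⟨_, rfl⟩
  obtain ⟨r, hr⟩ : ∃ r, r = (univ.filter fun i : Fin d => ty i = true).card := ⟨_, rfl⟩
  obtain ⟨E, hE⟩ : ∃ E, E = (univ.filter fun i : Fin d => ty i = false).card := ⟨_, rfl⟩
  have hwd1 : ∀ j, 1 ≤ wd j := by
    intro j
    rw [hwd]
    unfold wdc
    split_ifs <;> omega
  have hw0' : wd 0 = 1 := by
    rw [hwd]
    unfold wdc
    rw [if_pos (dvd_zero _)]
  have hw1' : wd d = 1 := by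
    rw [hwd, hd]
    unfold wdc
    rw [if_pos (dvd_mul_left _ _)]
  have hd1 : 1 ≤ d := by rw [hd]; exact Nat.mul_pos hg (by omega)
  have hn' : 1 + ∑ j ∈ Ico 1 d, wd j ≤ n := by
    rw [hd, hwd]
    exact inner_le (by omega) hn
  obtain ⟨h1U, h1V, hrE, hrE', LU, LV, hL1, hL2, hL3, hL4, hL5⟩ :=
    params (r := r) (E := E) hg hm hy hy1 (by rw [hr, hd, hty]) (by rw [hE, hd, hty])
  rw [← hd, ← hwd, ← hty] at h1U h1V hL2 hL3 hL4 hL5
  rw [← hd] at hrE
  obtain ⟨φ, hφ1, hφ2, hφ3⟩ := perm_chn' d wd hd1 hwd1 hw0' hw1' hn' v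
  -- the polynomials in the letters
  set f' : Fin T → Fin S → MvPolynomial (Ltr d wd) K := fun i j => MvPolynomial.aeval φ (f i j)
    with hf'
  have hf'c : ∀ i j, f' i j ∈ Cls w0 w S k := fun i j => cls_aeval φ hφ1 (hf i j)
  have hcl' : ∀ m', v (MvPolynomial.coeff m' ((∑ i, ∏ j, f' i j) - chn d wd K)) < 1 := by
    intro m'
    have h1 := val_coeff_aeval v φ hφ2 _ hcl m'
    rwa [map_sub, hφ3, map_sum, sum_congr rfl fun i _ => map_prod _ _ _] at h1
  -- the machine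
  obtain ⟨SU, SV, hSU, hSV⟩ := exists_sub (tyl d wd ty) (K := K)
  have hfV := filt_VV (tyl d wd ty) (K := K)
  have hfU := filt_UU (tyl d wd ty) (K := K)
  have he1 : (0 : ℝ) < Real.exp 1 := Real.exp_pos _
  have hey : (0 : ℝ) < Real.exp y := Real.exp_pos _
  obtain ⟨W, hW, hmach⟩ := level_machine (σ := Ltr d wd) (K := K) (B := MvPolynomial (Ltr d wd) K)
    (Pool.CD.cost_Nu hfV hfU hey.le he1.le) (Pool.CD.big_Bi hfV hfU) he1 hey
    (Pool.CD.leaf_Bi hfV hfU (Real.exp y) (Real.exp 1)) SU SV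
    (fun a ha b hb => by
      have h1 := Pool.CD.Nu.ofMul (V := VV (tyl d wd ty) K) (U := UU (tyl d wd ty) K)
        (hv := Real.exp y) (hu := Real.exp 1) ((hSU a).1 ha) ((hSV b).1 hb)
      rwa [pow_zero, pow_zero, mul_one] at h1)
    (PhiX (tyl d wd ty)) (PhiX_mem _) (PhiX_zero _)
    (fun c p hp => by
      obtain ⟨α, hα, β, hβ, h1⟩ := PhiX_one (tyl d wd ty) c p hp
      exact ⟨α, (hSU α).2 hα, β, (hSV β).2 hβ, h1⟩)
    (d := d) hw0 hw hS hX hY hX0 hY0 (by rw [hd]; exact hnum) f' hf'c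
  obtain ⟨c, hc⟩ := exists_nat_eval W hW
  have hNu := hmach (fun l => (c l : K)) hc r E (by omega)
  -- the matrix
  set P := cf r E (PhiX (tyl d wd ty) (fun l => (c l : K)) (∑ i, ∏ j, f' i j)) with hP
  have hPm : P ∈ UU (tyl d wd ty) K r ∧ P ∈ VV (tyl d wd ty) K E :=
    PhiX_mem (tyl d wd ty) (fun l => (c l : K)) (∑ i, ∏ j, f' i j) r E
  have hrank1 := rank_opM_le (tyl d wd ty) he1 hey (LU := LU) (LV := LV) (r := r) (E := E)
    (by omega) h1U h1V hL2 hL3 P hPm.1 hPm.2 hNu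
  have hclose : ∀ m', v (MvPolynomial.coeff m' (P - chn d wd K)) < 1 := by
    intro m'
    have h1 := val_cf_PhiX (tyl d wd ty) v (fun l => (c l : K)) (fun l => val_nat_le v _) _ hcl'
      r E m'
    rw [map_sub, cf_sub] at h1
    have h2 := cf_PhiX_chn d wd ty (fun l => (c l : K))
    rw [← hr, ← hE] at h2
    rwa [h2] at h1
  have hrank2 := rank_le_of_close v hv
    (opM (tyl d wd ty) (chn d wd ℤ) LU LV (LU - r) (LV + E))
    (opM (tyl d wd ty) P LU LV (LU - r) (LV + E)) (fun α γ => by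
      unfold opM
      split_ifs
      · have h1 := hclose (gap (tyl d wd ty) α.1 γ.1)
        rw [MvPolynomial.coeff_sub] at h1
        have h2 : MvPolynomial.coeff (gap (tyl d wd ty) α.1 γ.1) (chn d wd K) =
            ((MvPolynomial.coeff (gap (tyl d wd ty) α.1 γ.1) (chn d wd ℤ) : ℤ) : K) := by
          rw [← map_chn d wd (Int.castRingHom K), MvPolynomial.coeff_map]
          rfl
        rwa [h2] at h1
      · rw [Int.cast_zero, sub_zero, map_zero]
        exact zero_lt_one)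
  have hmap : (opM (tyl d wd ty) (chn d wd ℤ) LU LV (LU - r) (LV + E)).map
      (Int.cast : ℤ → ℝ) = opM (tyl d wd ty) (chn d wd ℝ) LU LV (LU - r) (LV + E) := by
    have h1 := opM_map (tyl d wd ty) (Int.castRingHom ℝ) (chn d wd ℤ) LU LV (LU - r) (LV + E)
    rw [map_chn] at h1
    exact h1
  rw [hmap] at hrank2
  -- the count
  have hm0 : (0 : ℝ) ≤ 1 / m := by positivity
  have hcount := chain_count d wd ty hwd1 hw0' (LU := LU) (LV := LV) hr hE hL1
    (Real.exp_pos (1 + 1 / m)).le (Real.exp_pos (-y)).le h1U h1V hL4 hL5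
  have hB1 : (1 : ℝ) ≤ Real.exp 2 := Real.one_le_exp (by norm_num)
  have hZ := ZZ_chains (g := g) (m := m) (q := 8 * m) (B := Real.exp 2)
    (oU := Real.exp (1 + 1 / m)) (oV := Real.exp (-y)) (gw 1 y) (by omega) hB1
    (by
      have h1 : Real.exp 2 ≤ 8 := by
        have h2 := Real.exp_one_lt_d9
        have h3 : Real.exp 2 = Real.exp 1 * Real.exp 1 := by rw [← Real.exp_add]; norm_num
        have h4 := Real.exp_pos 1
        rw [h3]
        nlinarith
      have h2 : (0 : ℝ) ≤ m := Nat.cast_nonneg _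
      push_cast
      nlinarith)
    (Real.exp_pos _) (Real.exp_pos _) (fun i hi => (prefixes hm hy hy1 hi).1)
    (fun i hi => (prefixes hm hy hy1 hi).2)
  have hZ' : (ZZ wd ty (Real.exp (1 + 1 / m)) (Real.exp (-y)) d).1 +
      (ZZ wd ty (Real.exp (1 + 1 / m)) (Real.exp (-y)) d).2 ≤ (6 * Real.exp 2) ^ g := by
    rw [hwd, hty, hd]
    exact hZ
  -- conclusion
  set D0 : ℝ := (((nU (tyl d wd ty)).multichoose LU * (nV (tyl d wd ty)).multichoose LV : ℕ) : ℝ)
    with hD0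
  have hD0pos : 0 < D0 := by
    rw [hD0]
    have h1 : 0 < (nU (tyl d wd ty)).multichoose LU := by
      rw [Nat.multichoose_eq]
      exact Nat.choose_pos (by omega)
    have h2 : 0 < (nV (tyl d wd ty)).multichoose LV := by
      rw [Nat.multichoose_eq]
      exact Nat.choose_pos (by omega)
    exact_mod_cast Nat.mul_pos h1 h2
  set Rk : ℝ := ((opM (tyl d wd ty) P LU LV (LU - r) (LV + E)).rank : ℝ) with hRk
  have hRk0 : 0 ≤ Rk := Nat.cast_nonneg _
  have hBg : (0 : ℝ) < (6 * Real.exp 2) ^ g := by positivity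
  have hD0le : D0 ≤ Rk * (6 * Real.exp 2) ^ g := by
    refine hcount.trans ?_
    have h1 : ((opM (tyl d wd ty) (chn d wd ℝ) LU LV (LU - r) (LV + E)).rank : ℝ) ≤ Rk := by
      exact Nat.cast_le.2 hrank2
    calc _ ≤ ((opM (tyl d wd ty) (chn d wd ℝ) LU LV (LU - r) (LV + E)).rank : ℝ) *
          (6 * Real.exp 2) ^ g := mul_le_mul_of_nonneg_left hZ' (Nat.cast_nonneg _)
      _ ≤ _ := mul_le_mul_of_nonneg_right h1 hBg.le
  refine ⟨r, E, by omega, hrE', ?_⟩
  have h1 : D0 * Real.exp 1 ^ r ≤ (T * (((d : ℝ) + 1) ^ 16 * (X (2 * k + 1) ^ r *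
      Y (2 * k + 1) ^ E))) * D0 * (6 * Real.exp 2) ^ g := by
    calc D0 * Real.exp 1 ^ r ≤ Rk * (6 * Real.exp 2) ^ g * Real.exp 1 ^ r :=
          mul_le_mul_of_nonneg_right hD0le (by positivity)
      _ = (Rk * Real.exp 1 ^ r) * (6 * Real.exp 2) ^ g := by ring
      _ ≤ _ := mul_le_mul_of_nonneg_right hrank1 hBg.le
  have h2 : D0 * Real.exp 1 ^ r ≤ D0 * ((T * ((d : ℝ) + 1) ^ 16 *
      (X (2 * k + 1) ^ r * Y (2 * k + 1) ^ E)) * (6 * Real.exp 2) ^ g) := by
    refine h1.trans (le_of_eq ?_)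
    ring
  have h3 := le_of_mul_le_mul_left h2 hD0pos
  rw [hd] at h3
  exact h3

/-- **EXPONENTIAL LOWER BOUNDS FOR CONSTANT DEPTH** -/
theorem xd (k : ℕ) : ∃ C : ℝ, 0 < C ∧
    ∀ (K Γ : Type) [Field K] [LinearOrderedCommGroupWithZero Γ] (v : Valuation K Γ)
      (n T S w w0 : ℕ) (f : Fin T → Fin S → MvPolynomial (Fin n × Fin n) K),
      (∀ a : ℕ, a ≠ 0 → v a = 1) → 2 ≤ S → 1 ≤ w → 1 ≤ w0 →
      (∀ i j, f i j ∈ Cls w0 w S k) →
      (∀ m, v (MvPolynomial.coeff m ((∑ i, ∏ j, f i j) - Pool.CDep.permP n K)) < 1) →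
      (n : ℝ) ≤ C * Real.log (2 * n * T) *
        (Real.log S + (w + w0) * Real.log (2 * n)) ^ (2 * (Nat.fib (2 * k + 4) - 2)) := by
  have hB : (1 : ℝ) ≤ 6 * Real.exp 2 := by
    have := Real.one_le_exp (show (0 : ℝ) ≤ 2 by norm_num)
    linarith
  obtain ⟨C, hC, hfin⟩ := xd_final' k (6 * Real.exp 2) hB
  refine ⟨C, hC, ?_⟩
  intro K Γ _ _ v n T S w w0 f hv hS hw hw0 hf hcl
  obtain ⟨y, m, X, Y, hy, hy1, hm, hX0, hY0, hX, hY, hnum, h⟩ :=
    hfin n T S w w0 (Pool.CDep.T_pos v f hcl) hS hw hw0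
  refine h fun g hg hgn => ?_
  have hgm : g * m ≤ n := by
    have h1 : g * m ≤ g * (m * (8 * m)) := by
      apply Nat.mul_le_mul_left
      nlinarith
    omega
  exact core v hv f (by omega) hw hw0 hf hcl hg hm hy hy1 hgn hX hY hX0 hY0
    (fun i hi => by
      have h2 := hnum (g * m) hgm i hi
      exact h2)

end Pool.XD
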