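import Pool.Agent.XD.Defs

/-!
# Row C: counting the 4-cycles of the matrix of the chain polynomial
-/

set_option autoImplicit false
set_option linter.unusedSectionVars false

namespace Pool.XD

open Finset

section words

variable {d : ℕ} {wd : ℕ → ℕ}

/-- the vertices of a word at the two ends of the block `i` -/
def lt (s : Wrd d wd) (i : Fin d) : Fin (wd i) × Fin (wd (i + 1)) := (s i.castSucc, s i.succ)

/-- exponent vector of a list of letters, one in each block -/
def ind (f : ∀ i : Fin d, Fin (wd i) × Fin (wd (i + 1))) (l : Ltr d wd) : ℕ :=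
  if l.2 = f l.1 then 1 else 0

theorem lt_injective (hw0 : wd 0 = 1) {s s' : Wrd d wd} (h : ∀ i, lt s i = lt s' i) : s = s' := by
  funext j
  rcases Fin.eq_zero_or_eq_succ j with rfl | ⟨i, rfl⟩
  · rcases Nat.eq_zero_or_pos d with h0 | h0
    · subst h0
      have : Subsingleton (Fin (wd ((0 : Fin (0 + 1)) : ℕ))) := by
        have e : wd ((0 : Fin (0 + 1)) : ℕ) = 1 := hw0
        rw [e]
        infer_instance
      exact Subsingleton.elim _ _
    · obtain ⟨e, rfl⟩ : ∃ e, d = e + 1 := ⟨d - 1, by omega⟩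
      exact congrArg Prod.fst (h 0)
  · exact congrArg Prod.snd (h i)

/-- the exponent of the monomial of a word -/
noncomputable def ex (s : Wrd d wd) : Ltr d wd →₀ ℕ := ∑ i, Finsupp.single (ltr s i) 1

theorem ex_apply (s : Wrd d wd) (l : Ltr d wd) : ex s l = ind (lt s) l := by
  classical
  unfold ex ind
  rw [Finsupp.finsetSum_apply]
  rw [Finset.sum_eq_single l.1]
  · rw [Finsupp.single_apply]
    obtain ⟨i, p⟩ := l
    by_cases h : p = lt s i
    · subst h
      rw [if_pos (show ltr s i = (⟨i, lt s i⟩ : Ltr d wd) from rfl), if_pos rfl]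
    · rw [if_neg h, if_neg]
      intro h2
      apply h
      have h3 : (⟨i, lt s i⟩ : Ltr d wd) = ⟨i, p⟩ := h2
      exact (eq_of_heq (Sigma.mk.inj h3).2).symm
  · intro i _ hne
    rw [Finsupp.single_apply, if_neg]
    intro h2
    exact hne (congrArg Sigma.fst h2)
  · intro h
    exact absurd (mem_univ _) h

theorem chn_eq (R : Type) [CommRing R] :
    chn d wd R = ∑ s : Wrd d wd, MvPolynomial.monomial (ex s) 1 := by
  unfold chn
  refine sum_congr rfl fun s _ => ?_
  unfold ex
  rw [MvPolynomial.monomial_sum_one]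
  rfl

theorem ex_injective (hw0 : wd 0 = 1) : Function.Injective (ex : Wrd d wd → _) := by
  intro s s' h
  refine lt_injective hw0 fun i => ?_
  have h1 := DFunLike.congr_fun h (⟨i, lt s i⟩ : Ltr d wd)
  rw [ex_apply, ex_apply] at h1
  unfold ind at h1
  rw [if_pos rfl] at h1
  by_contra h2
  have h2' : ¬ (lt s i = lt s' i) := h2
  rw [if_neg h2'] at h1
  omega

theorem coeff_chn (hw0 : wd 0 = 1) (R : Type) [CommRing R] (s : Wrd d wd) :
    MvPolynomial.coeff (ex s) (chn d wd R) = 1 := by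
  classical
  rw [chn_eq, MvPolynomial.coeff_sum, Finset.sum_eq_single s]
  · rw [MvPolynomial.coeff_monomial, if_pos rfl]
  · intro s' _ hne
    rw [MvPolynomial.coeff_monomial, if_neg]
    exact fun h => hne (ex_injective hw0 h)
  · intro h
    exact absurd (mem_univ _) h

theorem coeff_chn_eq_zero (R : Type) [CommRing R] (m : Ltr d wd →₀ ℕ)
    (hm : ∀ s : Wrd d wd, ex s ≠ m) : MvPolynomial.coeff m (chn d wd R) = 0 := by
  classical
  rw [chn_eq, MvPolynomial.coeff_sum]
  refine Finset.sum_eq_zero fun s _ => ?_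
  rw [MvPolynomial.coeff_monomial, if_neg (hm s)]

variable {ty : ℕ → Bool}

/-- the entry `(a, g)` belongs to the word `s` -/
def EntS (ty : ℕ → Bool) (s : Wrd d wd) (a g : Ltr d wd → ℕ) : Prop :=
  ∀ l : Ltr d wd, if tyl d wd ty l then a l = g l + ind (lt s) l else g l = a l + ind (lt s) l

theorem entS_iff (s : Wrd d wd) (a g : Ltr d wd → ℕ) :
    EntS ty s a g ↔ Adm (tyl d wd ty) a g ∧ gap (tyl d wd ty) a g = ex s := by
  constructor
  · intro h
    refine ⟨fun l => ?_, ?_⟩
    · have := h l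
      split_ifs at this ⊢ <;> omega
    · ext l
      have := h l
      rw [ex_apply]
      show (if tyl d wd ty l then a l - g l else g l - a l) = _
      split_ifs at this ⊢ <;> omega
  · rintro ⟨h1, h2⟩ l
    have e1 := h1 l
    have e2 := DFunLike.congr_fun h2 l
    rw [ex_apply] at e2
    have e3 : (if tyl d wd ty l then a l - g l else g l - a l) = ind (lt s) l := e2
    split_ifs at e1 e3 ⊢ <;> omega

/-- the entry is nonzero -/
def Nz (ty : ℕ → Bool) {a b a' b' : ℕ} (α : Box (tyl d wd ty) a b)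
    (γ : Box (tyl d wd ty) a' b') : Prop :=
  ∃ s : Wrd d wd, EntS ty s α.1 γ.1

open Classical in
theorem opM_chn (hw0 : wd 0 = 1) {a b a' b' : ℕ} (α : Box (tyl d wd ty) a b)
    (γ : Box (tyl d wd ty) a' b') :
    opM (tyl d wd ty) (chn d wd ℝ) a b a' b' α γ = if Nz ty α γ then 1 else 0 := by
  unfold opM
  by_cases h : Nz ty α γ
  · rw [if_pos h]
    obtain ⟨s, hs⟩ := h
    obtain ⟨h1, h2⟩ := (entS_iff s _ _).1 hs
    rw [if_pos h1, h2, coeff_chn hw0]
  · rw [if_neg h]
    split_ifs with h1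
    · refine coeff_chn_eq_zero _ _ fun s hs => h ⟨s, (entS_iff s _ _).2 ⟨h1, hs.symm⟩⟩
    · rfl

end words

section cycles

variable {d : ℕ} {wd : ℕ → ℕ} {ty : ℕ → Bool}

/-- a wall of `σ` -/
def Wall {d : ℕ} (σ : Fin d → Bool) (j : Fin (d + 1)) : Prop :=
  ∃ i i' : Fin d, i.succ = j ∧ i'.castSucc = j ∧ σ i ≠ σ i'

/-- the number of blocks of type `true` with `σ = false` -/
def k0 (ty : ℕ → Bool) {d : ℕ} (σ : Fin d → Bool) : ℕ :=
  (univ.filter fun i : Fin d => ty i = true ∧ σ i = false).card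

/-- the number of blocks of type `false` with `σ = true` -/
def k1 (ty : ℕ → Bool) {d : ℕ} (σ : Fin d → Bool) : ℕ :=
  (univ.filter fun i : Fin d => ty i = false ∧ σ i = true).card

/-- the required letters -/
def req (ty : ℕ → Bool) (s : Wrd d wd) (σ : Fin d → Bool) (l : Ltr d wd) : ℕ :=
  if σ l.1 ≠ ty l.1 ∧ l.2 = lt s l.1 then 1 else 0

theorem four {α : Type} [DecidableEq α] {l1 l2 l3 l4 : α}
    (h : ∀ x, (if x = l1 then 1 else 0) + (if x = l3 then 1 else 0) =
      (if x = l2 then 1 else 0) + (if x = l4 then 1 else 0 : ℕ)) :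
    (l2 = l1 ∧ l4 = l3) ∨ (l2 = l3 ∧ l4 = l1) := by
  by_cases h1 : l2 = l1
  · left
    refine ⟨h1, ?_⟩
    have h2 := h l4
    rw [h1, if_pos rfl] at h2
    by_contra h3
    rw [if_neg h3] at h2
    omega
  · right
    have h2 := h l2
    rw [if_neg h1, if_pos rfl] at h2
    have h3 : l2 = l3 := by
      by_contra h4
      rw [if_neg h4] at h2
      omega
    refine ⟨h3, ?_⟩
    have h4 := h l4
    rw [← h3, if_pos rfl] at h4
    by_contra h5
    rw [if_neg h5] at h4
    omega

/-- the letters chosen by `σ` -/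
def mix (σ : Fin d → Bool) (l1 l3 : ∀ i : Fin d, Fin (wd i) × Fin (wd (i + 1))) (i : Fin d) :
    Fin (wd i) × Fin (wd (i + 1)) :=
  if σ i = true then l3 i else l1 i

/-- the choice function of a cycle -/
def sg (ty : ℕ → Bool) (l1 l2 l3 : ∀ i : Fin d, Fin (wd i) × Fin (wd (i + 1))) (i : Fin d) :
    Bool :=
  if ty i = true then decide (l2 i = l3 i) else !decide (l2 i = l1 i)

variable {s1 s2 s3 s4 : Wrd d wd} {a a' g g' : Ltr d wd → ℕ}

theorem cycle_four (h1 : EntS ty s1 a g) (h2 : EntS ty s2 a' g) (h3 : EntS ty s3 a' g')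
    (h4 : EntS ty s4 a g') (i : Fin d) :
    (lt s2 i = lt s1 i ∧ lt s4 i = lt s3 i) ∨ (lt s2 i = lt s3 i ∧ lt s4 i = lt s1 i) := by
  apply four
  intro l
  have e1 := h1 ⟨i, l⟩
  have e2 := h2 ⟨i, l⟩
  have e3 := h3 ⟨i, l⟩
  have e4 := h4 ⟨i, l⟩
  simp only [ind, tyl] at e1 e2 e3 e4
  cases hi : ty i
  · simp only [hi, Bool.false_eq_true, if_false] at e1 e2 e3 e4
    omega
  · simp only [hi, if_true] at e1 e2 e3 e4
    omega

theorem cycle_mix (h1 : EntS ty s1 a g) (h2 : EntS ty s2 a' g) (h3 : EntS ty s3 a' g')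
    (h4 : EntS ty s4 a g') :
    lt s2 = mix (sg ty (lt s1) (lt s2) (lt s3)) (lt s1) (lt s3) := by
  funext i
  have hf := cycle_four h1 h2 h3 h4 i
  unfold mix sg
  by_cases hi : ty i = true
  · rw [if_pos hi]
    by_cases h : lt s2 i = lt s3 i
    · rw [if_pos (by simpa using h)]
      exact h
    · rw [if_neg (by simpa using h)]
      rcases hf with h5 | h5
      · exact h5.1
      · exact absurd h5.1 h
  · rw [if_neg hi]
    by_cases h : lt s2 i = lt s1 i
    · rw [if_neg (by simpa using h)]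
      exact h
    · rw [if_pos (by simpa using h)]
      rcases hf with h5 | h5
      · exact absurd h5.1 h
      · exact h5.1

/-- the walls -/
theorem cycle_wall (h1 : EntS ty s1 a g) (h2 : EntS ty s2 a' g) (h3 : EntS ty s3 a' g')
    (h4 : EntS ty s4 a g') (j : Fin (d + 1)) (hj : Wall (sg ty (lt s1) (lt s2) (lt s3)) j) :
    s1 j = s3 j := by
  have hm := cycle_mix h1 h2 h3 h4
  set σ := sg ty (lt s1) (lt s2) (lt s3) with hσ
  obtain ⟨i, i', hi, hi', hne⟩ := hj
  have e1 : s2 i.succ = if σ i = true then s3 i.succ else s1 i.succ := by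
    have e := congrArg Prod.snd (congrFun hm i)
    unfold mix at e
    split_ifs at e ⊢
    · exact e
    · exact e
  have e2 : s2 i'.castSucc = if σ i' = true then s3 i'.castSucc else s1 i'.castSucc := by
    have e := congrArg Prod.fst (congrFun hm i')
    unfold mix at e
    split_ifs at e ⊢
    · exact e
    · exact e
  rw [hi] at e1
  rw [hi'] at e2
  cases hs : σ i <;> cases hs' : σ i'
  · exact absurd (hs.trans hs'.symm) hne
  · rw [hs, if_neg (by simp)] at e1
    rw [hs', if_pos rfl] at e2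
    rw [← e1, e2]
  · rw [hs, if_pos rfl] at e1
    rw [hs', if_neg (by simp)] at e2
    rw [← e2, e1]
  · exact absurd (hs.trans hs'.symm) hne

/-- the common part of the first entry -/
def cm (ty : ℕ → Bool) (a g : Ltr d wd → ℕ) (l : Ltr d wd) : ℕ :=
  if tyl d wd ty l then g l else a l

theorem cycle_req (h1 : EntS ty s1 a g) (h2 : EntS ty s2 a' g) (h3 : EntS ty s3 a' g')
    (h4 : EntS ty s4 a g') (l : Ltr d wd) :
    req ty s3 (sg ty (lt s1) (lt s2) (lt s3)) l ≤ cm ty a g l := by
  obtain ⟨i, p⟩ := l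
  unfold req cm tyl
  by_cases h : sg ty (lt s1) (lt s2) (lt s3) i ≠ ty i ∧ p = lt s3 i
  · obtain ⟨hs, hp⟩ := h
    have hp' : p = lt s3 i := hp
    have hf := cycle_four h1 h2 h3 h4 i
    have e1 := h1 ⟨i, p⟩
    have e2 := h2 ⟨i, p⟩
    have e4 := h4 ⟨i, p⟩
    simp only [ind, tyl] at e1 e2 e4
    unfold sg at hs
    cases hi : ty i
    · rw [hi] at hs
      simp only [Bool.false_eq_true, if_false, ne_eq, Bool.not_eq_false',
        decide_eq_true_eq] at hs
      simp only [hi, Bool.false_eq_true, if_false] at e1 e2 e4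
      have hf' : lt s2 i = lt s3 i := by
        rcases hf with h5 | h5
        · exact absurd h5.1 hs
        · exact h5.1
      have n1 : ¬ p = lt s1 i := by
        rw [hp', ← hf']
        exact hs
      have n2 : p = lt s2 i := by rw [hf', hp']
      rw [if_neg n1] at e1
      rw [if_pos n2] at e2
      have : (if (sg ty (lt s1) (lt s2) (lt s3) i ≠ false ∧ p = lt s3 i) then 1 else 0) ≤ 1 := by
        split_ifs <;> omega
      simp only [Bool.false_eq_true, if_false]
      refine le_trans this ?_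
      omega
    · rw [hi] at hs
      simp only [if_true, ne_eq, decide_eq_true_eq] at hs
      simp only [hi, if_true] at e1 e2 e4
      have hf' : lt s2 i = lt s1 i ∧ lt s4 i = lt s3 i := by
        rcases hf with h5 | h5
        · exact h5
        · exact absurd h5.1 hs
      have n1 : ¬ p = lt s1 i := by
        rw [hp', ← hf'.1]
        exact fun e => hs e.symm
      have n4 : p = lt s4 i := by rw [hf'.2, hp']
      rw [if_neg n1] at e1
      rw [if_pos n4] at e4
      have : (if (sg ty (lt s1) (lt s2) (lt s3) i ≠ true ∧ p = lt s3 i) then 1 else 0) ≤ 1 := by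
        split_ifs <;> omega
      simp only [if_true]
      refine le_trans this ?_
      omega
  · rw [if_neg h]
    exact Nat.zero_le _

theorem sum_ind_true (f : ∀ i : Fin d, Fin (wd i) × Fin (wd (i + 1))) :
    (∑ l : Ltr d wd, if tyl d wd ty l then ind f l else 0) =
      (univ.filter fun i : Fin d => ty i = true).card := by
  classical
  rw [Fintype.sum_sigma, card_filter]
  refine sum_congr rfl fun i _ => ?_
  unfold tyl ind
  cases hi : ty i <;> simp [hi]

theorem sum_ind_false (f : ∀ i : Fin d, Fin (wd i) × Fin (wd (i + 1))) :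
    (∑ l : Ltr d wd, if tyl d wd ty l then 0 else ind f l) =
      (univ.filter fun i : Fin d => ty i = false).card := by
  classical
  rw [Fintype.sum_sigma, card_filter]
  refine sum_congr rfl fun i _ => ?_
  unfold tyl ind
  cases hi : ty i <;> simp [hi]

theorem sum_req_true (s : Wrd d wd) (σ : Fin d → Bool) :
    (∑ l : Ltr d wd, if tyl d wd ty l then req ty s σ l else 0) = k0 ty σ := by
  classical
  unfold k0
  rw [Fintype.sum_sigma, card_filter]
  refine sum_congr rfl fun i _ => ?_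
  unfold tyl req
  cases hi : ty i <;> cases hs : σ i <;> simp [hi, hs]

theorem sum_req_false (s : Wrd d wd) (σ : Fin d → Bool) :
    (∑ l : Ltr d wd, if tyl d wd ty l then 0 else req ty s σ l) = k1 ty σ := by
  classical
  unfold k1
  rw [Fintype.sum_sigma, card_filter]
  refine sum_congr rfl fun i _ => ?_
  unfold tyl req
  cases hi : ty i <;> cases hs : σ i <;> simp [hi, hs]

/-- the cycles -/
abbrev Cyc (d : ℕ) (wd : ℕ → ℕ) (ty : ℕ → Bool) (a b a' b' : ℕ) : Type :=
  {x : (Box (tyl d wd ty) a b × Box (tyl d wd ty) a b) ×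
      (Box (tyl d wd ty) a' b' × Box (tyl d wd ty) a' b') //
    (Nz ty x.1.1 x.2.1 ∧ Nz ty x.1.2 x.2.1) ∧ (Nz ty x.1.1 x.2.2 ∧ Nz ty x.1.2 x.2.2)}

/-- the target of the injection -/
abbrev Tgt (d : ℕ) (wd : ℕ → ℕ) (ty : ℕ → Bool) (a b : ℕ) : Type :=
  (σ : Fin d → Bool) × ({p : Wrd d wd × Wrd d wd // ∀ j, Wall σ j → p.1 j = p.2 j} ×
    {_δ : Box (tyl d wd ty) (a - k0 ty σ) (b - k1 ty σ) // k1 ty σ ≤ b})

/-- the injection -/
theorem exists_injection (LU LV r E : ℕ) :
    ∃ Φ : Cyc d wd ty LU LV (LU - r) (LV + E) → Tgt d wd ty (LU - r) LV,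
      Function.Injective Φ := by
  classical
  have key : ∀ x : Cyc d wd ty LU LV (LU - r) (LV + E), ∃ s1 s2 s3 s4 : Wrd d wd,
      EntS ty s1 x.1.1.1.1 x.1.2.1.1 ∧ EntS ty s2 x.1.1.2.1 x.1.2.1.1 ∧
      EntS ty s3 x.1.1.2.1 x.1.2.2.1 ∧ EntS ty s4 x.1.1.1.1 x.1.2.2.1 := by
    rintro ⟨x, ⟨⟨s1, h1⟩, ⟨s2, h2⟩⟩, ⟨⟨s4, h4⟩, ⟨s3, h3⟩⟩⟩
    exact ⟨s1, s2, s3, s4, h1, h2, h3, h4⟩
  choose s1 s2 s3 s4 h1 h2 h3 h4 using key
  have hle := fun x l => cycle_req (h1 x) (h2 x) (h3 x) (h4 x) l
  let σ := fun x => sg ty (lt (s1 x)) (lt (s2 x)) (lt (s3 x))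
  let δ := fun (x : Cyc d wd ty LU LV (LU - r) (LV + E)) (l : Ltr d wd) =>
    cm ty x.1.1.1.1 x.1.2.1.1 l - req ty (s3 x) (σ x) l
  have hδ1 : ∀ x, (∑ l, if tyl d wd ty l then δ x l else 0) = LU - r - k0 ty (σ x) := by
    intro x
    have e1 := sum_req_true (ty := ty) (s3 x) (σ x)
    have e2 := x.1.2.1.2.1
    have e3 : (∑ l, if tyl d wd ty l then δ x l else 0) +
        (∑ l, if tyl d wd ty l then req ty (s3 x) (σ x) l else 0) =
        ∑ l, if tyl d wd ty l then x.1.2.1.1 l else 0 := by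
      rw [← sum_add_distrib]
      refine sum_congr rfl fun l _ => ?_
      have := hle x l
      unfold cm at this
      show (if tyl d wd ty l then (cm ty x.1.1.1.1 x.1.2.1.1 l - req ty (s3 x) (σ x) l) else 0) +
        _ = _
      unfold cm
      split_ifs at this ⊢
      · exact Nat.sub_add_cancel this
      · rfl
    rw [e1, e2] at e3
    omega
  have hδ3 : ∀ x, (∑ l, if tyl d wd ty l then 0 else δ x l) + k1 ty (σ x) = LV := by
    intro x
    have e1 := sum_req_false (ty := ty) (s3 x) (σ x)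
    have e2 := x.1.1.1.2.2
    have e3 : (∑ l, if tyl d wd ty l then 0 else δ x l) +
        (∑ l, if tyl d wd ty l then 0 else req ty (s3 x) (σ x) l) =
        ∑ l, if tyl d wd ty l then 0 else x.1.1.1.1 l := by
      rw [← sum_add_distrib]
      refine sum_congr rfl fun l _ => ?_
      have := hle x l
      unfold cm at this
      show (if tyl d wd ty l then 0 else (cm ty x.1.1.1.1 x.1.2.1.1 l - req ty (s3 x) (σ x) l)) +
        _ = _
      unfold cm
      split_ifs at this ⊢
      · rfl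
      · exact Nat.sub_add_cancel this
    rw [e1, e2] at e3
    exact e3
  have hδ2 : ∀ x, (∑ l, if tyl d wd ty l then 0 else δ x l) = LV - k1 ty (σ x) := by
    intro x
    have := hδ3 x
    omega
  let Φ : Cyc d wd ty LU LV (LU - r) (LV + E) → Tgt d wd ty (LU - r) LV := fun x =>
    ⟨σ x, ⟨(s1 x, s3 x), fun j hj => cycle_wall (h1 x) (h2 x) (h3 x) (h4 x) j hj⟩,
      ⟨⟨δ x, hδ1 x, hδ2 x⟩, by have := hδ3 x; omega⟩⟩
  let Ψ : Tgt d wd ty (LU - r) LV →
      (Fin d → Bool) × ((Wrd d wd × Wrd d wd) × (Ltr d wd → ℕ)) := fun t =>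
    (t.1, (t.2.1.1, t.2.2.1.1))
  refine ⟨Φ, fun x y hxy => ?_⟩
  have hΨ : (σ x, ((s1 x, s3 x), δ x)) = (σ y, ((s1 y, s3 y), δ y)) := congrArg Ψ hxy
  have e0 : σ x = σ y := congrArg Prod.fst hΨ
  have e1 : s1 x = s1 y := congrArg (fun t => t.2.1.1) hΨ
  have e3 : s3 x = s3 y := congrArg (fun t => t.2.1.2) hΨ
  have e4 : δ x = δ y := congrArg (fun t => t.2.2) hΨ
  have hcm : ∀ l, cm ty x.1.1.1.1 x.1.2.1.1 l = cm ty y.1.1.1.1 y.1.2.1.1 l := by
    intro l
    have a1 : cm ty x.1.1.1.1 x.1.2.1.1 l - req ty (s3 x) (σ x) l =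
      cm ty y.1.1.1.1 y.1.2.1.1 l - req ty (s3 y) (σ y) l := congrFun e4 l
    have a2 : req ty (s3 x) (σ x) l ≤ cm ty x.1.1.1.1 x.1.2.1.1 l := hle x l
    have a3 : req ty (s3 y) (σ y) l ≤ cm ty y.1.1.1.1 y.1.2.1.1 l := hle y l
    rw [e0, e3] at a1 a2
    omega
  have hm : lt (s2 x) = lt (s2 y) := by
    rw [cycle_mix (h1 x) (h2 x) (h3 x) (h4 x), cycle_mix (h1 y) (h2 y) (h3 y) (h4 y)]
    have : sg ty (lt (s1 x)) (lt (s2 x)) (lt (s3 x)) =
      sg ty (lt (s1 y)) (lt (s2 y)) (lt (s3 y)) := e0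
    rw [this, e1, e3]
  have hg : ∀ l, x.1.2.1.1 l = y.1.2.1.1 l := by
    intro l
    have a1 := hcm l
    have a2 := h1 x l
    have a3 := h1 y l
    rw [e1] at a2
    unfold cm at a1
    split_ifs at a1 a2 a3 <;> omega
  have ha : ∀ l, x.1.1.1.1 l = y.1.1.1.1 l := by
    intro l
    have a1 := hg l
    have a2 := h1 x l
    have a3 := h1 y l
    rw [e1] at a2
    split_ifs at a2 a3 <;> omega
  have ha' : ∀ l, x.1.1.2.1 l = y.1.1.2.1 l := by
    intro l
    have a1 := hg l
    have a2 := h2 x l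
    have a3 := h2 y l
    rw [hm] at a2
    split_ifs at a2 a3 <;> omega
  have hg' : ∀ l, x.1.2.2.1 l = y.1.2.2.1 l := by
    intro l
    have a1 := ha' l
    have a2 := h3 x l
    have a3 := h3 y l
    rw [e3] at a2
    split_ifs at a2 a3 <;> omega
  apply Subtype.ext
  refine Prod.ext (Prod.ext ?_ ?_) (Prod.ext ?_ ?_)
  · exact Subtype.ext (funext ha)
  · exact Subtype.ext (funext ha')
  · exact Subtype.ext (funext hg)
  · exact Subtype.ext (funext hg')

open Classical in
theorem card_pairs (σ : Fin d → Bool) :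
    Fintype.card {p : Wrd d wd × Wrd d wd // ∀ j, Wall σ j → p.1 j = p.2 j} =
      ∏ j : Fin (d + 1), if Wall σ j then wd j else wd j ^ 2 := by
  let e : {p : Wrd d wd × Wrd d wd // ∀ j, Wall σ j → p.1 j = p.2 j} ≃
      ((j : Fin (d + 1)) → {x : Fin (wd j) × Fin (wd j) // Wall σ j → x.1 = x.2}) :=
    { toFun := fun p j => ⟨(p.1.1 j, p.1.2 j), p.2 j⟩
      invFun := fun f => ⟨(fun j => (f j).1.1, fun j => (f j).1.2), fun j => (f j).2⟩
      left_inv := fun p => rfl
      right_inv := fun f => rfl }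
  rw [Fintype.card_congr e, Fintype.card_pi]
  refine prod_congr rfl fun j _ => ?_
  by_cases h : Wall σ j
  · rw [if_pos h]
    let e2 : {x : Fin (wd j) × Fin (wd j) // Wall σ j → x.1 = x.2} ≃ Fin (wd j) :=
      { toFun := fun x => x.1.1
        invFun := fun y => ⟨(y, y), fun _ => rfl⟩
        left_inv := fun x => Subtype.ext (Prod.ext rfl (x.2 h))
        right_inv := fun y => rfl }
    rw [Fintype.card_congr e2, Fintype.card_fin]
  · rw [if_neg h]
    let e2 : {x : Fin (wd j) × Fin (wd j) // Wall σ j → x.1 = x.2} ≃ Fin (wd j) × Fin (wd j) :=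
      { toFun := fun x => x.1
        invFun := fun y => ⟨y, fun h' => absurd h' h⟩
        left_inv := fun x => rfl
        right_inv := fun y => rfl }
    rw [Fintype.card_congr e2, Fintype.card_prod, Fintype.card_fin, sq]

open Classical in
theorem card_cyc (LU LV r E : ℕ) :
    Fintype.card (Cyc d wd ty LU LV (LU - r) (LV + E)) ≤
      ∑ σ : Fin d → Bool, (∏ j : Fin (d + 1), if Wall σ j then wd j else wd j ^ 2) *
        (if k1 ty σ ≤ LV then
          Fintype.card (Box (tyl d wd ty) (LU - r - k0 ty σ) (LV - k1 ty σ)) else 0) := by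
  obtain ⟨Φ, hΦ⟩ := exists_injection (d := d) (wd := wd) (ty := ty) LU LV r E
  refine (Fintype.card_le_of_injective Φ hΦ).trans (le_of_eq ?_)
  rw [Fintype.card_sigma]
  refine sum_congr rfl fun σ _ => ?_
  rw [Fintype.card_prod, card_pairs]
  congr 1
  rw [Fintype.card_subtype]
  by_cases h : k1 ty σ ≤ LV
  · simp [h]
  · simp [h]

open Classical in
theorem sum_sq_eq {I J : Type} [Fintype I] [Fintype J] (P : I → J → Prop) :
    ∑ i, ∑ i', (∑ j, (if P i j then (1 : ℝ) else 0) * (if P i' j then 1 else 0)) ^ 2 =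
      (Fintype.card {x : (I × I) × (J × J) //
        (P x.1.1 x.2.1 ∧ P x.1.2 x.2.1) ∧ (P x.1.1 x.2.2 ∧ P x.1.2 x.2.2)} : ℝ) := by
  rw [Fintype.card_subtype, card_filter, Nat.cast_sum, Fintype.sum_prod_type,
    Fintype.sum_prod_type]
  refine sum_congr rfl fun i _ => sum_congr rfl fun i' _ => ?_
  rw [sq, sum_mul_sum, Fintype.sum_prod_type]
  refine sum_congr rfl fun j _ => sum_congr rfl fun j' _ => ?_
  by_cases h1 : P i j <;> by_cases h2 : P i' j <;> by_cases h3 : P i j' <;>
    by_cases h4 : P i' j' <;> simp [h1, h2, h3, h4]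

open Classical in
/-- **(C1)** -/
theorem C1 (d : ℕ) (wd : ℕ → ℕ) (ty : ℕ → Bool) (hw0 : wd 0 = 1) (LU LV r E : ℕ) :
    ∑ a : Box (tyl d wd ty) LU LV, ∑ a' : Box (tyl d wd ty) LU LV,
      (∑ g : Box (tyl d wd ty) (LU - r) (LV + E),
        opM (tyl d wd ty) (chn d wd ℝ) LU LV (LU - r) (LV + E) a g *
          opM (tyl d wd ty) (chn d wd ℝ) LU LV (LU - r) (LV + E) a' g) ^ 2 ≤
      ∑ σ : Fin d → Bool, (∏ j : Fin (d + 1), if Wall σ j then (wd j : ℝ) else (wd j : ℝ) ^ 2) *
        (if k1 ty σ ≤ LV then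
          (Fintype.card (Box (tyl d wd ty) (LU - r - k0 ty σ) (LV - k1 ty σ)) : ℝ) else 0) := by
  have h1 := sum_sq_eq (Nz ty : Box (tyl d wd ty) LU LV →
    Box (tyl d wd ty) (LU - r) (LV + E) → Prop)
  simp only [opM_chn hw0]
  rw [h1]
  have h2 := card_cyc (d := d) (wd := wd) (ty := ty) LU LV r E
  have h3 : ((Fintype.card (Cyc d wd ty LU LV (LU - r) (LV + E)) : ℕ) : ℝ) ≤
      ((∑ σ : Fin d → Bool, (∏ j : Fin (d + 1), if Wall σ j then wd j else wd j ^ 2) *
        (if k1 ty σ ≤ LV then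
          Fintype.card (Box (tyl d wd ty) (LU - r - k0 ty σ) (LV - k1 ty σ)) else 0) : ℕ) :
        ℝ) := by
    exact_mod_cast h2
  refine (le_of_eq ?_).trans (h3.trans (le_of_eq ?_))
  · congr 1
  · push_cast
    rfl

/-- **(C2)** -/
theorem C2 (d : ℕ) (wd : ℕ → ℕ) (ty : ℕ → Bool) (hw0 : wd 0 = 1) (LU LV r E : ℕ)
    (hr : r = (univ.filter fun i : Fin d => ty i = true).card)
    (hE : E = (univ.filter fun i : Fin d => ty i = false).card) (h : r ≤ LU) :
    (∏ j : Fin (d + 1), (wd j : ℝ)) * (Fintype.card (Box (tyl d wd ty) (LU - r) LV) : ℝ) ≤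
      ∑ a : Box (tyl d wd ty) LU LV, ∑ g : Box (tyl d wd ty) (LU - r) (LV + E),
        opM (tyl d wd ty) (chn d wd ℝ) LU LV (LU - r) (LV + E) a g ^ 2 := by
  classical
  simp only [opM_chn hw0]
  have h1 : ∑ a : Box (tyl d wd ty) LU LV, ∑ g : Box (tyl d wd ty) (LU - r) (LV + E),
      (if Nz ty a g then (1 : ℝ) else 0) ^ 2 =
      (Fintype.card {x : Box (tyl d wd ty) LU LV × Box (tyl d wd ty) (LU - r) (LV + E) //
        Nz ty x.1 x.2} : ℝ) := by
    rw [Fintype.card_subtype, card_filter, Nat.cast_sum, Fintype.sum_prod_type]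
    refine sum_congr rfl fun i _ => sum_congr rfl fun j _ => ?_
    split_ifs <;> simp
  rw [h1]
  let F : Wrd d wd × Box (tyl d wd ty) (LU - r) LV →
      {x : Box (tyl d wd ty) LU LV × Box (tyl d wd ty) (LU - r) (LV + E) //
        Nz ty x.1 x.2} := fun y =>
    ⟨(⟨fun l => if tyl d wd ty l then y.2.1 l + ind (lt y.1) l else y.2.1 l, by
        have e1 : ∀ l, (if tyl d wd ty l then
            (if tyl d wd ty l then y.2.1 l + ind (lt y.1) l else y.2.1 l) else 0) =
            (if tyl d wd ty l then y.2.1 l else 0) +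
              (if tyl d wd ty l then ind (lt y.1) l else 0) := fun l => by
          split_ifs <;> rfl
        have e2 : ∀ l, (if tyl d wd ty l then 0 else
            (if tyl d wd ty l then y.2.1 l + ind (lt y.1) l else y.2.1 l)) =
            (if tyl d wd ty l then 0 else y.2.1 l) := fun l => by
          split_ifs <;> rfl
        constructor
        · rw [sum_congr rfl fun l _ => e1 l, sum_add_distrib, y.2.2.1, sum_ind_true, ← hr]
          omega
        · rw [sum_congr rfl fun l _ => e2 l, y.2.2.2]⟩,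
      ⟨fun l => if tyl d wd ty l then y.2.1 l else y.2.1 l + ind (lt y.1) l, by
        have e1 : ∀ l, (if tyl d wd ty l then
            (if tyl d wd ty l then y.2.1 l else y.2.1 l + ind (lt y.1) l) else 0) =
            (if tyl d wd ty l then y.2.1 l else 0) := fun l => by
          split_ifs <;> rfl
        have e2 : ∀ l, (if tyl d wd ty l then 0 else
            (if tyl d wd ty l then y.2.1 l else y.2.1 l + ind (lt y.1) l)) =
            (if tyl d wd ty l then 0 else y.2.1 l) +
              (if tyl d wd ty l then 0 else ind (lt y.1) l) := fun l => by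
          split_ifs <;> rfl
        constructor
        · rw [sum_congr rfl fun l _ => e1 l, y.2.2.1]
        · rw [sum_congr rfl fun l _ => e2 l, sum_add_distrib, y.2.2.2, sum_ind_false, ← hE]⟩),
      ⟨y.1, fun l => by
        show if tyl d wd ty l then
            (if tyl d wd ty l then y.2.1 l + ind (lt y.1) l else y.2.1 l) =
              (if tyl d wd ty l then y.2.1 l else y.2.1 l + ind (lt y.1) l) + ind (lt y.1) l
          else (if tyl d wd ty l then y.2.1 l else y.2.1 l + ind (lt y.1) l) =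
              (if tyl d wd ty l then y.2.1 l + ind (lt y.1) l else y.2.1 l) + ind (lt y.1) l
        split_ifs <;> rfl⟩⟩
  have hF : Function.Injective F := by
    intro y z hyz
    have e0 := congrArg (fun t => t.1) hyz
    have ea : ∀ l, (if tyl d wd ty l then y.2.1 l + ind (lt y.1) l else y.2.1 l) =
        if tyl d wd ty l then z.2.1 l + ind (lt z.1) l else z.2.1 l := fun l =>
      congrFun (congrArg Subtype.val (congrArg Prod.fst e0)) l
    have eg : ∀ l, (if tyl d wd ty l then y.2.1 l else y.2.1 l + ind (lt y.1) l) =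
        if tyl d wd ty l then z.2.1 l else z.2.1 l + ind (lt z.1) l := fun l =>
      congrFun (congrArg Subtype.val (congrArg Prod.snd e0)) l
    have e1 : ∀ l, y.2.1 l = z.2.1 l := fun l => by
      have a1 := ea l
      have a2 := eg l
      split_ifs at a1 a2 <;> omega
    have e2 : ∀ l, ind (lt y.1) l = ind (lt z.1) l := fun l => by
      have a1 := ea l
      have a2 := eg l
      have a3 := e1 l
      split_ifs at a1 a2 <;> omega
    refine Prod.ext ?_ (Subtype.ext (funext e1))
    refine lt_injective hw0 fun i => ?_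
    have a1 := e2 ⟨i, lt y.1 i⟩
    unfold ind at a1
    rw [if_pos rfl] at a1
    by_contra h2
    have h2' : ¬ (lt y.1 i = lt z.1 i) := h2
    rw [if_neg h2'] at a1
    omega
  have h2 := Fintype.card_le_of_injective F hF
  rw [Fintype.card_prod, Fintype.card_pi] at h2
  simp only [Fintype.card_fin] at h2
  exact_mod_cast h2

end cycles

end Pool.XD
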