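import Pool.Agent.Helper41.CD.Gate

/-!
# XD: products by the truncated exponential and the truncated logarithm

`cf_prod_one_add`: in total degree at most `d` the product of the `1 + h i` is
`exp (∑ i, log (1 + h i))`, with truncated polynomials for `exp` and `log`.
-/

set_option autoImplicit false

namespace Pool.XD

open Finset Pool.Agent.Helper87.D3 Pool.Agent.Helper41.CD

section order

variable {B : Type} [CommRing B]

/-- all coefficients of total degree less than `n` vanish -/
def Ord (n : ℕ) (F : Ser B) : Prop := ∀ b e, b + e < n → cf b e F = 0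

theorem Ord.any (F : Ser B) : Ord 0 F := fun _ _ h => absurd h (Nat.not_lt_zero _)

theorem Ord.zero (n : ℕ) : Ord n (0 : Ser B) := fun _ _ _ => cf_zero _ _

theorem ord_one_iff {F : Ser B} : Ord 1 F ↔ cf 0 0 F = 0 := by
  constructor
  · intro h
    exact h 0 0 (by omega)
  · intro h b e hbe
    have h1 : b = 0 := by omega
    have h2 : e = 0 := by omega
    rw [h1, h2, h]

theorem Ord.add {n : ℕ} {F G : Ser B} (hF : Ord n F) (hG : Ord n G) : Ord n (F + G) :=
  fun b e h => by rw [cf_add, hF b e h, hG b e h, add_zero]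

theorem Ord.sub {n : ℕ} {F G : Ser B} (hF : Ord n F) (hG : Ord n G) : Ord n (F - G) :=
  fun b e h => by rw [cf_sub, hF b e h, hG b e h, sub_zero]

theorem Ord.sum {n : ℕ} {ι : Type} (s : Finset ι) (F : ι → Ser B) (hF : ∀ i ∈ s, Ord n (F i)) :
    Ord n (∑ i ∈ s, F i) := fun b e h => by
  rw [cf_sum]
  exact sum_eq_zero fun i hi => hF i hi b e h

theorem Ord.mul {m n : ℕ} {F G : Ser B} (hF : Ord m F) (hG : Ord n G) : Ord (m + n) (F * G) := by
  intro b e hbe
  rw [cf_mul]
  refine sum_eq_zero fun i hi => sum_eq_zero fun j hj => ?_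
  have h1 := mem_antidiagonal.1 hi
  have h2 := mem_antidiagonal.1 hj
  by_cases h : i.1 + j.1 < m
  · rw [hF _ _ h, zero_mul]
  · rw [hG _ _ (by omega), mul_zero]

theorem Ord.mono {m n : ℕ} (h : m ≤ n) {F : Ser B} (hF : Ord n F) : Ord m F :=
  fun b e hbe => hF b e (by omega)

theorem Ord.mul_right {n : ℕ} {F : Ser B} (hF : Ord n F) (G : Ser B) : Ord n (F * G) :=
  hF.mul (Ord.any G)

theorem Ord.mul_left {n : ℕ} {F : Ser B} (hF : Ord n F) (G : Ser B) : Ord n (G * F) := by
  rw [mul_comm]
  exact hF.mul_right G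

theorem Ord.pow {F : Ser B} (hF : Ord 1 F) (n : ℕ) : Ord n (F ^ n) := by
  induction n with
  | zero => exact Ord.any _
  | succ n ih => rw [pow_succ]; exact ih.mul hF

theorem Ord.smul {K : Type} [Field K] [Algebra K B] {n : ℕ} {F : Ser B} (hF : Ord n F) (c : K) :
    Ord n (c • F) := by
  rw [Algebra.smul_def]
  exact hF.mul_left _

end order

section explog

variable (K : Type) [Field K]

/-- the truncated exponential series -/
noncomputable def expP (d : ℕ) : Polynomial K :=
  ∑ t ∈ range (d + 1), Polynomial.C ((t.factorial : K)⁻¹) * Polynomial.X ^ t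

/-- the truncated logarithm series -/
noncomputable def logP (d : ℕ) : Polynomial K :=
  ∑ t ∈ range d, Polynomial.C ((-1) ^ t * ((t + 1 : ℕ) : K)⁻¹) * Polynomial.X ^ (t + 1)

/-- the truncated exponential series as a polynomial in one of one variables -/
noncomputable def expMv (d : ℕ) : MvPolynomial (Fin 1) K :=
  Polynomial.aeval (MvPolynomial.X 0) (expP K d)

variable {K}

/-- the truncated logarithm of `Q / c` -/
noncomputable def logMv (d : ℕ) {w : ℕ} (Q : MvPolynomial (Fin w) K) (c : K) :
    MvPolynomial (Fin w) K :=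
  Polynomial.aeval (MvPolynomial.C c⁻¹ * Q - 1) (logP K d)

theorem X_dvd_logP (d : ℕ) : Polynomial.X ∣ logP K d := by
  unfold logP
  refine dvd_sum fun t _ => ?_
  rw [pow_succ, ← mul_assoc]
  exact Dvd.intro_left _ rfl

variable [CharZero K]

theorem derivative_expP (d : ℕ) : Polynomial.derivative (expP K d) =
    expP K d - Polynomial.C ((d.factorial : K)⁻¹) * Polynomial.X ^ d := by
  unfold expP
  rw [sum_range_succ, add_sub_cancel_right, ← sum_range_succ, Polynomial.derivative_sum,
    sum_range_succ']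
  simp only [Polynomial.derivative_C_mul, Polynomial.derivative_X_pow, pow_zero,
    Polynomial.derivative_one, mul_zero, add_zero]
  refine sum_congr rfl fun t _ => ?_
  rw [← mul_assoc, ← Polynomial.C_mul, Nat.add_sub_cancel]
  congr 2
  rw [Nat.factorial_succ]
  have h : ((t + 1 : ℕ) : K) ≠ 0 := by exact_mod_cast Nat.succ_ne_zero t
  have h2 : (t.factorial : K) ≠ 0 := by exact_mod_cast t.factorial_ne_zero
  rw [Nat.cast_mul]
  field_simp

theorem one_add_mul_derivative_logP (d : ℕ) :
    (1 + Polynomial.X) * Polynomial.derivative (logP K d) = 1 - (-Polynomial.X) ^ d := by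
  have h1 : Polynomial.derivative (logP K d) = ∑ t ∈ range d, (-Polynomial.X : Polynomial K) ^ t := by
    unfold logP
    rw [Polynomial.derivative_sum]
    refine sum_congr rfl fun t _ => ?_
    rw [Polynomial.derivative_C_mul, Polynomial.derivative_X_pow, Nat.add_sub_cancel, ← mul_assoc,
      ← Polynomial.C_mul, neg_pow (Polynomial.X : Polynomial K)]
    have h : ((t + 1 : ℕ) : K) ≠ 0 := by exact_mod_cast Nat.succ_ne_zero t
    rw [mul_assoc, inv_mul_cancel₀ h, mul_one]
    simp
  have h2 := mul_neg_geom_sum (-Polynomial.X : Polynomial K) d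
  rw [sub_neg_eq_add] at h2
  rw [h1, h2]

/-- `exp (log (1 + X)) = 1 + X` up to the degree `d` -/
theorem X_pow_dvd_exp_log (d : ℕ) :
    Polynomial.X ^ (d + 1) ∣ (expP K d).comp (logP K d) - (1 + Polynomial.X) := by
  set P := (expP K d).comp (logP K d) with hP
  obtain ⟨R, hR⟩ := X_dvd_logP (K := K) d
  have h1 : (1 + Polynomial.X) * Polynomial.derivative P =
      P - Polynomial.X ^ d * (Polynomial.C ((d.factorial : K)⁻¹) * R ^ d +
        (-1) ^ d * (P - Polynomial.C ((d.factorial : K)⁻¹) * (logP K d) ^ d)) := by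
    rw [hP, Polynomial.derivative_comp, derivative_expP, Polynomial.sub_comp, Polynomial.mul_comp,
      Polynomial.C_comp, Polynomial.pow_comp, Polynomial.X_comp, ← hP]
    calc (1 + Polynomial.X) * (Polynomial.derivative (logP K d) *
          (P - Polynomial.C ((d.factorial : K)⁻¹) * logP K d ^ d))
        = ((1 + Polynomial.X) * Polynomial.derivative (logP K d)) *
          (P - Polynomial.C ((d.factorial : K)⁻¹) * logP K d ^ d) := by ring
      _ = (1 - (-1) ^ d * Polynomial.X ^ d) *
          (P - Polynomial.C ((d.factorial : K)⁻¹) * logP K d ^ d) := by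
          rw [one_add_mul_derivative_logP, neg_pow]
      _ = P - Polynomial.C ((d.factorial : K)⁻¹) * logP K d ^ d - Polynomial.X ^ d *
          ((-1) ^ d * (P - Polynomial.C ((d.factorial : K)⁻¹) * (logP K d) ^ d)) := by ring
      _ = _ := by
          have h3 : Polynomial.C ((d.factorial : K)⁻¹) * logP K d ^ d =
              Polynomial.X ^ d * (Polynomial.C ((d.factorial : K)⁻¹) * R ^ d) := by
            rw [hR, mul_pow]
            ring
          linear_combination -h3
  have h2 : ∀ t, t < d → ((t : K) + 1) * P.coeff (t + 1) + t * P.coeff t = P.coeff t := by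
    intro t ht
    have h3 := congrArg (fun p => Polynomial.coeff p t) h1
    simp only [Polynomial.coeff_sub] at h3
    rw [Polynomial.coeff_X_pow_mul', if_neg (by omega), sub_zero] at h3
    have h4 : ((1 + Polynomial.X) * Polynomial.derivative P).coeff t =
        ((t : K) + 1) * P.coeff (t + 1) + t * P.coeff t := by
      rw [add_mul, one_mul, Polynomial.coeff_add, Polynomial.coeff_derivative]
      rcases t with _ | t
      · simp
      · rw [Polynomial.coeff_X_mul, Polynomial.coeff_derivative]
        push_cast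
        ring
    rw [← h4, h3]
  have h0 : P.coeff 0 = 1 := by
    rw [Polynomial.coeff_zero_eq_eval_zero, hP, Polynomial.eval_comp]
    have h4 : (logP K d).eval 0 = 0 := by
      rw [hR, Polynomial.eval_mul, Polynomial.eval_X, zero_mul]
    rw [h4]
    unfold expP
    rw [Polynomial.eval_finsetSum, sum_range_succ']
    simp
  rw [Polynomial.X_pow_dvd_iff]
  have key : ∀ t, 2 ≤ t → t ≤ d → P.coeff t = 0 := by
    intro t ht
    induction t, ht using Nat.le_induction with
    | base =>
      intro hd
      have h5 := h2 1 (by omega)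
      have h6 : ((1 : ℕ) : K) = 1 := Nat.cast_one
      rw [h6, one_mul] at h5
      have h7 : ((1 : K) + 1) * P.coeff (1 + 1) = 0 := by linear_combination h5
      rcases mul_eq_zero.1 h7 with h8 | h8
      · exfalso
        have : (2 : K) ≠ 0 := two_ne_zero
        apply this
        linear_combination h8
      · exact h8
    | succ t ht ih =>
      intro hd
      have h5 := h2 t (by omega)
      rw [ih (by omega)] at h5
      have h7 : ((t : K) + 1) * P.coeff (t + 1) = 0 := by linear_combination h5
      rcases mul_eq_zero.1 h7 with h8 | h8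
      · exfalso
        have : ((t + 1 : ℕ) : K) ≠ 0 := by exact_mod_cast Nat.succ_ne_zero t
        apply this
        push_cast
        exact h8
      · exact h8
  intro t ht
  rw [Polynomial.coeff_sub, Polynomial.coeff_add, Polynomial.coeff_one, Polynomial.coeff_X]
  rcases Nat.lt_or_ge t 2 with h3 | h3
  · rcases t with _ | t
    · simp [h0]
    · have ht0 : t = 0 := by omega
      subst ht0
      have h5 := h2 0 (by omega)
      simp only [Nat.cast_zero, zero_add, one_mul, zero_mul, add_zero] at h5
      simp [h5, h0]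
  · rw [key t h3 (by omega), if_neg (by omega), if_neg (by omega)]
    simp

end explog

section products

variable {K B : Type} [Field K] [CharZero K] [CommRing B] [Algebra K B]

omit [CharZero K] in
theorem aeval_expP (d : ℕ) (a : Ser B) : Polynomial.aeval a (expP K d) =
    ∑ t ∈ range (d + 1), ((t.factorial : K)⁻¹) • a ^ t := by
  unfold expP
  rw [map_sum]
  refine sum_congr rfl fun t _ => ?_
  rw [map_mul, Polynomial.aeval_C, map_pow, Polynomial.aeval_X, Algebra.smul_def]

/-- additivity of the truncated exponential -/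
theorem exp_add_ord (d : ℕ) {a b : Ser B} (ha : Ord 1 a) (hb : Ord 1 b) :
    Ord (d + 1) (Polynomial.aeval a (expP K d) * Polynomial.aeval b (expP K d) -
      Polynomial.aeval (a + b) (expP K d)) := by
  set f : ℕ × ℕ → Ser B := fun m =>
    ((m.1.factorial : K)⁻¹ * (m.2.factorial : K)⁻¹) • (a ^ m.1 * b ^ m.2) with hf
  have e1 : Polynomial.aeval a (expP K d) * Polynomial.aeval b (expP K d) =
      ∑ m ∈ range (d + 1) ×ˢ range (d + 1), f m := by
    rw [aeval_expP, aeval_expP, sum_mul_sum, ← sum_product']
    refine sum_congr rfl fun m _ => ?_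
    rw [hf]
    simp only
    rw [smul_mul_smul_comm]
  have e2 : Polynomial.aeval (a + b) (expP K d) =
      ∑ m ∈ (range (d + 1) ×ˢ range (d + 1)).filter (fun m => m.1 + m.2 ≤ d), f m := by
    rw [aeval_expP, ← sum_fiberwise_of_maps_to
      (s := (range (d + 1) ×ˢ range (d + 1)).filter (fun m => m.1 + m.2 ≤ d))
      (t := range (d + 1)) (g := fun m => m.1 + m.2) (fun m hm => by
        rw [mem_filter] at hm
        rw [mem_range]
        omega)]
    refine sum_congr rfl fun t ht => ?_
    rw [mem_range] at ht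
    have e3 : ((range (d + 1) ×ˢ range (d + 1)).filter (fun m => m.1 + m.2 ≤ d)).filter
        (fun m => m.1 + m.2 = t) = antidiagonal t := by
      ext m
      simp only [mem_filter, mem_product, mem_range, HasAntidiagonal.mem_antidiagonal]
      omega
    rw [e3, (Commute.all a b).add_pow', smul_sum]
    refine sum_congr rfl fun m hm => ?_
    have hm' := mem_antidiagonal.1 hm
    rw [hf]
    simp only
    rw [← Nat.cast_smul_eq_nsmul K, smul_smul]
    congr 1
    have h1 : (t.choose m.1 : K) * m.1.factorial * m.2.factorial = t.factorial := by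
      have h2 := Nat.choose_mul_factorial_mul_factorial (n := t) (k := m.1) (by omega)
      have h3 : t - m.1 = m.2 := by omega
      rw [h3] at h2
      exact_mod_cast h2
    have h4 : (m.1.factorial : K) ≠ 0 := by exact_mod_cast m.1.factorial_ne_zero
    have h5 : (m.2.factorial : K) ≠ 0 := by exact_mod_cast m.2.factorial_ne_zero
    have h6 : (t.factorial : K) ≠ 0 := by exact_mod_cast t.factorial_ne_zero
    field_simp
    linear_combination h1
  rw [e1, e2, ← sum_filter_add_sum_filter_not (range (d + 1) ×ˢ range (d + 1))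
    (fun m => m.1 + m.2 ≤ d), add_sub_cancel_left]
  refine Ord.sum _ _ fun m hm => ?_
  rw [mem_filter] at hm
  rw [hf]
  refine Ord.smul ?_ _
  exact ((ha.pow m.1).mul (hb.pow m.2)).mono (by omega)

omit [CharZero K] in
/-- a polynomial with high order at a series without constant term -/
theorem ord_aeval_of_dvd {n : ℕ} {P : Polynomial K} (hP : Polynomial.X ^ n ∣ P) {h : Ser B}
    (h0 : Ord 1 h) : Ord n (Polynomial.aeval h P) := by
  obtain ⟨R, rfl⟩ := hP
  rw [map_mul, map_pow, Polynomial.aeval_X]
  exact (h0.pow n).mul_right _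

omit [CharZero K] in
theorem ord_log (d : ℕ) {h : Ser B} (h0 : Ord 1 h) : Ord 1 (Polynomial.aeval h (logP K d)) :=
  ord_aeval_of_dvd (by rw [pow_one]; exact X_dvd_logP d) h0

theorem exp_log_ord (d : ℕ) {h : Ser B} (h0 : Ord 1 h) :
    Ord (d + 1) (Polynomial.aeval (Polynomial.aeval h (logP K d)) (expP K d) - (1 + h)) := by
  have h1 := ord_aeval_of_dvd (X_pow_dvd_exp_log (K := K) d) h0
  rw [map_sub, Polynomial.aeval_comp, map_add, map_one, Polynomial.aeval_X] at h1
  exact h1

/-- **products are exponentials of sums of logarithms**, up to the total degree `d` -/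
theorem ord_prod_one_add (d : ℕ) {ι : Type} (s : Finset ι) (h : ι → Ser B)
    (h0 : ∀ i ∈ s, cf 0 0 (h i) = 0) :
    Ord (d + 1) (∏ i ∈ s, (1 + h i) -
      Polynomial.aeval (∑ i ∈ s, Polynomial.aeval (h i) (logP K d)) (expP K d)) := by
  classical
  induction s using Finset.induction_on with
  | empty =>
    rw [prod_empty, sum_empty]
    have h1 := exp_log_ord (K := K) (B := B) d (h := 0) (Ord.zero 1)
    have h2 : Polynomial.aeval (0 : Ser B) (logP K d) = 0 := by
      obtain ⟨R, hR⟩ := X_dvd_logP (K := K) d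
      rw [hR, map_mul, Polynomial.aeval_X, zero_mul]
    rw [h2] at h1
    have h3 := (Ord.zero (B := B) (d + 1)).sub h1
    convert h3 using 1
    ring
  | insert a s ha ih =>
    have h1 := ih fun i hi => h0 i (mem_insert_of_mem hi)
    have hS : Ord 1 (∑ i ∈ s, Polynomial.aeval (h i) (logP K d)) :=
      Ord.sum _ _ fun i hi => ord_log d (ord_one_iff.2 (h0 i (mem_insert_of_mem hi)))
    have ha1 : Ord 1 (h a) := ord_one_iff.2 (h0 a (mem_insert_self _ _))
    have h2 := exp_add_ord (K := K) d (ord_log (K := K) d ha1) hS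
    have h3 := exp_log_ord (K := K) d ha1
    rw [prod_insert ha, sum_insert ha]
    have h4 := ((h1.mul_left (1 + h a)).sub (h3.mul_right (Polynomial.aeval
      (∑ i ∈ s, Polynomial.aeval (h i) (logP K d)) (expP K d)))).add h2
    convert h4 using 1
    ring

theorem cf_prod_one_add (d : ℕ) {ι : Type} (s : Finset ι) (h : ι → Ser B)
    (h0 : ∀ i ∈ s, cf 0 0 (h i) = 0) {b e : ℕ} (hbe : b + e ≤ d) :
    cf b e (∏ i ∈ s, (1 + h i)) = cf b e (Polynomial.aeval
      (∑ i ∈ s, Polynomial.aeval (h i) (logP K d)) (expP K d)) := by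
  have h1 := ord_prod_one_add (K := K) d s h h0 b e (by omega)
  rw [cf_sub] at h1
  exact sub_eq_zero.1 h1

omit [CharZero K] in
theorem aeval_expMv (d : ℕ) (g : Ser B) :
    MvPolynomial.aeval (fun _ : Fin 1 => g) (expMv K d) = Polynomial.aeval g (expP K d) := by
  unfold expMv
  rw [← Polynomial.aeval_algHom_apply, MvPolynomial.aeval_X]

omit [CharZero K] in
theorem aeval_logMv (d : ℕ) {w : ℕ} (G : Fin w → Ser B) (Q : MvPolynomial (Fin w) K) (c : K) :
    MvPolynomial.aeval G (logMv d Q c) =
      Polynomial.aeval (c⁻¹ • MvPolynomial.aeval G Q - 1) (logP K d) := by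
  unfold logMv
  rw [← Polynomial.aeval_algHom_apply, map_sub, map_mul, map_one, MvPolynomial.aeval_C,
    Algebra.smul_def]

omit [CharZero K] in
theorem cf_smul' (b e : ℕ) (c : K) (F : Ser B) : cf b e (c • F) = c • cf b e F := by
  rw [Algebra.smul_def, Pool.Agent.Helper59.CD.algebraMap_ser, cf_cst_mul, Algebra.smul_def]

omit [CharZero K] in
theorem cf00_norm {F : Ser B} {c : K} (hc : c ≠ 0) (h0 : cf 0 0 F = algebraMap K B c) :
    cf 0 0 (c⁻¹ • F - 1) = 0 := by
  rw [cf_sub, cf_smul', h0, cf_one, if_pos ⟨rfl, rfl⟩, Algebra.smul_def, ← map_mul,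
    inv_mul_cancel₀ hc, map_one, sub_self]

/-- **the product of polynomial gates** as one exponential of a sum of polynomial gates -/
theorem cf_prod_gates (d : ℕ) {ι : Type} {w : ℕ} (s : Finset ι) (G : ι → Fin w → Ser B)
    (Q : ι → MvPolynomial (Fin w) K) (c : ι → K) (hc : ∀ i ∈ s, c i ≠ 0)
    (h0 : ∀ i ∈ s, cf 0 0 (MvPolynomial.aeval (G i) (Q i)) = algebraMap K B (c i))
    {b e : ℕ} (hbe : b + e ≤ d) :
    cf b e (∏ i ∈ s, MvPolynomial.aeval (G i) (Q i)) =
      (∏ i ∈ s, c i) • cf b e (MvPolynomial.aeval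
        (fun _ : Fin 1 => ∑ i ∈ s, MvPolynomial.aeval (G i) (logMv d (Q i) (c i)))
          (expMv K d)) := by
  have h1 := cf_prod_one_add (K := K) d s
    (fun i => (c i)⁻¹ • MvPolynomial.aeval (G i) (Q i) - 1)
    (fun i hi => cf00_norm (hc i hi) (h0 i hi)) hbe
  have h2 : ∏ i ∈ s, MvPolynomial.aeval (G i) (Q i) = (∏ i ∈ s, c i) •
      ∏ i ∈ s, (1 + ((c i)⁻¹ • MvPolynomial.aeval (G i) (Q i) - 1)) := by
    rw [← prod_smul]
    refine prod_congr rfl fun i hi => ?_
    rw [add_sub_cancel, smul_smul, mul_inv_cancel₀ (hc i hi), one_smul]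
  rw [h2, cf_smul', h1, aeval_expMv]
  simp only [aeval_logMv]

/-- the sum of the logarithms has no constant term -/
theorem cf00_sum_log (d : ℕ) {ι : Type} {w : ℕ} (s : Finset ι) (G : ι → Fin w → Ser B)
    (Q : ι → MvPolynomial (Fin w) K) (c : ι → K) (hc : ∀ i ∈ s, c i ≠ 0)
    (h0 : ∀ i ∈ s, cf 0 0 (MvPolynomial.aeval (G i) (Q i)) = algebraMap K B (c i)) :
    cf 0 0 (∑ i ∈ s, MvPolynomial.aeval (G i) (logMv d (Q i) (c i))) = 0 := by
  rw [cf_sum]
  refine sum_eq_zero fun i hi => ?_
  rw [aeval_logMv]
  exact ord_one_iff.1 (ord_log d (ord_one_iff.2 (cf00_norm (hc i hi) (h0 i hi))))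

end products

end Pool.XD
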