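import Pool.Agent.XD.Series
import Pool.Agent.XD.ExpLog

/-!
# Exponential lower bounds for constant depth (XD): the level machine

`NCls c w0 w S k`: the members of `Cls w0 w S k` all of whose inner factors are `0` or do not vanish
at the point `c`.  For those the product of `S` factors is the exponential of the sum of the
logarithms, and the logarithm of a gate of few inputs is again a gate of few inputs.
`level_machine_at` is the bound at one point, `exists_gen` gives the generic point, and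
`level_machine` is the combination.
-/

set_option autoImplicit false

namespace Pool.XD

open Finset Pool.Agent.Helper87.D3 Pool.Agent.Helper41.CD

section classes

variable {σ K : Type} [Field K]

/-- the members of `Cls w0 w S k` whose inner factors are `0` or do not vanish at `c` -/
def NCls (c : σ → K) (w0 w S : ℕ) : ℕ → Set (MvPolynomial σ K)
  | 0 => {f | ∃ (L : Fin w0 → MvPolynomial σ K) (Q : MvPolynomial (Fin w0) K),
      (∀ i, (L i).totalDegree ≤ 1) ∧ f = MvPolynomial.aeval L Q}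
  | k + 1 => {f | ∃ (F : Fin w → Fin S → Fin S → MvPolynomial σ K)
      (Q : MvPolynomial (Fin w) K), (∀ l i j, F l i j ∈ NCls c w0 w S k ∧
        (F l i j = 0 ∨ MvPolynomial.eval c (F l i j) ≠ 0)) ∧
        f = MvPolynomial.aeval (fun l => ∑ i, ∏ j, F l i j) Q}

open Classical in
/-- the generic point of one element -/
theorem exists_gen_one {w0 w S : ℕ} : ∀ (k : ℕ) (f : MvPolynomial σ K), f ∈ Cls w0 w S k →
    ∃ W : MvPolynomial σ K, W ≠ 0 ∧ ∀ c : σ → K, MvPolynomial.eval c W ≠ 0 →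
      f ∈ NCls c w0 w S k ∧ (f = 0 ∨ MvPolynomial.eval c f ≠ 0) := by
  have key : ∀ (k : ℕ) (f : MvPolynomial σ K), f ∈ Cls w0 w S k →
      ∃ W : MvPolynomial σ K, W ≠ 0 ∧ ∀ c : σ → K, MvPolynomial.eval c W ≠ 0 →
        f ∈ NCls c w0 w S k := by
    intro k
    induction k with
    | zero =>
      rintro f ⟨L, Q, hL, rfl⟩
      exact ⟨1, one_ne_zero, fun c _ => ⟨L, Q, hL, rfl⟩⟩
    | succ k ih =>
      rintro f ⟨F, Q, hF, rfl⟩
      choose W hW0 hW using fun l i j => ih (F l i j) (hF l i j)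
      refine ⟨∏ l, ∏ i, ∏ j, (W l i j * if F l i j = 0 then 1 else F l i j), ?_, fun c hc => ?_⟩
      · refine prod_ne_zero_iff.2 fun l _ => prod_ne_zero_iff.2 fun i _ =>
          prod_ne_zero_iff.2 fun j _ => mul_ne_zero (hW0 l i j) ?_
        split_ifs with h
        · exact one_ne_zero
        · exact h
      · refine ⟨F, Q, fun l i j => ?_, rfl⟩
        rw [map_prod] at hc
        have h1 := prod_ne_zero_iff.1 hc l (mem_univ _)
        rw [map_prod] at h1
        have h2 := prod_ne_zero_iff.1 h1 i (mem_univ _)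
        rw [map_prod] at h2
        have h3 := prod_ne_zero_iff.1 h2 j (mem_univ _)
        rw [map_mul] at h3
        refine ⟨hW l i j c (left_ne_zero_of_mul h3), ?_⟩
        by_cases h : F l i j = 0
        · exact Or.inl h
        · right
          have h4 := right_ne_zero_of_mul h3
          rwa [if_neg h] at h4
  intro k f hf
  obtain ⟨W, hW0, hW⟩ := key k f hf
  refine ⟨W * if f = 0 then 1 else f, mul_ne_zero hW0 ?_, fun c hc => ?_⟩
  · split_ifs with h
    · exact one_ne_zero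
    · exact h
  · rw [map_mul] at hc
    refine ⟨hW c (left_ne_zero_of_mul hc), ?_⟩
    by_cases h : f = 0
    · exact Or.inl h
    · right
      have h4 := right_ne_zero_of_mul hc
      rwa [if_neg h] at h4

/-- **the generic point**: the polynomial `W` depends only on the family -/
theorem exists_gen {w0 w S k : ℕ} {I : Type} [Fintype I] (f : I → MvPolynomial σ K)
    (hf : ∀ i, f i ∈ Cls w0 w S k) :
    ∃ W : MvPolynomial σ K, W ≠ 0 ∧ ∀ c : σ → K, MvPolynomial.eval c W ≠ 0 →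
      ∀ i, f i ∈ NCls c w0 w S k ∧ (f i = 0 ∨ MvPolynomial.eval c (f i) ≠ 0) := by
  choose W hW0 hW using fun i => exists_gen_one k (f i) (hf i)
  refine ⟨∏ i, W i, prod_ne_zero_iff.2 fun i _ => hW0 i, fun c hc i => hW i c ?_⟩
  rw [map_prod] at hc
  exact prod_ne_zero_iff.1 hc i (mem_univ _)

/-- `NCls` is a part of `Cls` -/
theorem NCls.toCls {c : σ → K} {w0 w S : ℕ} : ∀ (k : ℕ) {f : MvPolynomial σ K},
    f ∈ NCls c w0 w S k → f ∈ Cls w0 w S k := by
  intro k
  induction k with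
  | zero =>
    rintro f ⟨L, Q, hL, rfl⟩
    exact ⟨L, Q, hL, rfl⟩
  | succ k ih =>
    rintro f ⟨F, Q, hF, rfl⟩
    exact ⟨F, Q, fun l i j => ih (hF l i j).1, rfl⟩

end classes

section numbers

theorem NumD.mono {d : ℕ} {κ κ' HU HV x y x' y' : ℝ} (hx : 0 < x) (hy : 0 < y) (hκ : κ' ≤ κ)
    (h : NumD d κ HU HV x y x' y') : NumD d κ' HU HV x y x' y' := by
  intro b e hne hbe
  rcases h b e hne hbe with h1 | h1 | h1
  · exact Or.inl h1
  · exact Or.inr (Or.inl h1)
  · refine Or.inr (Or.inr (le_trans (mul_le_mul_of_nonneg_right hκ ?_) h1))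
    positivity

end numbers

section leaf

variable {K B : Type} [Field K] [CommRing B] [Algebra K B] {ν : B → ℝ → Prop}

theorem lam_mul_pow (a : B) (n : ℕ) : (lam B * cst a) ^ n = lam B ^ n * cst (a ^ n) := by
  rw [mul_pow]
  congr 1
  induction n with
  | zero => rw [pow_zero, pow_zero, cst_one]
  | succ n ih => rw [pow_succ, pow_succ, cst_mul, ih]

theorem mu_mul_pow (a : B) (n : ℕ) : (mu B * cst a) ^ n = mu B ^ n * cst (a ^ n) := by
  rw [mul_pow]
  congr 1
  induction n with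
  | zero => rw [pow_zero, pow_zero, cst_one]
  | succ n ih => rw [pow_succ, pow_succ, cst_mul, ih]

theorem cst_prod {ι : Type} (s : Finset ι) (a : ι → B) : ∏ i ∈ s, cst (a i) = cst (∏ i ∈ s, a i) := by
  classical
  induction s using Finset.induction_on with
  | empty => rw [prod_empty, prod_empty, cst_one]
  | insert i s hi ih => rw [prod_insert hi, prod_insert hi, cst_mul, ih]

/-- a polynomial in few series of the shape `lam * α + mu * β` -/
theorem leaf_bound (h : Cost K ν) (SU SV : Subalgebra K B)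
    (hpure : ∀ a ∈ SU, ∀ b ∈ SV, ν (a * b) 1) {d w : ℕ} (α β : Fin w → B) (hα : ∀ i, α i ∈ SU)
    (hβ : ∀ i, β i ∈ SV) (a : Fin w → K) (Q : MvPolynomial (Fin w) K) :
    BwD ν d (((d : ℝ) + 1) ^ (2 * w)) 1 1 (MvPolynomial.aeval
      (fun i => cst (algebraMap K B (a i)) + lam B * cst (α i) + mu B * cst (β i)) Q) := by
  classical
  set P : Fin 2 × Fin w → Ser B := fun p =>
    if p.1 = 0 then lam B * cst (α p.2) else mu B * cst (β p.2) with hP
  have hP0 : ∀ i, P (0, i) = lam B * cst (α i) := fun i => by simp [hP]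
  have hP1 : ∀ i, P (1, i) = mu B * cst (β i) := fun i => by simp [hP]
  have hQ : MvPolynomial.aeval
      (fun i => cst (algebraMap K B (a i)) + lam B * cst (α i) + mu B * cst (β i)) Q =
      MvPolynomial.aeval P (MvPolynomial.aeval
        (fun i => (MvPolynomial.C (a i) : MvPolynomial (Fin 2 × Fin w) K) +
          MvPolynomial.X (0, i) + MvPolynomial.X (1, i)) Q) := by
    rw [← AlgHom.comp_apply, MvPolynomial.comp_aeval]
    congr 2
    funext i
    rw [map_add, map_add, MvPolynomial.aeval_X, MvPolynomial.aeval_X, MvPolynomial.aeval_C,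
      Pool.Agent.Helper59.CD.algebraMap_ser, hP0, hP1]
  have h0 : ∀ p, cf 0 0 (P p) = 0 := by
    intro p
    simp only [hP]
    split_ifs
    · rw [cf_lam_mul, if_neg (by omega)]
    · rw [cf_mu_mul, if_neg (by omega)]
  have hm : ∀ m : Fin 2 × Fin w → ℕ, BwD ν d 1 1 1 (∏ p, P p ^ m p) := by
    intro m b e hbe
    rw [Fintype.prod_prod_type, Fin.prod_univ_two]
    have e1 : ∏ i, P (0, i) ^ m (0, i) = lam B ^ (∑ i, m (0, i)) * cst (∏ i, α i ^ m (0, i)) := by
      rw [← cst_prod, ← prod_pow_eq_pow_sum, ← prod_mul_distrib]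
      exact prod_congr rfl fun i _ => by rw [hP0, lam_mul_pow]
    have e2 : ∏ i, P (1, i) ^ m (1, i) = mu B ^ (∑ i, m (1, i)) * cst (∏ i, β i ^ m (1, i)) := by
      rw [← cst_prod, ← prod_pow_eq_pow_sum, ← prod_mul_distrib]
      exact prod_congr rfl fun i _ => by rw [hP1, mu_mul_pow]
    have e3 : (lam B ^ (∑ i, m (0, i)) * cst (∏ i, α i ^ m (0, i))) *
        (mu B ^ (∑ i, m (1, i)) * cst (∏ i, β i ^ m (1, i))) =
        lam B ^ (∑ i, m (0, i)) * mu B ^ (∑ i, m (1, i)) *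
          cst ((∏ i, α i ^ m (0, i)) * ∏ i, β i ^ m (1, i)) := by
      rw [cst_mul]
      ring
    rw [e1, e2, e3, cf_lam_pow_mul]
    split_ifs
    · simp only [one_pow, mul_one]
      exact hpure _ (prod_mem fun i _ => pow_mem (hα i) _) _ (prod_mem fun i _ => pow_mem (hβ i) _)
    · exact h.mono h.zero (by simp)
  rw [hQ]
  have h1 := poly_bound (d := d) h one_pos one_pos zero_le_one P h0 hm (MvPolynomial.aeval
        (fun i => (MvPolynomial.C (a i) : MvPolynomial (Fin 2 × Fin w) K) +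
          MvPolynomial.X (0, i) + MvPolynomial.X (1, i)) Q)
  rw [Fintype.card_prod, Fintype.card_fin, Fintype.card_fin, mul_one] at h1
  exact h1

end leaf

section product

variable {K B : Type} [Field K] [CharZero K] [CommRing B] [Algebra K B] {ν : B → ℝ → Prop}

/-- **the product step**: all univariate polynomials in the factors are bounded -/
theorem prod_bound (h : Cost K ν) {M : ℕ → ℕ → Submodule K B} (hM : Big M) {HU HV : ℝ}
    (hHU : 0 < HU) (hHV : 0 < HV) (hL : Leaf M ν HU HV) {d : ℕ} {ι : Type} (s : Finset ι)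
    (G : ι → Ser B) (hG : ∀ i ∈ s, InB M (G i)) (c : ι → K)
    (hc : ∀ i ∈ s, G i = 0 ∨ c i ≠ 0) (h0 : ∀ i ∈ s, cf 0 0 (G i) = algebraMap K B (c i))
    {κ x y x' y' : ℝ} (hx' : 0 < x') (hy' : 0 < y')
    (hbd : ∀ i ∈ s, ∀ R : Polynomial K, BwD ν d κ x y (Polynomial.aeval (G i) R))
    (hnum : NumD d (((d : ℝ) + 1) ^ 2 * (s.card * κ)) HU HV x y x' y') :
    BwD ν d (((d : ℝ) + 1) ^ 7) x' y' (∏ i ∈ s, G i) := by
  intro b e hbe
  by_cases hz : ∃ i ∈ s, G i = 0
  · obtain ⟨i, hi, hi0⟩ := hz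
    rw [prod_eq_zero hi hi0, cf_zero]
    exact h.mono h.zero (by positivity)
  have hc' : ∀ i ∈ s, c i ≠ 0 := by
    intro i hi
    rcases hc i hi with h1 | h1
    · exact absurd ⟨i, hi, h1⟩ hz
    · exact h1
  set H : ι → Ser B := fun i => (c i)⁻¹ • G i - 1 with hH
  have hH0 : ∀ i ∈ s, cf 0 0 (H i) = 0 := fun i hi => cf00_norm (hc' i hi) (h0 i hi)
  have e1 : ∏ i ∈ s, G i = (∏ i ∈ s, c i) • ∏ i ∈ s, (1 + H i) := by
    rw [← prod_smul]
    refine prod_congr rfl fun i hi => ?_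
    rw [hH, add_sub_cancel, smul_smul, mul_inv_cancel₀ (hc' i hi), one_smul]
  have e2 : ∀ i, Polynomial.aeval (H i) (logP K d) =
      Polynomial.aeval (G i) ((logP K d).comp (Polynomial.C (c i)⁻¹ * Polynomial.X - 1)) := by
    intro i
    rw [Polynomial.aeval_comp, map_sub, map_mul, map_one, Polynomial.aeval_C, Polynomial.aeval_X,
      ← Algebra.smul_def]
  rw [e1, cf_smul']
  refine h.smul _ ?_
  rw [cf_prod_one_add (K := K) d s H hH0 hbe, ← aeval_expMv]
  have hIn : InB M (∑ i ∈ s, Polynomial.aeval (H i) (logP K d)) := by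
    refine InB.sum _ _ fun i hi => ?_
    have e3 : Polynomial.aeval (H i) (logP K d) = MvPolynomial.aeval (fun _ : Fin 1 => H i)
        (Polynomial.aeval (MvPolynomial.X (0 : Fin 1) : MvPolynomial (Fin 1) K) (logP K d)) := by
      rw [← Polynomial.aeval_algHom_apply, MvPolynomial.aeval_X]
    rw [e3]
    refine Pool.Agent.Helper59.CD.InB.aeval hM _ (fun _ => ?_) _
    intro b e
    rw [hH, cf_sub, cf_smul']
    exact (M b e).sub_mem ((M b e).smul_mem _ (hG i hi b e)) (InB.one hM b e)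
  have h00 : cf 0 0 (∑ i ∈ s, Polynomial.aeval (H i) (logP K d)) = 0 := by
    rw [cf_sum]
    exact sum_eq_zero fun i hi => ord_one_iff.1 (ord_log d (ord_one_iff.2 (hH0 i hi)))
  have h1 := series_gate h hM hHU hHV hL
    (fun _ : Fin 1 => ∑ i ∈ s, Polynomial.aeval (H i) (logP K d)) (fun _ => hIn) (fun _ => h00)
    hx' hy' (κ0 := s.card * κ) (x := x) (y := y) (fun _ => ?_) hnum (expMv K d) b e hbe
  · exact h1
  · intro b e _ hbe
    rw [cf_sum]
    refine h.mono (h.sum s _ (fun _ => κ * (x ^ b * y ^ e)) fun i hi => ?_) ?_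
    · rw [e2]
      exact hbd i hi _ b e hbe
    · rw [sum_const, nsmul_eq_mul, mul_assoc]

end product

section machine

variable {σ K B : Type} [Field K] [CharZero K] [CommRing B] [Algebra K B] {ν : B → ℝ → Prop}

/-- **THE LEVEL MACHINE** at one point -/
theorem level_machine_at (h : Cost K ν) {M : ℕ → ℕ → Submodule K B} (hM : Big M) {HU HV : ℝ}
    (hHU : 0 < HU) (hHV : 0 < HV) (hL : Leaf M ν HU HV) (SU SV : Subalgebra K B)
    (hpure : ∀ a ∈ SU, ∀ b ∈ SV, ν (a * b) 1) (c : σ → K)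
    (Φ : MvPolynomial σ K →ₐ[K] Ser B) (hΦM : ∀ f, InB M (Φ f))
    (hΦ0 : ∀ f, cf 0 0 (Φ f) = algebraMap K B (MvPolynomial.eval c f))
    (hΦ1 : ∀ f : MvPolynomial σ K, f.totalDegree ≤ 1 → ∃ α ∈ SU, ∃ β ∈ SV,
      Φ f = cst (algebraMap K B (MvPolynomial.eval c f)) + lam B * cst α + mu B * cst β)
    {w0 w S k d : ℕ} {X Y : ℕ → ℝ}
    (hX : ∀ i, 0 < X i) (hY : ∀ i, 0 < Y i) (hX0 : X 0 = 1) (hY0 : Y 0 = 1)
    (hnum : ∀ i ≤ 2 * k, NumD d (S * ((d : ℝ) + 1) ^ (8 * (w0 + w) + 16)) HU HV (X i) (Y i)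
      (X (i + 1)) (Y (i + 1)))
    {T : ℕ} (f : Fin T → Fin S → MvPolynomial σ K) (hf : ∀ i j, f i j ∈ NCls c w0 w S k ∧
      (f i j = 0 ∨ MvPolynomial.eval c (f i j) ≠ 0)) :
    ∀ b e, b + e ≤ d → ν (cf b e (Φ (∑ i, ∏ j, f i j)))
      (T * (((d : ℝ) + 1) ^ 16 * (X (2 * k + 1) ^ b * Y (2 * k + 1) ^ e))) := by
  have hd1 : (1 : ℝ) ≤ (d : ℝ) + 1 := by
    have : (0 : ℝ) ≤ d := Nat.cast_nonneg d
    linarith
  set κ : ℝ := ((d : ℝ) + 1) ^ (2 * w0 + 3 * w + 4) with hκ
  have hκ0 : 0 ≤ κ := by positivity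
  -- the product step for one level
  have hprod : ∀ l ≤ k, (∀ g ∈ NCls c w0 w S l, ∀ R : Polynomial K,
      BwD ν d κ (X (2 * l)) (Y (2 * l)) (Polynomial.aeval (Φ g) R)) →
      ∀ g : Fin S → MvPolynomial σ K, (∀ j, g j ∈ NCls c w0 w S l ∧
        (g j = 0 ∨ MvPolynomial.eval c (g j) ≠ 0)) →
        BwD ν d (((d : ℝ) + 1) ^ 7) (X (2 * l + 1)) (Y (2 * l + 1)) (Φ (∏ j, g j)) := by
    intro l hl hlog g hg
    rw [map_prod]
    refine prod_bound h hM hHU hHV hL univ (fun j => Φ (g j)) (fun j _ => hΦM _)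
      (fun j => MvPolynomial.eval c (g j)) (fun j _ => ?_) (fun j _ => hΦ0 _) (hX _) (hY _)
      (fun j _ R => hlog _ (hg j).1 R) ?_
    · rcases (hg j).2 with h1 | h1
      · left
        rw [h1, map_zero]
      · exact Or.inr h1
    · refine NumD.mono (hX _) (hY _) ?_ (hnum (2 * l) (by omega))
      rw [card_univ, Fintype.card_fin, hκ]
      have e1 : ((d : ℝ) + 1) ^ 2 * (S * ((d : ℝ) + 1) ^ (2 * w0 + 3 * w + 4)) =
          S * ((d : ℝ) + 1) ^ (2 * w0 + 3 * w + 6) := by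
        rw [show 2 * w0 + 3 * w + 6 = 2 + (2 * w0 + 3 * w + 4) by ring, pow_add]
        ring
      rw [e1]
      exact mul_le_mul_of_nonneg_left (pow_le_pow_right₀ hd1 (by omega)) (Nat.cast_nonneg S)
  -- the univariate polynomials in the members of the class
  have key : ∀ l ≤ k, ∀ g ∈ NCls c w0 w S l, ∀ R : Polynomial K,
      BwD ν d κ (X (2 * l)) (Y (2 * l)) (Polynomial.aeval (Φ g) R) := by
    intro l
    induction l with
    | zero =>
      rintro - g ⟨L, Q, hL1, rfl⟩ R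
      choose α hα β hβ hαβ using fun i => hΦ1 (L i) (hL1 i)
      have e1 : Polynomial.aeval (Φ (MvPolynomial.aeval L Q)) R =
          MvPolynomial.aeval (fun i => cst (algebraMap K B (MvPolynomial.eval c (L i))) +
            lam B * cst (α i) + mu B * cst (β i)) (Polynomial.aeval Q R) := by
        have e2 : (fun i => Φ (L i)) = fun i => cst (algebraMap K B (MvPolynomial.eval c (L i))) +
            lam B * cst (α i) + mu B * cst (β i) := funext hαβ
        rw [← Polynomial.aeval_algHom_apply, MvPolynomial.comp_aeval_apply, e2]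
      rw [e1, mul_zero, hX0, hY0]
      refine BwD.mono h one_pos one_pos ?_ (leaf_bound h SU SV hpure α β hα hβ _ _)
      exact pow_le_pow_right₀ hd1 (by omega)
    | succ l ih =>
      rintro hl g ⟨F, Q, hF, rfl⟩ R
      have hP : ∀ t, BwD ν d (S * ((d : ℝ) + 1) ^ 7) (X (2 * l + 1)) (Y (2 * l + 1))
          (Φ (∑ i, ∏ j, F t i j)) := by
        intro t b e hbe
        rw [map_sum, cf_sum]
        refine h.mono (h.sum univ _ (fun _ => ((d : ℝ) + 1) ^ 7 *
          (X (2 * l + 1) ^ b * Y (2 * l + 1) ^ e)) fun i _ => ?_) ?_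
        · exact hprod l (by omega) (ih (by omega)) (fun j => F t i j) (fun j => hF t i j) b e hbe
        · rw [sum_const, nsmul_eq_mul, card_univ, Fintype.card_fin, mul_assoc]
      have e1 : Polynomial.aeval (Φ (MvPolynomial.aeval (fun t => ∑ i, ∏ j, F t i j) Q)) R =
          MvPolynomial.aeval (fun t => Φ (∑ i, ∏ j, F t i j)) (Polynomial.aeval Q R) := by
        rw [← Polynomial.aeval_algHom_apply, MvPolynomial.comp_aeval_apply]
      rw [e1]
      have h1 := series_gate' h hM hHU hHV hL (fun t => Φ (∑ i, ∏ j, F t i j)) (fun t => hΦM _)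
        (fun t => MvPolynomial.eval c (∑ i, ∏ j, F t i j)) (fun t => hΦ0 _)
        (hX (2 * l + 2)) (hY (2 * l + 2)) (fun t b e _ hbe => hP t b e hbe)
        (NumD.mono (hX _) (hY _) ?_ (hnum (2 * l + 1) (by omega))) (Polynomial.aeval Q R)
      · refine BwD.mono h (hX _) (hY _) ?_ h1
        exact pow_le_pow_right₀ hd1 (by omega)
      · have e1 : ((d : ℝ) + 1) ^ 2 * (S * ((d : ℝ) + 1) ^ 7) = S * ((d : ℝ) + 1) ^ 9 := by
          rw [show 9 = 2 + 7 by norm_num, pow_add]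
          ring
        rw [e1]
        exact mul_le_mul_of_nonneg_left (pow_le_pow_right₀ hd1 (by omega)) (Nat.cast_nonneg S)
  intro b e hbe
  rw [map_sum, cf_sum]
  have hXY : 0 < X (2 * k + 1) ^ b * Y (2 * k + 1) ^ e := by
    have := hX (2 * k + 1)
    have := hY (2 * k + 1)
    positivity
  refine h.mono (h.sum univ _ (fun _ => ((d : ℝ) + 1) ^ 7 *
    (X (2 * k + 1) ^ b * Y (2 * k + 1) ^ e)) fun i _ => ?_) ?_
  · exact hprod k le_rfl (key k le_rfl) (fun j => f i j) (fun j => hf i j) b e hbe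
  · rw [sum_const, nsmul_eq_mul, card_univ, Fintype.card_fin]
    refine mul_le_mul_of_nonneg_left (mul_le_mul_of_nonneg_right ?_ hXY.le) (Nat.cast_nonneg T)
    exact pow_le_pow_right₀ hd1 (by norm_num)

end machine

/-- **THE LEVEL MACHINE** -/
theorem level_machine {σ K B : Type} [Field K] [CharZero K] [CommRing B] [Algebra K B]
    {ν : B → ℝ → Prop} (h : Cost K ν) {M : ℕ → ℕ → Submodule K B} (hM : Big M) {HU HV : ℝ}
    (hHU : 0 < HU) (hHV : 0 < HV) (hL : Leaf M ν HU HV) (SU SV : Subalgebra K B)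
    (hpure : ∀ a ∈ SU, ∀ b ∈ SV, ν (a * b) 1)
    (Φ : (σ → K) → MvPolynomial σ K →ₐ[K] Ser B) (hΦM : ∀ c f, InB M (Φ c f))
    (hΦ0 : ∀ c f, cf 0 0 (Φ c f) = algebraMap K B (MvPolynomial.eval c f))
    (hΦ1 : ∀ c (f : MvPolynomial σ K), f.totalDegree ≤ 1 → ∃ α ∈ SU, ∃ β ∈ SV,
      Φ c f = cst (algebraMap K B (MvPolynomial.eval c f)) + lam B * cst α + mu B * cst β)
    {w0 w S k d : ℕ} (_hw0 : 1 ≤ w0) (_hw : 1 ≤ w) (_hS : 1 ≤ S) {X Y : ℕ → ℝ}
    (hX : ∀ i, 0 < X i) (hY : ∀ i, 0 < Y i) (hX0 : X 0 = 1) (hY0 : Y 0 = 1)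
    (hnum : ∀ i ≤ 2 * k, NumD d (S * (d + 1) ^ (8 * (w0 + w) + 16)) HU HV (X i) (Y i)
      (X (i + 1)) (Y (i + 1)))
    {T : ℕ} (f : Fin T → Fin S → MvPolynomial σ K) (hf : ∀ i j, f i j ∈ Cls w0 w S k) :
    ∃ W : MvPolynomial σ K, W ≠ 0 ∧ ∀ c : σ → K, MvPolynomial.eval c W ≠ 0 →
      ∀ b e, b + e ≤ d → ν (cf b e (Φ c (∑ i, ∏ j, f i j)))
        (T * ((d + 1) ^ 16 * (X (2 * k + 1) ^ b * Y (2 * k + 1) ^ e))) := by
  obtain ⟨W, hW0, hW⟩ := exists_gen (fun p : Fin T × Fin S => f p.1 p.2) (fun p => hf p.1 p.2)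
  refine ⟨W, hW0, fun c hc => ?_⟩
  exact level_machine_at h hM hHU hHV hL SU SV hpure c (Φ c) (hΦM c) (hΦ0 c) (hΦ1 c) hX hY hX0 hY0
    hnum f (fun i j => hW c hc (i, j))

end Pool.XD
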