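import Mathlib

/-!
# XD, row B: the trace inequality for the rank, and ranks over valued fields
-/

set_option autoImplicit false

namespace Pool.XD

open Finset Matrix

section Trace

variable {m n : Type} [Fintype m] [Fintype n] [DecidableEq m]

theorem trace_sq (A : Matrix m m ℝ) (hA : A.IsHermitian) :
    (A * A).trace = ∑ i, hA.eigenvalues i ^ 2 := by
  conv_lhs => rw [hA.spectral_theorem, ← map_mul, Unitary.conjStarAlgAut_apply, trace_mul_cycle,
    Unitary.coe_star_mul_self, one_mul, diagonal_mul_diagonal, trace_diagonal]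
  refine sum_congr rfl fun i _ => ?_
  simp [sq]

theorem trace_rank (A : Matrix m m ℝ) (hA : A.IsHermitian) :
    A.trace ^ 2 ≤ A.rank * (A * A).trace := by
  rw [trace_sq A hA, hA.trace_eq_sum_eigenvalues, hA.rank_eq_card_non_zero_eigs]
  have h1 : (∑ i, ((hA.eigenvalues i : ℝ))) =
      ∑ i ∈ univ.filter fun i => hA.eigenvalues i ≠ 0, hA.eigenvalues i := by
    rw [sum_filter_ne_zero]
  have h2 : ∑ i ∈ univ.filter (fun i => hA.eigenvalues i ≠ 0), hA.eigenvalues i ^ 2 ≤
      ∑ i, hA.eigenvalues i ^ 2 :=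
    sum_le_sum_of_subset_of_nonneg (filter_subset _ _) fun i _ _ => sq_nonneg _
  have h3 := sq_sum_le_card_mul_sum_sq (s := univ.filter fun i => hA.eigenvalues i ≠ 0)
    (f := hA.eigenvalues)
  rw [← Fintype.card_subtype] at h3
  show (∑ i, ((hA.eigenvalues i : ℝ))) ^ 2 ≤ _
  rw [h1]
  refine h3.trans (mul_le_mul_of_nonneg_left h2 (Nat.cast_nonneg _))

/-- (B1) -/
theorem sq_sum_le_rank (M : Matrix m n ℝ) :
    (∑ a, ∑ b, M a b ^ 2) ^ 2 ≤ M.rank * ∑ a, ∑ a', (M * Mᵀ) a a' ^ 2 := by
  have hA : (M * Mᵀ).IsHermitian := by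
    have := isHermitian_mul_conjTranspose_self M
    rwa [conjTranspose_eq_transpose_of_trivial] at this
  have h := trace_rank _ hA
  rw [rank_self_mul_transpose] at h
  have h1 : (M * Mᵀ).trace = ∑ a, ∑ b, M a b ^ 2 := by
    rw [trace]
    refine sum_congr rfl fun a _ => ?_
    rw [diag_apply, mul_apply]
    exact sum_congr rfl fun b _ => by rw [transpose_apply, sq]
  have h2 : ((M * Mᵀ) * (M * Mᵀ)).trace = ∑ a, ∑ a', (M * Mᵀ) a a' ^ 2 := by
    rw [trace]
    refine sum_congr rfl fun a _ => ?_
    rw [diag_apply, mul_apply]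
    refine sum_congr rfl fun b _ => ?_
    have h3 : (M * Mᵀ) b a = (M * Mᵀ) a b := by
      have := congrFun (congrFun hA a) b
      rw [conjTranspose_apply, star_trivial] at this
      exact this
    rw [h3, sq]
  rw [h1, h2] at h
  exact h

end Trace

section Minor

variable {m n : Type} [Fintype m] [Fintype n]

theorem exists_rows {F : Type} [Field F] (A : Matrix m n F) {r : ℕ} (hr : A.rank = r) :
    ∃ I : Fin r → m, LinearIndependent F fun i => A (I i) := by
  obtain ⟨f, hf, -, hli⟩ := Submodule.exists_fun_fin_finrank_span_eq F (Set.range A.row)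
  choose g hg using hf
  have h1 : r = Module.finrank F (Submodule.span F (Set.range A.row)) := by
    rw [← hr, Matrix.rank_eq_finrank_span_row]
  refine ⟨fun i => g (Fin.cast h1 i), ?_⟩
  have h2 : (fun i : Fin r => A (g (Fin.cast h1 i))) = f ∘ Fin.cast h1 := by
    funext i
    exact hg _
  rw [h2]
  exact hli.comp _ (Fin.cast_injective h1)

/-- (B2) a regular minor of maximal size -/
theorem exists_minor {F : Type} [Field F] (A : Matrix m n F) {r : ℕ} (hr : A.rank = r) :
    ∃ (I : Fin r → m) (J : Fin r → n), (A.submatrix I J).det ≠ 0 := by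
  obtain ⟨I, hI⟩ := exists_rows A hr
  have h1 : (A.submatrix I id).rank = r := by
    have := LinearIndependent.rank_matrix (M := A.submatrix I id) hI
    rw [this, Fintype.card_fin]
  have h2 : (A.submatrix I id)ᵀ.rank = r := by rw [rank_transpose, h1]
  obtain ⟨J, hJ⟩ := exists_rows _ h2
  refine ⟨I, J, ?_⟩
  have h3 : LinearIndependent F (A.submatrix I J)ᵀ.row := hJ
  have h4 := (Matrix.linearIndependent_rows_iff_isUnit.1 h3)
  rw [Matrix.isUnit_iff_isUnit_det, det_transpose] at h4
  exact h4.ne_zero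

/-- (B2) a regular minor of an integer matrix, of size the real rank -/
theorem exists_minor_int (B : Matrix m n ℤ) :
    ∃ (I : Fin (B.map (Int.cast : ℤ → ℝ)).rank → m) (J : Fin (B.map (Int.cast : ℤ → ℝ)).rank → n),
      (B.submatrix I J).det ≠ 0 := by
  obtain ⟨I, J, h⟩ := exists_minor (B.map (Int.cast : ℤ → ℝ)) rfl
  refine ⟨I, J, fun h0 => h ?_⟩
  have h1 : (B.map (Int.cast : ℤ → ℝ)).submatrix I J =
      (Int.castRingHom ℝ).mapMatrix (B.submatrix I J) := rfl
  rw [h1, ← RingHom.map_det, h0, map_zero]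

omit [Fintype m] in
/-- the rank of a matrix with a regular minor -/
theorem le_rank_of_minor {F : Type} [Field F] (A : Matrix m n F) {r : ℕ} (I : Fin r → m)
    (J : Fin r → n) (h : (A.submatrix I J).det ≠ 0) : r ≤ A.rank := by
  have h1 := rank_of_det_ne_zero h
  rw [Fintype.card_fin] at h1
  rw [← h1]
  exact rank_submatrix_le A I J

section Val

variable {K Γ : Type} [Field K] [LinearOrderedCommGroupWithZero Γ] (v : Valuation K Γ)

theorem v_prod_sub_lt {ι : Type} (s : Finset ι) (a b : ι → K) (ha : ∀ i, v (a i) ≤ 1)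
    (hb : ∀ i, v (b i) ≤ 1) (hab : ∀ i, v (a i - b i) < 1) :
    v (∏ i ∈ s, a i - ∏ i ∈ s, b i) < 1 := by
  classical
  induction s using Finset.induction_on with
  | empty => rw [prod_empty, prod_empty, sub_self, map_zero]; exact zero_lt_one
  | insert j s hj ih =>
    rw [prod_insert hj, prod_insert hj]
    have h1 : a j * ∏ i ∈ s, a i - b j * ∏ i ∈ s, b i =
        a j * (∏ i ∈ s, a i - ∏ i ∈ s, b i) + (a j - b j) * ∏ i ∈ s, b i := by ring
    have h2 : v (∏ i ∈ s, b i) ≤ 1 := by
      rw [map_prod]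
      exact prod_le_one' fun i _ => hb i
    rw [h1]
    refine v.map_add_lt ?_ ?_
    · rw [map_mul]
      exact mul_lt_one_of_nonneg_of_lt_one_right (ha j) zero_le ih
    · rw [map_mul]
      exact mul_lt_one_of_nonneg_of_lt_one_left zero_le (hab j) h2

theorem v_det_sub_lt {ι : Type} [Fintype ι] [DecidableEq ι] (A B : Matrix ι ι K)
    (hB : ∀ i j, v (B i j) ≤ 1) (h : ∀ i j, v (A i j - B i j) < 1) :
    v (A.det - B.det) < 1 := by
  have hA : ∀ i j, v (A i j) ≤ 1 := by
    intro i j
    have : A i j = (A i j - B i j) + B i j := by ring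
    rw [this]
    exact Valuation.map_add_le v (h i j).le (hB i j)
  rw [det_apply, det_apply, ← sum_sub_distrib]
  refine Valuation.map_sum_lt v one_ne_zero fun σ _ => ?_
  rw [← smul_sub]
  have h1 := v_prod_sub_lt v univ (fun i => A (σ i) i) (fun i => B (σ i) i) (fun i => hA _ _)
    (fun i => hB _ _) (fun i => h _ _)
  rcases Int.units_eq_one_or (Equiv.Perm.sign σ) with h2 | h2
  · rw [h2, one_smul]; exact h1
  · rw [h2, Units.neg_smul, one_smul, Valuation.map_neg]; exact h1

/-- (B3) a matrix which is close to an integer matrix -/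
theorem rank_le_of_val (hv : ∀ z : ℤ, z ≠ 0 → v (z : K) = 1) (A : Matrix m n K)
    (B : Matrix m n ℤ) (h : ∀ i j, v (A i j - (B i j : K)) < 1) :
    (B.map (Int.cast : ℤ → ℝ)).rank ≤ A.rank := by
  obtain ⟨I, J, hIJ⟩ := exists_minor_int B
  refine le_rank_of_minor A I J fun h0 => ?_
  have hz : ∀ z : ℤ, v (z : K) ≤ 1 := by
    intro z
    by_cases hz : z = 0
    · rw [hz, Int.cast_zero, map_zero]; exact zero_le
    · exact (hv z hz).le
  have h1 := v_det_sub_lt v (A.submatrix I J) ((B.submatrix I J).map (Int.cast : ℤ → K))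
    (fun i j => hz _) (fun i j => h _ _)
  have h2 : ((B.submatrix I J).map (Int.cast : ℤ → K)).det = ((B.submatrix I J).det : K) := by
    have h3 : (B.submatrix I J).map (Int.cast : ℤ → K) =
      (Int.castRingHom K).mapMatrix (B.submatrix I J) := rfl
    rw [h3, ← RingHom.map_det]
    rfl
  rw [h0, h2, zero_sub, Valuation.map_neg, hv _ hIJ] at h1
  exact lt_irrefl _ h1

/-- (B3) over every field of characteristic zero the rank of an integer matrix is at least its
real rank -/
theorem rank_le_of_charZero {K : Type} [Field K] [CharZero K] (B : Matrix m n ℤ) :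
    (B.map (Int.cast : ℤ → ℝ)).rank ≤ (B.map (Int.cast : ℤ → K)).rank := by
  obtain ⟨I, J, hIJ⟩ := exists_minor_int B
  refine le_rank_of_minor _ I J fun h0 => hIJ ?_
  have h3 : (B.map (Int.cast : ℤ → K)).submatrix I J =
      (Int.castRingHom K).mapMatrix (B.submatrix I J) := rfl
  rw [h3, ← RingHom.map_det] at h0
  exact Int.cast_injective (α := K) (by rw [Int.cast_zero]; exact h0)

end Val

end Minor

end Pool.XD
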