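import Pool.Agent.XD.Measure
import Pool.Agent.XD.Count
import Pool.Agent.XD.Transfer
import Pool.Agent.XD.Par

/-!
# XD: the measure at the parameters of `g` chains of length `m`

`shape`: a polynomial of small cost whose operator matrix has at least the rank of the chain
polynomial is impossible; the machine is not used here.
-/

set_option autoImplicit false

namespace Pool.XD

open Finset Pool.Agent.Helper87.D3 Pool.Agent.Helper41.CD

/-- the measure of the chain polynomial: for suitable degrees `LU`, `LV` -/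
theorem shape {g m : ℕ} {y : ℝ} (hg : 1 ≤ g) (hm : 2 ≤ m) (hy : 0 < y) (hy1 : y ≤ 1) {r E : ℕ}
    (hr : r = (univ.filter fun i : Fin (g * m) => tyc y m i = true).card)
    (hE : E = (univ.filter fun i : Fin (g * m) => tyc y m i = false).card) :
    r + E = g * m ∧ -((g : ℝ) * y) ≤ r - y * E ∧ ∃ a b a' b' : ℕ,
      ∀ (K : Type) [Field K] (P : MvPolynomial (Ltr (g * m) (wdc m (8 * m))) K) (κ : ℝ),
        P ∈ UU (tyl (g * m) (wdc m (8 * m)) (tyc y m)) K r →
        P ∈ VV (tyl (g * m) (wdc m (8 * m)) (tyc y m)) K E →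
        Pool.CD.Nu (VV (tyl (g * m) (wdc m (8 * m)) (tyc y m)) K)
          (UU (tyl (g * m) (wdc m (8 * m)) (tyc y m)) K) (Real.exp y) (Real.exp 1) P κ →
        (opM (tyl (g * m) (wdc m (8 * m)) (tyc y m)) (chn (g * m) (wdc m (8 * m)) ℝ)
          a b a' b').rank ≤ (opM (tyl (g * m) (wdc m (8 * m)) (tyc y m)) P a b a' b').rank →
        Real.exp 1 ^ r ≤ κ * (6 * Real.exp 2) ^ g := by
  classical
  obtain ⟨d, hd⟩ : ∃ d, d = g * m := ⟨_, rfl⟩
  obtain ⟨wd, hwd⟩ : ∃ wd, wd = wdc m (8 * m) := ⟨_, rfl⟩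
  obtain ⟨ty, hty⟩ : ∃ ty, ty = tyc y m := ⟨_, rfl⟩
  have hwd1 : ∀ j, 1 ≤ wd j := by
    intro j
    rw [hwd]
    exact wdc_pos (by omega) j
  have hw0' : wd 0 = 1 := by
    rw [hwd]
    exact wdc_zero _ _
  obtain ⟨h1U, h1V, hrE, hrE', LU, LV, hL1, hL2, hL3, hL4, hL5⟩ :=
    params (r := r) (E := E) hg hm hy hy1 hr hE
  rw [← hd] at hr hE
  rw [← hty] at hr hE
  refine ⟨hrE, hrE', LU, LV, LU - r, LV + E, ?_⟩
  rw [← hd, ← hwd, ← hty] at h1U h1V hL2 hL3 hL4 hL5 ⊢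
  intro K _ P κ hPU hPV hNu hrank2
  have he1 : (0 : ℝ) < Real.exp 1 := Real.exp_pos _
  have hey : (0 : ℝ) < Real.exp y := Real.exp_pos _
  have hrank1 := rank_opM_le (tyl d wd ty) he1 hey (LU := LU) (LV := LV) (r := r) (E := E)
    (by omega) h1U h1V hL2 hL3 P hPU hPV hNu
  have hcount := chain_count d wd ty hwd1 hw0' (LU := LU) (LV := LV) hr hE hL1
    (Real.exp_pos (1 + 1 / m)).le (Real.exp_pos (-y)).le h1U h1V hL4 hL5
  have hB1 : (1 : ℝ) ≤ Real.exp 2 := Real.one_le_exp (by norm_num)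
  have hZ := ZZ_chains (g := g) (m := m) (q := 8 * m) (B := Real.exp 2)
    (oU := Real.exp (1 + 1 / m)) (oV := Real.exp (-y)) (gw 1 y) (by omega) hB1
    (m_mul_exp_le m)
    (Real.exp_pos _) (Real.exp_pos _) (fun i hi => (prefixes hm hy hy1 hi).1)
    (fun i hi => (prefixes hm hy hy1 hi).2)
  have hZ' : (ZZ wd ty (Real.exp (1 + 1 / m)) (Real.exp (-y)) d).1 +
      (ZZ wd ty (Real.exp (1 + 1 / m)) (Real.exp (-y)) d).2 ≤ (6 * Real.exp 2) ^ g := by
    rw [hwd, hty, hd]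
    exact hZ
  set D0 : ℝ := (((nU (tyl d wd ty)).multichoose LU * (nV (tyl d wd ty)).multichoose LV : ℕ) : ℝ)
    with hD0
  have hD0pos : 0 < D0 := by
    rw [hD0]
    have h1 : 0 < (nU (tyl d wd ty)).multichoose LU := by
      rw [Nat.multichoose_eq]
      exact Nat.choose_pos (by omega)
    have h2 : 0 < (nV (tyl d wd ty)).multichoose LV := by
      rw [Nat.multichoose_eq]
      exact Nat.choose_pos (by omega)
    exact_mod_cast Nat.mul_pos h1 h2
  set Rk : ℝ := ((opM (tyl d wd ty) P LU LV (LU - r) (LV + E)).rank : ℝ) with hRk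
  have hBg : (0 : ℝ) < (6 * Real.exp 2) ^ g := by positivity
  have hD0le : D0 ≤ Rk * (6 * Real.exp 2) ^ g := by
    refine hcount.trans ?_
    have h1 : ((opM (tyl d wd ty) (chn d wd ℝ) LU LV (LU - r) (LV + E)).rank : ℝ) ≤ Rk :=
      Nat.cast_le.2 hrank2
    calc _ ≤ ((opM (tyl d wd ty) (chn d wd ℝ) LU LV (LU - r) (LV + E)).rank : ℝ) *
          (6 * Real.exp 2) ^ g := mul_le_mul_of_nonneg_left hZ' (Nat.cast_nonneg _)
      _ ≤ _ := mul_le_mul_of_nonneg_right h1 hBg.le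
  have h1 : D0 * Real.exp 1 ^ r ≤ κ * D0 * (6 * Real.exp 2) ^ g := by
    calc D0 * Real.exp 1 ^ r ≤ Rk * (6 * Real.exp 2) ^ g * Real.exp 1 ^ r :=
          mul_le_mul_of_nonneg_right hD0le (by positivity)
      _ = (Rk * Real.exp 1 ^ r) * (6 * Real.exp 2) ^ g := by ring
      _ ≤ _ := mul_le_mul_of_nonneg_right hrank1 hBg.le
  have h2 : D0 * Real.exp 1 ^ r ≤ D0 * (κ * (6 * Real.exp 2) ^ g) := by
    refine h1.trans (le_of_eq ?_)
    ring
  exact le_of_mul_le_mul_left h2 hD0pos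

end Pool.XD
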