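import Pool.Agent.Helper41.CD.Gate

/-!
# XD: arithmetic circuits of bounded product depth

The gates of a circuit are elements of the classes `Cls 1 1 S k`.
-/

set_option autoImplicit false

namespace Pool.XD

open Finset MvPolynomial Pool.Agent.Helper41.CD

section basic

variable {σ K : Type} [Field K]

/-- one variable polynomials of members of the class are members -/
theorem cls_comp {S : ℕ} (k : ℕ) {f : MvPolynomial σ K} (hf : f ∈ Cls 1 1 S k)
    (q : Polynomial K) : Polynomial.aeval f q ∈ Cls 1 1 S k := by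
  cases k with
  | zero =>
    obtain ⟨L, Q, hL, rfl⟩ := hf
    refine ⟨L, Polynomial.aeval Q q, hL, ?_⟩
    rw [← Polynomial.aeval_algHom_apply]
  | succ k =>
    obtain ⟨F, Q, hF, rfl⟩ := hf
    refine ⟨F, Polynomial.aeval Q q, hF, ?_⟩
    rw [← Polynomial.aeval_algHom_apply]

theorem cls_pow {S : ℕ} (k : ℕ) {f : MvPolynomial σ K} (hf : f ∈ Cls 1 1 S k) (e : ℕ) :
    f ^ e ∈ Cls 1 1 S k := by
  have h := cls_comp k hf (Polynomial.X ^ e)
  rwa [map_pow, Polynomial.aeval_X] at h

theorem cls_affine {S : ℕ} {f : MvPolynomial σ K} (hf : f.totalDegree ≤ 1) :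
    f ∈ Cls 1 1 S 0 := by
  refine ⟨fun _ => f, X 0, fun _ => hf, ?_⟩
  rw [aeval_X]

theorem cls_const {S : ℕ} (k : ℕ) (c : K) :
    (C c : MvPolynomial σ K) ∈ Cls 1 1 S k := by
  induction k with
  | zero => exact cls_affine (by rw [totalDegree_C]; exact Nat.zero_le 1)
  | succ k ih =>
    refine ⟨fun _ _ _ => C c, C c, fun _ _ _ => ih, ?_⟩
    rw [aeval_C]
    rfl

/-- a sum of products of members of the class `k` is a member of the class `k + 1` -/
theorem cls_sum_prod {S : ℕ} (k : ℕ) (F : Fin S → Fin S → MvPolynomial σ K)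
    (hF : ∀ i j, F i j ∈ Cls 1 1 S k) : ∑ i, ∏ j, F i j ∈ Cls 1 1 S (k + 1) := by
  refine ⟨fun _ => F, X 0, fun _ => hF, ?_⟩
  rw [aeval_X]

/-- padding: products -/
theorem exists_prod {S : ℕ} {ι : Type} [Fintype ι] (hι : Fintype.card ι ≤ S)
    {A : Set (MvPolynomial σ K)} (h1 : (1 : MvPolynomial σ K) ∈ A)
    (f : ι → MvPolynomial σ K) (hf : ∀ i, f i ∈ A) :
    ∃ g : Fin S → MvPolynomial σ K, (∀ j, g j ∈ A) ∧ ∏ j, g j = ∏ i, f i := by
  classical
  obtain ⟨φ⟩ : Nonempty (ι ↪ Fin S) :=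
    Function.Embedding.nonempty_of_card_le (by rwa [Fintype.card_fin])
  refine ⟨Function.extend φ f 1, fun j => ?_, ?_⟩
  · by_cases hj : ∃ i, φ i = j
    · obtain ⟨i, rfl⟩ := hj
      rw [φ.injective.extend_apply]
      exact hf i
    · rw [Function.extend_apply' _ _ _ hj]
      exact h1
  · symm
    refine Fintype.prod_of_injective φ φ.injective _ _ (fun j hj => ?_) fun i => ?_
    · rw [Function.extend_apply' _ _ _ fun ⟨i, hi⟩ => hj ⟨i, hi⟩]
      rfl
    · rw [φ.injective.extend_apply]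

/-- padding: sums of products -/
theorem exists_sum_prod {S T : ℕ} (hS : 1 ≤ S) {ι : Type} [Fintype ι]
    (hι : Fintype.card ι ≤ T) {A : Set (MvPolynomial σ K)} (h0 : (0 : MvPolynomial σ K) ∈ A)
    (f : ι → MvPolynomial σ K)
    (hf : ∀ i, ∃ g : Fin S → MvPolynomial σ K, (∀ j, g j ∈ A) ∧ ∏ j, g j = f i) :
    ∃ g : Fin T → Fin S → MvPolynomial σ K, (∀ i j, g i j ∈ A) ∧
      ∑ i, ∏ j, g i j = ∑ i, f i := by
  classical
  obtain ⟨φ⟩ : Nonempty (ι ↪ Fin T) :=
    Function.Embedding.nonempty_of_card_le (by rwa [Fintype.card_fin])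
  choose g hg hgf using hf
  refine ⟨Function.extend φ g 0, fun i j => ?_, ?_⟩
  · by_cases hi : ∃ a, φ a = i
    · obtain ⟨a, rfl⟩ := hi
      rw [φ.injective.extend_apply]
      exact hg a j
    · rw [Function.extend_apply' _ _ _ hi]
      exact h0
  · symm
    refine Fintype.sum_of_injective φ φ.injective _ _ (fun i hi => ?_) fun a => ?_
    · rw [Function.extend_apply' _ _ _ fun ⟨a, ha⟩ => hi ⟨a, ha⟩]
      refine Finset.prod_eq_zero (mem_univ (⟨0, hS⟩ : Fin S)) rfl
    · rw [φ.injective.extend_apply, hgf]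

theorem cls_mono {S : ℕ} (hS : 1 ≤ S) (k : ℕ) {f : MvPolynomial σ K} (hf : f ∈ Cls 1 1 S k) :
    f ∈ Cls 1 1 S (k + 1) := by
  have h1 : (1 : MvPolynomial σ K) ∈ Cls 1 1 S k := by
    have := cls_const (σ := σ) (S := S) k (1 : K)
    rwa [C_1] at this
  have h0 : (0 : MvPolynomial σ K) ∈ Cls 1 1 S k := by
    have := cls_const (σ := σ) (S := S) k (0 : K)
    rwa [C_0] at this
  obtain ⟨g, hg, hgf⟩ := exists_sum_prod (T := S) (ι := Unit) hS
    (by rw [Fintype.card_unit]; exact hS) h0 (fun _ => f) (fun _ => by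
      obtain ⟨g, hg, hgf⟩ := exists_prod (S := S) (ι := Unit)
        (by rw [Fintype.card_unit]; exact hS) h1 (fun _ => f) (fun _ => hf)
      exact ⟨g, hg, by rw [hgf]; simp⟩)
  rw [show f = ∑ i, ∏ j, g i j by rw [hgf]; simp]
  exact cls_sum_prod k g hg

theorem cls_mono' {S : ℕ} (hS : 1 ≤ S) {k l : ℕ} (hkl : k ≤ l) {f : MvPolynomial σ K}
    (hf : f ∈ Cls 1 1 S k) : f ∈ Cls 1 1 S l := by
  induction hkl with
  | refl => exact hf
  | step _ ih => exact cls_mono hS _ ih

end basic

section circuit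

variable {σ K : Type} [Fintype σ] [Field K]

/-- The polynomials `P 0, ..., P (s - 1)` are the gates of an arithmetic circuit with at most `d`
product gates on each path. A gate `g` is a linear combination of `1`, of the variables and of
earlier gates, or a product gate: a constant times a product of powers of variables and of earlier
gates. -/
def IsCircuit (d : ℕ) {s : ℕ} (P : Fin s → MvPolynomial σ K) : Prop :=
  ∃ lev : Fin s → ℕ, ∀ g, lev g ≤ d ∧
    ((∃ (a₀ : K) (a : σ → K) (c : Fin s → K), (∀ h, c h ≠ 0 → h < g ∧ lev h ≤ lev g) ∧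
        P g = C a₀ + ∑ v, C (a v) * X v + ∑ h, C (c h) * P h) ∨
     (∃ (a₀ : K) (a : σ → ℕ) (e : Fin s → ℕ), 0 < lev g ∧
        (∀ h, e h ≠ 0 → h < g ∧ lev h < lev g) ∧
        P g = C a₀ * (∏ v, X v ^ a v) * ∏ h, P h ^ e h))

variable {d s : ℕ} {P : Fin s → MvPolynomial σ K} {lev : Fin s → ℕ}

/-- product gates -/
def IsPr (P : Fin s → MvPolynomial σ K) (lev : Fin s → ℕ) (g : Fin s) : Prop :=
  ∃ (a₀ : K) (a : σ → ℕ) (e : Fin s → ℕ), 0 < lev g ∧
    (∀ h, e h ≠ 0 → h < g ∧ lev h < lev g) ∧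
    P g = C a₀ * (∏ v, X v ^ a v) * ∏ h, P h ^ e h

/-- combinations of product gates of level at most `δ` -/
def Rep (P : Fin s → MvPolynomial σ K) (lev : Fin s → ℕ) (δ : ℕ) (f : MvPolynomial σ K) : Prop :=
  ∃ (A : MvPolynomial σ K) (c : Fin s → K), A.totalDegree ≤ 1 ∧
    (∀ h, c h ≠ 0 → IsPr P lev h ∧ lev h ≤ δ) ∧ f = A + ∑ h, C (c h) * P h

theorem Rep.mono {δ δ' : ℕ} (hδ : δ ≤ δ') {f : MvPolynomial σ K} (h : Rep P lev δ f) :
    Rep P lev δ' f := by
  obtain ⟨A, c, hA, hc, hf⟩ := h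
  exact ⟨A, c, hA, fun h hh => ⟨(hc h hh).1, (hc h hh).2.trans hδ⟩, hf⟩

theorem Rep.aff {δ : ℕ} {f : MvPolynomial σ K} (hf : f.totalDegree ≤ 1) : Rep P lev δ f :=
  ⟨f, 0, hf, fun h hh => absurd rfl hh, by simp⟩

theorem Rep.add {δ : ℕ} {f g : MvPolynomial σ K} (hf : Rep P lev δ f) (hg : Rep P lev δ g) :
    Rep P lev δ (f + g) := by
  obtain ⟨A, c, hA, hc, rfl⟩ := hf
  obtain ⟨A', c', hA', hc', rfl⟩ := hg
  refine ⟨A + A', c + c', (totalDegree_add _ _).trans (max_le hA hA'), fun h hh => ?_, ?_⟩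
  · by_cases h1 : c h = 0
    · refine hc' h fun h2 => hh ?_
      rw [Pi.add_apply, h1, h2, add_zero]
    · exact hc h h1
  · simp only [Pi.add_apply, C_add, add_mul, sum_add_distrib]
    ring

theorem Rep.smul {δ : ℕ} (a : K) {f : MvPolynomial σ K} (hf : Rep P lev δ f) :
    Rep P lev δ (C a * f) := by
  obtain ⟨A, c, hA, hc, rfl⟩ := hf
  refine ⟨C a * A, fun h => a * c h, ?_, fun h hh => hc h (right_ne_zero_of_mul hh), ?_⟩
  · refine (totalDegree_mul _ _).trans ?_
    rw [totalDegree_C, zero_add]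
    exact hA
  · rw [mul_add, mul_sum]
    congr 1
    refine sum_congr rfl fun h _ => ?_
    rw [C_mul, mul_assoc]

theorem Rep.sum {δ : ℕ} {ι : Type} (t : Finset ι) (f : ι → MvPolynomial σ K)
    (hf : ∀ i ∈ t, Rep P lev δ (f i)) : Rep P lev δ (∑ i ∈ t, f i) := by
  classical
  induction t using Finset.induction_on with
  | empty => exact Rep.aff (by rw [sum_empty, totalDegree_zero]; exact Nat.zero_le 1)
  | insert i t hi ih =>
    rw [sum_insert hi]
    exact (hf i (mem_insert_self i t)).add (ih fun j hj => hf j (mem_insert_of_mem hj))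

theorem Rep.pr {g : Fin s} (hg : IsPr P lev g) : Rep P lev (lev g) (P g) := by
  classical
  refine ⟨0, Pi.single g 1, by rw [totalDegree_zero]; exact Nat.zero_le 1, fun h hh => ?_, ?_⟩
  · have hhg : h = g := by
      by_contra hne
      exact hh (Pi.single_eq_of_ne hne 1)
    rw [hhg]
    exact ⟨hg, le_rfl⟩
  · rw [zero_add, sum_eq_single g]
    · rw [Pi.single_eq_same, C_1, one_mul]
    · intro h _ hne
      rw [Pi.single_eq_of_ne hne, C_0, zero_mul]
    · intro h
      exact absurd (mem_univ g) h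

/-- all gates are combinations of product gates of at most their level -/
theorem rep_gate (H : ∀ g, lev g ≤ d ∧
    ((∃ (a₀ : K) (a : σ → K) (c : Fin s → K), (∀ h, c h ≠ 0 → h < g ∧ lev h ≤ lev g) ∧
        P g = C a₀ + ∑ v, C (a v) * X v + ∑ h, C (c h) * P h) ∨ IsPr P lev g)) (g : Fin s) :
    Rep P lev (lev g) (P g) := by
  induction g using WellFoundedLT.induction with
  | ind g ih =>
    rcases (H g).2 with ⟨a₀, a, c, hc, hP⟩ | h
    · rw [hP]
      refine ((Rep.aff (by rw [totalDegree_C]; exact Nat.zero_le 1)).add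
        (Rep.sum _ _ fun v _ => Rep.smul _ (Rep.aff ?_))).add
        (Rep.sum _ _ fun h _ => ?_)
      · rw [totalDegree_X]
      · by_cases hh : c h = 0
        · rw [hh, C_0, zero_mul]
          exact Rep.aff (by rw [totalDegree_zero]; exact Nat.zero_le 1)
        · exact ((ih h (hc h hh).1).mono (hc h hh).2).smul _
    · exact Rep.pr h

/-- a combination of product gates of level at most `δ + 1` is a sum of `T` products of members of
the class `δ` -/
theorem rep_sum {S T : ℕ} (hT : s + 1 ≤ T) (hS : s + Fintype.card σ + 1 ≤ S) (δ : ℕ)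
    (ih : ∀ g, lev g ≤ δ → P g ∈ Cls 1 1 S δ) {f : MvPolynomial σ K}
    (hf : Rep P lev (δ + 1) f) :
    ∃ g : Fin T → Fin S → MvPolynomial σ K, (∀ i j, g i j ∈ Cls 1 1 S δ) ∧
      ∑ i, ∏ j, g i j = f := by
  classical
  have hS1 : 1 ≤ S := by omega
  have h1 : (1 : MvPolynomial σ K) ∈ Cls 1 1 S δ := by
    have := cls_const (σ := σ) (S := S) δ (1 : K)
    rwa [C_1] at this
  have h0 : (0 : MvPolynomial σ K) ∈ Cls 1 1 S δ := by
    have := cls_const (σ := σ) (S := S) δ (0 : K)
    rwa [C_0] at this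
  have haff : ∀ A : MvPolynomial σ K, A.totalDegree ≤ 1 → A ∈ Cls 1 1 S δ := fun A hA =>
    cls_mono' hS1 (Nat.zero_le δ) (cls_affine hA)
  have hone : ∀ A : MvPolynomial σ K, A ∈ Cls 1 1 S δ →
      ∃ g : Fin S → MvPolynomial σ K, (∀ j, g j ∈ Cls 1 1 S δ) ∧ ∏ j, g j = A := by
    intro A hA
    obtain ⟨g, hg, hgf⟩ := exists_prod (S := S) (ι := Unit)
      (by rw [Fintype.card_unit]; exact hS1) h1 (fun _ => A) (fun _ => hA)
    exact ⟨g, hg, by rw [hgf]; simp⟩
  obtain ⟨A, c, hA, hc, rfl⟩ := hf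
  obtain ⟨g, hg, hgf⟩ := exists_sum_prod (T := T) (ι := Option (Fin s)) hS1
    (by rw [Fintype.card_option, Fintype.card_fin]; exact hT) h0
    (fun o => o.elim A fun h => C (c h) * P h) (fun o => by
      cases o with
      | none => exact hone A (haff A hA)
      | some h =>
        by_cases hh : c h = 0
        · have e0 : C (c h) * P h = 0 := by rw [hh, C_0, zero_mul]
          show ∃ g : Fin S → MvPolynomial σ K, (∀ j, g j ∈ Cls 1 1 S δ) ∧
            ∏ j, g j = C (c h) * P h
          rw [e0]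
          exact hone 0 h0
        · obtain ⟨a₀, a, e, hlev, he, hP⟩ := (hc h hh).1
          have hle := (hc h hh).2
          obtain ⟨g, hg, hgf⟩ := exists_prod (S := S) (ι := Option (σ ⊕ Fin s))
            (by
              rw [Fintype.card_option, Fintype.card_sum, Fintype.card_fin]
              omega) h1
            (fun o => o.elim (C (c h * a₀)) (Sum.elim (fun v => X v ^ a v) fun h' => P h' ^ e h'))
            (fun o => by
              rcases o with _ | v | h'
              · exact cls_const δ _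
              · exact cls_pow δ (haff _ (by rw [totalDegree_X])) _
              · show P h' ^ e h' ∈ Cls 1 1 S δ
                by_cases hh' : e h' = 0
                · rw [hh', pow_zero]
                  exact h1
                · refine cls_pow δ (ih h' ?_) _
                  have := (he h' hh').2
                  omega)
          refine ⟨g, hg, ?_⟩
          rw [hgf, Fintype.prod_option, Fintype.prod_sum_type]
          show C (c h * a₀) * ((∏ v, X v ^ a v) * ∏ h', P h' ^ e h') = C (c h) * P h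
          rw [hP, C_mul]
          ring)
  refine ⟨g, hg, ?_⟩
  rw [hgf, Fintype.sum_option]
  rfl

theorem gate_mem {S : ℕ} (hS : s + Fintype.card σ + 1 ≤ S)
    (H : ∀ g, lev g ≤ d ∧
    ((∃ (a₀ : K) (a : σ → K) (c : Fin s → K), (∀ h, c h ≠ 0 → h < g ∧ lev h ≤ lev g) ∧
        P g = C a₀ + ∑ v, C (a v) * X v + ∑ h, C (c h) * P h) ∨ IsPr P lev g)) (δ : ℕ) :
    ∀ g, lev g ≤ δ → P g ∈ Cls 1 1 S δ := by
  induction δ with
  | zero =>
    intro g hg
    obtain ⟨A, c, hA, hc, hP⟩ := (rep_gate H g).mono hg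
    have hc0 : ∀ h, c h = 0 := by
      intro h
      by_contra hh
      obtain ⟨⟨a₀, a, e, hlev, _⟩, hle⟩ := hc h hh
      omega
    have e1 : P g = A := by
      rw [hP, sum_eq_zero, add_zero]
      intro h _
      rw [hc0 h, C_0, zero_mul]
    rw [e1]
    exact cls_affine hA
  | succ δ ih =>
    intro g hg
    obtain ⟨F, hF, hFg⟩ := rep_sum (T := S) (by omega) hS δ ih ((rep_gate H g).mono hg)
    rw [← hFg]
    exact cls_sum_prod δ F hF

/-- A polynomial computed by a circuit with `s` gates and at most `d + 1` product gates on each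
path is a sum of `s + 1` products of `S ≥ s + N + 1` elements of the class `d`. -/
theorem circuit_sum {S : ℕ} (hS : s + Fintype.card σ + 1 ≤ S) (hP : IsCircuit (d + 1) P)
    (g : Fin s) : ∃ f : Fin (s + 1) → Fin S → MvPolynomial σ K,
      (∀ i j, f i j ∈ Cls 1 1 S d) ∧ ∑ i, ∏ j, f i j = P g := by
  obtain ⟨lev, H⟩ := hP
  exact rep_sum le_rfl hS d (gate_mem hS H d) ((rep_gate H g).mono (H g).1)

end circuit

end Pool.XD
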