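import Pool.Agent.Helper10.CD.Nu
import Pool.Agent.Helper41.CD.Gate
import Pool.Agent.CDep.Machine

/-!
# Exponential lower bounds for constant depth (XD): definitions

Letters `L` with a type `ty : L → Bool` (`true`: letters which are contracted, `false`: letters
which multiply).  `opM ty F a b a' b'` is the matrix of the operator of `F` from the exponent
vectors of degree `(a, b)` to the exponent vectors of degree `(a', b')`.
-/

set_option autoImplicit false

namespace Pool.XD

open Finset Pool.Agent.Helper87.D3 Pool.Agent.Helper41.CD

section measure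

variable {L : Type} [Fintype L] (ty : L → Bool)

/-- the exponent vectors of degree `a` in the letters of type `true` and of degree `b` in the
letters of type `false` -/
abbrev Box (a b : ℕ) : Type :=
  {α : L → ℕ // (∑ l, if ty l then α l else 0) = a ∧ (∑ l, if ty l then 0 else α l) = b}

theorem finite_box (a b : ℕ) : Finite (Box ty a b) := by
  classical
  have h : ∀ (α : Box ty a b) (l : L), α.1 l < a + b + 1 := by
    intro α l
    rcases h : ty l with _ | _
    · have h1 := single_le_sum (f := fun l => if ty l then 0 else α.1 l)
        (fun i _ => Nat.zero_le _) (mem_univ l)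
      rw [α.2.2] at h1
      simp only [h, Bool.false_eq_true, if_false] at h1
      omega
    · have h1 := single_le_sum (f := fun l => if ty l then α.1 l else 0)
        (fun i _ => Nat.zero_le _) (mem_univ l)
      rw [α.2.1] at h1
      simp only [h, if_true] at h1
      omega
  refine Finite.of_injective (fun (α : Box ty a b) (l : L) => (⟨α.1 l, h α l⟩ : Fin (a + b + 1)))
    fun α β hab => ?_
  apply Subtype.ext
  funext l
  exact congrArg Fin.val (congrFun hab l)

noncomputable instance (a b : ℕ) : Fintype (Box ty a b) := by
  haveI := finite_box ty a b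
  exact Fintype.ofFinite _

/-- the exponent which leads from `α` to `γ` -/
noncomputable def gap (α γ : L → ℕ) : L →₀ ℕ :=
  Finsupp.equivFunOnFinite.symm fun l => if ty l then α l - γ l else γ l - α l

/-- there is an exponent which leads from `α` to `γ` -/
def Adm (α γ : L → ℕ) : Prop := ∀ l, if ty l then γ l ≤ α l else α l ≤ γ l

open Classical in
/-- the matrix of the operator of `F` -/
noncomputable def opM {K : Type} [CommRing K] (F : MvPolynomial L K) (a b a' b' : ℕ) :
    Matrix (Box ty a b) (Box ty a' b') K :=
  fun α γ => if Adm ty α.1 γ.1 then MvPolynomial.coeff (gap ty α.1 γ.1) F else 0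

/-- the polynomials of degree `x` in the letters of type `false` -/
noncomputable def VV (K : Type) [CommRing K] (x : ℕ) : Submodule K (MvPolynomial L K) :=
  MvPolynomial.weightedHomogeneousSubmodule K (fun l => if ty l then 0 else 1) x

/-- the polynomials of degree `y` in the letters of type `true` -/
noncomputable def UU (K : Type) [CommRing K] (y : ℕ) : Submodule K (MvPolynomial L K) :=
  MvPolynomial.weightedHomogeneousSubmodule K (fun l => if ty l then 1 else 0) y

/-- the number of the letters of type `true` -/
def nU : ℕ := (univ.filter fun l => ty l = true).card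

/-- the number of the letters of type `false` -/
def nV : ℕ := (univ.filter fun l => ty l = false).card

/-- the substitution `X l ↦ c l + lam * X l` or `c l + mu * X l` -/
noncomputable def PhiX {K : Type} [CommRing K] (c : L → K) :
    MvPolynomial L K →ₐ[K] Ser (MvPolynomial L K) :=
  MvPolynomial.aeval fun l => cst (MvPolynomial.C (c l)) +
    (if ty l then lam (MvPolynomial L K) else mu (MvPolynomial L K)) * cst (MvPolynomial.X l)

end measure

section chain

variable (d : ℕ) (wd : ℕ → ℕ) (ty : ℕ → Bool)

/-- the letters of the chain: the block `i` is between the layers `i` and `i + 1` -/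
abbrev Ltr : Type := (i : Fin d) × (Fin (wd i) × Fin (wd (i + 1)))

/-- the words: one vertex in each of the layers `0, ..., d` -/
abbrev Wrd : Type := (j : Fin (d + 1)) → Fin (wd j)

/-- the letter of the word `s` in the block `i` -/
def ltr {d : ℕ} {wd : ℕ → ℕ} (s : Wrd d wd) (i : Fin d) : Ltr d wd :=
  ⟨i, s i.castSucc, s i.succ⟩

/-- the chain polynomial -/
noncomputable def chn (K : Type) [CommRing K] : MvPolynomial (Ltr d wd) K :=
  ∑ s : Wrd d wd, ∏ i : Fin d, MvPolynomial.X (ltr s i)

/-- the type of a letter is the type of its block -/
def tyl (l : Ltr d wd) : Bool := ty l.1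

/-- the transfer recursion: weights of the assignments of the first `i` blocks whose last value is
`0`, respectively `1` -/
noncomputable def ZZ (oU oV : ℝ) : ℕ → ℝ × ℝ
  | 0 => (1, 0)
  | i + 1 => ((ZZ oU oV i).1 + (ZZ oU oV i).2 / wd i,
      ((ZZ oU oV i).2 + (ZZ oU oV i).1 / wd i) * (if ty i then oU else oV))

end chain

section machine

/-- the numerical condition for one step of the machine, degrees at most `d` -/
def NumD (d : ℕ) (κ HU HV x y x' y' : ℝ) : Prop :=
  ∀ b e : ℕ, (b, e) ≠ (0, 0) → b + e ≤ d →
    HU ^ b ≤ x' ^ b * y' ^ e ∨ HV ^ e ≤ x' ^ b * y' ^ e ∨ κ * (x ^ b * y ^ e) ≤ x' ^ b * y' ^ e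

/-- bound for the coefficients other than the constant one, degrees at most `d` -/
def BdD {B : Type} [CommRing B] (ν : B → ℝ → Prop) (d : ℕ) (κ x y : ℝ) (F : Ser B) : Prop :=
  ∀ b e : ℕ, (b, e) ≠ (0, 0) → b + e ≤ d → ν (cf b e F) (κ * (x ^ b * y ^ e))

end machine

end Pool.XD
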