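import Pool.Agent.XD.Measure
import Pool.Agent.XD.Count
import Pool.Agent.XD.Transfer
import Pool.Agent.XD.Par

/-!
# XD: the lower bound side, for an arbitrary polynomial whose matrix has a large rank
-/

set_option autoImplicit false

namespace Pool.XD

open Finset Pool.Agent.Helper87.D3 Pool.Agent.Helper41.CD

theorem wdc_one_le (m q j : ℕ) (hq : 1 ≤ q) : 1 ≤ wdc m q j := by
  unfold wdc
  split_ifs
  · exact le_rfl
  · exact hq

/-- a polynomial whose matrix has at least the rank of the matrix of the chain polynomial is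
expensive -/
theorem finish {K : Type} [Field K] {d g m : ℕ} {y : ℝ} (hd : d = g * m) (hg : 1 ≤ g)
    (hm : 2 ≤ m) (hy : 0 < y) (hy1 : y ≤ 1) {r E : ℕ}
    (hr : r = (univ.filter fun i : Fin d => tyc y m i = true).card)
    (hE : E = (univ.filter fun i : Fin d => tyc y m i = false).card) :
    r + E = d ∧ -((g : ℝ) * y) ≤ r - y * E ∧ ∃ LU LV : ℕ, r ≤ LU ∧
      ∀ P : MvPolynomial (Ltr d (wdc m (8 * m))) K,
        P ∈ UU (tyl d (wdc m (8 * m)) (tyc y m)) K r →
        P ∈ VV (tyl d (wdc m (8 * m)) (tyc y m)) K E →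
        (opM (tyl d (wdc m (8 * m)) (tyc y m)) (chn d (wdc m (8 * m)) ℝ) LU LV (LU - r)
          (LV + E)).rank ≤
        (opM (tyl d (wdc m (8 * m)) (tyc y m)) P LU LV (LU - r) (LV + E)).rank →
        ∀ κ : ℝ, Pool.CD.Nu (VV (tyl d (wdc m (8 * m)) (tyc y m)) K)
          (UU (tyl d (wdc m (8 * m)) (tyc y m)) K) (Real.exp y) (Real.exp 1) P κ →
        Real.exp 1 ^ r ≤ κ * (6 * Real.exp 2) ^ g := by
  subst hd
  obtain ⟨h1U, h1V, hrE, hrE', LU, LV, hL1, hL2, hL3, hL4, hL5⟩ := params hg hm hy hy1 hr hE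
  refine ⟨hrE, hrE', LU, LV, by omega, ?_⟩
  intro P hPU hPV hrank κ hNu
  have he1 : (0 : ℝ) < Real.exp 1 := Real.exp_pos _
  have hey : (0 : ℝ) < Real.exp y := Real.exp_pos _
  have hrank1 := rank_opM_le (tyl (g * m) (wdc m (8 * m)) (tyc y m)) he1 hey (LU := LU)
    (LV := LV) (r := r) (E := E) (by omega) h1U h1V hL2 hL3 P hPU hPV hNu
  have hcount := chain_count (g * m) (wdc m (8 * m)) (tyc y m)
    (fun j => wdc_one_le m (8 * m) j (by omega)) (by unfold wdc; rw [if_pos (dvd_zero _)])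
    (LU := LU) (LV := LV) hr hE hL1 (Real.exp_pos (1 + 1 / m)).le (Real.exp_pos (-y)).le
    h1U h1V hL4 hL5
  have hB1 : (1 : ℝ) ≤ Real.exp 2 := Real.one_le_exp (by norm_num)
  have hZ' : (ZZ (wdc m (8 * m)) (tyc y m) (Real.exp (1 + 1 / m)) (Real.exp (-y)) (g * m)).1 +
      (ZZ (wdc m (8 * m)) (tyc y m) (Real.exp (1 + 1 / m)) (Real.exp (-y)) (g * m)).2 ≤
        (6 * Real.exp 2) ^ g := by
    refine ZZ_chains (g := g) (m := m) (q := 8 * m) (B := Real.exp 2)
      (oU := Real.exp (1 + 1 / m)) (oV := Real.exp (-y)) (gw 1 y) (by omega) hB1 ?_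
      (Real.exp_pos _) (Real.exp_pos _) (fun i hi => (prefixes hm hy hy1 hi).1)
      (fun i hi => (prefixes hm hy hy1 hi).2)
    have h1 : Real.exp 2 ≤ 8 := by
      have h2 := Real.exp_one_lt_d9
      have h3 : Real.exp 2 = Real.exp 1 * Real.exp 1 := by rw [← Real.exp_add]; norm_num
      have h4 := Real.exp_pos 1
      rw [h3]
      nlinarith
    have h2 : (0 : ℝ) ≤ m := Nat.cast_nonneg _
    push_cast
    nlinarith
  set D0 : ℝ := (((nU (tyl (g * m) (wdc m (8 * m)) (tyc y m))).multichoose LU *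
    (nV (tyl (g * m) (wdc m (8 * m)) (tyc y m))).multichoose LV : ℕ) : ℝ) with hD0
  have hD0pos : 0 < D0 := by
    rw [hD0]
    have h1 : 0 < (nU (tyl (g * m) (wdc m (8 * m)) (tyc y m))).multichoose LU := by
      rw [Nat.multichoose_eq]
      exact Nat.choose_pos (by omega)
    have h2 : 0 < (nV (tyl (g * m) (wdc m (8 * m)) (tyc y m))).multichoose LV := by
      rw [Nat.multichoose_eq]
      exact Nat.choose_pos (by omega)
    exact_mod_cast Nat.mul_pos h1 h2
  have hBg : (0 : ℝ) < (6 * Real.exp 2) ^ g := by positivity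
  have hD0le : D0 ≤ ((opM (tyl (g * m) (wdc m (8 * m)) (tyc y m)) P LU LV (LU - r)
      (LV + E)).rank : ℝ) * (6 * Real.exp 2) ^ g := by
    refine hcount.trans ?_
    calc _ ≤ ((opM (tyl (g * m) (wdc m (8 * m)) (tyc y m)) (chn (g * m) (wdc m (8 * m)) ℝ) LU LV
          (LU - r) (LV + E)).rank : ℝ) * (6 * Real.exp 2) ^ g :=
          mul_le_mul_of_nonneg_left hZ' (Nat.cast_nonneg _)
      _ ≤ _ := mul_le_mul_of_nonneg_right (Nat.cast_le.2 hrank) hBg.le
  have h1 : D0 * Real.exp 1 ^ r ≤ D0 * (κ * (6 * Real.exp 2) ^ g) := by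
    calc D0 * Real.exp 1 ^ r ≤ ((opM (tyl (g * m) (wdc m (8 * m)) (tyc y m)) P LU LV (LU - r)
          (LV + E)).rank : ℝ) * (6 * Real.exp 2) ^ g * Real.exp 1 ^ r :=
          mul_le_mul_of_nonneg_right hD0le (by positivity)
      _ = (((opM (tyl (g * m) (wdc m (8 * m)) (tyc y m)) P LU LV (LU - r)
          (LV + E)).rank : ℝ) * Real.exp 1 ^ r) * (6 * Real.exp 2) ^ g := by ring
      _ ≤ (κ * D0) * (6 * Real.exp 2) ^ g := mul_le_mul_of_nonneg_right hrank1 hBg.le
      _ = D0 * (κ * (6 * Real.exp 2) ^ g) := by ring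
  exact le_of_mul_le_mul_left h1 hD0pos

end Pool.XD
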