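import Pool.Agent.XD.Par

/-!
# XD: the numbers with a constant which does not depend on the number of levels
-/

set_option autoImplicit false

namespace Pool.XD

open Finset Real

/-- the parameters and the final bound, with one constant for all levels -/
theorem xd_final_u (K c2 : ℕ) (hc2 : 1 ≤ c2) (Bc : ℝ) (hBc : 1 ≤ Bc) : ∃ C : ℝ, 1 ≤ C ∧
    ∀ k n T S w w0 : ℕ, 1 ≤ T → 2 ≤ S → 1 ≤ w → 1 ≤ w0 →
    ∃ (A B m : ℕ) (X Y : ℕ → ℝ), 1 ≤ B ∧ B ≤ A ∧ 2 ≤ m ∧ X 0 = 1 ∧ Y 0 = 1 ∧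
      (∀ i, 0 < X i) ∧ (∀ i, 0 < Y i) ∧
      (∀ i, i + 1 ≤ 2 * k + 1 → NumAll (exp 1) (exp ((B : ℝ) / A))
        (S * (n + 1 : ℝ) ^ (K * (w + w0))) (X i) (Y i) (X (i + 1)) (Y (i + 1))) ∧
      ((∀ g : ℕ, 1 ≤ g → g * (m * (c2 * m)) + 1 ≤ n → ∃ r E : ℕ, r + E = g * m ∧
          -((g : ℝ) * ((B : ℝ) / A)) ≤ r - (B : ℝ) / A * E ∧
          exp 1 ^ r ≤ T * ((g * m : ℕ) + 1 : ℝ) ^ K * (X (2 * k + 1) ^ r * Y (2 * k + 1) ^ E) *
            Bc ^ g) →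
        (n : ℝ) ≤ C * log (2 * n * T) *
          (C * (log S + (w + w0) * log (2 * n))) ^ (2 * (Nat.fib (2 * k + 4) - 2))) := by
  obtain ⟨c1, hc1⟩ : ∃ c1 : ℕ, log Bc + 2 ≤ c1 := exists_nat_ge _
  have hlB : 0 ≤ log Bc := log_nonneg hBc
  have hc1' : (2 : ℝ) ≤ c1 := by linarith
  have hc2r : (1 : ℝ) ≤ c2 := by exact_mod_cast hc2
  have hKr : (0 : ℝ) ≤ K := Nat.cast_nonneg _
  obtain ⟨E1, hE1⟩ : ∃ E1 : ℝ, E1 = (K + 4) * (c2 * (16 * c1) ^ 2) := ⟨_, rfl⟩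
  obtain ⟨D1, hD1⟩ : ∃ D1 : ℝ, D1 = 18 * (2 * K + 3) := ⟨_, rfl⟩
  have hE1' : 1 ≤ E1 := by
    rw [hE1]
    have h1 : (1 : ℝ) ≤ (16 * c1) ^ 2 := one_le_pow₀ (by linarith)
    have h2 : (1 : ℝ) ≤ c2 * (16 * c1) ^ 2 := one_le_mul_of_one_le_of_one_le hc2r h1
    exact one_le_mul_of_one_le_of_one_le (by linarith) h2
  have hD1' : 1 ≤ D1 := by
    rw [hD1]
    linarith
  refine ⟨E1 * D1, one_le_mul_of_one_le_of_one_le hE1' hD1', ?_⟩
  intro k n T S w w0 hT hS hw hw0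
  obtain ⟨p, hp⟩ : ∃ p : ℕ, p = Nat.fib (2 * k + 4) - 2 := ⟨_, rfl⟩
  have hSr : (2 : ℝ) ≤ S := by exact_mod_cast hS
  have hl2 : (0.6931 : ℝ) < log 2 := by
    have := log_two_gt_d9
    linarith
  have hlS : log 2 ≤ log S := log_le_log (by norm_num) hSr
  obtain ⟨κ, hκ⟩ : ∃ κ : ℝ, κ = S * (n + 1 : ℝ) ^ (K * (w + w0)) := ⟨_, rfl⟩
  have hn1 : (1 : ℝ) ≤ n + 1 := by
    have : (0 : ℝ) ≤ n := Nat.cast_nonneg _
    linarith
  have hκ1 : 1 ≤ κ := by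
    rw [hκ]
    have := one_le_pow₀ (n := K * (w + w0)) hn1
    nlinarith
  have hlκ : log κ = log S + K * (w + w0) * log (n + 1) := by
    rw [hκ, log_mul (by positivity) (by positivity), log_pow]
    push_cast
    ring
  obtain ⟨σ, hσ⟩ : ∃ σ : ℕ, σ = ⌈2 * log κ⌉₊ := ⟨_, rfl⟩
  have hlκ0 : 0.6931 < log κ := by
    rw [hlκ]
    have : 0 ≤ (K : ℝ) * (w + w0) * log (n + 1) :=
      mul_nonneg (by positivity) (log_nonneg hn1)
    linarith
  have hσ1 : 2 * log κ ≤ σ := by rw [hσ]; exact Nat.le_ceil _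
  have hσ2 : (σ : ℝ) ≤ 2 * log κ + 1 := by
    rw [hσ]
    exact (Nat.ceil_lt_add_one (by linarith)).le
  have hσ0 : 1 ≤ σ := by
    have : (0 : ℝ) < σ := by linarith
    have : 0 < σ := by exact_mod_cast this
    omega
  obtain ⟨A, B, s, X, Y, hs, hB, hBA, hA2, hsA, hX0, hY0, hXp, hYp, hch, hXL, hYL⟩ :=
    growth_chain (2 * k + 1) σ (by omega) hσ0 κ hκ1 (by linarith)
  rw [show 2 * k + 1 + 3 = 2 * k + 4 by ring, ← hp] at hsA
  have hA : 1 ≤ A := hB.trans hBA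
  have hc1n : 2 ≤ c1 := by exact_mod_cast hc1'
  obtain ⟨m, hm⟩ : ∃ m : ℕ, m = 4 * (s * A) * c1 := ⟨_, rfl⟩
  have hm1 : 1 ≤ m := by
    rw [hm]
    exact Nat.mul_pos (Nat.mul_pos (by norm_num) (Nat.mul_pos hs hA)) (by omega)
  have hm2 : 2 ≤ m := by
    have h1 : 1 ≤ s * A := Nat.mul_pos hs hA
    have h2 : 4 * 1 * 1 ≤ 4 * (s * A) * c1 :=
      Nat.mul_le_mul (Nat.mul_le_mul_left _ h1) (by omega)
    omega
  refine ⟨A, B, m, X, Y, hB, hBA, hm2, hX0, hY0, hXp, hYp, ?_, ?_⟩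
  · rw [← hκ]
    exact hch
  intro hg
  rcases Nat.eq_zero_or_pos n with hn0 | hn0
  · subst hn0
    simp
  have hnr : (1 : ℝ) ≤ n := by exact_mod_cast hn0
  have hTr : (1 : ℝ) ≤ T := by exact_mod_cast hT
  have hlT : 0 ≤ log T := log_nonneg hTr
  obtain ⟨Λ, hΛ⟩ : ∃ Λ : ℝ, Λ = log S + (w + w0) * log (2 * n) := ⟨_, rfl⟩
  have hl2n : log 2 ≤ log (2 * n) := log_le_log (by norm_num) (by linarith)
  have hln : log (n + 1) ≤ log (2 * n) := log_le_log (by linarith) (by linarith)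
  have hww : (2 : ℝ) ≤ w + w0 := by
    have h1 : (1 : ℝ) ≤ w := by exact_mod_cast hw
    have h2 : (1 : ℝ) ≤ w0 := by exact_mod_cast hw0
    linarith
  have hwl : 2 * log 2 ≤ (w + w0) * log (2 * n) :=
    mul_le_mul hww hl2n (by linarith) (by linarith)
  have hΛ1 : 1 ≤ Λ := by rw [hΛ]; linarith
  have hlκΛ : log κ ≤ (K + 1) * Λ := by
    rw [hlκ, hΛ]
    have h1 : (K : ℝ) * ((w + w0) * log (n + 1)) ≤ K * ((w + w0) * log (2 * n)) :=
      mul_le_mul_of_nonneg_left (mul_le_mul_of_nonneg_left hln (by linarith)) (Nat.cast_nonneg _)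
    have h2 : (0 : ℝ) ≤ K * log S := mul_nonneg (Nat.cast_nonneg _) (by linarith)
    have h3 : 0 ≤ ((w : ℝ) + w0) * log (2 * n) := by linarith
    linarith
  have hσΛ : (σ : ℝ) ≤ (2 * K + 3) * Λ := by linarith
  -- the size of m
  have hmle : (m : ℝ) ≤ 16 * c1 * (18 * (2 * K + 3)) ^ p * Λ ^ p := by
    have h1 : m ≤ 4 * (4 * (18 * σ) ^ p) * c1 := by
      rw [hm]
      exact Nat.mul_le_mul_right _ (Nat.mul_le_mul_left _ hsA)
    have h2 : (m : ℝ) ≤ 4 * (4 * (18 * (σ : ℝ)) ^ p) * c1 := by exact_mod_cast h1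
    have h3 : (18 * (σ : ℝ)) ^ p ≤ (18 * ((2 * K + 3) * Λ)) ^ p :=
      pow_le_pow_left₀ (by positivity) (by linarith) p
    have h4 : (18 * ((2 * (K : ℝ) + 3) * Λ)) ^ p = (18 * (2 * K + 3)) ^ p * Λ ^ p := by
      rw [← mul_pow]
      congr 1
      ring
    rw [h4] at h3
    have h5 := mul_le_mul_of_nonneg_left h3 (show (0 : ℝ) ≤ 16 * c1 by positivity)
    linarith
  -- the number of chains
  obtain ⟨g, hgd⟩ : ∃ g : ℕ, g = (n - 1) / (m * (c2 * m)) := ⟨_, rfl⟩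
  have hmq : 1 ≤ m * (c2 * m) := Nat.mul_pos hm1 (Nat.mul_pos hc2 hm1)
  have hgle : (g : ℝ) ≤ log T + K * log (2 * n) := by
    rcases Nat.eq_zero_or_pos g with hg0 | hg0
    · rw [hg0, Nat.cast_zero]
      have : 0 ≤ (K : ℝ) * log (2 * n) := mul_nonneg (Nat.cast_nonneg _) (by linarith)
      linarith
    · have hgn : g * (m * (c2 * m)) + 1 ≤ n := by
        have := Nat.div_mul_le_self (n - 1) (m * (c2 * m))
        rw [← hgd] at this
        omega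
      obtain ⟨r, E, hrE, hbal, hineq⟩ := hg g hg0 hgn
      have hy1 : (B : ℝ) / A ≤ 1 := by
        have hAr : (0 : ℝ) < A := by exact_mod_cast hA
        rw [div_le_one hAr]
        exact_mod_cast hBA
      rw [hXL, hYL] at hineq
      have h1 := g_le hs hA hBc hc1 hy1 hT hm hrE hbal hineq
      have h2 : ((g * m : ℕ) + 1 : ℝ) ≤ 2 * n := by
        have h3 : g * m ≤ n := by
          calc g * m = g * (m * 1) := by ring
            _ ≤ g * (m * (c2 * m)) :=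
              Nat.mul_le_mul_left _ (Nat.mul_le_mul_left _ (Nat.mul_pos hc2 hm1))
            _ ≤ n := by omega
        have h4 : ((g * m : ℕ) : ℝ) ≤ n := by exact_mod_cast h3
        linarith
      have h3 : log ((g * m : ℕ) + 1 : ℝ) ≤ log (2 * n) := log_le_log (by positivity) h2
      have h4 := mul_le_mul_of_nonneg_left h3 (Nat.cast_nonneg (α := ℝ) K)
      linarith
  have hnle : (n : ℝ) ≤ (g + 2) * (m * (c2 * m)) := by
    have h1 := Nat.div_add_mod (n - 1) (m * (c2 * m))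
    have h2 := Nat.mod_lt (n - 1) (show 0 < m * (c2 * m) by omega)
    rw [← hgd] at h1
    have h3 : n ≤ (g + 2) * (m * (c2 * m)) := by
      have : (g + 2) * (m * (c2 * m)) = m * (c2 * m) * g + 2 * (m * (c2 * m)) := by ring
      omega
    exact_mod_cast h3
  have hlog : log (2 * n * T) = log (2 * n) + log T := log_mul (by positivity) (by positivity)
  rw [← hΛ, hlog, ← hp]
  have h1 : (g : ℝ) + 2 ≤ (K + 4) * (log (2 * n) + log T) := by
    have h2 : 0 ≤ (K : ℝ) * log T := mul_nonneg (Nat.cast_nonneg _) hlT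
    have h3 : 0 ≤ (K : ℝ) * log (2 * n) := mul_nonneg (Nat.cast_nonneg _) (by linarith)
    linarith
  have h2 : (m : ℝ) * (c2 * m) ≤
      c2 * (16 * c1 * (18 * (2 * K + 3)) ^ p) ^ 2 * Λ ^ (2 * p) := by
    have h3 : (m : ℝ) * m ≤ (16 * c1 * (18 * (2 * K + 3)) ^ p * Λ ^ p) *
        (16 * c1 * (18 * (2 * K + 3)) ^ p * Λ ^ p) :=
      mul_le_mul hmle hmle (Nat.cast_nonneg _) (by positivity)
    have h4 := mul_le_mul_of_nonneg_left h3 (Nat.cast_nonneg (α := ℝ) c2)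
    calc (m : ℝ) * (c2 * m) = c2 * (m * m) := by ring
      _ ≤ _ := h4
      _ = _ := by
        rw [two_mul p, pow_add]
        ring
  have hΛ0 : 0 ≤ Λ := by linarith
  have hlog0 : 0 ≤ log (2 * n) + log T := by linarith
  calc (n : ℝ) ≤ (g + 2) * (m * (c2 * m)) := hnle
    _ ≤ ((K + 4) * (log (2 * n) + log T)) *
        (c2 * (16 * c1 * (18 * (2 * K + 3)) ^ p) ^ 2 * Λ ^ (2 * p)) := by
      apply mul_le_mul h1 h2 (by positivity)
      exact mul_nonneg (by positivity) (by linarith)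
    _ = E1 * (log (2 * n) + log T) * (D1 * Λ) ^ (2 * p) := by
      rw [hE1, hD1, mul_pow (18 * (2 * (K : ℝ) + 3)) Λ (2 * p), mul_pow (16 * (c1 : ℝ)),
        ← pow_mul, mul_comm p 2]
      ring
    _ ≤ E1 * D1 * (log (2 * n) + log T) * (E1 * D1 * Λ) ^ (2 * p) := by
      apply mul_le_mul
      · exact mul_le_mul_of_nonneg_right
          (le_mul_of_one_le_right (zero_le_one.trans hE1') hD1') hlog0
      · apply pow_le_pow_left₀ (by positivity)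
        exact mul_le_mul_of_nonneg_right
          (le_mul_of_one_le_left (zero_le_one.trans hD1') hE1') hΛ0
      · positivity
      · positivity


theorem xd_final'' (Bc : ℝ) (hBc : 1 ≤ Bc) : ∃ C : ℝ, 1 ≤ C ∧
    ∀ k n T S w w0 : ℕ, 1 ≤ T → 2 ≤ S → 1 ≤ w → 1 ≤ w0 →
    ∃ (y : ℝ) (m : ℕ) (X Y : ℕ → ℝ), 0 < y ∧ y ≤ 1 ∧ 2 ≤ m ∧ X 0 = 1 ∧ Y 0 = 1 ∧
      (∀ i, 0 < X i) ∧ (∀ i, 0 < Y i) ∧
      (∀ d ≤ n, ∀ i ≤ 2 * k, NumD d (S * (d + 1) ^ (8 * (w0 + w) + 16)) (Real.exp 1)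
        (Real.exp y) (X i) (Y i) (X (i + 1)) (Y (i + 1))) ∧
      ((∀ g : ℕ, 1 ≤ g → g * (m * (8 * m)) + 1 ≤ n → ∃ r E : ℕ, r + E = g * m ∧
          -((g : ℝ) * y) ≤ r - y * E ∧
          Real.exp 1 ^ r ≤ T * ((g * m : ℕ) + 1 : ℝ) ^ 16 *
            (X (2 * k + 1) ^ r * Y (2 * k + 1) ^ E) * Bc ^ g) →
        (n : ℝ) ≤ C * Real.log (2 * n * T) *
          (C * (Real.log S + (w + w0) * Real.log (2 * n))) ^
            (2 * (Nat.fib (2 * k + 4) - 2))) := by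
  obtain ⟨C, hC, h⟩ := xd_final_u 16 8 (by norm_num) Bc hBc
  refine ⟨C, hC, ?_⟩
  intro k n T S w w0 hT hS hw hw0
  obtain ⟨A, B, m, X, Y, hB, hBA, hm, hX0, hY0, hX, hY, hnum, hfin⟩ :=
    h k n T S w w0 hT hS hw hw0
  have hBr : (0 : ℝ) < B := by exact_mod_cast hB
  have hAr : (0 : ℝ) < A := by exact_mod_cast hB.trans hBA
  refine ⟨(B : ℝ) / A, m, X, Y, by positivity, ?_, hm, hX0, hY0, hX, hY, ?_, hfin⟩
  · rw [div_le_one hAr]
    exact_mod_cast hBA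
  · intro d hd i hi b e hbe _
    rcases hnum i (by omega) b e hbe with h1 | h1 | h1
    · exact Or.inr (Or.inl h1)
    · exact Or.inl h1
    · refine Or.inr (Or.inr (le_trans ?_ h1))
      apply mul_le_mul_of_nonneg_right
      · apply mul_le_mul_of_nonneg_left _ (Nat.cast_nonneg _)
        have h2 : ((d : ℝ) + 1) ≤ n + 1 := by
          have : (d : ℝ) ≤ n := by exact_mod_cast hd
          linarith
        have h3 : (0 : ℝ) ≤ (d : ℝ) + 1 := by positivity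
        calc ((d : ℝ) + 1) ^ (8 * (w0 + w) + 16) ≤ ((n : ℝ) + 1) ^ (8 * (w0 + w) + 16) :=
              pow_le_pow_left₀ h3 h2 _
          _ ≤ ((n : ℝ) + 1) ^ (16 * (w + w0)) := by
            apply pow_le_pow_right₀
            · have : (0 : ℝ) ≤ n := Nat.cast_nonneg _
              linarith
            · omega
      · have := hX i
        have := hY i
        positivity

end Pool.XD
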