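import Pool.Agent.XD.Circ

/-!
# XD: the size of circuits of bounded product depth
-/

set_option autoImplicit false

namespace Pool.XD

open Finset MvPolynomial Pool.Agent.Helper41.CD

/-- `log (2 n)` is at most `ε n ^ p + B` -/
theorem log_two_mul_le {p ε : ℝ} (hp : 0 < p) (hε : 0 < ε) :
    ∃ B : ℝ, 0 ≤ B ∧ ∀ n : ℕ, 1 ≤ n → Real.log (2 * n) ≤ ε * (n : ℝ) ^ p + B := by
  set q := p / 2 with hq
  have hq0 : 0 < q := by positivity
  set a := (2 : ℝ) ^ q / q with ha
  refine ⟨a ^ 2 / (4 * ε), by positivity, fun n hn => ?_⟩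
  have hn0 : (0 : ℝ) ≤ n := Nat.cast_nonneg n
  have h1 : Real.log (2 * n) ≤ (2 * (n : ℝ)) ^ q / q := Real.log_le_rpow_div (by positivity) hq0
  have h2 : (2 * (n : ℝ)) ^ q / q = a * (n : ℝ) ^ q := by
    rw [Real.mul_rpow (by norm_num) hn0, ha]
    ring
  have h3 : (n : ℝ) ^ p = ((n : ℝ) ^ q) ^ 2 := by
    rw [← Real.rpow_natCast, ← Real.rpow_mul hn0]
    congr 1
    rw [hq]
    push_cast
    ring
  rw [h3]
  rw [h2] at h1
  refine h1.trans ?_
  set t := (n : ℝ) ^ q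
  have h4 : 0 ≤ (2 * ε * t - a) ^ 2 / (4 * ε) := by positivity
  have h5 : (2 * ε * t - a) ^ 2 / (4 * ε) = ε * t ^ 2 + a ^ 2 / (4 * ε) - a * t := by
    field_simp
    ring
  linarith

theorem circ_num {C : ℝ} (hC : 0 < C) (E : ℕ) : ∃ c : ℝ, 0 < c ∧ ∀ n s : ℕ, 1 ≤ s →
    (1 ≤ n → (n : ℝ) ≤ C * Real.log (2 * n * (s + 1)) *
      (Real.log (s + n ^ 2 + 1) + 2 * Real.log (2 * n)) ^ E) →
    Real.exp (c * (n : ℝ) ^ (1 / ((E : ℝ) + 1))) ≤ s + 1 := by
  set p : ℝ := 1 / ((E : ℝ) + 1) with hp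
  have hE1 : (0 : ℝ) < (E : ℝ) + 1 := by positivity
  have hp0 : 0 < p := by positivity
  set A : ℝ := C * 4 ^ E with hA
  have hA0 : 0 < A := by positivity
  set ε : ℝ := (1 / A) ^ p / 2 with hε
  have hε0 : 0 < ε := by positivity
  obtain ⟨B, hB0, hB⟩ := log_two_mul_le hp0 hε0
  have hl2 : 0 < Real.log 2 := Real.log_pos (by norm_num)
  refine ⟨ε / (1 + B / Real.log 2), by positivity, fun n s hs h => ?_⟩
  have hs1 : (1 : ℝ) ≤ s := by exact_mod_cast hs
  have hs0 : (0 : ℝ) < (s : ℝ) + 1 := by positivity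
  rw [← Real.le_log_iff_exp_le hs0]
  set L1 := Real.log ((s : ℝ) + 1) with hL1
  have hL1' : Real.log 2 ≤ L1 := Real.log_le_log (by norm_num) (by linarith)
  rcases Nat.eq_zero_or_pos n with rfl | hn
  · rw [Nat.cast_zero, Real.zero_rpow hp0.ne', mul_zero]
    linarith
  have h := h hn
  have hn1 : (1 : ℝ) ≤ n := by exact_mod_cast hn
  set L2 := Real.log (2 * (n : ℝ)) with hL2
  have hL2' : Real.log 2 ≤ L2 := Real.log_le_log (by norm_num) (by linarith)
  have e1 : Real.log (2 * n * (s + 1)) = L2 + L1 :=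
    Real.log_mul (by positivity) (by positivity)
  have e2 : Real.log ((s : ℝ) + n ^ 2 + 1) ≤ L1 + 2 * L2 := by
    have : L1 + 2 * L2 = Real.log (((s : ℝ) + 1) * (2 * n) ^ 2) := by
      rw [Real.log_mul (by positivity) (by positivity), Real.log_pow]
      push_cast
      ring
    rw [this]
    refine Real.log_le_log (by positivity) ?_
    have h1 : (1 : ℝ) ≤ (n : ℝ) ^ 2 := one_le_pow₀ hn1
    nlinarith [mul_nonneg (show (0 : ℝ) ≤ s by positivity) (show (0 : ℝ) ≤ (n : ℝ) ^ 2 by positivity)]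
  have h1 : (n : ℝ) ≤ A * (L1 + L2) ^ (E + 1) := by
    refine h.trans ?_
    rw [e1]
    have h2 : Real.log ((s : ℝ) + n ^ 2 + 1) + 2 * L2 ≤ 4 * (L1 + L2) := by linarith
    have h3 : 0 ≤ Real.log ((s : ℝ) + n ^ 2 + 1) + 2 * L2 := by
      have : 0 ≤ Real.log ((s : ℝ) + n ^ 2 + 1) := by
        refine Real.log_nonneg ?_
        have : (0 : ℝ) ≤ (n : ℝ) ^ 2 := by positivity
        linarith
      linarith
    calc C * (L2 + L1) * (Real.log ((s : ℝ) + n ^ 2 + 1) + 2 * L2) ^ E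
        ≤ C * (L2 + L1) * (4 * (L1 + L2)) ^ E := by
          refine mul_le_mul_of_nonneg_left (pow_le_pow_left₀ h3 h2 E) ?_
          have : 0 ≤ L2 + L1 := by linarith
          positivity
      _ = A * (L1 + L2) ^ (E + 1) := by
          rw [hA, mul_pow, pow_succ]
          ring
  have hL0 : 0 ≤ L1 + L2 := by linarith
  have h2 : (1 / A) ^ p * (n : ℝ) ^ p ≤ L1 + L2 := by
    rw [← Real.mul_rpow (by positivity) (by positivity)]
    have h3 : 1 / A * (n : ℝ) ≤ (L1 + L2) ^ (E + 1) := by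
      rw [div_mul_eq_mul_div, one_mul, div_le_iff₀ hA0]
      linarith
    calc (1 / A * (n : ℝ)) ^ p ≤ ((L1 + L2) ^ (E + 1)) ^ p :=
          Real.rpow_le_rpow (by positivity) h3 hp0.le
      _ = L1 + L2 := by
          rw [← Real.rpow_natCast, ← Real.rpow_mul hL0, hp]
          push_cast
          rw [mul_one_div_cancel hE1.ne', Real.rpow_one]
  have h3 := hB n hn
  have h4 : ε * (n : ℝ) ^ p ≤ L1 + B := by
    have : (1 / A) ^ p * (n : ℝ) ^ p = 2 * (ε * (n : ℝ) ^ p) := by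
      rw [hε]
      ring
    linarith
  rw [div_mul_eq_mul_div, div_le_iff₀ (by positivity)]
  refine h4.trans ?_
  rw [mul_add, mul_one]
  have : B ≤ L1 * (B / Real.log 2) := by
    rw [mul_div_assoc', le_div_iff₀ hl2, mul_comm L1 B]
    exact mul_le_mul_of_nonneg_left hL1' hB0
  linarith

/-- **Row I**: from the bound for sums of products of elements of the class `d` to the number of
gates of circuits with at most `d + 1` product gates on each path. `Q` is the property of the field and of the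
polynomial which is computed (to be the permanent, up to small coefficients, a multiple ...). -/
theorem circ (d E : ℕ) {C : ℝ} (hC : 0 < C)
    (Q : ∀ (K : Type) [Field K] (n : ℕ), MvPolynomial (Fin n × Fin n) K → Prop)
    (H : ∀ (K : Type) [Field K] (n T S : ℕ)
      (f : Fin T → Fin S → MvPolynomial (Fin n × Fin n) K), 1 ≤ n → 1 ≤ T → 2 ≤ S →
      (∀ i j, f i j ∈ Cls 1 1 S d) → Q K n (∑ i, ∏ j, f i j) →
      (n : ℝ) ≤ C * Real.log (2 * n * T) * (Real.log S + 2 * Real.log (2 * n)) ^ E) :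
    ∃ c : ℝ, 0 < c ∧ ∀ (K : Type) [Field K] (n s : ℕ)
      (P : Fin s → MvPolynomial (Fin n × Fin n) K), IsCircuit (d + 1) P →
      (∃ g, Q K n (P g)) → Real.exp (c * (n : ℝ) ^ (1 / ((E : ℝ) + 1))) ≤ s + 1 := by
  obtain ⟨c, hc, h⟩ := circ_num hC E
  refine ⟨c, hc, fun K _ n s P hP hg => ?_⟩
  obtain ⟨g, hg⟩ := hg
  have hs : 1 ≤ s := by
    have := g.2
    omega
  refine h n s hs fun hn => ?_
  obtain ⟨f, hf, hfg⟩ := circuit_sum (S := s + n ^ 2 + 1)
    (by rw [Fintype.card_prod, Fintype.card_fin, sq]) hP g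
  have h1 := H K n (s + 1) (s + n ^ 2 + 1) f hn (by omega) (by
    have : 1 ≤ n ^ 2 := Nat.one_le_pow _ _ hn
    omega) hf (by rwa [hfg])
  push_cast at h1
  exact h1

end Pool.XD
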