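import Pool.Agent.XD.CircNum

/-!
# XD: the size of circuits of bounded product depth, with an absolute constant
-/

set_option autoImplicit false

namespace Pool.XD

open Finset MvPolynomial Pool.Agent.Helper41.CD

theorem circ_num_unif {C : ℝ} (hC : 1 ≤ C) (E n s : ℕ) (hs : 1 ≤ s)
    (h : 1 ≤ n → (n : ℝ) ≤ C * Real.log (2 * n * (s + 1)) *
      (C * (Real.log (s + n ^ 2 + 1) + 2 * Real.log (2 * n))) ^ E) :
    Real.exp (1 / (12 * C) * (n : ℝ) ^ (1 / ((E : ℝ) + 1))) ≤ s + n := by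
  set p : ℝ := 1 / ((E : ℝ) + 1) with hp
  have hC0 : 0 < C := by linarith
  have hE1 : (0 : ℝ) < (E : ℝ) + 1 := by positivity
  have hp0 : 0 < p := by positivity
  have hs1 : (1 : ℝ) ≤ s := by exact_mod_cast hs
  rcases Nat.eq_zero_or_pos n with rfl | hn
  · rw [Nat.cast_zero, Real.zero_rpow hp0.ne', mul_zero, Real.exp_zero]
    linarith
  have h := h hn
  have hn1 : (1 : ℝ) ≤ n := by exact_mod_cast hn
  have hsn : (0 : ℝ) < (s : ℝ) + n := by positivity
  rw [← Real.le_log_iff_exp_le hsn]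
  set L1 := Real.log ((s : ℝ) + 1) with hL1
  set L2 := Real.log (2 * (n : ℝ)) with hL2
  have hL1' : 0 ≤ L1 := Real.log_nonneg (by linarith)
  have hL2' : 0 ≤ L2 := Real.log_nonneg (by linarith)
  have e1 : Real.log (2 * n * (s + 1)) = L2 + L1 :=
    Real.log_mul (by positivity) (by positivity)
  have e2 : Real.log ((s : ℝ) + n ^ 2 + 1) ≤ L1 + 2 * L2 := by
    have : L1 + 2 * L2 = Real.log (((s : ℝ) + 1) * (2 * n) ^ 2) := by
      rw [Real.log_mul (by positivity) (by positivity), Real.log_pow]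
      push_cast
      ring
    rw [this]
    refine Real.log_le_log (by positivity) ?_
    have h1 : (1 : ℝ) ≤ (n : ℝ) ^ 2 := one_le_pow₀ hn1
    nlinarith [mul_nonneg (show (0 : ℝ) ≤ s by positivity) (show (0 : ℝ) ≤ (n : ℝ) ^ 2 by positivity)]
  have h1 : (n : ℝ) ≤ (4 * C * (L1 + L2)) ^ (E + 1) := by
    refine h.trans ?_
    rw [e1]
    have h2 : C * (Real.log ((s : ℝ) + n ^ 2 + 1) + 2 * L2) ≤ 4 * C * (L1 + L2) := by
      have : Real.log ((s : ℝ) + n ^ 2 + 1) + 2 * L2 ≤ 4 * (L1 + L2) := by linarith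
      nlinarith
    have h3 : 0 ≤ C * (Real.log ((s : ℝ) + n ^ 2 + 1) + 2 * L2) := by
      have : 0 ≤ Real.log ((s : ℝ) + n ^ 2 + 1) := by
        refine Real.log_nonneg ?_
        have : (0 : ℝ) ≤ (n : ℝ) ^ 2 := by positivity
        linarith
      positivity
    have h4 : C * (L2 + L1) ≤ 4 * C * (L1 + L2) := by nlinarith
    have h5 : 0 ≤ C * (L2 + L1) := by positivity
    calc C * (L2 + L1) * (C * (Real.log ((s : ℝ) + n ^ 2 + 1) + 2 * L2)) ^ E
        ≤ 4 * C * (L1 + L2) * (4 * C * (L1 + L2)) ^ E :=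
          mul_le_mul h4 (pow_le_pow_left₀ h3 h2 E) (pow_nonneg h3 E) (by positivity)
      _ = (4 * C * (L1 + L2)) ^ (E + 1) := by rw [pow_succ]; ring
  have hL0 : 0 ≤ 4 * C * (L1 + L2) := by positivity
  have h2 : (n : ℝ) ^ p ≤ 4 * C * (L1 + L2) := by
    calc (n : ℝ) ^ p ≤ ((4 * C * (L1 + L2)) ^ (E + 1)) ^ p :=
          Real.rpow_le_rpow (by positivity) h1 hp0.le
      _ = 4 * C * (L1 + L2) := by
          rw [← Real.rpow_natCast, ← Real.rpow_mul hL0, hp]
          push_cast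
          rw [mul_one_div_cancel hE1.ne', Real.rpow_one]
  have h3 : L1 + L2 ≤ 3 * Real.log ((s : ℝ) + n) := by
    have : 3 * Real.log ((s : ℝ) + n) = Real.log (((s : ℝ) + n) ^ 3) := by
      rw [Real.log_pow]
      push_cast
      ring
    rw [this, add_comm, ← Real.log_mul (by positivity) (by positivity)]
    refine Real.log_le_log (by positivity) ?_
    have h4 : (n : ℝ) + 1 ≤ s + n := by linarith
    have h5 : (s : ℝ) + 1 ≤ s + n := by linarith
    have h6 : 2 * (n : ℝ) ≤ ((n : ℝ) + 1) ^ 2 := by nlinarith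
    calc 2 * (n : ℝ) * ((s : ℝ) + 1) ≤ ((n : ℝ) + 1) ^ 2 * ((s : ℝ) + n) :=
          mul_le_mul h6 h5 (by positivity) (by positivity)
      _ ≤ ((s : ℝ) + n) ^ 2 * ((s : ℝ) + n) :=
          mul_le_mul_of_nonneg_right (pow_le_pow_left₀ (by positivity) h4 2) hsn.le
      _ = ((s : ℝ) + n) ^ 3 := by ring
  have h4 : (n : ℝ) ^ p ≤ 12 * C * Real.log ((s : ℝ) + n) := by
    refine h2.trans ?_
    have := mul_le_mul_of_nonneg_left h3 (show 0 ≤ 4 * C by positivity)
    linarith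
  rw [div_mul_eq_mul_div, one_mul, div_le_iff₀ (by positivity)]
  linarith

/-- **Row I, absolute constant** -/
theorem circ_unif (E : ℕ → ℕ) {C : ℝ} (hC : 1 ≤ C)
    (Q : ∀ (K : Type) [Field K] (n : ℕ), MvPolynomial (Fin n × Fin n) K → Prop)
    (H : ∀ (d : ℕ) (K : Type) [Field K] (n T S : ℕ)
      (f : Fin T → Fin S → MvPolynomial (Fin n × Fin n) K), 1 ≤ n → 1 ≤ T → 2 ≤ S →
      (∀ i j, f i j ∈ Cls 1 1 S d) → Q K n (∑ i, ∏ j, f i j) →
      (n : ℝ) ≤ C * Real.log (2 * n * T) * (C * (Real.log S + 2 * Real.log (2 * n))) ^ E d) :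
    ∃ c : ℝ, 0 < c ∧ ∀ (d : ℕ) (K : Type) [Field K] (n s : ℕ)
      (P : Fin s → MvPolynomial (Fin n × Fin n) K), IsCircuit (d + 1) P →
      (∃ g, Q K n (P g)) → Real.exp (c * (n : ℝ) ^ (1 / ((E d : ℝ) + 1))) ≤ s + n := by
  refine ⟨1 / (12 * C), by positivity, fun d K _ n s P hP hg => ?_⟩
  obtain ⟨g, hg⟩ := hg
  have hs : 1 ≤ s := by
    have := g.2
    omega
  refine circ_num_unif hC (E d) n s hs fun hn => ?_
  obtain ⟨f, hf, hfg⟩ := circuit_sum (S := s + n ^ 2 + 1)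
    (by rw [Fintype.card_prod, Fintype.card_fin, sq]) hP g
  have h1 := H d K n (s + 1) (s + n ^ 2 + 1) f hn (by omega) (by
    have : 1 ≤ n ^ 2 := Nat.one_le_pow _ _ hn
    omega) hf (by rwa [hfg])
  push_cast at h1
  exact h1

end Pool.XD
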