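import Pool.Agent.Helper41.CD.Gate

/-!
# XD: circuits of bounded depth (row S)

A circuit: gates `g : G`, each of which is a variable, a constant, a sum or a product of a list of
gates of lower level.  Every polynomial computed at level `D` by a circuit of fan-in at most `S`
is in the class `Cls 1 1 S D`.
-/

set_option autoImplicit false

namespace Pool.XD

open Finset MvPolynomial Pool.Agent.Helper41.CD

/-- the operation of a gate -/
inductive Op (σ K G : Type) : Type
  | var : σ → Op σ K G
  | const : K → Op σ K G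
  | add : List G → Op σ K G
  | mul : List G → Op σ K G

/-- the list of the gates which are connected to a gate by a wire -/
def Op.args {σ K G : Type} : Op σ K G → List G
  | Op.var _ => []
  | Op.const _ => []
  | Op.add l => l
  | Op.mul l => l

/-- the value of a gate from the values of the other gates -/
noncomputable def Op.value {σ K G : Type} [CommRing K] (val : G → MvPolynomial σ K) :
    Op σ K G → MvPolynomial σ K
  | Op.var i => X i
  | Op.const a => C a
  | Op.add l => (l.map val).sum
  | Op.mul l => (l.map val).prod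

section lists

theorem sum_getD {M : Type} [AddCommMonoid M] (l : List M) : ∀ S : ℕ, l.length ≤ S →
    ∑ i : Fin S, l.getD i 0 = l.sum := by
  induction l with
  | nil =>
    intro S _
    simp
  | cons a l ih =>
    intro S hS
    obtain ⟨S', rfl⟩ : ∃ S', S = S' + 1 := ⟨S - 1, by simp at hS; omega⟩
    have h1 : l.length ≤ S' := by simpa using hS
    rw [Fin.sum_univ_succ, List.sum_cons, ← ih S' h1]
    simp

theorem prod_getD {M : Type} [CommMonoid M] (l : List M) : ∀ S : ℕ, l.length ≤ S →
    ∏ i : Fin S, l.getD i 1 = l.prod := by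
  induction l with
  | nil =>
    intro S _
    simp
  | cons a l ih =>
    intro S hS
    obtain ⟨S', rfl⟩ : ∃ S', S = S' + 1 := ⟨S - 1, by simp at hS; omega⟩
    have h1 : l.length ≤ S' := by simpa using hS
    rw [Fin.prod_univ_succ, List.prod_cons, ← ih S' h1]
    simp

theorem getD_mem {M : Type} (P : M → Prop) (l : List M) (hl : ∀ a ∈ l, P a) (d : M) (hd : P d)
    (i : ℕ) : P (l.getD i d) := by
  rw [List.getD_eq_getElem?_getD]
  rcases Nat.lt_or_ge i l.length with h | h
  · rw [List.getElem?_eq_getElem h]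
    exact hl _ (List.getElem_mem h)
  · rw [List.getElem?_eq_none h]
    exact hd

end lists

section cls

variable {σ K : Type} [CommRing K] {S : ℕ}

theorem sumprod_mem {k : ℕ} (F : Fin S → Fin S → MvPolynomial σ K)
    (hF : ∀ i j, F i j ∈ Cls 1 1 S k) : (∑ i, ∏ j, F i j) ∈ Cls (R := K) 1 1 S (k + 1) :=
  ⟨fun _ => F, X 0, fun _ i j => hF i j, by rw [aeval_X]⟩

theorem affine_mem {f : MvPolynomial σ K} (hf : f.totalDegree ≤ 1) :
    f ∈ Cls (R := K) 1 1 S 0 :=
  ⟨fun _ => f, X 0, fun _ => hf, by rw [aeval_X]⟩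

theorem X_le (i : σ) : (X i : MvPolynomial σ K).totalDegree ≤ 1 := by
  rcases subsingleton_or_nontrivial K with h | h
  · have : (X i : MvPolynomial σ K) = 0 := Subsingleton.elim _ _
    rw [this, totalDegree_zero]
    omega
  · rw [totalDegree_X]

theorem const_mem_zero (a : K) : (C a : MvPolynomial σ K) ∈ Cls (R := K) 1 1 S 0 :=
  affine_mem (by rw [totalDegree_C]; omega)

theorem prod_one_at {M : Type} [CommMonoid M] {S : ℕ} (hS : 1 ≤ S) (f : M) :
    ∏ j : Fin S, (if (j : ℕ) = 0 then f else 1) = f := by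
  rw [Finset.prod_eq_single (⟨0, hS⟩ : Fin S)]
  · simp
  · intro j _ hj
    rw [if_neg]
    intro h
    exact hj (Fin.ext h)
  · intro h
    exact absurd (mem_univ _) h

theorem sum_zero_at {M : Type} [AddCommMonoid M] {S : ℕ} (hS : 1 ≤ S) (f : M) :
    ∑ j : Fin S, (if (j : ℕ) = 0 then f else 0) = f := by
  rw [Finset.sum_eq_single (⟨0, hS⟩ : Fin S)]
  · simp
  · intro j _ hj
    rw [if_neg]
    intro h
    exact hj (Fin.ext h)
  · intro h
    exact absurd (mem_univ _) h

/-- a product is a member of the next class -/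
theorem prod_mem_succ (hS : 1 ≤ S) {k : ℕ} (h0 : (0 : MvPolynomial σ K) ∈ Cls (R := K) 1 1 S k)
    (f : Fin S → MvPolynomial σ K) (hf : ∀ j, f j ∈ Cls (R := K) 1 1 S k) :
    (∏ j, f j) ∈ Cls (R := K) 1 1 S (k + 1) := by
  have h1 : ∏ j, f j = ∑ i : Fin S, ∏ j : Fin S, (if (i : ℕ) = 0 then f j else 0) := by
    have h2 : ∀ i : Fin S, ∏ j : Fin S, (if (i : ℕ) = 0 then f j else 0) =
        if (i : ℕ) = 0 then ∏ j, f j else 0 := by
      intro i
      by_cases hi : (i : ℕ) = 0
      · simp [hi]
      · rw [if_neg hi]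
        refine prod_eq_zero (mem_univ (⟨0, hS⟩ : Fin S)) ?_
        rw [if_neg hi]
    rw [sum_congr rfl fun i _ => h2 i, sum_zero_at hS]
  rw [h1]
  apply sumprod_mem
  intro i j
  split_ifs
  · exact hf j
  · exact h0

/-- a sum is a member of the next class -/
theorem sum_mem_succ (hS : 1 ≤ S) {k : ℕ} (h1 : (1 : MvPolynomial σ K) ∈ Cls (R := K) 1 1 S k)
    (f : Fin S → MvPolynomial σ K) (hf : ∀ j, f j ∈ Cls (R := K) 1 1 S k) :
    (∑ j, f j) ∈ Cls (R := K) 1 1 S (k + 1) := by
  have h2 : ∑ i, f i = ∑ i : Fin S, ∏ j : Fin S, (if (j : ℕ) = 0 then f i else 1) :=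
    sum_congr rfl fun i _ => (prod_one_at hS (f i)).symm
  rw [h2]
  apply sumprod_mem
  intro i j
  split_ifs
  · exact hf i
  · exact h1

theorem zero_one_mem (hS : 1 ≤ S) (k : ℕ) : (0 : MvPolynomial σ K) ∈ Cls (R := K) 1 1 S k ∧
    (1 : MvPolynomial σ K) ∈ Cls (R := K) 1 1 S k := by
  induction k with
  | zero =>
    constructor
    · have := const_mem_zero (σ := σ) (S := S) (0 : K)
      rwa [map_zero] at this
    · have := const_mem_zero (σ := σ) (S := S) (1 : K)
      rwa [map_one] at this
  | succ k ih =>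
    constructor
    · have := sum_mem_succ hS ih.2 (fun _ : Fin S => (0 : MvPolynomial σ K)) fun _ => ih.1
      simpa using this
    · have := prod_mem_succ hS ih.1 (fun _ : Fin S => (1 : MvPolynomial σ K)) fun _ => ih.2
      simpa using this

theorem mem_succ (hS : 1 ≤ S) {k : ℕ} {f : MvPolynomial σ K} (hf : f ∈ Cls (R := K) 1 1 S k) :
    f ∈ Cls (R := K) 1 1 S (k + 1) := by
  have h1 := prod_one_at hS f
  have h2 := prod_mem_succ hS (zero_one_mem hS k).1
    (fun j : Fin S => if (j : ℕ) = 0 then f else 1) fun j => by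
      split_ifs
      · exact hf
      · exact (zero_one_mem hS k).2
  rwa [h1] at h2

theorem mem_mono (hS : 1 ≤ S) {k k' : ℕ} (hk : k ≤ k') {f : MvPolynomial σ K}
    (hf : f ∈ Cls (R := K) 1 1 S k) : f ∈ Cls (R := K) 1 1 S k' := by
  induction k', hk using Nat.le_induction with
  | base => exact hf
  | succ k' _ ih => exact mem_succ hS ih

/-- **a circuit of fan-in at most `S`**: every gate of level `D` computes a member of the class -/
theorem value_mem {G : Type} (hS : 1 ≤ S) (level : G → ℕ) (op : G → Op σ K G)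
    (val : G → MvPolynomial σ K) (hlevel : ∀ g, ∀ h ∈ (op g).args, level h < level g)
    (hfan : ∀ g, (op g).args.length ≤ S) (hval : ∀ g, val g = (op g).value val) :
    ∀ g, val g ∈ Cls (R := K) 1 1 S (level g) := by
  have key : ∀ D : ℕ, ∀ g, level g ≤ D → val g ∈ Cls (R := K) 1 1 S (level g) := by
    intro D
    induction D using Nat.strong_induction_on with
    | _ D ih =>
      intro g hg
      have hchild : ∀ h ∈ (op g).args, ∀ D', level g = D' + 1 → val h ∈ Cls (R := K) 1 1 S D' := by
        intro h hh D' hD'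
        have h1 := hlevel g h hh
        exact mem_mono hS (by omega) (ih (level h) (by omega) h le_rfl)
      have hfg := hfan g
      rw [hval g]
      cases hop : op g with
      | var i =>
        apply mem_mono hS (Nat.zero_le _)
        apply affine_mem
        show (X i : MvPolynomial σ K).totalDegree ≤ 1
        exact X_le i
      | const a =>
        exact mem_mono hS (Nat.zero_le _) (const_mem_zero a)
      | add l =>
        rw [hop] at hchild hfg
        show (l.map val).sum ∈ _
        rcases Nat.eq_zero_or_pos (level g) with h0 | h0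
        · have hl : l = [] := by
            rcases l with _ | ⟨a, l⟩
            · rfl
            · have := hlevel g a (by rw [hop]; simp [Op.args])
              omega
          rw [hl]
          exact mem_mono hS (Nat.zero_le _) (zero_one_mem hS 0).1
        · obtain ⟨D', hD'⟩ : ∃ D', level g = D' + 1 := ⟨level g - 1, by omega⟩
          rw [hD', ← sum_getD (l.map val) S (by simpa [Op.args] using hfg)]
          refine sum_mem_succ hS (zero_one_mem hS D').2 _ fun j => ?_
          refine getD_mem (fun x => x ∈ Cls (R := K) 1 1 S D') _ ?_ 0 (zero_one_mem hS D').1 _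
          intro a ha
          obtain ⟨h, hh, rfl⟩ := List.mem_map.1 ha
          exact hchild h hh D' hD'
      | mul l =>
        rw [hop] at hchild hfg
        show (l.map val).prod ∈ _
        rcases Nat.eq_zero_or_pos (level g) with h0 | h0
        · have hl : l = [] := by
            rcases l with _ | ⟨a, l⟩
            · rfl
            · have := hlevel g a (by rw [hop]; simp [Op.args])
              omega
          rw [hl]
          exact mem_mono hS (Nat.zero_le _) (zero_one_mem hS 0).2
        · obtain ⟨D', hD'⟩ : ∃ D', level g = D' + 1 := ⟨level g - 1, by omega⟩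
          rw [hD', ← prod_getD (l.map val) S (by simpa [Op.args] using hfg)]
          refine prod_mem_succ hS (zero_one_mem hS D').1 _ fun j => ?_
          refine getD_mem (fun x => x ∈ Cls (R := K) 1 1 S D') _ ?_ 1 (zero_one_mem hS D').2 _
          intro a ha
          obtain ⟨h, hh, rfl⟩ := List.mem_map.1 ha
          exact hchild h hh D' hD'
  intro g
  exact key (level g) g le_rfl

/-- a member of the class as a sum of one product -/
theorem exists_top (hS : 1 ≤ S) {k : ℕ} {p : MvPolynomial σ K}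
    (hp : p ∈ Cls (R := K) 1 1 S k) : ∃ f : Fin 1 → Fin S → MvPolynomial σ K,
      (∀ i j, f i j ∈ Cls (R := K) 1 1 S k) ∧ ∑ i, ∏ j, f i j = p := by
  refine ⟨fun _ j => if (j : ℕ) = 0 then p else 1, fun _ j => ?_, ?_⟩
  · show (if (j : ℕ) = 0 then p else 1) ∈ Cls (R := K) 1 1 S k
    split_ifs
    · exact hp
    · exact (zero_one_mem hS k).2
  · rw [Fin.sum_univ_one, prod_one_at hS]

end cls

section numbers

open Real

/-- from the inequality with logarithms to an exponential bound -/
theorem exp_of_log (C : ℝ) (hC : 0 < C) (E : ℕ) : ∃ (c : ℝ) (n0 : ℕ), 0 < c ∧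
    ∀ n S : ℕ, n0 ≤ n → 2 ≤ S →
      (n : ℝ) ≤ C * log (2 * n) * (log S + 2 * log (2 * n)) ^ E → exp ((n : ℝ) ^ c) ≤ S := by
  obtain ⟨c, hc⟩ : ∃ c : ℝ, c = 1 / (2 * (E + 1)) := ⟨_, rfl⟩
  have hc0 : 0 < c := by rw [hc]; positivity
  have hcE : c * E ≤ 1 / 2 := by
    rw [hc, div_mul_eq_mul_div, div_le_div_iff₀ (by positivity) (by norm_num)]
    linarith
  have h1 : ∀ᶠ x : ℝ in Filter.atTop, log x ≤ (1 / 8) * x ^ c := by
    have := (isLittleO_log_rpow_atTop hc0).bound (show (0 : ℝ) < 1 / 8 by norm_num)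
    filter_upwards [this, Filter.eventually_ge_atTop 1] with x hx hx1
    rw [norm_of_nonneg (log_nonneg hx1), norm_of_nonneg (rpow_nonneg (by linarith) _)] at hx
    exact hx
  have h2 : ∀ᶠ x : ℝ in Filter.atTop, log x ≤ (1 / (4 * C * 2 ^ E)) * x ^ (1 / 2 : ℝ) := by
    have := (isLittleO_log_rpow_atTop (show (0 : ℝ) < 1 / 2 by norm_num)).bound
      (show (0 : ℝ) < 1 / (4 * C * 2 ^ E) by positivity)
    filter_upwards [this, Filter.eventually_ge_atTop 1] with x hx hx1
    rw [norm_of_nonneg (log_nonneg hx1), norm_of_nonneg (rpow_nonneg (by linarith) _)] at hx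
    exact hx
  obtain ⟨x0, hx0⟩ := Filter.eventually_atTop.1 (h1.and h2)
  refine ⟨c, max 2 ⌈x0⌉₊, hc0, ?_⟩
  intro n S hn hS hle
  have hn2 : 2 ≤ n := (le_max_left _ _).trans hn
  have hnr : (2 : ℝ) ≤ n := by exact_mod_cast hn2
  have hnx : x0 ≤ n := (Nat.le_ceil x0).trans (by exact_mod_cast (le_max_right _ _).trans hn)
  obtain ⟨h3, h4⟩ := hx0 n hnx
  have hSr : (0 : ℝ) < S := by exact_mod_cast (show 0 < S by omega)
  by_contra hcon
  push Not at hcon
  have h5 : log S < (n : ℝ) ^ c := by
    rw [← log_exp ((n : ℝ) ^ c)]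
    exact log_lt_log hSr hcon
  have hln : log (2 * n) ≤ 2 * log n := by
    rw [log_mul (by norm_num) (by positivity)]
    have := log_le_log (by norm_num) hnr
    linarith
  have hl2n : 0 ≤ log (2 * n) := log_nonneg (by linarith)
  have h6 : log S + 2 * log (2 * n) ≤ 2 * (n : ℝ) ^ c := by
    have : 0 ≤ (n : ℝ) ^ c := rpow_nonneg (by linarith) _
    linarith
  have hlS : 0 ≤ log S := log_natCast_nonneg S
  have h7 : (log S + 2 * log (2 * n)) ^ E ≤ (2 * (n : ℝ) ^ c) ^ E :=
    pow_le_pow_left₀ (by linarith) h6 E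
  have h8 : (2 * (n : ℝ) ^ c) ^ E ≤ 2 ^ E * (n : ℝ) ^ (1 / 2 : ℝ) := by
    rw [mul_pow, ← rpow_natCast ((n : ℝ) ^ c), ← rpow_mul (by linarith)]
    refine mul_le_mul_of_nonneg_left ?_ (by positivity)
    exact rpow_le_rpow_of_exponent_le (by linarith) hcE
  have h9 : C * log (2 * n) * (log S + 2 * log (2 * n)) ^ E ≤
      C * (2 * (1 / (4 * C * 2 ^ E) * (n : ℝ) ^ (1 / 2 : ℝ))) *
        (2 ^ E * (n : ℝ) ^ (1 / 2 : ℝ)) := by
    apply mul_le_mul _ (h7.trans h8) (by positivity) (by positivity)
    apply mul_le_mul_of_nonneg_left _ hC.le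
    linarith
  have h10 : C * (2 * (1 / (4 * C * 2 ^ E) * (n : ℝ) ^ (1 / 2 : ℝ))) *
        (2 ^ E * (n : ℝ) ^ (1 / 2 : ℝ)) = n / 2 := by
    have h11 : (n : ℝ) ^ (1 / 2 : ℝ) * (n : ℝ) ^ (1 / 2 : ℝ) = n := by
      rw [← rpow_add (by linarith)]
      norm_num
    calc C * (2 * (1 / (4 * C * 2 ^ E) * (n : ℝ) ^ (1 / 2 : ℝ))) *
        (2 ^ E * (n : ℝ) ^ (1 / 2 : ℝ)) =
          (1 / 2) * ((n : ℝ) ^ (1 / 2 : ℝ) * (n : ℝ) ^ (1 / 2 : ℝ)) := by
            field_simp
            ring
      _ = n / 2 := by rw [h11]; ring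
  rw [h10] at h9
  linarith

end numbers

end Pool.XD
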