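import Pool.Agent.XD.Defs

/-!
# Exponential lower bounds for constant depth (XD): the gate for series

A gate `Q(G 0, ..., G (w-1))` of few series without constant coefficient.  Every input is the sum of
three parts: the part of the bidegrees `(b, e)` at which the leaf bound `HV ^ e` is below the wanted
bound `x' ^ b * y' ^ e`, the part at which the leaf bound `HU ^ b` is below it, and the small part.
The first two sets of bidegrees are closed under addition, so that any polynomial in these parts has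
the wanted bound; a product of small parts is small since each factor pays for the splitting.
-/

set_option autoImplicit false

namespace Pool.XD

open Finset Pool.Agent.Helper87.D3 Pool.Agent.Helper41.CD

section support

variable {B : Type} [CommRing B]

/-- the coefficients of degree at most `d` vanish outside `Z` -/
def SupD (d : ℕ) (Z : ℕ → ℕ → Prop) (F : Ser B) : Prop :=
  ∀ b e : ℕ, b + e ≤ d → cf b e F = 0 ∨ Z b e

theorem SupD.mul {d : ℕ} {Z : ℕ → ℕ → Prop}
    (hZ : ∀ b e b' e', Z b e → Z b' e' → Z (b + b') (e + e')) {F G : Ser B}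
    (hF : SupD d Z F) (hG : SupD d Z G) : SupD d Z (F * G) := by
  intro b e hbe
  by_cases h : Z b e
  · exact Or.inr h
  · left
    rw [cf_mul]
    refine sum_eq_zero fun i hi => sum_eq_zero fun j hj => ?_
    rw [HasAntidiagonal.mem_antidiagonal] at hi hj
    rcases hF i.1 j.1 (by omega) with h1 | h1
    · rw [h1, zero_mul]
    · rcases hG i.2 j.2 (by omega) with h2 | h2
      · rw [h2, mul_zero]
      · refine absurd ?_ h
        have h3 := hZ _ _ _ _ h1 h2
        rwa [hi, hj] at h3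

theorem SupD.one {d : ℕ} {Z : ℕ → ℕ → Prop} (h0 : Z 0 0) : SupD d Z (1 : Ser B) := by
  intro b e _
  rw [cf_one]
  split_ifs with h
  · right
    rw [h.1, h.2]
    exact h0
  · exact Or.inl rfl

theorem SupD.pow {d : ℕ} {Z : ℕ → ℕ → Prop} (h0 : Z 0 0)
    (hZ : ∀ b e b' e', Z b e → Z b' e' → Z (b + b') (e + e')) {F : Ser B}
    (hF : SupD d Z F) (n : ℕ) : SupD d Z (F ^ n) := by
  induction n with
  | zero => rw [pow_zero]; exact SupD.one h0
  | succ n ih => rw [pow_succ]; exact ih.mul hZ hF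

theorem SupD.prod {d : ℕ} {Z : ℕ → ℕ → Prop} (h0 : Z 0 0)
    (hZ : ∀ b e b' e', Z b e → Z b' e' → Z (b + b') (e + e')) {ι : Type} (s : Finset ι)
    (F : ι → Ser B) (hF : ∀ i ∈ s, SupD d Z (F i)) : SupD d Z (∏ i ∈ s, F i) := by
  classical
  induction s using Finset.induction_on with
  | empty => rw [prod_empty]; exact SupD.one h0
  | insert a s ha ih =>
    rw [prod_insert ha]
    exact (hF a (mem_insert_self _ _)).mul hZ (ih fun i hi => hF i (mem_insert_of_mem hi))

/-- the coefficients of degree less than `n` vanish -/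
def OrdD (n : ℕ) (F : Ser B) : Prop := ∀ b e : ℕ, b + e < n → cf b e F = 0

theorem OrdD.mul {n n' : ℕ} {F G : Ser B} (hF : OrdD n F) (hG : OrdD n' G) :
    OrdD (n + n') (F * G) := by
  intro b e hbe
  rw [cf_mul]
  refine sum_eq_zero fun i hi => sum_eq_zero fun j hj => ?_
  rw [HasAntidiagonal.mem_antidiagonal] at hi hj
  by_cases h : i.1 + j.1 < n
  · rw [hF _ _ h, zero_mul]
  · rw [hG i.2 j.2 (by omega), mul_zero]

theorem OrdD.zero (F : Ser B) : OrdD 0 F := fun _ _ h => absurd h (Nat.not_lt_zero _)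

theorem OrdD.pow {F : Ser B} (hF : OrdD 1 F) (n : ℕ) : OrdD n (F ^ n) := by
  induction n with
  | zero => exact OrdD.zero _
  | succ n ih => rw [pow_succ]; exact ih.mul hF

theorem OrdD.prod {ι : Type} [DecidableEq ι] (s : Finset ι) (F : ι → Ser B) {n : ℕ} {i : ι}
    (hi : i ∈ s) (hF : OrdD n (F i)) : OrdD n (∏ i ∈ s, F i) := by
  rw [← mul_prod_erase s F hi]
  exact hF.mul (OrdD.zero _)

open Classical in
/-- the part of a series which is supported on `Z` -/
noncomputable def part (Z : ℕ → ℕ → Prop) (F : Ser B) : Ser B :=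
  PowerSeries.mk fun b => PowerSeries.mk fun e => if Z b e then cf b e F else 0

open Classical in
theorem cf_part (Z : ℕ → ℕ → Prop) (F : Ser B) (b e : ℕ) :
    cf b e (part Z F) = if Z b e then cf b e F else 0 := by
  unfold part
  rw [cf, PowerSeries.coeff_mk, PowerSeries.coeff_mk]

end support

section bounds

variable {K B : Type} [Field K] [CommRing B] [Algebra K B] {ν : B → ℝ → Prop}

theorem InB.part {M : ℕ → ℕ → Submodule K B} (Z : ℕ → ℕ → Prop) {F : Ser B} (hF : InB M F) :
    InB M (part Z F) := by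
  intro b e
  rw [cf_part]
  split_ifs
  · exact hF b e
  · exact (M b e).zero_mem

/-- bound for all coefficients of degree at most `d` -/
def BwD (ν : B → ℝ → Prop) (d : ℕ) (C x y : ℝ) (F : Ser B) : Prop :=
  ∀ b e : ℕ, b + e ≤ d → ν (cf b e F) (C * (x ^ b * y ^ e))

theorem BwD.mono (h : Cost K ν) {d : ℕ} {C C' x y : ℝ} (hx : 0 < x) (hy : 0 < y) (hC : C ≤ C')
    {F : Ser B} (hF : BwD ν d C x y F) : BwD ν d C' x y F := by
  intro b e hbe
  refine h.mono (hF b e hbe) ?_
  have : 0 < x ^ b * y ^ e := by positivity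
  exact mul_le_mul_of_nonneg_right hC this.le

theorem BwD.mul (h : Cost K ν) {d : ℕ} {C C' x y : ℝ} (hx : 0 < x) (hy : 0 < y)
    (hC : 0 ≤ C) (hC' : 0 ≤ C') {F G : Ser B} (hF : BwD ν d C x y F) (hG : BwD ν d C' x y G) :
    BwD ν d (((d : ℝ) + 1) ^ 2 * (C * C')) x y (F * G) := by
  intro b e hbe
  rw [cf_mul, ← sum_product']
  refine h.mono (h.sum _ _ (fun _ => C * C' * (x ^ b * y ^ e)) ?_) ?_
  · intro p hp
    rw [mem_product, HasAntidiagonal.mem_antidiagonal, HasAntidiagonal.mem_antidiagonal] at hp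
    refine h.mono (h.mul (hF p.1.1 p.2.1 (by omega)) (hG p.1.2 p.2.2 (by omega))) (le_of_eq ?_)
    rw [← hp.1, ← hp.2, pow_add, pow_add]
    ring
  · rw [sum_const, card_product, Nat.card_antidiagonal, Nat.card_antidiagonal, nsmul_eq_mul]
    have h1 : (((b + 1) * (e + 1) : ℕ) : ℝ) ≤ ((d : ℝ) + 1) ^ 2 := by
      have h2 : (b + 1) * (e + 1) ≤ (d + 1) ^ 2 := by
        rw [pow_two]
        exact Nat.mul_le_mul (by omega) (by omega)
      exact_mod_cast h2
    have h3 : 0 ≤ C * C' * (x ^ b * y ^ e) := by positivity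
    calc (((b + 1) * (e + 1) : ℕ) : ℝ) * (C * C' * (x ^ b * y ^ e))
        ≤ ((d : ℝ) + 1) ^ 2 * (C * C' * (x ^ b * y ^ e)) := mul_le_mul_of_nonneg_right h1 h3
      _ = _ := by ring

theorem BwD.one (h : Cost K ν) {d : ℕ} {x y : ℝ} (hx : 0 < x) (hy : 0 < y) :
    BwD ν d 1 x y (1 : Ser B) := by
  intro b e _
  rw [cf_one]
  split_ifs with h0
  · rw [h0.1, h0.2]
    simpa using h.one
  · exact h.mono h.zero (by positivity)

/-- multiplication by a small series -/
theorem BwD.mul_small (h : Cost K ν) {d : ℕ} {x y : ℝ} (hx : 0 < x) (hy : 0 < y) {F G : Ser B}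
    (hF : BwD ν d 1 x y F) (hG : BwD ν d (((d : ℝ) + 1) ^ 2)⁻¹ x y G) :
    BwD ν d 1 x y (F * G) := by
  refine BwD.mono h hx hy (le_of_eq ?_) (BwD.mul h hx hy zero_le_one (by positivity) hF hG)
  have : ((d : ℝ) + 1) ^ 2 ≠ 0 := by positivity
  field_simp

theorem BwD.mul_small_pow (h : Cost K ν) {d : ℕ} {x y : ℝ} (hx : 0 < x) (hy : 0 < y)
    {F G : Ser B} (hF : BwD ν d 1 x y F) (hG : BwD ν d (((d : ℝ) + 1) ^ 2)⁻¹ x y G) (n : ℕ) :
    BwD ν d 1 x y (F * G ^ n) := by
  induction n with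
  | zero => rw [pow_zero, mul_one]; exact hF
  | succ n ih => rw [pow_succ, ← mul_assoc]; exact ih.mul_small h hx hy hG

theorem BwD.prod_small (h : Cost K ν) {d : ℕ} {x y : ℝ} (hx : 0 < x) (hy : 0 < y) {ι : Type}
    (s : Finset ι) (G : ι → Ser B) (n : ι → ℕ)
    (hG : ∀ i ∈ s, BwD ν d (((d : ℝ) + 1) ^ 2)⁻¹ x y (G i)) :
    BwD ν d 1 x y (∏ i ∈ s, G i ^ n i) := by
  classical
  induction s using Finset.induction_on with
  | empty => rw [prod_empty]; exact BwD.one h hx hy
  | insert a s ha ih =>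
    rw [prod_insert ha, mul_comm]
    exact (ih fun i hi => hG i (mem_insert_of_mem hi)).mul_small_pow h hx hy
      (hG a (mem_insert_self _ _)) (n a)

/-- a polynomial in series whose monomials are bounded -/
theorem poly_bound (h : Cost K ν) {d : ℕ} {C x y : ℝ} (hx : 0 < x) (hy : 0 < y)
    (hC : 0 ≤ C) {ι : Type} [Fintype ι] [DecidableEq ι] (P : ι → Ser B)
    (h0 : ∀ i, cf 0 0 (P i) = 0)
    (hP : ∀ m : ι → ℕ, BwD ν d C x y (∏ i, P i ^ m i)) (Q : MvPolynomial ι K) :
    BwD ν d (((d : ℝ) + 1) ^ Fintype.card ι * C) x y (MvPolynomial.aeval P Q) := by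
  intro b e hbe
  have h1 : cf b e (MvPolynomial.aeval P Q) =
      ∑ m ∈ Q.support, Q.coeff m • cf b e (∏ i, P i ^ m i) := by
    rw [MvPolynomial.aeval_def, MvPolynomial.eval₂_eq', cf_sum]
    refine sum_congr rfl fun m _ => ?_
    rw [Pool.Agent.Helper59.CD.algebraMap_ser, cf_cst_mul, Algebra.smul_def]
  have h2 : ∑ m ∈ Q.support, Q.coeff m • cf b e (∏ i, P i ^ m i) =
      ∑ m ∈ Q.support.filter (fun m => ∀ i, m i ≤ d), Q.coeff m • cf b e (∏ i, P i ^ m i) := by
    rw [sum_filter_of_ne]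
    intro m _ hne i
    by_contra hlt
    apply hne
    have h3 : OrdD (m i) (∏ i, P i ^ m i) := by
      refine OrdD.prod _ _ (mem_univ i) (OrdD.pow ?_ _)
      intro b e hbe
      obtain ⟨rfl, rfl⟩ : b = 0 ∧ e = 0 := by omega
      exact h0 i
    rw [h3 b e (by omega), smul_zero]
  rw [h1, h2]
  refine h.mono (h.sum _ _ (fun _ => C * (x ^ b * y ^ e)) fun m _ => h.smul _ (hP m b e hbe)) ?_
  rw [sum_const, nsmul_eq_mul]
  have h4 : (Q.support.filter (fun m => ∀ i, m i ≤ d)).card ≤ (d + 1) ^ Fintype.card ι := by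
    have h5 : Fintype.card (ι → Fin (d + 1)) = (d + 1) ^ Fintype.card ι := by
      rw [Fintype.card_fun, Fintype.card_fin]
    rw [← h5, ← Finset.card_univ]
    refine Finset.card_le_card_of_injOn
      (fun m i => if hm : m i < d + 1 then (⟨m i, hm⟩ : Fin (d + 1)) else 0)
      (fun m _ => mem_univ _) ?_
    intro m hm m' hm' hmm
    rw [mem_coe, mem_filter] at hm hm'
    ext i
    have h6 := congrFun hmm i
    simp only [dif_pos (Nat.lt_succ_of_le (hm.2 i)), dif_pos (Nat.lt_succ_of_le (hm'.2 i)),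
      Fin.mk.injEq] at h6
    exact h6
  have h7 : ((Q.support.filter (fun m => ∀ i, m i ≤ d)).card : ℝ) ≤
      ((d : ℝ) + 1) ^ Fintype.card ι := by exact_mod_cast h4
  have h8 : 0 ≤ C * (x ^ b * y ^ e) := by positivity
  calc ((Q.support.filter (fun m => ∀ i, m i ≤ d)).card : ℝ) * (C * (x ^ b * y ^ e))
      ≤ ((d : ℝ) + 1) ^ Fintype.card ι * (C * (x ^ b * y ^ e)) :=
        mul_le_mul_of_nonneg_right h7 h8
    _ = _ := by ring

end bounds

section gate

variable {K B : Type} [Field K] [CommRing B] [Algebra K B] {ν : B → ℝ → Prop}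

/-- the gate for series without constant coefficient -/
theorem series_gate (h : Cost K ν) {M : ℕ → ℕ → Submodule K B} (hM : Big M) {HU HV : ℝ}
    (hHU : 0 < HU) (hHV : 0 < HV) (hL : Leaf M ν HU HV) {d w : ℕ} (G : Fin w → Ser B)
    (hG : ∀ l, InB M (G l)) (hG0 : ∀ l, cf 0 0 (G l) = 0) {κ0 x y x' y' : ℝ}
    (hx' : 0 < x') (hy' : 0 < y') (hbd : ∀ l, BdD ν d κ0 x y (G l))
    (hnum : NumD d (((d : ℝ) + 1) ^ 2 * κ0) HU HV x y x' y') (Q : MvPolynomial (Fin w) K) :
    ∀ b e : ℕ, b + e ≤ d →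
      ν (cf b e (MvPolynomial.aeval G Q)) (((d : ℝ) + 1) ^ (3 * w + 4) * (x' ^ b * y' ^ e)) := by
  classical
  -- the two sets of bidegrees
  set ZA : ℕ → ℕ → Prop := fun b e => HV ^ e ≤ x' ^ b * y' ^ e with hZA
  set ZN : ℕ → ℕ → Prop := fun b e => HU ^ b ≤ x' ^ b * y' ^ e with hZN
  have hA0 : ZA 0 0 := by simp [hZA]
  have hN0 : ZN 0 0 := by simp [hZN]
  have hAadd : ∀ b e b' e', ZA b e → ZA b' e' → ZA (b + b') (e + e') := by
    intro b e b' e' h1 h2
    simp only [hZA] at h1 h2 ⊢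
    calc HV ^ (e + e') = HV ^ e * HV ^ e' := pow_add _ _ _
      _ ≤ (x' ^ b * y' ^ e) * (x' ^ b' * y' ^ e') := mul_le_mul h1 h2 (by positivity) (by positivity)
      _ = _ := by rw [pow_add, pow_add]; ring
  have hNadd : ∀ b e b' e', ZN b e → ZN b' e' → ZN (b + b') (e + e') := by
    intro b e b' e' h1 h2
    simp only [hZN] at h1 h2 ⊢
    calc HU ^ (b + b') = HU ^ b * HU ^ b' := pow_add _ _ _
      _ ≤ (x' ^ b * y' ^ e) * (x' ^ b' * y' ^ e') := mul_le_mul h1 h2 (by positivity) (by positivity)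
      _ = _ := by rw [pow_add, pow_add]; ring
  -- the three parts
  set P : Fin 3 × Fin w → Ser B := fun p =>
    if p.1 = 0 then part ZA (G p.2) else if p.1 = 1 then part (fun b e => ¬ZA b e ∧ ZN b e) (G p.2)
      else part (fun b e => ¬ZA b e ∧ ¬ZN b e) (G p.2) with hP
  have hP0 : ∀ l, P (0, l) = part ZA (G l) := fun l => by simp [hP]
  have hP1 : ∀ l, P (1, l) = part (fun b e => ¬ZA b e ∧ ZN b e) (G l) := fun l => by simp [hP]
  have hP2 : ∀ l, P (2, l) = part (fun b e => ¬ZA b e ∧ ¬ZN b e) (G l) := fun l => by simp [hP]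
  have hsum : ∀ l, G l = P (0, l) + P (1, l) + P (2, l) := by
    intro l
    rw [hP0, hP1, hP2]
    apply cf_ext
    intro b e
    rw [cf_add, cf_add, cf_part, cf_part, cf_part]
    by_cases h1 : ZA b e
    · simp [h1]
    · by_cases h2 : ZN b e
      · simp [h1, h2]
      · simp [h1, h2]
  have hPz : ∀ p, cf 0 0 (P p) = 0 := by
    intro p
    simp only [hP]
    split_ifs <;> rw [cf_part, hG0, ite_self]
  -- the bounds for the monomials
  have hmA : ∀ m : Fin w → ℕ, BwD ν d 1 x' y' (∏ l, P (0, l) ^ m l) := by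
    intro m b e hbe
    have h1 : SupD d ZA (∏ l, P (0, l) ^ m l) := by
      refine SupD.prod hA0 hAadd _ _ fun l _ => SupD.pow hA0 hAadd ?_ _
      intro b e _
      rw [hP0, cf_part]
      by_cases h1 : ZA b e
      · exact Or.inr h1
      · exact Or.inl (if_neg h1)
    have h2 : InB M (∏ l, P (0, l) ^ m l) := by
      refine InB.prod hM _ _ fun l _ => InB.pow hM ?_ _
      rw [hP0]
      exact InB.part _ (hG l)
    rw [one_mul]
    rcases h1 b e hbe with h3 | h3
    · rw [h3]
      exact h.mono h.zero (by positivity)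
    · exact h.mono (hL.right (h2 b e)) h3
  have hmN : ∀ m : Fin w → ℕ, BwD ν d 1 x' y' (∏ l, P (1, l) ^ m l) := by
    intro m b e hbe
    have h1 : SupD d ZN (∏ l, P (1, l) ^ m l) := by
      refine SupD.prod hN0 hNadd _ _ fun l _ => SupD.pow hN0 hNadd ?_ _
      intro b e _
      rw [hP1, cf_part]
      by_cases h1 : ZN b e
      · exact Or.inr h1
      · exact Or.inl (if_neg fun h4 => h1 h4.2)
    have h2 : InB M (∏ l, P (1, l) ^ m l) := by
      refine InB.prod hM _ _ fun l _ => InB.pow hM ?_ _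
      rw [hP1]
      exact InB.part _ (hG l)
    rw [one_mul]
    rcases h1 b e hbe with h3 | h3
    · rw [h3]
      exact h.mono h.zero (by positivity)
    · exact h.mono (hL.left (h2 b e)) h3
  have hmB : ∀ m : Fin w → ℕ, BwD ν d 1 x' y' (∏ l, P (2, l) ^ m l) := by
    intro m
    refine BwD.prod_small h hx' hy' _ _ _ fun l _ => ?_
    intro b e hbe
    rw [hP2, cf_part]
    have hd : 0 < ((d : ℝ) + 1) ^ 2 := by positivity
    split_ifs with h1
    · by_cases h2 : b = 0 ∧ e = 0
      · obtain ⟨rfl, rfl⟩ := h2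
        rw [hG0]
        exact h.mono h.zero (by positivity)
      · have h3 : (b, e) ≠ (0, 0) := by
          intro h4
          rw [Prod.mk.injEq] at h4
          exact h2 h4
        refine h.mono (hbd l b e h3 hbe) ?_
        rcases hnum b e h3 hbe with h4 | h4 | h4
        · exact absurd h4 h1.2
        · exact absurd h4 h1.1
        · rw [inv_mul_eq_div, le_div_iff₀ hd]
          calc κ0 * (x ^ b * y ^ e) * ((d : ℝ) + 1) ^ 2
              = ((d : ℝ) + 1) ^ 2 * κ0 * (x ^ b * y ^ e) := by ring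
            _ ≤ _ := h4
    · exact h.mono h.zero (by positivity)
  have hm : ∀ m : Fin 3 × Fin w → ℕ,
      BwD ν d (((d : ℝ) + 1) ^ 4) x' y' (∏ p, P p ^ m p) := by
    intro m
    rw [Fintype.prod_prod_type, Fin.prod_univ_three]
    have h1 := BwD.mul h hx' hy' (by positivity) zero_le_one
      (BwD.mul h hx' hy' zero_le_one zero_le_one (hmA fun l => m (0, l)) (hmN fun l => m (1, l)))
      (hmB fun l => m (2, l))
    refine BwD.mono h hx' hy' (le_of_eq ?_) h1
    ring
  -- the polynomial in the parts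
  have hQ : MvPolynomial.aeval G Q = MvPolynomial.aeval P
      (MvPolynomial.aeval (fun l => (MvPolynomial.X ((0 : Fin 3), l) : MvPolynomial _ K) +
        MvPolynomial.X (1, l) + MvPolynomial.X (2, l)) Q) := by
    rw [← AlgHom.comp_apply, MvPolynomial.comp_aeval]
    congr 2
    funext l
    rw [map_add, map_add, MvPolynomial.aeval_X, MvPolynomial.aeval_X, MvPolynomial.aeval_X]
    exact hsum l
  intro b e hbe
  rw [hQ]
  have h1 := poly_bound h hx' hy' (by positivity) P hPz hm
    (MvPolynomial.aeval (fun l => (MvPolynomial.X ((0 : Fin 3), l) : MvPolynomial _ K) +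
        MvPolynomial.X (1, l) + MvPolynomial.X (2, l)) Q) b e hbe
  rw [Fintype.card_prod, Fintype.card_fin, Fintype.card_fin, ← pow_add] at h1
  exact h1

/-- the gate for series with scalar constant coefficients -/
theorem series_gate' (h : Cost K ν) {M : ℕ → ℕ → Submodule K B} (hM : Big M) {HU HV : ℝ}
    (hHU : 0 < HU) (hHV : 0 < HV) (hL : Leaf M ν HU HV) {d w : ℕ} (G : Fin w → Ser B)
    (hG : ∀ l, InB M (G l)) (c : Fin w → K) (hG0 : ∀ l, cf 0 0 (G l) = algebraMap K B (c l))
    {κ0 x y x' y' : ℝ} (hx' : 0 < x') (hy' : 0 < y') (hbd : ∀ l, BdD ν d κ0 x y (G l))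
    (hnum : NumD d (((d : ℝ) + 1) ^ 2 * κ0) HU HV x y x' y') (Q : MvPolynomial (Fin w) K) :
    ∀ b e : ℕ, b + e ≤ d →
      ν (cf b e (MvPolynomial.aeval G Q)) (((d : ℝ) + 1) ^ (3 * w + 4) * (x' ^ b * y' ^ e)) := by
  have hQ : MvPolynomial.aeval G Q =
      MvPolynomial.aeval (fun l => G l - cst (algebraMap K B (c l)))
        (MvPolynomial.aeval (fun l => (MvPolynomial.X l : MvPolynomial (Fin w) K) +
          MvPolynomial.C (c l)) Q) := by
    rw [← AlgHom.comp_apply, MvPolynomial.comp_aeval]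
    congr 2
    funext l
    rw [map_add, MvPolynomial.aeval_X, MvPolynomial.aeval_C,
      Pool.Agent.Helper59.CD.algebraMap_ser, sub_add_cancel]
  intro b e hbe
  rw [hQ]
  refine series_gate h hM hHU hHV hL _ (fun l => ?_) (fun l => ?_) hx' hy' (fun l => ?_)
    hnum _ b e hbe
  · intro b e
    rw [cf_sub]
    exact (M b e).sub_mem (hG l b e) (InB.cst hM _ b e)
  · rw [cf_sub, hG0, cf_cst, if_pos ⟨rfl, rfl⟩, sub_self]
  · intro b e hne hbe
    have hne' : ¬(b = 0 ∧ e = 0) := by
      intro h4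
      exact hne (by rw [Prod.mk.injEq]; exact h4)
    rw [cf_sub, cf_cst, if_neg hne', sub_zero]
    exact hbd l b e hne hbe

end gate

end Pool.XD
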