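import Pool.Agent.XD.NumU
import Pool.Agent.XD.Assembly

/-!
# XD: the theorem with a constant which does not depend on the number of levels
-/

set_option autoImplicit false

namespace Pool.XD

open Finset Pool.Agent.Helper87.D3 Pool.Agent.Helper41.CD

/-- **EXPONENTIAL LOWER BOUNDS FOR CONSTANT DEPTH**, one constant for all numbers of levels -/
theorem xd_unif : ∃ C : ℝ, 1 ≤ C ∧ ∀ (k : ℕ)
      (K Γ : Type) [Field K] [LinearOrderedCommGroupWithZero Γ] (v : Valuation K Γ)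
      (n T S w w0 : ℕ) (f : Fin T → Fin S → MvPolynomial (Fin n × Fin n) K),
      (∀ a : ℕ, a ≠ 0 → v a = 1) → 2 ≤ S → 1 ≤ w → 1 ≤ w0 →
      (∀ i j, f i j ∈ Cls w0 w S k) →
      (∀ m, v (MvPolynomial.coeff m ((∑ i, ∏ j, f i j) - Pool.CDep.permP n K)) < 1) →
      (n : ℝ) ≤ C * Real.log (2 * n * T) *
        (C * (Real.log S + (w + w0) * Real.log (2 * n))) ^ (2 * (Nat.fib (2 * k + 4) - 2)) := by
  have hB : (1 : ℝ) ≤ 6 * Real.exp 2 := by
    have := Real.one_le_exp (show (0 : ℝ) ≤ 2 by norm_num)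
    linarith
  obtain ⟨C, hC, hfin⟩ := xd_final'' (6 * Real.exp 2) hB
  refine ⟨C, hC, ?_⟩
  intro k K Γ _ _ v n T S w w0 f hv hS hw hw0 hf hcl
  obtain ⟨y, m, X, Y, hy, hy1, hm, hX0, hY0, hX, hY, hnum, h⟩ :=
    hfin k n T S w w0 (Pool.CDep.T_pos v f hcl) hS hw hw0
  refine h fun g hg hgn => ?_
  have hgm : g * m ≤ n := by
    have h1 : g * m ≤ g * (m * (8 * m)) := by
      apply Nat.mul_le_mul_left
      nlinarith
    omega
  exact core v hv f (by omega) hw hw0 hf hcl hg hm hy hy1 hgn hX hY hX0 hY0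
    (fun i hi => by
      have h2 := hnum (g * m) hgm i hi
      exact h2)

end Pool.XD
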